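import Mathlib

set_option autoImplicit false

namespace Pool.Agent.Lib.MP_9ec118_lc

/-- One step of the word-RAM program `P` with word size `w` and read-only input array `I`.
A configuration is (program counter, memory, output list). -/
def step (P : List (ℕ × ℕ × ℕ × ℕ)) (w : ℕ) (I : ℕ → ℕ) (s : ℕ × (ℕ → ℕ) × List ℕ) :
    ℕ × (ℕ → ℕ) × List ℕ :=
  match P[s.1]? with
  | none => s
  | some (o, a, b, c) =>
    if o = 0 then (if s.2.1 a = 0 then b else c, s.2)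
    else if o = 1 then (s.1 + 1, s.2.1, s.2.2 ++ [s.2.1 a])
    else (s.1 + 1, Function.update s.2.1 (if o = 2 then s.2.1 a else a)
      ([s.2.1 b, s.2.1 (s.2.1 b), I (s.2.1 b), b, s.2.1 b + s.2.1 c, s.2.1 b - s.2.1 c,
        s.2.1 b * s.2.1 c, s.2.1 b / s.2.1 c, s.2.1 b &&& s.2.1 c, s.2.1 b ||| s.2.1 c,
        s.2.1 b ^^^ s.2.1 c, s.2.1 b <<< s.2.1 c, s.2.1 b >>> s.2.1 c].getD (o - 2) 0 % 2 ^ w),
      s.2.2)

/-- Started with zero memory, `P` halts within `T` steps with output list `out`. -/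
def Outputs (P : List (ℕ × ℕ × ℕ × ℕ)) (w : ℕ) (I : ℕ → ℕ) (T : ℝ) (out : List ℕ) : Prop :=
  ∃ t : ℕ, (t : ℝ) ≤ T ∧ P.length ≤ ((step P w I)^[t] (0, fun _ => 0, [])).1 ∧
    ((step P w I)^[t] (0, fun _ => 0, [])).2.2 = out

/-- The Strong Exponential Time Hypothesis for the word-RAM. -/
def SETH : Prop :=
  ∀ δ : ℝ, 0 < δ → ∃ K : ℕ, ¬ ∃ (P : List (ℕ × ℕ × ℕ × ℕ)) (C : ℕ),
    ∀ (n : ℕ) (φ : List (List ℕ)), (∀ c ∈ φ, c.length = K ∧ ∀ l ∈ c, l < 2 * n) →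
      ∃ out, Outputs P ((n + φ.length + 2) ^ C) (fun j => (n :: φ.length :: φ.flatten).getD j 0)
          ((2 : ℝ) ^ ((1 - δ) * n) * ((n : ℝ) + φ.length + 2) ^ C) out ∧
        (out ≠ [] ↔ ∃ x : ℕ → Bool, ∀ c ∈ φ, ∃ l ∈ c, x (l / 2) = decide (l % 2 = 1))

end Pool.Agent.Lib.MP_9ec118_lc
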