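import Mathlib
import Pool.Agent.Lib.MP_9ec118_lc.Defs

set_option autoImplicit false

namespace Pool.Agent.Lib.MP_9ec118_lc

/-- The numbers `u` and `x` are adjacent vertices of `G`. -/
def adj {n : ℕ} (G : SimpleGraph (Fin n)) (u x : ℕ) : Prop :=
  ∃ a b : Fin n, G.Adj a b ∧ a.val = u ∧ b.val = x

open Classical in
/-- The input array of a graph: cell `0` holds `n`, cell `3 (u n + v) + 1` the adjacency matrix
entry of `u, v`, cell `3 (u n + v) + 2` the `v`-th smallest neighbour of `u` (counted from `0`,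
and `0` if there is none), cell `3 (u + 1)` the degree of `u`. -/
noncomputable def input {n : ℕ} (G : SimpleGraph (Fin n)) (j : ℕ) : ℕ :=
  if j = 0 then n
  else if j % 3 = 1 then (if adj G (j / 3 / n) (j / 3 % n) then 1 else 0)
  else if j % 3 = 2 then Nat.nth (adj G (j / 3 / n)) (j / 3 % n)
  else Nat.count (adj G (j / 3 - 1)) n

/-- The array with `I` in the even cells and the coin tosses `ω` in the odd cells. -/
def tape (I : ℕ → ℕ) (ω : ℕ → Bool) (j : ℕ) : ℕ :=
  if j % 2 = 0 then I (j / 2) else (ω (j / 2)).toNat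

/-- The Strong Exponential Time Hypothesis for word-RAM programs that read coin tosses with
distribution `μ` and succeed with probability at least `2 / 3`. -/
def SETHr (μ : MeasureTheory.Measure (ℕ → Bool)) : Prop :=
  ∀ δ : ℝ, 0 < δ → ∃ K : ℕ, ¬ ∃ (P : List (ℕ × ℕ × ℕ × ℕ)) (C : ℕ),
    ∀ (n : ℕ) (φ : List (List ℕ)), (∀ c ∈ φ, c.length = K ∧ ∀ l ∈ c, l < 2 * n) →
      2 / 3 ≤ μ {ω | ∃ out, Outputs P ((n + φ.length + 2) ^ C)
          (tape (fun j => (n :: φ.length :: φ.flatten).getD j 0) ω)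
          ((2 : ℝ) ^ ((1 - δ) * n) * ((n : ℝ) + φ.length + 2) ^ C) out ∧
        (out ≠ [] ↔ ∃ x : ℕ → Bool, ∀ c ∈ φ, ∃ l ∈ c, x (l / 2) = decide (l % 2 = 1))}

end Pool.Agent.Lib.MP_9ec118_lc
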