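import Mathlib
import Pool.Agent.Lib.MP_9ec118_lc.Defs2

/-!
A graph with fixed degrees in which every cell of the input array depends on one entry of a
given table.
-/

set_option autoImplicit false

namespace Pool.Agent.Lib.MP_9ec118_lc

open Finset

theorem enum_nth {p : ℕ → Prop} [DecidablePred p] {d : ℕ} {f : ℕ → ℕ}
    (hf : ∀ i, i + 1 < d → f i < f (i + 1)) (hp : ∀ x, p x ↔ ∃ i < d, f i = x) :
    (∀ i, Nat.nth p i = if i < d then f i else 0) ∧ ∀ n, (∀ x, p x → x < n) → Nat.count p n = d := by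
  have hm : ∀ i j, i < j → j < d → f i < f j := by
    intro i j hij
    induction j, hij using Nat.le_induction with
    | base => exact hf i
    | succ j _ ih => exact fun h => (ih (by omega)).trans (hf j h)
  have hinj : ∀ e ≤ d, Set.InjOn f (range e : Set ℕ) := fun e he i hi j hj h => by
    have hi' := mem_range.1 (mem_coe.1 hi)
    have hj' := mem_range.1 (mem_coe.1 hj)
    rcases lt_trichotomy i j with h1 | h1 | h1
    · exact absurd h (hm i j h1 (by omega)).ne
    · exact h1
    · exact absurd h (hm j i h1 (by omega)).ne'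
  have hc : ∀ n e, e ≤ d → (∀ i < d, f i < n ↔ i < e) → Nat.count p n = e := fun n e he h => by
    rw [Nat.count_eq_card_filter_range]
    have : (range n).filter p = (range e).image f := by
      ext x
      simp only [mem_filter, mem_range, mem_image, hp]
      constructor
      · rintro ⟨h1, i, hi, rfl⟩
        exact ⟨i, (h i hi).1 h1, rfl⟩
      · rintro ⟨i, hi, rfl⟩
        exact ⟨(h i (by omega)).2 hi, i, by omega, rfl⟩
    rw [this, card_image_of_injOn (hinj e he), card_range]
  refine ⟨fun i => ?_, fun n hn => hc n d le_rfl fun i hi =>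
    ⟨fun _ => hi, fun _ => hn _ ((hp _).2 ⟨i, hi, rfl⟩)⟩⟩
  split_ifs with hi
  · have := hc (f i) i hi.le fun j hj => ⟨fun h => by
      by_contra h'
      rcases (not_lt.1 h').eq_or_lt with rfl | h''
      · exact lt_irrefl _ h
      · exact lt_asymm h (hm i j h'' hj), fun h => hm j i h hi⟩
    conv_lhs => rw [← this]
    exact Nat.nth_count ((hp _).2 ⟨i, hi, rfl⟩)
  · have hs : Set.ofPred p ⊆ ((range d).image f : Finset ℕ) := fun x hx => by
      obtain ⟨i, hi, e⟩ := (hp x).1 hx
      exact mem_coe.2 (mem_image.2 ⟨i, mem_range.2 hi, e⟩)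
    have hfin : (Set.ofPred p).Finite := ((range d).image f).finite_toSet.subset hs
    refine Nat.nth_of_card_le hfin ((card_le_card fun x hx => mem_coe.1
      (hs (hfin.mem_toFinset.1 hx))).trans (card_image_le.trans ?_))
    rw [card_range]
    omega

def regz (S R x y z : ℕ) : Prop :=
  x < S * (R + 1) ∧ (y < S * (R + 1) ∨
    (x % (R + 1) = R ∧ (y - S * (R + 1)) % 3 ≠ z) ∨
    (x % (R + 1) = (y - S * (R + 1)) / 3 % R ∧ (y - S * (R + 1)) % 3 = z))

instance (S R x y z : ℕ) : Decidable (regz S R x y z) := by unfold regz; infer_instance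

def regG (N S R : ℕ) (m : ℕ → ℕ → ℕ) : SimpleGraph (Fin N) :=
  SimpleGraph.fromRel fun x y => regz S R x y (m (x / (R + 1)) ((y - S * (R + 1)) / 3 / R))

def deg (S M R x : ℕ) : ℕ :=
  if x < S * (R + 1) then S * (R + 1) - 1 + (if x % (R + 1) = R then 2 * (M * R) else M)
  else if x < S * (R + 1) + 3 * (M * R) then S else 0

def lv (S R x i : ℕ) : ℕ := if x < S * (R + 1) then x / (R + 1) else i

def lu (S R x i : ℕ) : ℕ :=
  if x < S * (R + 1) then
    (if x % (R + 1) = R then (i - (S * (R + 1) - 1)) / 2 / R else i - (S * (R + 1) - 1))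
  else (x - S * (R + 1)) / 3 / R

def nb (S R x i z : ℕ) : ℕ :=
  if x < S * (R + 1) then
    (if i < S * (R + 1) - 1 then (if i < x then i else i + 1)
    else if x % (R + 1) = R then S * (R + 1) + 3 * ((i - (S * (R + 1) - 1)) / 2) +
      (if (i - (S * (R + 1) - 1)) % 2 < z then (i - (S * (R + 1) - 1)) % 2
        else (i - (S * (R + 1) - 1)) % 2 + 1)
    else S * (R + 1) + 3 * ((i - (S * (R + 1) - 1)) * R + x % (R + 1)) + z)
  else i * (R + 1) + (if (x - S * (R + 1)) % 3 = z then (x - S * (R + 1)) / 3 % R else R)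

def cell (N S M R j z : ℕ) : ℕ :=
  if j = 0 then N
  else if j % 3 = 1 then
    (if j / 3 / N < N ∧ j / 3 / N ≠ j / 3 % N ∧
      regz S R (min (j / 3 / N) (j / 3 % N)) (max (j / 3 / N) (j / 3 % N)) z then 1 else 0)
  else if j % 3 = 2 then
    (if j / 3 % N < deg S M R (j / 3 / N) then nb S R (j / 3 / N) (j / 3 % N) z else 0)
  else deg S M R (j / 3 - 1)

def pv (N S R j : ℕ) : ℕ :=
  if j % 3 = 1 then min (j / 3 / N) (j / 3 % N) / (R + 1) else lv S R (j / 3 / N) (j / 3 % N)

def pu (N S R j : ℕ) : ℕ :=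
  if j % 3 = 1 then (max (j / 3 / N) (j / 3 % N) - S * (R + 1)) / 3 / R
  else lu S R (j / 3 / N) (j / 3 % N)

theorem adj_regG {N S R : ℕ} {m : ℕ → ℕ → ℕ} (x y : ℕ) : adj (regG N S R m) x y ↔
    x < N ∧ y < N ∧ x ≠ y ∧ regz S R (min x y) (max x y)
      (m (min x y / (R + 1)) ((max x y - S * (R + 1)) / 3 / R)) := by
  have key : ∀ x y : ℕ, x ≤ y → ∀ z z', regz S R y x z → regz S R x y z' := fun x y h z z' h1 =>
    ⟨h.trans_lt h1.1, Or.inl h1.1⟩
  unfold adj regG
  simp only [SimpleGraph.fromRel_adj]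
  constructor
  · rintro ⟨a, b, ⟨h1, h2⟩, rfl, rfl⟩
    refine ⟨a.2, b.2, fun e => h1 (Fin.ext e), ?_⟩
    rcases le_total a.val b.val with h | h
    · rw [min_eq_left h, max_eq_right h]
      exact h2.elim id (key _ _ h _ _)
    · rw [min_eq_right h, max_eq_left h]
      exact h2.elim (key _ _ h _ _) id
  · rintro ⟨h1, h2, h3, h4⟩
    refine ⟨⟨x, h1⟩, ⟨y, h2⟩, ⟨fun e => h3 (congrArg Fin.val e), ?_⟩, rfl, rfl⟩
    rcases le_total x y with h | h
    · rw [min_eq_left h, max_eq_right h] at h4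
      exact Or.inl h4
    · rw [min_eq_right h, max_eq_left h] at h4
      exact Or.inr h4

theorem div_mod_mk {R u r : ℕ} (h : r < R) : (u * R + r) / R = u ∧ (u * R + r) % R = r :=
  ⟨by rw [add_comm, Nat.add_mul_div_right _ _ (by omega), Nat.div_eq_of_lt h, zero_add],
    by rw [add_comm, Nat.add_mul_mod_self_right, Nat.mod_eq_of_lt h]⟩

theorem row_regG {N S M R : ℕ} {m : ℕ → ℕ → ℕ} (hN : N = S * (R + 1) + 3 * (M * R))
    (hR : 0 < R) (hm : ∀ v u, m v u ≤ 2) (x : ℕ) :
    (∀ i, i + 1 < deg S M R x → nb S R x i (m (lv S R x i) (lu S R x i)) <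
      nb S R x (i + 1) (m (lv S R x (i + 1)) (lu S R x (i + 1)))) ∧
    ∀ y, adj (regG N S R m) x y ↔
      ∃ i < deg S M R x, nb S R x i (m (lv S R x i) (lu S R x i)) = y := by
  have hs : x % (R + 1) < R + 1 := Nat.mod_lt _ (by omega)
  simp only [adj_regG]
  unfold deg nb lv lu regz
  by_cases hx : x < S * (R + 1)
  · simp only [if_pos hx]
    generalize S * (R + 1) = A at *
    by_cases hr : x % (R + 1) = R
    · simp only [if_pos hr]
      refine ⟨fun i hi => ?_, fun y => ⟨?_, ?_⟩⟩
      · by_cases h2 : A - 1 ≤ i ∧ (i - (A - 1)) % 2 = 0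
        · rw [show (i + 1 - (A - 1)) / 2 = (i - (A - 1)) / 2 by omega]
          have := hm (x / (R + 1)) ((i - (A - 1)) / 2 / R)
          split_ifs <;> omega
        · split_ifs <;> omega
      · rintro ⟨-, h2, h3, h4⟩
        by_cases hy : y < A
        · refine ⟨if y < x then y else y - 1, ?_, ?_⟩ <;> split_ifs <;> omega
        · rw [min_eq_left (by omega), max_eq_right (by omega)] at h4
          have h5 : (y - A) / 3 % R < R := Nat.mod_lt _ hR
          have h6 := hm (x / (R + 1)) ((y - A) / 3 / R)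
          refine ⟨A - 1 + 2 * ((y - A) / 3) +
            (if (y - A) % 3 < m (x / (R + 1)) ((y - A) / 3 / R) then (y - A) % 3
              else (y - A) % 3 - 1), by split_ifs <;> omega, ?_⟩
          rw [show (A - 1 + 2 * ((y - A) / 3) +
            (if (y - A) % 3 < m (x / (R + 1)) ((y - A) / 3 / R) then (y - A) % 3
              else (y - A) % 3 - 1) - (A - 1)) / 2 = (y - A) / 3 by split_ifs <;> omega]
          split_ifs <;> omega
      · rintro ⟨i, hi, h⟩
        by_cases h2 : i < A - 1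
        · rw [if_pos h2] at h
          refine ⟨by omega, by split_ifs at h <;> omega, by split_ifs at h <;> omega,
            by omega, Or.inl (by split_ifs at h <;> omega)⟩
        · rw [if_neg h2] at h
          have h3 : (y - A) / 3 = (i - (A - 1)) / 2 := by split_ifs at h <;> omega
          rw [min_eq_left (by omega), max_eq_right (by omega), h3]
          exact ⟨by omega, by split_ifs at h <;> omega, by omega, hx,
            Or.inr (Or.inl ⟨hr, by split_ifs at h <;> omega⟩)⟩
    · simp only [if_neg hr]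
      refine ⟨fun i hi => ?_, fun y => ⟨?_, ?_⟩⟩
      · by_cases h2 : A - 1 ≤ i
        · rw [show i + 1 - (A - 1) = i - (A - 1) + 1 by omega, add_mul]
          have := hm (x / (R + 1)) (i - (A - 1))
          split_ifs <;> omega
        · split_ifs <;> omega
      · rintro ⟨-, h2, h3, h4⟩
        by_cases hy : y < A
        · refine ⟨if y < x then y else y - 1, ?_, ?_⟩ <;> split_ifs <;> omega
        · rw [min_eq_left (by omega), max_eq_right (by omega)] at h4
          have h5 : (y - A) / 3 / R < M := Nat.div_lt_of_lt_mul (by rw [mul_comm]; omega)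
          have h6 := Nat.div_add_mod' ((y - A) / 3) R
          refine ⟨A - 1 + (y - A) / 3 / R, Nat.add_lt_add_left h5 _, ?_⟩
          rw [if_neg (Nat.le_add_right _ _).not_gt, Nat.add_sub_cancel_left]
          omega
      · rintro ⟨i, hi, h⟩
        by_cases h2 : i < A - 1
        · rw [if_pos h2] at h
          refine ⟨by omega, by split_ifs at h <;> omega, by split_ifs at h <;> omega,
            by omega, Or.inl (by split_ifs at h <;> omega)⟩
        · rw [if_neg h2] at h
          have h3 := hm (x / (R + 1)) (i - (A - 1))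
          have h4 : (y - A) / 3 = (i - (A - 1)) * R + x % (R + 1) := by omega
          have h5 := div_mod_mk (u := i - (A - 1)) (show x % (R + 1) < R by omega)
          have h6 : (i - (A - 1) + 1) * R ≤ M * R := Nat.mul_le_mul_right _ (by omega)
          rw [add_mul] at h6
          rw [min_eq_left (by omega), max_eq_right (by omega), h4, h5.1, h5.2]
          exact ⟨by omega, by omega, by omega, hx, Or.inr (Or.inr ⟨rfl, by omega⟩)⟩
  · simp only [if_neg hx]
    have h5 : (x - S * (R + 1)) / 3 % R < R := Nat.mod_lt _ hR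
    refine ⟨fun i hi => ?_, fun y => ⟨?_, ?_⟩⟩
    · rw [add_mul i 1]
      split_ifs <;> omega
    · rintro ⟨h1, h2, h3, h4⟩
      have hy : y < S * (R + 1) := by have := h4.1; omega
      rw [min_eq_right (by omega), max_eq_left (by omega)] at h4
      have h6 := Nat.div_add_mod' y (R + 1)
      refine ⟨y / (R + 1), ?_, by split_ifs <;> omega⟩
      rw [if_pos (by omega)]
      exact Nat.div_lt_of_lt_mul (by rw [mul_comm]; exact hy)
    · rintro ⟨i, hi, h⟩
      have h1 : x < N ∧ i < S := by split_ifs at hi <;> omega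
      have h6 : (i + 1) * (R + 1) ≤ S * (R + 1) := Nat.mul_le_mul_right _ h1.2
      rw [add_mul i 1] at h6
      have h7 := div_mod_mk (R := R + 1) (u := i) (r := if (x - S * (R + 1)) % 3 =
        m i ((x - S * (R + 1)) / 3 / R) then (x - S * (R + 1)) / 3 % R else R)
        (by split_ifs <;> omega)
      rw [h] at h7
      have hy : y < S * (R + 1) := by split_ifs at h <;> omega
      rw [min_eq_right (by omega), max_eq_left (by omega), h7.1, h7.2]
      refine ⟨h1.1, by omega, by omega, hy, Or.inr ?_⟩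
      split_ifs with h8
      exacts [Or.inr ⟨rfl, h8⟩, Or.inl ⟨rfl, h8⟩]

theorem input_regG {N S M R : ℕ} {m : ℕ → ℕ → ℕ} (hN : N = S * (R + 1) + 3 * (M * R))
    (h0 : 0 < N) (hR : 0 < R) (hm : ∀ v u, m v u ≤ 2) (j : ℕ) :
    input (regG N S R m) j = cell N S M R j (m (pv N S R j) (pu N S R j)) := by
  classical
  unfold input cell pv pu
  split_ifs with h1 h2 h3 h4 h5 h6 h7
  · rfl
  · rfl
  · exact absurd (((adj_regG _ _).1 h3).imp_right And.right) h4
  · exact absurd ((adj_regG _ _).2 ⟨h5.1, Nat.mod_lt _ h0, h5.2⟩) h3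
  · rfl
  · rw [(enum_nth (row_regG hN hR hm _).1 (row_regG hN hR hm _).2).1, if_pos h7]
  · rw [(enum_nth (row_regG hN hR hm _).1 (row_regG hN hR hm _).2).1, if_neg h7]
  · exact (enum_nth (row_regG hN hR hm _).1 (row_regG hN hR hm _).2).2 _
      fun y hy => ((adj_regG _ _).1 hy).2.1

theorem dom_regG {N S M R k : ℕ} {m : ℕ → ℕ → ℕ} (hN : N = S * (R + 1) + 3 * (M * R))
    (F : Finset ℕ) (hF : ∀ v ∈ F, v < S) (hk : F.card ≤ k) (hkN : k ≤ N)
    (h : ∀ u e, ∃ v ∈ F, m v u ≠ e) :
    ∃ D : Finset (Fin N), D.card = k ∧ ∀ v, ∃ u ∈ D, u = v ∨ (regG N S R m).Adj u v := by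
  have hlt : ∀ v ∈ F, v * (R + 1) + R < S * (R + 1) := fun v hv => by
    have : (v + 1) * (R + 1) ≤ S * (R + 1) := Nat.mul_le_mul_right _ (hF v hv)
    rw [add_mul v 1] at this
    omega
  let f : {v // v ∈ F} → Fin N := fun v => ⟨v.1 * (R + 1) + R, by have := hlt _ v.2; omega⟩
  obtain ⟨D, hD, -, hc⟩ := exists_subsuperset_card_eq (n := k) (subset_univ (F.attach.image f))
    (card_image_le.trans (by rwa [card_attach])) (by rwa [card_univ, Fintype.card_fin])
  refine ⟨D, hc, fun y => ?_⟩
  obtain ⟨v, hv, h1⟩ := h ((y - S * (R + 1)) / 3 / R) ((y - S * (R + 1)) % 3)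
  refine ⟨_, hD (mem_image_of_mem _ (mem_attach _ ⟨v, hv⟩)), ?_⟩
  rw [or_iff_not_imp_left]
  intro h2
  have h3 := div_mod_mk (u := v) (Nat.lt_succ_self R)
  refine (SimpleGraph.fromRel_adj _ _ _).2 ⟨h2, Or.inl ⟨hlt v hv, Or.inr (Or.inl ⟨h3.2, ?_⟩)⟩⟩
  simp only [f, h3.1]
  exact h1.symm

theorem sound_regG {N S M R : ℕ} {m : ℕ → ℕ → ℕ} (hN : N = S * (R + 1) + 3 * (M * R))
    (out : List ℕ) (ho : out.length < R)
    (h : ∀ v, ∃ u : Fin N, u.val ∈ out ∧ (u = v ∨ (regG N S R m).Adj u v)) :
    ∀ u < M, ∃ v ∈ out.map (· / (R + 1)), v < S ∧ m v u ≠ 2 := by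
  obtain ⟨r, hr, h1⟩ := exists_mem_notMem_of_card_lt_card (t := range R)
    (s := out.toFinset.image fun x =>
      if x < S * (R + 1) then x % (R + 1) else (x - S * (R + 1)) / 3 % R)
    ((card_image_le.trans (List.toFinset_card_le _)).trans_lt (by rwa [card_range]))
  rw [mem_range] at hr
  intro u hu
  have h2 : (u + 1) * R ≤ M * R := Nat.mul_le_mul_right _ hu
  rw [add_mul] at h2
  have h3 := div_mod_mk (u := u) hr
  obtain ⟨x, hx, h4⟩ := h ⟨S * (R + 1) + 3 * (u * R + r) + 2, by omega⟩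
  have h5 : (if x.val < S * (R + 1) then x.val % (R + 1) else (x.val - S * (R + 1)) / 3 % R) ≠ r :=
    fun e => h1 (mem_image.2 ⟨x, List.mem_toFinset.2 hx, e⟩)
  have h6 : (S * (R + 1) + 3 * (u * R + r) + 2 - S * (R + 1)) / 3 = u * R + r := by omega
  rcases h4 with rfl | h4
  · simp only [h6, h3.2] at h5
    rw [if_neg (by omega)] at h5
    exact absurd rfl h5
  rcases ((SimpleGraph.fromRel_adj _ _ _).1 h4).2 with ⟨h7, h8⟩ | ⟨h7, -⟩
  · simp only [h6, h3.1, h3.2] at h8
    rw [if_pos h7] at h5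
    exact ⟨x / (R + 1), List.mem_map_of_mem hx, Nat.div_lt_of_lt_mul (by rwa [mul_comm]),
      by omega⟩
  · simp only at h7
    omega

end Pool.Agent.Lib.MP_9ec118_lc
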