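import Mathlib
import Pool.Agent.Lib.MP_9ec118_lc.Defs
import Pool.Agent.Shared.PolyTime.Nat

/-!
Flowchart machines over the word-RAM, their translation into programs, and the translation of
stack machines into flowchart machines.
-/

set_option autoImplicit false

namespace Pool.Agent.Lib.MP_9ec118_lc

open Function Pool.Agent.Shared.PolyTime

abbrev Mem := (ℕ → ℕ) × List ℕ

/-- The value computed by a non-jump instruction. -/
def val (I : ℕ → ℕ) (M : ℕ → ℕ) (o b c : ℕ) : ℕ :=
  [M b, M (M b), I (M b), b, M b + M c, M b - M c, M b * M c, M b / M c, M b &&& M c,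
    M b ||| M c, M b ^^^ M c, M b <<< M c, M b >>> M c].getD (o - 2) 0

/-- The effect of the non-jump instruction `(o + 1, a, b, c)`. -/
def exec (w : ℕ) (I : ℕ → ℕ) (o a b c : ℕ) (m : Mem) : Mem :=
  if o = 0 then (m.1, m.2 ++ [m.1 a])
  else (update m.1 (if o = 1 then m.1 a else a) (val I m.1 (o + 1) b c % 2 ^ w), m.2)

inductive FI (Q : Type) : Type
  | op (o a b c : ℕ) (q : Q) : FI Q
  | br (a : ℕ) (q0 q1 : Q) : FI Q

namespace FI

variable {Q Q' : Type}

def map (φ : Q → Q') : FI Q → FI Q'
  | op o a b c q => op o a b c (φ q)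
  | br a q0 q1 => br a (φ q0) (φ q1)

def next : FI Q → Mem → Q
  | op _ _ _ _ q, _ => q
  | br a q0 q1, m => if m.1 a = 0 then q0 else q1

def upd (w : ℕ) (I : ℕ → ℕ) : FI Q → Mem → Mem
  | op o a b c _, m => exec w I o a b c m
  | br _ _ _, m => m

end FI

structure FM : Type 1 where
  Q : Type
  fin : Finite Q
  start : Option Q
  δ : Q → FI (Option Q)

namespace FM

inductive RunsFrom (F : FM) (w : ℕ) (I : ℕ → ℕ) : Option F.Q → Mem → Mem → ℕ → Prop
  | done (m : Mem) (t : ℕ) : RunsFrom F w I none m m t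
  | step (q : F.Q) (m m' : Mem) (t : ℕ) :
      RunsFrom F w I ((F.δ q).next m) ((F.δ q).upd w I m) m' t →
      RunsFrom F w I (some q) m m' (t + 1)

def Runs (F : FM) (w : ℕ) (I : ℕ → ℕ) (m m' : Mem) (t : ℕ) : Prop :=
  F.RunsFrom w I F.start m m' t

variable {w : ℕ} {I : ℕ → ℕ}

theorem RunsFrom.mono {F : FM} {o : Option F.Q} {m m' : Mem} {t t' : ℕ}
    (h : F.RunsFrom w I o m m' t) (ht : t ≤ t') : F.RunsFrom w I o m m' t' := by
  induction h generalizing t' with
  | done m t => exact .done m t'
  | step q m m' t _ ih =>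
    obtain ⟨u, rfl⟩ : ∃ u, t' = u + 1 := ⟨t' - 1, by omega⟩
    exact .step q m m' u (ih (by omega))

theorem Runs.mono {F : FM} {m m' : Mem} {t t' : ℕ}
    (h : F.Runs w I m m' t) (ht : t ≤ t') : F.Runs w I m m' t' := RunsFrom.mono h ht

theorem RunsFrom.embed {F F' : FM} (φ : Option F.Q → Option F'.Q)
    (hφ : ∀ q, ∃ q', φ (some q) = some q' ∧ F'.δ q' = (F.δ q).map φ)
    {o : Option F.Q} {m m' m'' : Mem} {t t' : ℕ}
    (h : F.RunsFrom w I o m m' t) (h' : F'.RunsFrom w I (φ none) m' m'' t') :
    F'.RunsFrom w I (φ o) m m'' (t + t') := by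
  induction h with
  | done m t => exact h'.mono (by omega)
  | step q m m' t _ ih =>
    obtain ⟨q', h1, h2⟩ := hφ q
    rw [h1, show t + 1 + t' = (t + t') + 1 by omega]
    refine .step q' m m'' _ ?_
    have e1 : (F'.δ q').next m = φ ((F.δ q).next m) := by
      rw [h2]
      cases F.δ q with
      | op o a b c q => rfl
      | br a q0 q1 =>
        simp only [FI.map, FI.next]
        split <;> rfl
    have e2 : (F'.δ q').upd w I m = (F.δ q).upd w I m := by
      rw [h2]
      cases F.δ q <;> rfl
    rw [e1, e2]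
    exact ih h'

def prim (o a b c : ℕ) : FM := ⟨Unit, inferInstance, some (), fun _ => .op o a b c none⟩

theorem runs_prim (o a b c : ℕ) (m : Mem) : (prim o a b c).Runs w I m (exec w I o a b c m) 1 :=
  RunsFrom.step (F := prim o a b c) () m _ 0 (RunsFrom.done _ _)

def seq (F₁ F₂ : FM) : FM where
  Q := F₁.Q ⊕ F₂.Q
  fin := by have := F₁.fin; have := F₂.fin; infer_instance
  start := F₁.start.elim (F₂.start.map Sum.inr) (fun q => some (Sum.inl q))
  δ := Sum.elim
    (fun q => (F₁.δ q).map (fun o => o.elim (F₂.start.map Sum.inr) (fun q => some (Sum.inl q))))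
    (fun q => (F₂.δ q).map (Option.map Sum.inr))

theorem Runs.seq {F₁ F₂ : FM} {m m' m'' : Mem} {t₁ t₂ : ℕ}
    (h₁ : F₁.Runs w I m m' t₁) (h₂ : F₂.Runs w I m' m'' t₂) :
    (seq F₁ F₂).Runs w I m m'' (t₁ + t₂) := by
  have h3 := RunsFrom.embed (F := F₂) (F' := FM.seq F₁ F₂) (Option.map Sum.inr)
    (fun q => ⟨Sum.inr q, rfl, rfl⟩) h₂ (RunsFrom.done m'' 0)
  exact RunsFrom.embed (F := F₁) (F' := FM.seq F₁ F₂)
    (fun o => o.elim (F₂.start.map Sum.inr) (fun q => some (Sum.inl q)))
    (fun q => ⟨Sum.inl q, rfl, rfl⟩) h₁ h3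

/-- While cell `a` is not zero, run `F`. -/
def loop (a : ℕ) (F : FM) : FM where
  Q := Option F.Q
  fin := by have := F.fin; infer_instance
  start := some none
  δ := fun q => match q with
    | none => .br a none (some F.start)
    | some q => (F.δ q).map some

theorem Runs.loop_zero {a : ℕ} {F : FM} {m : Mem} (h : m.1 a = 0) :
    (loop a F).Runs w I m m 1 := by
  refine RunsFrom.step (F := loop a F) none m m 0 ?_
  simp only [loop, FI.next, FI.upd, h, if_true]
  exact RunsFrom.done (F := loop a F) m 0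

theorem Runs.loop_pos {a : ℕ} {F : FM} {m m' m'' : Mem} {t t' : ℕ} (h : m.1 a ≠ 0)
    (h1 : F.Runs w I m m' t) (h2 : (loop a F).Runs w I m' m'' t') :
    (loop a F).Runs w I m m'' (t + t' + 1) := by
  refine RunsFrom.step (F := loop a F) none m m'' _ ?_
  simp only [loop, FI.next, FI.upd, h, if_false]
  exact RunsFrom.embed (F := F) (F' := loop a F) some (fun q => ⟨some q, rfl, rfl⟩) h1 h2

/-! ### Translation into a program -/

theorem exists_prog (F : FM) : ∃ P : List (ℕ × ℕ × ℕ × ℕ), ∀ (w : ℕ) (I : ℕ → ℕ) (m m' : Mem)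
    (t : ℕ), F.Runs w I m m' t → ∃ t' ≤ 2 * t + 1, (step P w I)^[t'] (0, m) = (P.length, m') := by
  have := F.fin
  obtain ⟨N, ⟨e⟩⟩ := Finite.exists_equiv_fin F.Q
  let ad : Option F.Q → ℕ := fun o => o.elim (2 * N + 1) (fun q => 2 * (e q).val + 1)
  let code : ℕ → ℕ × ℕ × ℕ × ℕ := fun i =>
    if i = 0 then (0, 0, ad F.start, ad F.start) else
    if h : (i - 1) / 2 < N then
      match F.δ (e.symm ⟨(i - 1) / 2, h⟩) with
      | .op o a b c q => if (i - 1) % 2 = 0 then (o + 1, a, b, c) else (0, 0, ad q, ad q)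
      | .br a q0 q1 => (0, a, ad q0, ad q1)
    else (0, 0, 0, 0)
  let P := (List.range (2 * N + 1)).map code
  have hlen : P.length = 2 * N + 1 := by simp [P]
  have hget : ∀ i < 2 * N + 1, P[i]? = some (code i) := by
    intro i hi
    simp [P, hi]
  refine ⟨P, fun w I m m' t h => ?_⟩
  have key : ∀ (o : Option F.Q) (m m' : Mem) (t : ℕ), F.RunsFrom w I o m m' t →
      ∃ t' ≤ 2 * t, (step P w I)^[t'] (ad o, m) = (P.length, m') := by
    intro o m m' t h
    induction h with
    | done m t => exact ⟨0, by omega, by rw [hlen]; rfl⟩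
    | step q m m' t _ ih =>
      obtain ⟨t', ht', h'⟩ := ih
      have hq := (e q).2
      have k1 : (2 * (e q).val + 1 - 1) / 2 = (e q).val := by omega
      have k2 : (2 * (e q).val + 1 + 1 - 1) / 2 = (e q).val := by omega
      have k3 : (2 * (e q).val + 1 - 1) % 2 = 0 := by omega
      have k4 : (2 * (e q).val + 1 + 1 - 1) % 2 = 1 := by omega
      have g1 := hget (2 * (e q).val + 1) (by omega)
      have g2 := hget (2 * (e q).val + 1 + 1) (by omega)
      simp only [code, k1, k2, k3, k4, hq, dif_pos, Fin.eta, Equiv.symm_apply_apply,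
        Nat.add_eq_zero_iff, one_ne_zero, and_false, if_false, if_true] at g1 g2
      cases hδ : F.δ q with
      | op o a b c q' =>
        rw [hδ] at g1 g2 h'
        refine ⟨t' + 2, by omega, ?_⟩
        rw [iterate_succ_apply, iterate_succ_apply, ← h']
        congr 1
        have s1 : step P w I (ad (some q), m) = (2 * (e q).val + 1 + 1, exec w I o a b c m) := by
          simp only [step, ad, Option.elim, g1, exec, val, Nat.add_eq_zero_iff, one_ne_zero,
            and_false, if_false, Nat.add_eq_right, Nat.reduceEqDiff]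
          split_ifs <;> rfl
        rw [s1]
        simp [step, g2, FI.next, FI.upd]
      | br a q0 q1 =>
        rw [hδ] at g1 h'
        refine ⟨t' + 1, by omega, ?_⟩
        rw [iterate_succ_apply, ← h']
        congr 1
        simp only [step, ad, Option.elim, g1, FI.next, FI.upd, if_true]
        split_ifs <;> rfl
  obtain ⟨t', ht', h'⟩ := key _ _ _ _ h
  refine ⟨t' + 1, by omega, ?_⟩
  rw [iterate_succ_apply, ← h']
  congr 1
  simp [step, hget 0 (by omega), code]

end FM

/-! ### Strings as words -/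

/-- Bijective base two code of a bit string. -/
def enc : List Bool → ℕ
  | [] => 0
  | b :: l => 2 * enc l + 1 + b.toNat

theorem enc_succ (l : List Bool) : enc l + 1 = ofBits (l ++ [true]) := by
  induction l with
  | nil => simp [enc, ofBits]
  | cons b l ih => rw [List.cons_append, ofBits_cons, ← ih, enc]; ring

theorem enc_lt (l : List Bool) : enc l < 2 ^ (l.length + 1) := by
  have := ofBits_lt (l ++ [true])
  rw [← enc_succ] at this
  simp only [List.length_append, List.length_singleton] at this
  omega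

theorem enc_lt' {l : List Bool} {w : ℕ} (h : l.length + 1 ≤ w) : enc l < 2 ^ w :=
  (enc_lt l).trans_le (Nat.pow_le_pow_right (by norm_num) h)

theorem enc_injective : Injective enc := by
  intro l l' h
  have h1 : ofBits (l ++ [true]) = ofBits (l' ++ [true]) := by rw [← enc_succ, ← enc_succ, h]
  have h2 := congrArg Nat.bits h1
  rw [bits_ofBits_append_true, bits_ofBits_append_true] at h2
  exact List.append_cancel_right h2

theorem enc_eq_zero {l : List Bool} : enc l = 0 ↔ l = [] := by
  cases l <;> simp [enc]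

/-- The string with a given code. -/
def dec (n : ℕ) : List Bool := (n + 1).bits.dropLast

theorem enc_dec (n : ℕ) : enc (dec n) = n := by
  have hs : Surjective enc := by
    intro n
    induction n using Nat.strong_induction_on with
    | _ n ih =>
      rcases Nat.eq_zero_or_pos n with rfl | hn
      · exact ⟨[], rfl⟩
      · obtain ⟨l, hl⟩ := ih ((n - 1) / 2) (by omega)
        refine ⟨decide ((n - 1) % 2 = 1) :: l, ?_⟩
        rw [enc, hl]
        rcases Nat.mod_two_eq_zero_or_one (n - 1) with h | h <;> simp [h] <;> omega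
  obtain ⟨l, rfl⟩ := hs n
  rw [dec, enc_succ, bits_ofBits_append_true, List.dropLast_concat]

theorem length_dec_le (n : ℕ) : (dec n).length ≤ bsize n := by
  rw [dec, List.length_dropLast, length_bits]
  have := bsize_succ_le n
  omega

/-- Memory `M` holds the strings `S` in its even cells and the table `mem` in its odd cells. -/
def Rel (S : ℕ → List Bool) (mem : ℕ × ℕ → ℕ) (M : ℕ → ℕ) : Prop :=
  (∀ j, M (2 * j + 4) = enc (S j)) ∧
    ∀ key, M (2 * enc (N487b59b3.bitEncode key) + 1) = enc (mem key).bits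

theorem Rel.tmp {S : ℕ → List Bool} {mem : ℕ × ℕ → ℕ} {M : ℕ → ℕ} (h : Rel S mem M) (a v : ℕ)
    (ha : a = 0 ∨ a = 2) : Rel S mem (update M a v) :=
  ⟨fun j => by rw [update_of_ne (by omega)]; exact h.1 j,
    fun key => by rw [update_of_ne (by omega)]; exact h.2 key⟩

theorem Rel.reg {S : ℕ → List Bool} {mem : ℕ × ℕ → ℕ} {M : ℕ → ℕ} (h : Rel S mem M) (k : ℕ)
    (l : List Bool) : Rel (update S k l) mem (update M (2 * k + 4) (enc l)) := by
  refine ⟨fun j => ?_, fun key => by rw [update_of_ne (by omega)]; exact h.2 key⟩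
  by_cases e : j = k
  · subst e; simp
  · rw [update_of_ne (by omega), update_of_ne e]; exact h.1 j

theorem Rel.cell {S : ℕ → List Bool} {mem : ℕ × ℕ → ℕ} {M : ℕ → ℕ} (h : Rel S mem M)
    (key : ℕ × ℕ) (v : ℕ) : Rel S (update mem key v)
      (update M (2 * enc (N487b59b3.bitEncode key) + 1) (enc v.bits)) := by
  refine ⟨fun j => by rw [update_of_ne (by omega)]; exact h.1 j, fun key' => ?_⟩
  by_cases e : key' = key
  · subst e; simp
  · have : enc (N487b59b3.bitEncode key') ≠ enc (N487b59b3.bitEncode key) :=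
      fun h => e (N487b59b3.bitEncode_injective (enc_injective h))
    rw [update_of_ne (by omega), update_of_ne e]; exact h.2 key'

/-- The flowchart machine that simulates a stack machine. -/
def ofSM (M : SM ℕ) : FM where
  Q := M.Q × Fin 6
  fin := by have := M.fin; infer_instance
  start := M.start.map (fun q => (q, 0))
  δ := fun s => match M.δ s.1 with
    | .push k b q =>
      if s.2 = 0 then .op 4 0 (1 + b.toNat) 0 (some (s.1, 1))
      else if s.2 = 1 then .op 5 (2 * k + 4) (2 * k + 4) (2 * k + 4) (some (s.1, 2))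
      else .op 5 (2 * k + 4) (2 * k + 4) 0 (q.map (fun q => (q, 0)))
    | .pop k qE qF qT =>
      if s.2 = 0 then .br (2 * k + 4) (qE.map (fun q => (q, 0))) (some (s.1, 1))
      else if s.2 = 1 then .op 4 0 1 0 (some (s.1, 2))
      else if s.2 = 2 then .op 6 (2 * k + 4) (2 * k + 4) 0 (some (s.1, 3))
      else if s.2 = 3 then .op 9 2 (2 * k + 4) 0 (some (s.1, 4))
      else if s.2 = 4 then .op 13 (2 * k + 4) (2 * k + 4) 0 (some (s.1, 5))
      else .br 2 (qF.map (fun q => (q, 0))) (qT.map (fun q => (q, 0)))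

theorem ofSM_runs {M : SM ℕ} {w : ℕ} {I : ℕ → ℕ} {mem : ℕ × ℕ → ℕ} {out : List ℕ}
    {o : Option M.Q} {S S' : Stk ℕ} {t : ℕ} (h : M.RunsFrom o S S' t)
    (hw : ∀ j, (S j).length + t + 2 ≤ w) (X : ℕ → ℕ) (hX : Rel S mem X) :
    ∃ X', (ofSM M).RunsFrom w I (o.map (fun q => (q, 0))) (X, out) (X', out) (6 * t) ∧
      Rel S' mem X' := by
  induction h generalizing X with
  | done S t => exact ⟨X, .done _ _, hX⟩
  | step q S S' t _ ih =>
    have hw' : ∀ j, (((M.δ q).upd S) j).length + t + 2 ≤ w := fun j => by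
      have := SM.length_upd_le (M.δ q) S j
      have := hw j
      omega
    have h4 : 4 ≤ 2 ^ w := by
      have := hw 0
      calc 4 = 2 ^ 2 := by norm_num
        _ ≤ 2 ^ w := Nat.pow_le_pow_right (by norm_num) (by omega)
    cases hδ : M.δ q with
    | push k b q' =>
      rw [hδ] at ih hw'
      have hb : b.toNat ≤ 1 := Bool.toNat_le b
      have hl : enc (b :: S k) < 2 ^ w := enc_lt' (by have := hw k; simp; omega)
      obtain ⟨X', r, hX'⟩ := ih hw' _ ((hX.tmp 0 (1 + b.toNat) (Or.inl rfl)).reg k (b :: S k))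
      refine ⟨X', ?_, hX'⟩
      refine FM.RunsFrom.mono (t := 6 * t + 3) ?_ (by omega)
      refine .step (F := ofSM M) (q, 0) _ _ _ ?_
      simp only [ofSM, hδ, if_true, FI.next, FI.upd]
      refine .step (F := ofSM M) (q, 1) _ _ _ ?_
      simp only [ofSM, hδ, FI.next, FI.upd, Fin.reduceEq, if_true, if_false]
      refine .step (F := ofSM M) (q, 2) _ _ _ ?_
      simp only [ofSM, hδ, FI.next, FI.upd, Fin.reduceEq, if_false]
      have e : exec w I 5 (2 * k + 4) (2 * k + 4) 0 (exec w I 5 (2 * k + 4) (2 * k + 4) (2 * k + 4)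
          (exec w I 4 0 (1 + b.toNat) 0 (X, out))) =
          (update (update X 0 (1 + b.toNat)) (2 * k + 4) (enc (b :: S k)), out) := ?_
      · rw [e]; exact r
      rw [enc] at hl
      simp only [exec, val, OfNat.ofNat_ne_zero, OfNat.ofNat_ne_one, if_false, Nat.reduceAdd,
        Nat.reduceSub, List.getD_cons_succ, List.getD_cons_zero, update_self, update_idem,
        update_of_ne (show 2 * k + 4 ≠ 0 by omega), update_of_ne (show 0 ≠ 2 * k + 4 by omega),
        hX.1 k, enc]
      rw [Nat.mod_eq_of_lt (show 1 + b.toNat < 2 ^ w by omega),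
        Nat.mod_eq_of_lt (show enc (S k) + enc (S k) < 2 ^ w by omega),
        Nat.mod_eq_of_lt (by omega)]
      congr 2
      ring
    | pop k qE qF qT =>
      rw [hδ] at ih hw'
      cases hS : S k with
      | nil =>
        have e : update S k [] = S := by rw [← hS, update_eq_self]
        simp only [Instr.next, Instr.upd, hS, List.tail_nil, e] at ih hw'
        obtain ⟨X', r, hX'⟩ := ih hw' _ hX
        refine ⟨X', ?_, hX'⟩
        refine FM.RunsFrom.mono (t := 6 * t + 1) ?_ (by omega)
        refine .step (F := ofSM M) (q, 0) _ _ _ ?_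
        simp only [ofSM, hδ, if_true, FI.next, FI.upd, hX.1 k, hS, enc]
        exact r
      | cons b l =>
        have hb : b.toNat ≤ 1 := Bool.toNat_le b
        have hl : enc (b :: l) < 2 ^ w := enc_lt' (by have := hw k; rw [hS] at this; omega)
        rw [enc] at hl
        simp only [Instr.upd, hS, List.tail_cons] at ih hw'
        obtain ⟨X', r, hX'⟩ := ih hw' _
          (((hX.tmp 0 1 (Or.inl rfl)).tmp 2 b.toNat (Or.inr rfl)).reg k l)
        refine ⟨X', ?_, hX'⟩
        rw [show 6 * (t + 1) = 6 * t + 1 + 1 + 1 + 1 + 1 + 1 by ring]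
        refine .step (F := ofSM M) (q, 0) _ _ _ ?_
        simp only [ofSM, hδ, if_true, FI.next, FI.upd, hX.1 k, hS, enc,
          if_neg (show 2 * enc l + 1 + b.toNat ≠ 0 by omega)]
        refine .step (F := ofSM M) (q, 1) _ _ _ ?_
        simp only [ofSM, hδ, FI.next, FI.upd, Fin.reduceEq, if_true, if_false]
        refine .step (F := ofSM M) (q, 2) _ _ _ ?_
        simp only [ofSM, hδ, FI.next, FI.upd, Fin.reduceEq, if_true, if_false]
        refine .step (F := ofSM M) (q, 3) _ _ _ ?_
        simp only [ofSM, hδ, FI.next, FI.upd, Fin.reduceEq, if_true, if_false]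
        refine .step (F := ofSM M) (q, 4) _ _ _ ?_
        simp only [ofSM, hδ, FI.next, FI.upd, Fin.reduceEq, if_true, if_false]
        have e : exec w I 13 (2 * k + 4) (2 * k + 4) 0 (exec w I 9 2 (2 * k + 4) 0
            (exec w I 6 (2 * k + 4) (2 * k + 4) 0 (exec w I 4 0 1 0 (X, out)))) =
            (update (update (update X 0 1) 2 b.toNat) (2 * k + 4) (enc l), out) := by
          simp only [exec, val, OfNat.ofNat_ne_zero, OfNat.ofNat_ne_one, if_false, Nat.reduceAdd,
            Nat.reduceSub, List.getD_cons_succ, List.getD_cons_zero, update_self,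
            update_of_ne (show 2 * k + 4 ≠ 0 by omega), update_of_ne (show 0 ≠ 2 * k + 4 by omega),
            update_of_ne (show 2 * k + 4 ≠ 2 by omega), update_of_ne (show 0 ≠ 2 by omega),
            hX.1 k, hS, enc, Nat.mod_eq_of_lt (show 1 < 2 ^ w by omega)]
          rw [show 2 * enc l + 1 + b.toNat - 1 = 2 * enc l + b.toNat by omega,
            Nat.mod_eq_of_lt (show 2 * enc l + b.toNat < 2 ^ w by omega), Nat.and_one_is_mod,
            Nat.shiftRight_eq_div_pow, show (2 * enc l + b.toNat) % 2 = b.toNat by omega,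
            show (2 * enc l + b.toNat) / 2 ^ 1 = enc l by omega,
            Nat.mod_eq_of_lt (show b.toNat < 2 ^ w by omega),
            Nat.mod_eq_of_lt (show enc l < 2 ^ w by omega),
            update_comm (show 2 * k + 4 ≠ 2 by omega), update_idem]
        rw [e]
        refine .step (F := ofSM M) (q, 5) _ _ _ ?_
        simp only [ofSM, hδ, FI.next, FI.upd, Fin.reduceEq, if_false,
          update_of_ne (show 2 ≠ 2 * k + 4 by omega), update_self]
        cases b
        · simp only [Instr.next, hS] at r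
          exact r
        · simp only [Instr.next, hS] at r
          exact r

end Pool.Agent.Lib.MP_9ec118_lc
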