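import Mathlib
import Pool.Agent.Lib.MP_9ec118_lc.Flow

/-!
Implementations on the word-RAM of state transformers built from polynomial-time functions,
table reads and writes, input reads, and loops.
-/

set_option autoImplicit false

namespace Pool.Agent.Lib.MP_9ec118_lc

open Function Pool.Agent.Shared.PolyTime N487b59b3 N68a2faeb

/-- Four string registers, a table and the output list. -/
structure AS where
  S : Stk (Fin 4)
  mem : ℕ × ℕ → ℕ
  out : List ℕ

def ext4 (S : Stk (Fin 4)) : ℕ → List Bool := fun j => if h : j < 4 then S ⟨j, h⟩ else []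

theorem ext4_update (S : Stk (Fin 4)) (k : Fin 4) (l : List Bool) :
    ext4 (update S k l) = update (ext4 S) k l := by
  funext j
  by_cases e : j = k
  · subst e; simp [ext4]
  · rw [update_of_ne e]
    unfold ext4
    split_ifs with h
    · rw [update_of_ne (fun h' => e (by rw [← h']))]
    · rfl

theorem ext4_val (S : Stk (Fin 4)) (k : Fin 4) : ext4 S k = S k := by simp [ext4]

/-- `RImp sz I τ A A'`: one flowchart machine moves every memory that represents `A x` to one
that represents `A' x` in time `τ x` times a polynomial in `sz x`, for polynomial word size. -/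
def RImp {ι : Type} (sz : ι → ℕ) (I : ι → ℕ → ℕ) (τ : ι → ℕ) (A A' : ι → AS) : Prop :=
  ∃ (F : FM) (p : Polynomial ℕ), ∀ x w, p.eval (sz x) ≤ w → ∀ X, Rel (ext4 (A x).S) (A x).mem X →
    ∃ X', F.Runs w (I x) (X, (A x).out) (X', (A' x).out) (τ x * p.eval (sz x)) ∧
      Rel (ext4 (A' x).S) (A' x).mem X'

namespace RImp

variable {ι κ : Type} {sz : ι → ℕ} {I : ι → ℕ → ℕ} {τ τ' : ι → ℕ} {A A' A'' : ι → AS}

theorem intro (F : FM) (b t : ι → ℕ) (hb : Bdd sz b) (ht : Bdd sz t)
    (h : ∀ x w, b x ≤ w → ∀ X, Rel (ext4 (A x).S) (A x).mem X →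
      ∃ X', F.Runs w (I x) (X, (A x).out) (X', (A' x).out) (τ x * t x) ∧
        Rel (ext4 (A' x).S) (A' x).mem X') : RImp sz I τ A A' := by
  obtain ⟨p, hp⟩ := hb.add ht
  refine ⟨F, p, fun x w hw X hX => ?_⟩
  have : b x + t x ≤ _ := hp x
  obtain ⟨X', r, hX'⟩ := h x w (by omega) X hX
  exact ⟨X', r.mono (Nat.mul_le_mul_left _ (by omega)), hX'⟩

theorem weaken (h : RImp sz I τ A A') (g : ι → ℕ) (hg : Bdd sz g) (hτ : ∀ x, τ x ≤ τ' x * g x) :
    RImp sz I τ' A A' := by
  obtain ⟨F, p, hp⟩ := h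
  refine intro F (fun x => p.eval (sz x)) (fun x => g x * p.eval (sz x)) ((Bdd.refl _).eval p)
    (hg.mul ((Bdd.refl _).eval p)) fun x w hw X hX => ?_
  obtain ⟨X', r, hX'⟩ := hp x w hw X hX
  exact ⟨X', r.mono (by rw [← mul_assoc]; exact Nat.mul_le_mul_right _ (hτ x)), hX'⟩

theorem seq (h₁ : RImp sz I τ A A') (h₂ : RImp sz I τ' A' A'') :
    RImp sz I (fun x => τ x + τ' x) A A'' := by
  obtain ⟨F₁, p₁, hp₁⟩ := h₁
  obtain ⟨F₂, p₂, hp₂⟩ := h₂
  have hb : Bdd sz (fun x => p₁.eval (sz x) + p₂.eval (sz x)) :=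
    ((Bdd.refl _).eval p₁).add ((Bdd.refl _).eval p₂)
  refine intro (F₁.seq F₂) _ _ hb hb fun x w hw X hX => ?_
  obtain ⟨X', r, hX'⟩ := hp₁ x w (by omega) X hX
  obtain ⟨X'', r', hX''⟩ := hp₂ x w (by omega) X' hX'
  refine ⟨X'', (r.seq r').mono ?_, hX''⟩
  rw [add_mul]
  exact add_le_add (Nat.mul_le_mul_left _ (by omega)) (Nat.mul_le_mul_left _ (by omega))

theorem seq1 (h₁ : RImp sz I (fun _ => 1) A A') (h₂ : RImp sz I (fun _ => 1) A' A'') :
    RImp sz I (fun _ => 1) A A'' :=
  (h₁.seq h₂).weaken (fun _ => 2) (Bdd.const _ _) fun _ => le_rfl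

theorem congr (h : RImp sz I τ A A') {B B' : ι → AS} (h1 : ∀ x, B x = A x) (h2 : ∀ x, B' x = A' x) :
    RImp sz I τ B B' := by
  obtain rfl : B = A := funext h1
  obtain rfl : B' = A' := funext h2
  exact h

theorem loop (T : ι → ℕ → AS) (n σ : ι → ℕ) (h0 : ∀ x, (T x (n x)).S 3 = [])
    (h1 : ∀ x i, i < n x → (T x i).S 3 ≠ [])
    (hb : RImp (ι := {y : ι × ℕ // y.2 < n y.1}) (fun y => sz y.1.1) (fun y => I y.1.1)
      (fun y => σ y.1.1) (fun y => T y.1.1 y.1.2) (fun y => T y.1.1 (y.1.2 + 1))) :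
    RImp sz I (fun x => (n x + 1) * (σ x + 1)) (fun x => T x 0) (fun x => T x (n x)) := by
  obtain ⟨F, p, hp⟩ := hb
  have hb : Bdd sz (fun x => p.eval (sz x) + 1) := ((Bdd.refl _).eval p).add (Bdd.const _ 1)
  refine intro (FM.loop 10 F) _ _ hb hb fun x w hw X hX => ?_
  have key : ∀ d i, i + d = n x → ∀ X, Rel (ext4 (T x i).S) (T x i).mem X →
      ∃ X', (FM.loop 10 F).Runs w (I x) (X, (T x i).out) (X', (T x (n x)).out)
        ((d + 1) * (σ x + 1) * (p.eval (sz x) + 1)) ∧ Rel (ext4 (T x (n x)).S) (T x (n x)).mem X' := by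
    intro d
    induction d with
    | zero =>
      intro i hi X hX
      obtain rfl : i = n x := hi
      refine ⟨X, (FM.Runs.loop_zero ?_).mono (by nlinarith), hX⟩
      have := hX.1 3
      rw [show ext4 (T x (n x)).S 3 = (T x (n x)).S 3 from rfl, h0] at this
      exact this
    | succ d ih =>
      intro i hi X hX
      obtain ⟨X', r, hX'⟩ := hp ⟨(x, i), by simp only; omega⟩ w (by simp only; omega) X hX
      obtain ⟨X'', r', hX''⟩ := ih (i + 1) (by omega) X' hX'
      refine ⟨X'', (FM.Runs.loop_pos ?_ r r').mono (by simp only; nlinarith), hX''⟩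
      have := hX.1 3
      rw [show ext4 (T x i).S 3 = (T x i).S 3 from rfl] at this
      simp only
      rw [this, Ne, enc_eq_zero]
      exact h1 x i (by omega)
  exact key (n x) 0 (by simp) X hX

variable {S S' : ι → Stk (Fin 4)} {mem : ι → ℕ × ℕ → ℕ} {out : ι → List ℕ}

theorem ofImpl (h : Impl sz S S') (hS : ∀ k, Bdd sz (fun x => (S x k).length)) :
    RImp sz I (fun _ => 1) (fun x => ⟨S x, mem x, out x⟩) (fun x => ⟨S' x, mem x, out x⟩) := by
  obtain ⟨W, _, _, M, p, hp⟩ := h
  let e := Fintype.equivFin W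
  let ρ : Fin 4 ⊕ W → ℕ := Sum.elim (fun k => k.val) (fun w => 4 + (e w).val)
  have hρ : Injective ρ := by
    rintro (k | w) (k' | w') h <;> simp only [ρ, Sum.elim_inl, Sum.elim_inr] at h
    · rw [Fin.ext h]
    · omega
    · omega
    · rw [e.injective (Fin.ext (by omega : (e w).val = (e w').val))]
  have hext : ∀ (U : Stk (Fin 4)) k, ext4 U (ρ k) = Sum.elim U (fun _ => []) k := by
    rintro U (k | w)
    · exact ext4_val U k
    · simp [ρ, ext4]
  have hb : Bdd sz (fun x => (S x 0).length + (S x 1).length + (S x 2).length + (S x 3).length +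
      p.eval (sz x) + 2) :=
    (((((hS 0).add (hS 1)).add (hS 2)).add (hS 3)).add ((Bdd.refl _).eval p)).add (Bdd.const _ 2)
  refine intro (ofSM (M.rename ρ)) _ (fun x => 6 * p.eval (sz x)) hb
    ((Bdd.const _ 6).mul ((Bdd.refl _).eval p)) fun x w hw X hX => ?_
  have r := (hp x).rename hρ (ext4 (S x)) (ext4 (S' x)) (hext _) (hext _) (fun j hj => by
    have : ¬ j < 4 := fun h => hj (Sum.inl ⟨j, h⟩) rfl
    simp [ext4, this])
  obtain ⟨X', r', hX'⟩ := ofSM_runs (w := w) (I := I x) (out := out x) r (fun j => by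
    unfold ext4
    split_ifs with h
    · have : (S x ⟨j, h⟩).length ≤
          (S x 0).length + (S x 1).length + (S x 2).length + (S x 3).length := by
        interval_cases j
        · change (S x 0).length ≤ _; omega
        · change (S x 1).length ≤ _; omega
        · change (S x 2).length ≤ _; omega
        · change (S x 3).length ≤ _; omega
      omega
    · simp only [List.length_nil]; omega) X hX
  exact ⟨X', by rw [one_mul]; exact r', hX'⟩

theorem copy (i j : Fin 4) (hS : Bdd sz (fun x => (S x i).length)) :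
    RImp sz I (fun _ => 1) (fun x => ⟨S x, mem x, out x⟩)
      (fun x => ⟨update (S x) j (S x i), mem x, out x⟩) := by
  refine intro (FM.prim 10 (2 * j + 4) (2 * i + 4) (2 * i + 4)) _ (fun _ => 1)
    (hS.add (Bdd.const _ 1)) (Bdd.const _ 1) fun x w hw X hX => ?_
  refine ⟨_, ?_, by simp only [ext4_update]; exact hX.reg j (S x i)⟩
  convert FM.runs_prim (w := w) (I := I x) _ _ _ _ (X, out x) using 1
  have := hX.1 i
  rw [ext4_val] at this
  simp [exec, val, this, Nat.mod_eq_of_lt (enc_lt' hw)]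

theorem clear (j : Fin 4) :
    RImp sz I (fun _ => 1) (fun x => ⟨S x, mem x, out x⟩)
      (fun x => ⟨update (S x) j [], mem x, out x⟩) := by
  refine intro (FM.prim 4 (2 * j + 4) 0 0) (fun _ => 0) (fun _ => 1)
    (Bdd.const _ 0) (Bdd.const _ 1) fun x w hw X hX => ?_
  refine ⟨_, ?_, by simp only [ext4_update]; exact hX.reg j []⟩
  convert FM.runs_prim (w := w) (I := I x) _ _ _ _ (X, out x) using 1
  simp [exec, val, enc]

theorem emit : RImp sz I (fun _ => 1) (fun x => ⟨S x, mem x, out x⟩)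
      (fun x => ⟨S x, mem x, out x ++ [enc (S x 3)]⟩) := by
  refine intro (FM.prim 0 10 0 0) (fun _ => 0) (fun _ => 1)
    (Bdd.const _ 0) (Bdd.const _ 1) fun x w hw X hX => ?_
  refine ⟨X, ?_, hX⟩
  convert FM.runs_prim (w := w) (I := I x) _ _ _ _ (X, out x) using 1
  have := hX.1 3
  rw [show ext4 (S x) 3 = S x 3 from rfl] at this
  simp [exec, this]

theorem input (hI : Bdd sz (fun x => bsize (I x (enc (S x 1))))) :
    RImp sz I (fun _ => 1) (fun x => ⟨S x, mem x, out x⟩)
      (fun x => ⟨update (S x) 1 (dec (I x (enc (S x 1)))), mem x, out x⟩) := by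
  refine intro (FM.prim 3 6 6 0) _ (fun _ => 1) hI (Bdd.const _ 1) fun x w hw X hX => ?_
  refine ⟨_, ?_, by simp only [ext4_update]; exact hX.reg 1 _⟩
  convert FM.runs_prim (w := w) (I := I x) _ _ _ _ (X, out x) using 1
  have := hX.1 1
  rw [show ext4 (S x) 1 = S x 1 from rfl] at this
  simp [exec, val, this, enc_dec, Nat.mod_eq_of_lt (bsize_nat_le_iff.1 hw)]

/-- The machine that puts the physical address of the key in register `1` into cell `0`. -/
def addr : FM := ((FM.prim 5 0 6 6).seq (FM.prim 4 2 1 0)).seq (FM.prim 5 0 0 2)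

theorem runs_addr {w : ℕ} {I : ℕ → ℕ} {X : ℕ → ℕ} {o : List ℕ} (h : 2 * X 6 + 1 < 2 ^ w) :
    addr.Runs w I (X, o) (update (update X 2 1) 0 (2 * X 6 + 1), o) 3 := by
  have r := ((FM.runs_prim (w := w) (I := I) 5 0 6 6 (X, o)).seq (FM.runs_prim 4 2 1 0 _)).seq
    (FM.runs_prim 5 0 0 2 _)
  have e : exec w I 5 0 0 2 (exec w I 4 2 1 0 (exec w I 5 0 6 6 (X, o))) =
      (update (update X 2 1) 0 (2 * X 6 + 1), o) := ?_
  · rw [e] at r; exact r
  simp only [exec, val, OfNat.ofNat_ne_zero, OfNat.ofNat_ne_one, if_false, Nat.reduceAdd,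
    Nat.reduceSub, List.getD_cons_succ, List.getD_cons_zero, update_self,
    update_of_ne (show 0 ≠ 2 by omega)]
  rw [Nat.mod_eq_of_lt (show X 6 + X 6 < 2 ^ w by omega),
    Nat.mod_eq_of_lt (show 1 < 2 ^ w by omega), Nat.mod_eq_of_lt (by omega),
    update_comm (show 0 ≠ 2 by omega), update_idem, two_mul]

theorem addr_lt {l : List Bool} {w : ℕ} (h : l.length + 2 ≤ w) : 2 * enc l + 1 < 2 ^ w := by
  have := enc_lt l
  have h2 : 2 ^ (l.length + 2) ≤ 2 ^ w := Nat.pow_le_pow_right (by norm_num) h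
  rw [pow_succ] at h2
  omega

theorem load (key : ι → ℕ × ℕ) (hk : ∀ x, S x 1 = bitEncode (key x))
    (h1 : Bdd sz (fun x => bsize (key x))) (h2 : Bdd sz (fun x => bsize (mem x (key x)))) :
    RImp sz I (fun _ => 1) (fun x => ⟨S x, mem x, out x⟩)
      (fun x => ⟨update (S x) 1 (bitEncode (mem x (key x))), mem x, out x⟩) := by
  refine intro (addr.seq (FM.prim 2 6 0 0)) _ (fun _ => 4) ((h1.add h2).add (Bdd.const _ 2))
    (Bdd.const _ 4) fun x w hw X hX => ?_
  have e := hX.1 1
  rw [show ext4 (S x) 1 = S x 1 from rfl, hk] at e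
  have hlt : 2 * X 6 + 1 < 2 ^ w := by
    rw [show X 6 = _ from e]; exact addr_lt (by unfold bsize at hw; omega)
  have hR := (hX.tmp 2 1 (Or.inr rfl)).tmp 0 (2 * X 6 + 1) (Or.inl rfl)
  refine ⟨_, ?_, by simp only [ext4_update]; exact hR.reg 1 _⟩
  convert (runs_addr hlt).seq (FM.runs_prim (w := w) (I := I x) 2 6 0 0 _) using 1
  have e2 := hR.2 (key x)
  rw [← show X 6 = _ from e] at e2
  have hv : enc (mem x (key x)).bits < 2 ^ w := enc_lt' (by rw [length_bits]; omega)
  simp only [exec, val, OfNat.ofNat_ne_zero, OfNat.ofNat_ne_one, if_false, Nat.reduceAdd,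
    Nat.reduceSub, List.getD_cons_succ, List.getD_cons_zero, update_self, e2,
    Nat.mod_eq_of_lt hv, enc_nat]

theorem store (key : ι → ℕ × ℕ) (v : ι → ℕ) (hk : ∀ x, S x 1 = bitEncode (key x))
    (hv : ∀ x, S x 2 = bitEncode (v x))
    (h1 : Bdd sz (fun x => bsize (key x))) (h2 : Bdd sz (fun x => bsize (v x))) :
    RImp sz I (fun _ => 1) (fun x => ⟨S x, mem x, out x⟩)
      (fun x => ⟨S x, update (mem x) (key x) (v x), out x⟩) := by
  refine intro (addr.seq (FM.prim 1 0 8 0)) _ (fun _ => 4) ((h1.add h2).add (Bdd.const _ 2))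
    (Bdd.const _ 4) fun x w hw X hX => ?_
  have e := hX.1 1
  rw [show ext4 (S x) 1 = S x 1 from rfl, hk] at e
  have hlt : 2 * X 6 + 1 < 2 ^ w := by
    rw [show X 6 = _ from e]; exact addr_lt (by unfold bsize at hw; omega)
  have hR := (hX.tmp 2 1 (Or.inr rfl)).tmp 0 (2 * X 6 + 1) (Or.inl rfl)
  refine ⟨_, ?_, hR.cell (key x) (v x)⟩
  convert (runs_addr hlt).seq (FM.runs_prim (w := w) (I := I x) 1 0 8 0 _) using 1
  have e2 := hX.1 2
  rw [show ext4 (S x) 2 = S x 2 from rfl, hv, enc_nat] at e2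
  have hv : enc (v x).bits < 2 ^ w := enc_lt' (by rw [length_bits]; omega)
  simp only [exec, val, one_ne_zero, if_false, if_true, Nat.reduceAdd,
    Nat.reduceSub, List.getD_cons_zero, update_self, update_of_ne (show 8 ≠ 0 by omega),
    update_of_ne (show 8 ≠ 2 by omega), show X 8 = _ from e2, Nat.mod_eq_of_lt hv,
    show X 6 = _ from e]

end RImp

/-! ### Typed states -/

/-- The state `x` in register `0`, the other registers empty. -/
def TS {X : Type} [N487b59b3 X] (x : X) (mem : ℕ × ℕ → ℕ) (out : List ℕ) : AS :=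
  ⟨mk4 (bitEncode x) [] [] [], mem, out⟩

namespace RImp

variable {ι X Y : Type} [N487b59b3 X] [N487b59b3 Y] {sz : ι → ℕ} {I : ι → ℕ → ℕ}
  {mem : ι → ℕ × ℕ → ℕ} {out : ι → List ℕ} {st : ι → X}

theorem bdd4 {a b c d : ι → List Bool} (ha : Bdd sz (fun x => (a x).length))
    (hb : Bdd sz (fun x => (b x).length)) (hc : Bdd sz (fun x => (c x).length))
    (hd : Bdd sz (fun x => (d x).length)) (k : Fin 4) :
    Bdd sz (fun x => (mk4 (a x) (b x) (c x) (d x) k).length) := by
  fin_cases k
  exacts [ha, hb, hc, hd]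

theorem bdd_pt {F : X → Y} (hF : IsPolyTime F) (hs : Bdd sz (fun x => bsize (st x))) :
    Bdd sz (fun x => bsize (F (st x))) := hs.trans (hF.pt.bdd.ghost st)

theorem apply {F : X → Y} (hF : IsPolyTime F) (hs : Bdd sz (fun x => bsize (st x))) :
    RImp sz I (fun _ => 1) (fun x => TS (st x) (mem x) (out x))
      (fun x => TS (F (st x)) (mem x) (out x)) :=
  (ofImpl (Impl.call (S := fun x => mk4 (bitEncode (st x)) [] [] []) (Comp.ghost hF.pt st) 0
    (fun _ => rfl) hs) (bdd4 hs (Bdd.const _ 0) (Bdd.const _ 0) (Bdd.const _ 0))).congr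
    (fun _ => rfl) (fun _ => by simp [TS])

theorem impl_pair {a b : ι → List Bool} (ha : Bdd sz (fun x => (a x).length))
    (hb : Bdd sz (fun x => (b x).length)) :
    Impl sz (fun x => mk4 (a x) (b x) [] []) (fun x => mk4 (delimit (a x) ++ b x) [] [] []) := by
  have s1 : Impl sz (fun x => mk4 (a x) (b x) [] []) (fun x => mk4 [] (b x) (a x).reverse []) :=
    (Impl.move (a := (0 : Fin 4)) (b := 2) (by decide) ha).congr_right (fun _ => by simp)
  have s2 : Impl sz (fun x => mk4 [] (b x) (a x).reverse [])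
      (fun x => mk4 [] [] (a x).reverse (b x).reverse) :=
    (Impl.move (a := (1 : Fin 4)) (b := 3) (by decide) hb).congr_right (fun _ => by simp)
  have s3 : Impl sz (fun x => mk4 [] [] (a x).reverse (b x).reverse)
      (fun x => mk4 (b x) [] (a x).reverse []) :=
    (Impl.move (a := (3 : Fin 4)) (b := 0) (by decide)
      (hb.mono (fun _ => by simp))).congr_right (fun _ => by simp)
  have s4 : Impl sz (fun x => mk4 (b x) [] (a x).reverse [])
      (fun x => mk4 (false :: b x) [] (a x).reverse []) :=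
    (Impl.push (0 : Fin 4) false).congr_right (fun _ => by simp)
  have s5 : Impl sz (fun x => mk4 (false :: b x) [] (a x).reverse [])
      (fun x => mk4 (delimit (a x) ++ b x) [] [] []) :=
    (Impl.moveDbl (a := (2 : Fin 4)) (b := 0) (by decide)
      (ha.mono (fun _ => by simp))).congr_right (fun _ => by simp [SM.delimit_append])
  exact s1.seq (s2.seq (s3.seq (s4.seq s5)))

/-- Compute a string from the state into register `j`. -/
theorem side {g : X → List Bool} (hg : Comp bitEncode g) (j : Fin 4) {S : ι → Stk (Fin 4)}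
    (h0 : ∀ x, S x 0 = bitEncode (st x)) (hS : ∀ k, Bdd sz (fun x => (S x k).length)) :
    RImp sz I (fun _ => 1) (fun x => ⟨S x, mem x, out x⟩)
      (fun x => ⟨update (S x) j (g (st x)), mem x, out x⟩) := by
  have hs : Bdd sz (fun x => (bitEncode (st x)).length) := (hS 0).mono fun x => by rw [h0]
  refine (copy 0 j (hS 0)).seq1 ((ofImpl (Impl.call (S := fun x => update (S x) j (S x 0))
    (Comp.ghost hg st) j (fun x => by simp [h0]) hs) fun k => ?_).congr (fun _ => rfl)
    (fun _ => by simp))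
  by_cases e : k = j
  · subst e; exact (hS 0).mono fun x => by simp
  · exact (hS k).mono fun x => by rw [update_of_ne e]

theorem read {A : X → ℕ × ℕ} (hA : IsPolyTime A) (hs : Bdd sz (fun x => bsize (st x)))
    (hv : Bdd sz (fun x => bsize (mem x (A (st x))))) :
    RImp sz I (fun _ => 1) (fun x => TS (st x) (mem x) (out x))
      (fun x => TS (st x, mem x (A (st x))) (mem x) (out x)) := by
  have s1 := side (I := I) (mem := mem) (out := out) hA.pt 1
    (S := fun x => mk4 (bitEncode (st x)) [] [] []) (fun _ => rfl)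
    (bdd4 hs (Bdd.const _ 0) (Bdd.const _ 0) (Bdd.const _ 0))
  simp only [update_mk4_1] at s1
  have s2 := load (I := I) (mem := mem) (out := out)
    (S := fun x => mk4 (bitEncode (st x)) (bitEncode (A (st x))) [] []) (fun x => A (st x))
    (fun _ => rfl) (bdd_pt hA hs) hv
  simp only [update_mk4_1] at s2
  exact s1.seq1 (s2.seq1 (ofImpl (impl_pair hs hv) (bdd4 hs hv (Bdd.const _ 0) (Bdd.const _ 0))))

theorem write {A : X → ℕ × ℕ} {V : X → ℕ} (hA : IsPolyTime A) (hV : IsPolyTime V)
    (hs : Bdd sz (fun x => bsize (st x))) :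
    RImp sz I (fun _ => 1) (fun x => TS (st x) (mem x) (out x))
      (fun x => TS (st x) (update (mem x) (A (st x)) (V (st x))) (out x)) := by
  have s1 := side (I := I) (mem := mem) (out := out) hA.pt 1
    (S := fun x => mk4 (bitEncode (st x)) [] [] []) (fun _ => rfl)
    (bdd4 hs (Bdd.const _ 0) (Bdd.const _ 0) (Bdd.const _ 0))
  simp only [update_mk4_1] at s1
  have s2 := side (I := I) (mem := mem) (out := out) hV.pt 2
    (S := fun x => mk4 (bitEncode (st x)) (bitEncode (A (st x))) [] []) (fun _ => rfl)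
    (bdd4 hs (bdd_pt hA hs) (Bdd.const _ 0) (Bdd.const _ 0))
  simp only [update_mk4_2] at s2
  have s3 := store (I := I) (mem := mem) (out := out)
    (S := fun x => mk4 (bitEncode (st x)) (bitEncode (A (st x))) (bitEncode (V (st x))) [])
    (fun x => A (st x)) (fun x => V (st x)) (fun _ => rfl) (fun _ => rfl) (bdd_pt hA hs)
    (bdd_pt hV hs)
  refine s1.seq1 (s2.seq1 (s3.seq1 (((clear 1).seq1 (clear 2)).congr (fun _ => rfl)
    fun _ => by simp [TS])))

theorem comp_dec {J : X → ℕ} (hJ : IsPolyTime J) : Comp bitEncode (fun x => dec (J x)) := by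
  have : IsPolyTime (fun x => Raw.mk (dec (J x))) := by
    refine IsPolyTime.rawMk (IsPolyTime.of_eq
      (f := fun x => (J x + 1).bits.take ((J x + 1).bits.length - 1)) (by fun_prop) fun x => ?_)
    rw [dec, List.dropLast_eq_take]
  exact this.pt

theorem pt_enc : IsPolyTime (fun r : Raw => enc r.bits) :=
  IsPolyTime.of_eq (f := fun r : Raw => ofBits (r.bits ++ [true]) - 1) (by fun_prop)
    fun r => by rw [← enc_succ]; rfl

theorem readInput {J : X → ℕ} (hJ : IsPolyTime J) (hs : Bdd sz (fun x => bsize (st x)))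
    (hv : Bdd sz (fun x => bsize (I x (J (st x))))) :
    RImp sz I (fun _ => 1) (fun x => TS (st x) (mem x) (out x))
      (fun x => TS (st x, I x (J (st x))) (mem x) (out x)) := by
  have s1 := side (I := I) (mem := mem) (out := out) (comp_dec hJ) 1
    (S := fun x => mk4 (bitEncode (st x)) [] [] []) (fun _ => rfl)
    (bdd4 hs (Bdd.const _ 0) (Bdd.const _ 0) (Bdd.const _ 0))
  simp only [update_mk4_1] at s1
  have s2 := input (sz := sz) (I := I) (mem := mem) (out := out)
    (S := fun x => mk4 (bitEncode (st x)) (dec (J (st x))) [] [])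
    (by simpa only [mk4_1, enc_dec] using hv)
  simp only [update_mk4_1, mk4_1, enc_dec] at s2
  have hd : Bdd sz (fun x => (dec (I x (J (st x)))).length) := hv.mono fun x => length_dec_le _
  have s3 := ofImpl (I := I) (mem := mem) (out := out)
    (Impl.call (S := fun x => mk4 (bitEncode (st x)) (dec (I x (J (st x)))) [] [])
      (Comp.ghost pt_enc.pt (fun x => Raw.mk (dec (I x (J (st x)))))) 1 (fun _ => rfl) hd)
    (bdd4 hs hd (Bdd.const _ 0) (Bdd.const _ 0))
  simp only [update_mk4_1, enc_dec] at s3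
  exact s1.seq1 (s2.seq1 (s3.seq1
    (ofImpl (impl_pair hs hv) (bdd4 hs hv (Bdd.const _ 0) (Bdd.const _ 0)))))

theorem comp_flag {c : X → Bool} (hc : IsPolyTime c) :
    Comp bitEncode (fun x => bif c x then [true] else []) :=
  Comp.cond hc.pt (Comp.const _ _) (Comp.const _ _)

theorem whileLoop {c : X → Bool} (hc : IsPolyTime c) (st : ι → ℕ → X)
    (mem : ι → ℕ → ℕ × ℕ → ℕ) (out : ι → ℕ → List ℕ) (n σ : ι → ℕ)
    (h0 : ∀ x, c (st x (n x)) = false) (h1 : ∀ x i, i < n x → c (st x i) = true)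
    (hs : Bdd (fun y : {y : ι × ℕ // y.2 ≤ n y.1} => sz y.1.1) (fun y => bsize (st y.1.1 y.1.2)))
    (hb : RImp (ι := {y : ι × ℕ // y.2 < n y.1}) (fun y => sz y.1.1) (fun y => I y.1.1)
      (fun y => σ y.1.1) (fun y => TS (st y.1.1 y.1.2) (mem y.1.1 y.1.2) (out y.1.1 y.1.2))
      (fun y => TS (st y.1.1 (y.1.2 + 1)) (mem y.1.1 (y.1.2 + 1)) (out y.1.1 (y.1.2 + 1)))) :
    RImp sz I (fun x => (n x + 1) * (σ x + 1)) (fun x => TS (st x 0) (mem x 0) (out x 0))
      (fun x => TS (st x (n x)) (mem x (n x)) (out x (n x))) := by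
  let T : ι → ℕ → AS := fun x i =>
    ⟨mk4 (bitEncode (st x i)) [] [] (bif c (st x i) then [true] else []), mem x i, out x i⟩
  have hs0 : Bdd sz (fun x => bsize (st x 0)) := hs.ghost (fun x => ⟨(x, 0), Nat.zero_le _⟩)
  have s1 := side (I := I) (mem := fun x => mem x 0) (out := fun x => out x 0) (comp_flag hc) 3
    (S := fun x => mk4 (bitEncode (st x 0)) [] [] []) (fun _ => rfl)
    (bdd4 hs0 (Bdd.const _ 0) (Bdd.const _ 0) (Bdd.const _ 0))
  simp only [update_mk4_3] at s1
  have s2 := loop (sz := sz) (I := I) T n (fun x => 1 + (σ x + 1)) (fun x => by simp [T, h0])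
    (fun x i hi => by simp [T, h1 x i hi]) (by
      have hs1 := hs.ghost (fun y : {y : ι × ℕ // y.2 < n y.1} => ⟨(y.1.1, y.1.2 + 1), y.2⟩)
      have s3 := side (I := fun y : {y : ι × ℕ // y.2 < n y.1} => I y.1.1)
        (mem := fun y => mem y.1.1 (y.1.2 + 1)) (out := fun y => out y.1.1 (y.1.2 + 1))
        (comp_flag hc) 3 (S := fun y => mk4 (bitEncode (st y.1.1 (y.1.2 + 1))) [] [] [])
        (fun _ => rfl) (bdd4 hs1 (Bdd.const _ 0) (Bdd.const _ 0) (Bdd.const _ 0))
      simp only [update_mk4_3] at s3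
      exact ((clear 3).congr (fun _ => rfl) (fun _ => by simp [TS])).seq (hb.seq s3))
  refine ((s1.seq s2).congr (fun _ => rfl) (fun x => by simp [T, TS, h0])).weaken (fun _ => 4)
    (Bdd.const _ 4) fun x => by nlinarith

/-- Emit one output exactly when the condition holds. -/
theorem emitIf {c : X → Bool} (hc : IsPolyTime c) (hs : Bdd sz (fun x => bsize (st x))) :
    RImp sz I (fun _ => 1) (fun x => TS (st x) (mem x) [])
      (fun x => TS (st x) (mem x) (bif c (st x) then [2] else [])) := by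
  let T : ι → ℕ → AS := fun x i =>
    ⟨mk4 (bitEncode (st x)) [] [] (if i = 0 then (bif c (st x) then [true] else []) else []),
      mem x, if i = 0 then [] else [2]⟩
  have s1 := side (I := I) (mem := mem) (out := fun _ => []) (comp_flag hc) 3
    (S := fun x => mk4 (bitEncode (st x)) [] [] []) (fun _ => rfl)
    (bdd4 hs (Bdd.const _ 0) (Bdd.const _ 0) (Bdd.const _ 0))
  simp only [update_mk4_3] at s1
  have s2 := loop (sz := sz) (I := I) T (fun x => (c (st x)).toNat) (fun _ => 1)
    (fun x => by cases h : c (st x) <;> simp [T, h])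
    (fun x i hi => by
      cases h : c (st x)
      · simp [h] at hi
      · have : i = 0 := by simpa [h] using hi
        simp [T, h, this])
    ((emit.seq1 (clear 3)).congr (fun _ => rfl) (fun y => by
      obtain ⟨⟨x, i⟩, hi⟩ := y
      cases h : c (st x)
      · simp [h] at hi
      · have : i = 0 := by simpa [h] using hi
        simp [T, this, enc]))
  refine ((s1.seq s2).congr (fun _ => rfl) (fun x => ?_)).weaken (fun _ => 5)
    (Bdd.const _ 5) fun x => by have := Bool.toNat_le (c (st x)); omega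
  cases h : c (st x) <;> simp [T, TS, h]

theorem exists_pow (p : Polynomial ℕ) : ∃ C : ℕ, ∀ s, p.eval s ≤ (s + 2) ^ C := by
  induction p using Polynomial.induction_on' with
  | add p q hp hq =>
    obtain ⟨C, hC⟩ := hp
    obtain ⟨D, hD⟩ := hq
    refine ⟨C + D + 1, fun s => ?_⟩
    have h1 : (s + 2) ^ C ≤ (s + 2) ^ (C + D) := Nat.pow_le_pow_right (by omega) (by omega)
    have h2 : (s + 2) ^ D ≤ (s + 2) ^ (C + D) := Nat.pow_le_pow_right (by omega) (by omega)
    have h3 := hC s
    have h4 := hD s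
    rw [Polynomial.eval_add, pow_succ]
    nlinarith
  | monomial n a =>
    refine ⟨a + n, fun s => ?_⟩
    rw [Polynomial.eval_monomial, pow_add]
    exact Nat.mul_le_mul (Nat.lt_two_pow_self.le.trans (Nat.pow_le_pow_left (by omega) _))
      (Nat.pow_le_pow_left (by omega) _)

/-- From an implementation to a program. -/
theorem toProg {τ : ι → ℕ} {A' : ι → AS}
    (h : RImp sz I τ (fun _ => TS () (fun _ => 0) []) A') :
    ∃ (P : List (ℕ × ℕ × ℕ × ℕ)) (C : ℕ), ∀ x w, (sz x + 2) ^ C ≤ w →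
      Outputs P w (I x) (((τ x + 1) * (sz x + 2) ^ C : ℕ) : ℝ) (A' x).out := by
  obtain ⟨F, p, hp⟩ := h
  obtain ⟨P, hP⟩ := F.exists_prog
  obtain ⟨C, hC⟩ := exists_pow (2 * p + 1)
  refine ⟨P, C, fun x w hw => ?_⟩
  have h1 := hC (sz x)
  simp only [Polynomial.eval_add, Polynomial.eval_mul, Polynomial.eval_ofNat,
    Polynomial.eval_one] at h1
  obtain ⟨X', r, -⟩ := hp x w (by omega) (fun _ => 0)
    ⟨fun j => by
      have : ext4 (TS () (fun _ => 0) []).S j = [] := by
        unfold ext4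
        split_ifs with h
        · interval_cases j <;> rfl
        · rfl
      rw [this]; rfl, fun key => by simp [TS, enc]⟩
  obtain ⟨t, ht, e⟩ := hP _ _ _ _ _ r
  refine ⟨t, ?_, ?_, ?_⟩
  · have : t ≤ (τ x + 1) * (sz x + 2) ^ C := by nlinarith
    exact_mod_cast this
  · exact (congrArg Prod.fst e).ge
  · exact congrArg (fun s => s.2.2) e

end RImp

end Pool.Agent.Lib.MP_9ec118_lc
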