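import Mathlib

/-!
The gap-producing graph built from a Merlin-Arthur protocol for a sparse CNF formula.
-/

set_option autoImplicit false

namespace Pool.Agent.Lib.MP_9ec118_lc

open Finset Polynomial

/-- The `i`-th digit of `a` in base `B`. -/
def dg (B a i : ℕ) : ℕ := a / B ^ i % B

theorem exists_dg {B : ℕ} (n : ℕ) (f : ℕ → ℕ) (hf : ∀ i < n, f i < B) :
    ∃ a < B ^ n, ∀ i < n, dg B a i = f i := by
  induction n generalizing f with
  | zero => exact ⟨0, by simp, by simp⟩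
  | succ n ih =>
    obtain ⟨a, ha, h⟩ := ih (fun i => f (i + 1)) (fun i hi => hf _ (by omega))
    have h0 := hf 0 (by omega)
    refine ⟨f 0 + B * a, by rw [pow_succ]; nlinarith, fun i hi => ?_⟩
    cases i with
    | zero => simp [dg, Nat.mod_eq_of_lt h0]
    | succ i =>
      rw [← h i (by omega), dg, dg, pow_succ', ← Nat.div_div_eq_div_mul,
        Nat.add_mul_div_left _ _ (by omega), Nat.div_eq_of_lt h0, zero_add]

def horner (r : ℕ) (cs : List ℕ) : ℕ := cs.foldr (fun c s => c + r * s) 0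

theorem exists_horner (q : ℕ) [NeZero q] (n : ℕ) (p : (ZMod q)[X]) (hp : p.natDegree ≤ n) :
    ∃ cs : List ℕ, cs.length = n + 1 ∧ (∀ c ∈ cs, c < q) ∧
      ∀ r : ℕ, (horner r cs : ZMod q) = p.eval (r : ZMod q) := by
  induction n generalizing p with
  | zero =>
    refine ⟨[(p.coeff 0).val], rfl, by simpa using ZMod.val_lt _, fun r => ?_⟩
    rw [eq_C_of_natDegree_le_zero hp]
    simp [horner]
  | succ n ih =>
    obtain ⟨cs, h1, h2, h3⟩ := ih p.divX (by rw [natDegree_divX_eq_natDegree_tsub_one]; omega)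
    refine ⟨(p.coeff 0).val :: cs, by simp [h1], fun c hc => ?_, fun r => ?_⟩
    · rcases List.mem_cons.1 hc with rfl | hc
      exacts [ZMod.val_lt _, h2 c hc]
    · conv_rhs => rw [← divX_mul_X_add p]
      rw [eval_add, eval_mul, eval_X, eval_C, ← h3 r]
      simp only [horner, List.foldr_cons]
      push_cast
      rw [ZMod.natCast_zmod_val]
      ring

/-- The literal `l` lies in part `i` and is made true by the bits of `x`. -/
def hit (b i x l : ℕ) : Prop := l / 2 / b = i ∧ x.testBit (l / 2 % b) = decide (l % 2 = 1)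

instance (b i x l : ℕ) : Decidable (hit b i x l) := by unfold hit; infer_instance

def uc (ψ : List (Finset ℕ)) (b i x j : ℕ) : ℕ :=
  (ψ[j]?).elim 0 fun c => if ∃ l ∈ c, hit b i x l then 0 else 1

def msg (ψ : List (Finset ℕ)) (b q D i x t r : ℕ) : ℕ :=
  (∑ d ∈ range D, uc ψ b i x (t * D + d) * ∏ e ∈ range D, if e = d then 1 else r + q - e) % q

def acc (k q T : ℕ) (cs : List ℕ) (r : ℕ) (m : ℕ → ℕ → ℕ) : Prop :=
  (∑ t ∈ range T, ∏ i ∈ range k, m i t) % q = horner r cs % q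

def rel (ψ : List (Finset ℕ)) (k b B q D T h : ℕ) (cs : List ℕ) (v u : ℕ) : Prop :=
  v / 2 ^ b < k ∧ (u / 2 ^ b < k ∨
    (∃ τ < h ^ k, acc k q T cs (dg B (u % 2 ^ b) 0)
      fun i t => dg B (u % 2 ^ b) ((i * h + dg h τ i) * T + t + 1)) ∨
    ∀ j < h, ∃ t < T, dg B (u % 2 ^ b) ((v / 2 ^ b * h + j) * T + t + 1) ≠
      msg ψ b q D (v / 2 ^ b) v t (dg B (u % 2 ^ b) 0))

/-- The tuple `y` satisfies the clause `c`. -/
def Sat (b : ℕ) (y : ℕ → ℕ) (c : Finset ℕ) : Prop := ∃ l ∈ c, hit b (l / 2 / b) (y (l / 2 / b)) l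

noncomputable def poly (ψ : List (Finset ℕ)) (k b q D T : ℕ) (y : ℕ → ℕ) : (ZMod q)[X] :=
  ∑ t ∈ range T, ∏ i ∈ range k, ∑ d ∈ range D,
    C (uc ψ b i (y i) (t * D + d) : ZMod q) * ∏ e ∈ range D, if e = d then 1 else X - C (e : ZMod q)

theorem natDegree_poly (ψ : List (Finset ℕ)) (k b q D T : ℕ) [Fact q.Prime] (y : ℕ → ℕ) :
    (poly ψ k b q D T y).natDegree ≤ k * D := by
  refine natDegree_sum_le_of_forall_le _ _ fun t _ => (natDegree_prod_le _ _).trans ?_
  refine (sum_le_card_nsmul _ _ D fun i _ => ?_).trans (by simp)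
  refine natDegree_sum_le_of_forall_le _ _ fun d _ => (natDegree_C_mul_le _ _).trans ?_
  refine (natDegree_prod_le _ _).trans ((sum_le_card_nsmul _ _ 1 fun e _ => ?_).trans (by simp))
  split_ifs
  · simp
  · exact (natDegree_X_sub_C _).le

theorem eval_poly (ψ : List (Finset ℕ)) (k b : ℕ) {q D : ℕ} (T : ℕ) (hD : D < q) (y : ℕ → ℕ)
    (r : ℕ) : (poly ψ k b q D T y).eval (r : ZMod q) =
      ((∑ t ∈ range T, ∏ i ∈ range k, msg ψ b q D i (y i) t r : ℕ) : ZMod q) := by
  simp only [poly, msg, eval_finsetSum, eval_prod, eval_mul, eval_C]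
  push_cast
  refine sum_congr rfl fun t _ => prod_congr rfl fun i _ => ?_
  rw [ZMod.natCast_mod]
  push_cast
  refine sum_congr rfl fun d _ => ?_
  congr 1
  refine prod_congr rfl fun e he => ?_
  split_ifs
  · simp
  · rw [Nat.cast_sub (by have := mem_range.1 he; omega)]
    simp

theorem eval_poly_small (ψ : List (Finset ℕ)) (k b : ℕ) {q D : ℕ} (T : ℕ) [Fact q.Prime]
    (hD : D < q) (y : ℕ → ℕ) {d : ℕ} (hd : d < D) :
    ∃ z : ZMod q, z ≠ 0 ∧ (poly ψ k b q D T y).eval (d : ZMod q) =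
      z * ((∑ t ∈ range T, ∏ i ∈ range k, uc ψ b i (y i) (t * D + d) : ℕ) : ZMod q) := by
  refine ⟨(∏ e ∈ range D, if e = d then 1 else (d : ZMod q) - e) ^ k, pow_ne_zero _ ?_, ?_⟩
  · refine prod_ne_zero_iff.2 fun e he => ?_
    split_ifs with h
    · exact one_ne_zero
    · rw [sub_ne_zero, Ne, ZMod.natCast_eq_natCast_iff', Nat.mod_eq_of_lt (by omega),
        Nat.mod_eq_of_lt (by have := mem_range.1 he; omega)]
      exact fun h' => h h'.symm
  · simp only [poly, eval_finsetSum, eval_prod, eval_mul, eval_C]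
    push_cast
    rw [mul_sum]
    refine sum_congr rfl fun t _ => ?_
    conv_rhs => rw [← card_range k, ← prod_const, card_range, ← prod_mul_distrib]
    refine prod_congr rfl fun i _ => ?_
    rw [sum_eq_single_of_mem d (mem_range.2 hd), mul_comm]
    · congr 1
      refine prod_congr rfl fun e _ => ?_
      split_ifs <;> simp
    · intro d' _ hne
      rw [prod_eq_zero (mem_range.2 hd) (by rw [if_neg hne.symm]; simp), mul_zero]

theorem uc_le (ψ : List (Finset ℕ)) (b i x j : ℕ) : uc ψ b i x j ≤ 1 := by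
  unfold uc
  cases ψ[j]? with
  | none => simp
  | some c => simp only [Option.elim]; split_ifs <;> omega

theorem prod_uc_eq_zero {ψ : List (Finset ℕ)} {k b : ℕ} (hk : 0 < k)
    (hψ : ∀ c ∈ ψ, ∀ l ∈ c, l / 2 / b < k) {y : ℕ → ℕ} (hy : ∀ c ∈ ψ, Sat b y c) (j : ℕ) :
    ∏ i ∈ range k, uc ψ b i (y i) j = 0 := by
  cases e : ψ[j]? with
  | none => exact prod_eq_zero (mem_range.2 hk) (by simp [uc, e])
  | some c =>
    have hc := List.mem_of_getElem? e
    obtain ⟨l, hl, h⟩ := hy c hc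
    exact prod_eq_zero (mem_range.2 (hψ c hc l hl)) (by
      simp only [uc, e, Option.elim]
      exact if_pos ⟨l, hl, h⟩)

theorem poly_ne {ψ : List (Finset ℕ)} {k b q D T : ℕ} [Fact q.Prime] (hk : 0 < k) (hD : D < q)
    (hT : T < q) (hlen : ψ.length ≤ T * D) (hψ : ∀ c ∈ ψ, ∀ l ∈ c, l / 2 / b < k) {y y' : ℕ → ℕ}
    (hy : ∀ c ∈ ψ, Sat b y c) (hy' : ¬ ∀ c ∈ ψ, Sat b y' c) :
    poly ψ k b q D T y' ≠ poly ψ k b q D T y := by
  intro he
  push Not at hy'
  obtain ⟨c, hc, hn⟩ := hy'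
  obtain ⟨j, hj, rfl⟩ := List.mem_iff_getElem.1 hc
  have hD0 : 0 < D := Nat.pos_of_ne_zero (by rintro rfl; omega)
  obtain ⟨z, -, h1⟩ := eval_poly_small ψ k b T hD y (Nat.mod_lt j hD0)
  obtain ⟨z', h2, h3⟩ := eval_poly_small ψ k b T hD y' (Nat.mod_lt j hD0)
  rw [he, h1, sum_eq_zero fun t _ => prod_uc_eq_zero hk hψ hy _, Nat.cast_zero, mul_zero,
    eq_comm, mul_eq_zero, or_iff_right h2, ZMod.natCast_eq_zero_iff] at h3
  have h4 : ∑ t ∈ range T, ∏ i ∈ range k, uc ψ b i (y' i) (t * D + j % D) ≤ T :=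
    (sum_le_card_nsmul _ _ 1 fun t _ => prod_le_one' fun i _ => uc_le _ _ _ _ _).trans (by simp)
  have h5 := Nat.eq_zero_of_dvd_of_lt h3 (by omega)
  rw [sum_eq_zero_iff] at h5
  have h6 := h5 (j / D) (mem_range.2 (Nat.div_lt_of_lt_mul (by rw [mul_comm]; omega)))
  rw [Nat.div_add_mod', prod_eq_zero_iff] at h6
  obtain ⟨i, -, h7⟩ := h6
  simp only [uc, List.getElem?_eq_getElem hj, Option.elim] at h7
  split_ifs at h7 with h8
  · obtain ⟨l, hl, h9⟩ := h8
    exact hn ⟨l, hl, by rwa [h9.1]⟩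

theorem acc_iff {ψ : List (Finset ℕ)} {k b q D T : ℕ} (hD : D < q) {cs : List ℕ}
    {p : (ZMod q)[X]} (hcs : ∀ r : ℕ, (horner r cs : ZMod q) = p.eval (r : ZMod q)) (y : ℕ → ℕ)
    (r : ℕ) {m : ℕ → ℕ → ℕ} (hm : ∀ i < k, ∀ t < T, m i t = msg ψ b q D i (y i) t r) :
    acc k q T cs r m ↔ (poly ψ k b q D T y).eval (r : ZMod q) = p.eval (r : ZMod q) := by
  rw [acc, ← ZMod.natCast_eq_natCast_iff', hcs, eval_poly ψ k b T hD,
    sum_congr rfl fun t ht => prod_congr rfl fun i hi => hm i (mem_range.1 hi) t (mem_range.1 ht)]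

theorem msg_congr (ψ : List (Finset ℕ)) {b : ℕ} (hb : 0 < b) (q D i : ℕ) {x x' : ℕ}
    (h : ∀ j < b, x.testBit j = x'.testBit j) (t r : ℕ) :
    msg ψ b q D i x t r = msg ψ b q D i x' t r := by
  have : ∀ l, hit b i x l ↔ hit b i x' l := fun l => by
    rw [hit, hit, h _ (Nat.mod_lt _ hb)]
  simp only [msg, uc, this]

theorem gadget {ψ : List (Finset ℕ)} {k b B q D T h N : ℕ} (hN : N = (k + 1) * 2 ^ b)
    (hq : q.Prime) (hk : 0 < k) (hb : 0 < b) (hD : D < q) (hT : T < q) (hB : q ≤ B)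
    (hBb : B ^ (k * h * T + 1) ≤ 2 ^ b) (hh : h ^ k * (k * D) + h < q)
    (hlen : ψ.length ≤ T * D) (hψ : ∀ c ∈ ψ, ∀ l ∈ c, l / 2 / b < k) {y : ℕ → ℕ}
    (hy : ∀ c ∈ ψ, Sat b y c) :
    ∃ cs : List ℕ, cs.length = k * D + 1 ∧ (∀ c ∈ cs, c < q) ∧
      ∀ G : SimpleGraph (Fin N), (∀ u v : Fin N, G.Adj u v ↔ u.val ≠ v.val ∧
        (rel ψ k b B q D T h cs u v ∨ rel ψ k b B q D T h cs v u)) →
      (∃ S : Finset (Fin N), S.card = k ∧ ∀ v, ∃ u ∈ S, u = v ∨ G.Adj u v) ∧
      ∀ out : List ℕ, out.length ≤ h → (∀ v, ∃ u : Fin N, u.val ∈ out ∧ (u = v ∨ G.Adj u v)) →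
        ∃ τ < h ^ k, ∀ c ∈ ψ, Sat b (fun i => out.getD (dg h τ i) 0) c := by
  have : Fact q.Prime := ⟨hq⟩
  obtain ⟨cs, h1, h2, h3⟩ := exists_horner q (k * D) _ (natDegree_poly ψ k b q D T y)
  have hp : 0 < 2 ^ b := by positivity
  refine ⟨cs, h1, h2, fun G hG => ⟨?_, fun out ho hdom => ?_⟩⟩
  · let f : Fin k → Fin N := fun i => ⟨2 ^ b * i + y i % 2 ^ b, by
      have := Nat.mod_lt (y i) hp
      have := i.2
      rw [hN]
      nlinarith⟩
    have hf : ∀ i, (f i).val / 2 ^ b = i := fun i => by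
      simp only [f]
      rw [Nat.mul_add_div hp, Nat.div_eq_of_lt (Nat.mod_lt _ hp), add_zero]
    have hf' : ∀ i t r, msg ψ b q D i.val (f i) t r = msg ψ b q D i (y i) t r := fun i t r =>
      msg_congr ψ hb _ _ _ (fun j hj => by
        simp only [f]
        rw [Nat.testBit_two_pow_mul_add _ (Nat.mod_lt _ hp), if_pos hj, Nat.testBit_mod_two_pow,
          decide_eq_true hj, Bool.true_and]) t r
    refine ⟨univ.image f, ?_, fun v => ?_⟩
    · rw [card_image_of_injective _ fun i j e => Fin.ext (by rw [← hf i, ← hf j, e]), card_univ,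
        Fintype.card_fin]
    have key : ∀ i, rel ψ k b B q D T h cs (f i) v → ∃ u ∈ univ.image f, u = v ∨ G.Adj u v := by
      intro i hi
      refine ⟨f i, mem_image_of_mem _ (mem_univ _), ?_⟩
      by_cases e : f i = v
      exacts [Or.inl e, Or.inr ((hG _ _).2 ⟨fun h => e (Fin.ext h), Or.inl hi⟩)]
    by_contra hcon
    have hall : ∀ i, ¬ rel ψ k b B q D T h cs (f i) v := fun i hi => hcon (key i hi)
    have h4 : ∀ i, ∃ j, i < k → j < h ∧ ∀ t < T, dg B (v % 2 ^ b) ((i * h + j) * T + t + 1) =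
        msg ψ b q D i (y i) t (dg B (v % 2 ^ b) 0) := by
      intro i
      by_cases hi : i < k
      · have := hall ⟨i, hi⟩
        rw [rel, hf] at this
        simp only [not_and, not_or, not_forall, not_exists, not_not] at this
        obtain ⟨j, hj, h5⟩ := (this hi).2.2
        exact ⟨j, fun _ => ⟨hj, fun t ht => (h5 t ht).trans (hf' ⟨i, hi⟩ _ _)⟩⟩
      · exact ⟨0, fun h => absurd h hi⟩
    choose j hj using h4
    obtain ⟨τ, hτ, h5⟩ := exists_dg k j fun i hi => (hj i hi).1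
    refine hall ⟨0, hk⟩ ⟨by rw [hf]; exact hk, Or.inr (Or.inl ⟨τ, hτ, ?_⟩)⟩
    exact (acc_iff hD h3 y _ fun i hi t ht => by rw [h5 i hi, (hj i hi).2 t ht]).2 rfl
  · by_contra hcon
    push Not at hcon
    let z : ℕ → ℕ → ℕ := fun τ i => out.getD (dg h τ i) 0
    let bad : Finset (ZMod q) := (range (h ^ k)).biUnion
      (fun τ => (poly ψ k b q D T (z τ) - poly ψ k b q D T y).roots.toFinset) ∪
      out.toFinset.image fun u => (dg B (u % 2 ^ b) 0 : ZMod q)
    have hbad : bad.card < (univ : Finset (ZMod q)).card := by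
      rw [card_univ, ZMod.card]
      refine ((card_union_le _ _).trans (add_le_add ?_ ?_)).trans_lt hh
      · refine (card_biUnion_le_card_mul _ _ (k * D) fun τ _ => ?_).trans (by simp)
        exact (Multiset.toFinset_card_le _).trans ((card_roots' _).trans
          ((natDegree_sub_le _ _).trans (max_le (natDegree_poly ..) (natDegree_poly ..))))
      · exact card_image_le.trans ((List.toFinset_card_le _).trans ho)
    obtain ⟨ρ, -, hρ⟩ := exists_mem_notMem_of_card_lt_card hbad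
    obtain ⟨a, ha, h4⟩ := exists_dg (B := B) (k * h * T + 1) (fun j => if j = 0 then ρ.val else
        msg ψ b q D ((j - 1) / T / h) (out.getD ((j - 1) / T % h) 0) ((j - 1) % T) ρ.val)
      (fun j _ => by
        split_ifs
        exacts [(ZMod.val_lt _).trans_le hB, (Nat.mod_lt _ hq.pos).trans_le hB])
    have h5 : dg B a 0 = ρ.val := by simpa using h4 0 (by omega)
    have h6 : ∀ i < k, ∀ j < h, ∀ t < T, dg B a ((i * h + j) * T + t + 1) =
        msg ψ b q D i (out.getD j 0) t ρ.val := by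
      intro i hi j hj t ht
      have e1 : ((i * h + j) * T + t) / T = i * h + j := by
        rw [add_comm, Nat.add_mul_div_right _ _ (by omega), Nat.div_eq_of_lt ht, zero_add]
      have e2 : (i * h + j) / h = i := by
        rw [add_comm, Nat.add_mul_div_right _ _ (by omega), Nat.div_eq_of_lt hj, zero_add]
      have e3 : i * h + j + 1 ≤ k * h := by nlinarith
      rw [h4 _ (by nlinarith), if_neg (by omega), Nat.add_sub_cancel, e1, e2,
        Nat.mul_add_mod_self_right, Nat.mul_add_mod_self_right, Nat.mod_eq_of_lt hj,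
        Nat.mod_eq_of_lt ht]
    have ha' : a < 2 ^ b := ha.trans_le hBb
    let u : Fin N := ⟨2 ^ b * k + a, by rw [hN]; nlinarith⟩
    have hu1 : u.val / 2 ^ b = k := by
      simp only [u]
      rw [Nat.mul_add_div hp, Nat.div_eq_of_lt ha', add_zero]
    have hu2 : u.val % 2 ^ b = a := by
      simp only [u]
      rw [Nat.mul_add_mod, Nat.mod_eq_of_lt ha']
    obtain ⟨v, hv, hvu⟩ := hdom u
    rcases hvu with rfl | hvu
    · refine hρ (mem_union_right _ (mem_image.2 ⟨_, List.mem_toFinset.2 hv, ?_⟩))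
      rw [hu2, h5, ZMod.natCast_zmod_val]
    rcases ((hG _ _).1 hvu).2 with hr | hr
    swap
    · have := hr.1
      omega
    rw [rel, hu1, hu2, h5] at hr
    obtain ⟨h7, h8 | ⟨τ, hτ, h8⟩ | h8⟩ := hr
    · omega
    · have hh0 : 0 < h := Nat.pos_of_ne_zero (by rintro rfl; simp [hk.ne'] at hτ)
      rw [acc_iff hD h3 (z τ) _ fun i hi t ht => h6 i hi (dg h τ i) (Nat.mod_lt _ hh0) t ht,
        ZMod.natCast_zmod_val] at h8
      refine hρ (mem_union_left _ (mem_biUnion.2 ⟨τ, mem_range.2 hτ, Multiset.mem_toFinset.2 ?_⟩))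
      rw [mem_roots (sub_ne_zero.2 (poly_ne hk hD hT hlen hψ hy (by
        push Not; exact hcon τ hτ))), IsRoot.def, eval_sub, h8, sub_self]
    · obtain ⟨j, hj, e⟩ := List.mem_iff_getElem.1 hv
      obtain ⟨t, ht, h9⟩ := h8 j (by omega)
      exact h9 (by rw [h6 _ h7 j (by omega) t ht, List.getD_eq_getElem _ _ hj, e])

end Pool.Agent.Lib.MP_9ec118_lc
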