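import Mathlib

/-!
An online form of the sparsification lemma of Impagliazzo, Paturi and Zane.
Clauses are finite sets of literals; `X` is the set of literals made true by an assignment.
-/

set_option autoImplicit false

namespace Pool.Agent.Lib.MP_9ec118_lc

open Finset

abbrev Cl := Finset ℕ

/-- The clauses of size `j` that contain `H` and are not subsumed. -/
def fl (ψ : List Cl) (j : ℕ) (H : Cl) : List Cl :=
  ψ.filter fun T => decide (T.card = j ∧ H ⊆ T ∧ ∀ R ∈ ψ, R ⊆ T → T ⊆ R)

def subs : ℕ → Cl → List Cl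
  | 0, S => [S]
  | j + 1, S => S :: (S.sort (· ≤ ·)).flatMap fun a => subs j (S.filter (· ≠ a))

def cands (θ : ℕ → ℕ) (K : ℕ) (ψ : List Cl) (S : Cl) : List Cl :=
  (subs K S).filter fun H =>
    decide (0 < H.card ∧ H.card < S.card ∧ θ (S.card - H.card) ≤ (fl ψ S.card H).length)

def heart (θ : ℕ → ℕ) (K : ℕ) (ψ : List Cl) (S : Cl) : Option Cl :=
  ((cands θ K ψ S).filter fun H => decide (∀ H' ∈ cands θ K ψ S, H'.card ≤ H.card)).head?

def ins (θ : ℕ → ℕ) (K N Z : ℕ) (J : List ℕ) : ℕ → Cl → List Cl × ℕ → List Cl × ℕ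
  | 0, _, st => st
  | f + 1, S, st =>
    if (∃ T ∈ st.1, T ⊆ S) ∨ ¬ (S.card ≤ K ∧ S ⊆ range N) then st else
    (heart θ K (S :: st.1) S).elim (S :: st.1, st.2) fun H =>
      if st.2 + 1 ∈ J then
        ((fl (S :: st.1) S.card H).take Z).foldl (fun st' T => ins θ K N Z J f (T \ H) st')
          (S :: st.1, st.2 + 1)
      else ins θ K N Z J f H (S :: st.1, st.2 + 1)

theorem mem_fl {ψ : List Cl} {j : ℕ} {H T : Cl} :
    T ∈ fl ψ j H ↔ T ∈ ψ ∧ T.card = j ∧ H ⊆ T ∧ ∀ R ∈ ψ, R ⊆ T → T ⊆ R := by
  simp [fl]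

theorem subset_of_mem_subs {j : ℕ} {S H : Cl} (h : H ∈ subs j S) : H ⊆ S := by
  induction j generalizing S with
  | zero => simp only [subs, List.mem_singleton] at h; rw [h]
  | succ j ih =>
    simp only [subs, List.mem_cons, List.mem_flatMap] at h
    rcases h with rfl | ⟨a, _, h⟩
    · exact subset_rfl
    · exact (ih h).trans (filter_subset _ _)

theorem mem_subs {j : ℕ} {S H : Cl} (h : H ⊆ S) (hc : S.card ≤ H.card + j) : H ∈ subs j S := by
  induction j generalizing S with
  | zero => simp [subs, eq_of_subset_of_card_le h hc]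
  | succ j ih =>
    by_cases e : H = S
    · simp [subs, e]
    · obtain ⟨a, haS, haH⟩ := exists_of_ssubset (h.ssubset_of_ne e)
      simp only [subs, List.mem_cons, List.mem_flatMap, mem_sort]
      refine Or.inr ⟨a, haS, ih (fun b hb => mem_filter.2 ⟨h hb, fun e => haH (e ▸ hb)⟩) ?_⟩
      rw [filter_ne', card_erase_of_mem haS]
      omega

theorem heart_none {θ : ℕ → ℕ} {K : ℕ} {ψ : List Cl} {S : Cl} (hS : S.card ≤ K)
    (h : heart θ K ψ S = none) (H : Cl) (h1 : H.Nonempty) (h2 : H ⊂ S) :
    (fl ψ S.card H).length < θ (S.card - H.card) := by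
  by_contra hc
  have hm : H ∈ cands θ K ψ S := by
    simp only [cands, List.mem_filter, decide_eq_true_eq]
    exact ⟨mem_subs h2.subset (by omega), card_pos.2 h1, card_lt_card h2, by omega⟩
  obtain ⟨G, hG, hmax⟩ := exists_max_image (cands θ K ψ S).toFinset card
    ⟨H, List.mem_toFinset.2 hm⟩
  rw [heart, List.head?_eq_none_iff, List.filter_eq_nil_iff] at h
  exact h G (List.mem_toFinset.1 hG)
    (decide_eq_true fun H' hH' => hmax H' (List.mem_toFinset.2 hH'))

theorem heart_some {θ : ℕ → ℕ} {K : ℕ} {ψ : List Cl} {S H : Cl} (hS : S.card ≤ K)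
    (h : heart θ K ψ S = some H) :
    H.Nonempty ∧ H ⊂ S ∧ θ (S.card - H.card) ≤ (fl ψ S.card H).length ∧
      ∀ G : Cl, G ⊂ S → H.card < G.card → (fl ψ S.card G).length < θ (S.card - G.card) := by
  have hm := List.mem_of_mem_head? h
  simp only [List.mem_filter, decide_eq_true_eq] at hm
  obtain ⟨h1, h2⟩ := hm
  simp only [cands, List.mem_filter, decide_eq_true_eq] at h1 h2
  obtain ⟨h3, h4, h5, h6⟩ := h1
  refine ⟨card_pos.1 h4, (subset_of_mem_subs h3).ssubset_of_ne (by rintro rfl; omega), h6,
    fun G hG hc => ?_⟩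
  by_contra hn
  have := h2 G ⟨mem_subs hG.subset (by omega), by omega, card_lt_card hG, by omega⟩
  omega

theorem length_le_of_subset {l l' : List Cl} (hl : l.Nodup) (h : ∀ T ∈ l, T ∈ l') :
    l.length ≤ l'.length := (List.subperm_of_subset hl h).length_le

theorem nodup_fl {ψ : List Cl} (h : ψ.Nodup) (j : ℕ) (H : Cl) : (fl ψ j H).Nodup := h.filter _

section

variable (θ : ℕ → ℕ) (K N : ℕ) (X : Set ℕ)

def Strict (ψ : List Cl) (j : ℕ) : Prop :=
  ∀ H : Cl, H.Nonempty → (fl ψ j H).length < θ (j - H.card)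

structure Inv (ψ : List Cl) : Prop where
  nodup : ψ.Nodup
  ok : ∀ T ∈ ψ, T.card ≤ K ∧ T ⊆ range N ∧ ∃ a ∈ T, a ∈ X
  weak : ∀ j (H : Cl), H.Nonempty → (fl ψ j H).length ≤ θ (j - H.card)
  dead : ∀ j, (ψ.filter fun T => decide (T.card = j)).length ≤ (fl ψ j ∅).length +
    θ (j - 1) * (ψ.filter fun T => decide (T.card < j)).length

variable {θ K N X}

theorem fl_append_subset {ψ new : List Cl} {j : ℕ} {H : Cl}
    (h : ∀ T ∈ new, T.card = j → ∃ R ∈ new ++ ψ, R ⊂ T) :
    ∀ T ∈ fl (new ++ ψ) j H, T ∈ fl ψ j H := by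
  intro T hT
  rw [mem_fl] at hT ⊢
  obtain ⟨h1, h2, h3, h4⟩ := hT
  refine ⟨(List.mem_append.1 h1).resolve_left fun hn => ?_, h2, h3,
    fun R hR => h4 R (List.mem_append_right _ hR)⟩
  obtain ⟨R, hR, hRT⟩ := h T hn h2
  exact hRT.2 (h4 R hR hRT.1)

theorem Strict.append {ψ new : List Cl} {j : ℕ} (hs : Strict θ ψ j) (hn : (new ++ ψ).Nodup)
    (h : ∀ T ∈ new, T.card = j → ∃ R ∈ new ++ ψ, R ⊂ T) : Strict θ (new ++ ψ) j :=
  fun H hH => (length_le_of_subset (nodup_fl hn _ _) (fl_append_subset h)).trans_lt (hs H hH)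

theorem length_fl_cons_le {ψ : List Cl} {S : Cl} (hn : (S :: ψ).Nodup) (j : ℕ) (H : Cl) :
    (fl (S :: ψ) j H).length ≤ (fl ψ j H).length + 1 := by
  refine length_le_of_subset (l' := S :: fl ψ j H) (nodup_fl hn _ _) fun T hT => ?_
  rw [mem_fl] at hT
  obtain ⟨h1, h2, h3, h4⟩ := hT
  rcases List.mem_cons.1 h1 with rfl | h1
  · exact List.mem_cons_self
  · exact List.mem_cons_of_mem _ (mem_fl.2 ⟨h1, h2, h3, fun R hR => h4 R (List.mem_cons_of_mem _ hR)⟩)

theorem length_fl_cons_le' {ψ : List Cl} {S : Cl} (hn : (S :: ψ).Nodup) (j : ℕ) (H : Cl)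
    (h : ¬ (S.card = j ∧ H ⊆ S)) : (fl (S :: ψ) j H).length ≤ (fl ψ j H).length := by
  refine length_le_of_subset (nodup_fl hn _ _) fun T hT => ?_
  rw [mem_fl] at hT
  obtain ⟨h1, h2, h3, h4⟩ := hT
  rcases List.mem_cons.1 h1 with rfl | h1
  · exact absurd ⟨h2, h3⟩ h
  · exact mem_fl.2 ⟨h1, h2, h3, fun R hR => h4 R (List.mem_cons_of_mem _ hR)⟩

theorem length_fl_self_le {ψ : List Cl} (hn : ψ.Nodup) (S : Cl) :
    (fl ψ S.card S).length ≤ 1 := by
  refine length_le_of_subset (l' := [S]) (nodup_fl hn _ _) fun T hT => ?_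
  rw [mem_fl] at hT
  rw [List.mem_singleton]
  exact (eq_of_subset_of_card_le hT.2.2.1 hT.2.1.le).symm

theorem Inv.cons (hθ : Monotone θ) {ψ : List Cl} (h : Inv θ K N X ψ) {S : Cl}
    (hS : S.card ≤ K ∧ S ⊆ range N ∧ ∃ a ∈ S, a ∈ X) (hns : ∀ T ∈ ψ, ¬ T ⊆ S)
    (hs : Strict θ ψ S.card) : Inv θ K N X (S :: ψ) := by
  have hn : (S :: ψ).Nodup := List.nodup_cons.2 ⟨fun hm => hns S hm subset_rfl, h.nodup⟩
  refine ⟨hn, fun T hT => ?_, fun j H hH => ?_, fun j => ?_⟩
  · rcases List.mem_cons.1 hT with rfl | hT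
    exacts [hS, h.ok T hT]
  · by_cases e : S.card = j
    · subst e
      have := length_fl_cons_le hn S.card H
      have := hs H hH
      omega
    · exact (length_fl_cons_le' hn j H fun h => e h.1).trans (h.weak j H hH)
  · have hd := h.dead j
    have hSne : S.Nonempty := by obtain ⟨a, ha, -⟩ := hS.2.2; exact ⟨a, ha⟩
    rcases lt_trichotomy S.card j with e | e | e
    · have k1 : (fl ψ j ∅).length ≤ (fl (S :: ψ) j ∅ ++ fl ψ j S).length := by
        refine length_le_of_subset (nodup_fl h.nodup _ _) fun T hT => ?_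
        rw [mem_fl] at hT
        obtain ⟨h1, h2, h3, h4⟩ := hT
        rw [List.mem_append, mem_fl, mem_fl]
        by_cases hST : S ⊆ T
        · exact Or.inr ⟨h1, h2, hST, h4⟩
        · refine Or.inl ⟨List.mem_cons_of_mem _ h1, h2, h3, fun R hR hRT => ?_⟩
          rcases List.mem_cons.1 hR with rfl | hR
          exacts [absurd hRT hST, h4 R hR hRT]
      have k2 := h.weak j S hSne
      have k3 : θ (j - S.card) ≤ θ (j - 1) := hθ (by have := card_pos.2 hSne; omega)
      rw [List.length_append] at k1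
      rw [List.filter_cons_of_neg (by simp; omega), List.filter_cons_of_pos (by simpa using e),
        List.length_cons, mul_add]
      omega
    · have k1 : (S :: fl ψ j ∅).length ≤ (fl (S :: ψ) j ∅).length := by
        refine length_le_of_subset (List.nodup_cons.2 ⟨fun hm => hns S (mem_fl.1 hm).1 subset_rfl,
          nodup_fl h.nodup _ _⟩) fun T hT => ?_
        rw [mem_fl]
        rcases List.mem_cons.1 hT with rfl | hT
        · refine ⟨List.mem_cons_self, e, empty_subset _, fun R hR hRT => ?_⟩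
          rcases List.mem_cons.1 hR with rfl | hR
          exacts [subset_rfl, absurd hRT (hns R hR)]
        · obtain ⟨h1, h2, h3, h4⟩ := mem_fl.1 hT
          refine ⟨List.mem_cons_of_mem _ h1, h2, h3, fun R hR hRT => ?_⟩
          rcases List.mem_cons.1 hR with rfl | hR
          · exact (eq_of_subset_of_card_le hRT (by omega)).ge
          · exact h4 R hR hRT
      rw [List.length_cons] at k1
      rw [List.filter_cons_of_pos (by simpa using e), List.filter_cons_of_neg (by simp; omega),
        List.length_cons]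
      omega
    · have k1 : (fl ψ j ∅).length ≤ (fl (S :: ψ) j ∅).length := by
        refine length_le_of_subset (nodup_fl h.nodup _ _) fun T hT => ?_
        obtain ⟨h1, h2, h3, h4⟩ := mem_fl.1 hT
        refine mem_fl.2 ⟨List.mem_cons_of_mem _ h1, h2, h3, fun R hR hRT => ?_⟩
        rcases List.mem_cons.1 hR with rfl | hR
        · have := card_le_card hRT; omega
        · exact h4 R hR hRT
      rw [List.filter_cons_of_neg (by simp; omega), List.filter_cons_of_neg (by simp; omega)]
      omega

end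

/-- The outcome of a run along the branch of the assignment `X`. -/
def Outcome (θ : ℕ → ℕ) (K N : ℕ) (X : Set ℕ) (wt : ℕ → ℝ) (f p : ℕ) (L : List Cl)
    (run : List ℕ → List Cl × ℕ) (st : List Cl × ℕ) : Prop :=
  ∃ (new : List Cl) (c' : ℕ) (J0 : Finset ℕ),
    (∀ J : List ℕ, (∀ i, st.2 < i → i ≤ c' → (i ∈ J ↔ i ∈ J0)) → run J = (new ++ st.1, c')) ∧
    (∀ i ∈ J0, st.2 < i ∧ i ≤ c') ∧ st.2 ≤ c' ∧ c' ≤ st.2 + new.length ∧
    Inv θ K N X (new ++ st.1) ∧ (∀ j, Strict θ st.1 j → Strict θ (new ++ st.1) j) ∧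
    (∀ T ∈ new, T.card ≤ p) ∧ (J0.card : ℝ) ≤ f * (new.map fun T => wt T.card).sum ∧
    ∀ S ∈ L, ∃ T ∈ new ++ st.1, T ⊆ S

theorem outcome_foldl {θ : ℕ → ℕ} {K N : ℕ} {X : Set ℕ} {wt : ℕ → ℝ} {f p : ℕ}
    (G : List ℕ → Cl → List Cl × ℕ → List Cl × ℕ) (L : List Cl)
    (hG : ∀ S ∈ L, ∀ st : List Cl × ℕ, Inv θ K N X st.1 → (∀ j ≤ p, Strict θ st.1 j) →
      Outcome θ K N X wt f p [S] (fun J => G J S st) st)
    (st : List Cl × ℕ) (h1 : Inv θ K N X st.1) (h2 : ∀ j ≤ p, Strict θ st.1 j) :
    Outcome θ K N X wt f p L (fun J => L.foldl (fun st' T => G J T st') st) st := by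
  induction L generalizing st with
  | nil => exact ⟨[], st.2, ∅, fun _ _ => rfl, by simp, le_rfl, by simp, h1, fun _ h => h,
      by simp, by simp, by simp⟩
  | cons S L ih =>
    obtain ⟨n1, c1, J1, a1, a2, a3, a4, a5, a6, a7, a8, a9⟩ :=
      hG S List.mem_cons_self st h1 h2
    obtain ⟨n2, c2, J2, b1, b2, b3, b4, b5, b6, b7, b8, b9⟩ :=
      ih (fun S hS => hG S (List.mem_cons_of_mem _ hS)) (n1 ++ st.1, c1) a5
        (fun j hj => a6 j (h2 j hj))
    simp only at b1 b2 b3 b4 b5 b6 b9
    refine ⟨n2 ++ n1, c2, J1 ∪ J2, fun J hJ => ?_, fun i hi => ?_, by omega, ?_, ?_, ?_, ?_, ?_, ?_⟩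
    · have e1 : G J S st = (n1 ++ st.1, c1) := a1 J fun i h h' => by
        rw [hJ i h (by omega), mem_union]
        exact or_iff_left fun h2 => by have := b2 i h2; omega
      beta_reduce
      rw [List.foldl_cons, e1, List.append_assoc]
      exact b1 J fun i h h' => by
        rw [hJ i (by omega) h', mem_union]
        exact or_iff_right fun h2 => by have := a2 i h2; omega
    · rcases mem_union.1 hi with h | h
      · have := a2 i h; omega
      · have := b2 i h; omega
    · rw [List.length_append]; omega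
    · rwa [List.append_assoc]
    · rw [List.append_assoc]; exact fun j hj => b6 j (a6 j hj)
    · intro T hT
      rcases List.mem_append.1 hT with h | h
      exacts [b7 T h, a7 T h]
    · have : ((J1 ∪ J2).card : ℝ) ≤ J1.card + J2.card := by exact_mod_cast card_union_le _ _
      rw [List.map_append, List.sum_append, mul_add]
      linarith
    · intro S' hS'
      rw [List.append_assoc]
      rcases List.mem_cons.1 hS' with rfl | hS'
      · obtain ⟨T, hT, hTS⟩ := a9 S' List.mem_cons_self
        exact ⟨T, List.mem_append_right _ hT, hTS⟩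
      · exact b9 S' hS'

theorem outcome_ins {θ : ℕ → ℕ} {K N Z : ℕ} {X : Set ℕ} {wt : ℕ → ℝ} (hθ : Monotone θ)
    (hθ0 : 2 ≤ θ 0) (hZ : ∀ p, θ p ≤ Z) (hw0 : ∀ i, 0 ≤ wt i)
    (hw : ∀ i p, 1 ≤ i → i ≤ p → p ≤ K → (θ (p - 1) : ℝ) ≤ wt i * θ p) (f : ℕ) :
    ∀ (S : Cl) (st : List Cl × ℕ), S.card ≤ f → (S.card ≤ K ∧ S ⊆ range N ∧ ∃ a ∈ S, a ∈ X) →
      Inv θ K N X st.1 → (∀ j ≤ S.card, Strict θ st.1 j) →
      Outcome θ K N X wt f S.card [S] (fun J => ins θ K N Z J f S st) st := by
  induction f with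
  | zero =>
    intro S st hf hS _ _
    obtain ⟨a, ha, -⟩ := hS.2.2
    have := card_pos.2 ⟨a, ha⟩
    omega
  | succ f ih =>
    rintro S ⟨ψ, c⟩ hf hS hI hst
    simp only at hI hst
    by_cases hsub : ∃ T ∈ ψ, T ⊆ S
    · exact ⟨[], c, ∅, fun J _ => by simp only [ins, if_pos (Or.inl hsub)]; rfl, by simp, le_rfl,
        by simp, hI, fun _ h => h, by simp, by simp, by simpa using hsub⟩
    have hns : ∀ T ∈ ψ, ¬ T ⊆ S := fun T hT h => hsub ⟨T, hT, h⟩
    have hguard : ¬ ((∃ T ∈ ψ, T ⊆ S) ∨ ¬ (S.card ≤ K ∧ S ⊆ range N)) := by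
      rintro (h | h)
      exacts [hsub h, h ⟨hS.1, hS.2.1⟩]
    have hI' := hI.cons hθ hS hns (hst _ le_rfl)
    have hother : ∀ j, j ≠ S.card → Strict θ ψ j → Strict θ (S :: ψ) j := fun j hj hs =>
      hs.append (new := [S]) hI'.nodup (by simp; omega)
    have hnot : ∀ G : Cl, G.Nonempty → ¬ G ⊂ S →
        (fl (S :: ψ) S.card G).length < θ (S.card - G.card) := by
      intro G hG hGS
      by_cases e : G = S
      · subst e
        have := length_fl_self_le hI'.nodup G
        rw [Nat.sub_self]
        omega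
      · exact (length_fl_cons_le' hI'.nodup _ G fun h => hGS (h.2.ssubset_of_ne e)).trans_lt
          (hst _ le_rfl G hG)
    cases hh : heart θ K (S :: ψ) S with
    | none =>
      refine ⟨[S], c, ∅, fun J _ => by simp only [ins, if_neg hguard, hh]; rfl, by simp, le_rfl,
        by simp, hI', fun j hj => ?_, by simp, ?_, by simp⟩
      · by_cases e : j = S.card
        · subst e
          intro G hG
          by_cases hGS : G ⊂ S
          exacts [heart_none hS.1 hh G hG hGS, hnot G hG hGS]
        · exact hother j e hj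
      · have := hw0 S.card
        simp only [card_empty, Nat.cast_zero, List.map_cons, List.map_nil, List.sum_cons,
          List.sum_nil, add_zero]
        positivity
    | some H =>
      obtain ⟨hH1, hH2, hH3, hH4⟩ := heart_some hS.1 hh
      have hHc := card_lt_card hH2
      have hHp := card_pos.2 hH1
      have finish : ∀ (n1 : List Cl), Inv θ K N X (n1 ++ S :: ψ) →
          (∀ j, Strict θ (S :: ψ) j → Strict θ (n1 ++ S :: ψ) j) → (∀ T ∈ n1, T.card < S.card) →
          (∃ R ∈ n1 ++ S :: ψ, R ⊂ S) →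
          Inv θ K N X ((n1 ++ [S]) ++ ψ) ∧ (∀ j, Strict θ ψ j → Strict θ ((n1 ++ [S]) ++ ψ) j) ∧
            (∀ T ∈ n1 ++ [S], T.card ≤ S.card) ∧ ∀ S' ∈ [S], ∃ T ∈ (n1 ++ [S]) ++ ψ, T ⊆ S' := by
        intro n1 a5 a6 a7 a9
        have e : (n1 ++ [S]) ++ ψ = n1 ++ S :: ψ := by simp
        refine ⟨e ▸ a5, fun j hj => ?_, fun T hT => ?_,
          fun S' hS' => ⟨S, by simp, by rw [List.mem_singleton.1 hS']⟩⟩
        · by_cases ej : j = S.card
          · subst ej
            refine hj.append (e ▸ a5.nodup) fun T hT hc => ?_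
            rcases List.mem_append.1 hT with h | h
            · have := a7 T h; omega
            · rw [List.mem_singleton.1 h, e]; exact a9
          · rw [e]; exact a6 j (hother j ej hj)
        · rcases List.mem_append.1 hT with h | h
          · exact (a7 T h).le
          · rw [List.mem_singleton.1 h]
      by_cases hX : ∃ a ∈ H, a ∈ X
      · obtain ⟨n1, c1, J1, a1, a2, a3, a4, a5, a6, a7, a8, a9⟩ :=
          ih H (S :: ψ, c + 1) (by omega) ⟨by omega, hH2.subset.trans hS.2.1, hX⟩ hI'
            (fun j hj => hother j (by omega) (hst j (by omega)))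
        simp only at a1 a2 a3 a4 a5 a6 a9
        obtain ⟨b1, b2, b3, b4⟩ := finish n1 a5 a6 (fun T hT => (a7 T hT).trans_lt hHc) (by
          obtain ⟨T, hT, hTH⟩ := a9 H List.mem_cons_self
          exact ⟨T, hT, hTH.trans_ssubset hH2⟩)
        refine ⟨n1 ++ [S], c1, J1, fun J hJ => ?_, fun i hi => by have := a2 i hi; omega, by omega,
          by simp; omega, b1, b2, b3, ?_, b4⟩
        · have hc : c + 1 ∉ J := by
            rw [hJ (c + 1) (by simp) a3]
            intro h; have := a2 _ h; omega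
          simp only [ins, if_neg hguard, hh, Option.elim, if_neg hc, List.append_assoc]
          exact a1 J fun i h h' => hJ i (by simp only; omega) h'
        · have h1 := hw0 S.card
          have h2 : 0 ≤ (n1.map fun T => wt T.card).sum :=
            List.sum_nonneg (by simp only [List.mem_map]; rintro _ ⟨T, -, rfl⟩; exact hw0 _)
          simp only [List.map_append, List.sum_append, List.map_cons, List.map_nil, List.sum_cons,
            List.sum_nil, add_zero]
          push_cast
          nlinarith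
      · have htake : (fl (S :: ψ) S.card H).take Z = fl (S :: ψ) S.card H :=
          List.take_of_length_le ((hI'.weak _ H hH1).trans (hZ _))
        have hcard : ∀ T ∈ fl (S :: ψ) S.card H, (T \ H).card = S.card - H.card := fun T hT => by
          rw [card_sdiff_of_subset (mem_fl.1 hT).2.2.1, (mem_fl.1 hT).2.1]
        obtain ⟨n1, c1, J1, a1, a2, a3, a4, a5, a6, a7, a8, a9⟩ :=
          outcome_foldl (wt := wt) (f := f) (p := S.card - H.card) (fun J => ins θ K N Z J f)
            ((fl (S :: ψ) S.card H).map (· \ H)) (fun S' hS' st h1 h2 => by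
              obtain ⟨T, hT, rfl⟩ := List.mem_map.1 hS'
              have hk := hI'.ok T (mem_fl.1 hT).1
              have := ih (T \ H) st (by rw [hcard T hT]; omega)
                ⟨(card_le_card sdiff_subset).trans hk.1, sdiff_subset.trans hk.2.1, by
                  obtain ⟨a, ha, haX⟩ := hk.2.2
                  exact ⟨a, mem_sdiff.2 ⟨ha, fun h => hX ⟨a, h, haX⟩⟩, haX⟩⟩ h1
                (by rw [hcard T hT]; exact h2)
              rwa [hcard T hT] at this)
            (S :: ψ, c + 1) hI' (fun j hj => hother j (by omega) (hst j (by omega)))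
        simp only at a1 a2 a3 a4 a5 a6 a9
        have hpet : ∀ T ∈ fl (S :: ψ) S.card H, ∃ R ∈ n1 ++ S :: ψ, R ⊆ T \ H := fun T hT =>
          a9 _ (List.mem_map.2 ⟨T, hT, rfl⟩)
        have hss : ∀ T : Cl, H ⊆ T → T \ H ⊂ T := fun T hT => sdiff_ssubset hT hH1
        have hSfl : S ∈ fl (S :: ψ) S.card H := by
          refine mem_fl.2 ⟨List.mem_cons_self, rfl, hH2.subset, fun R hR hRT => ?_⟩
          rcases List.mem_cons.1 hR with rfl | hR
          exacts [subset_rfl, absurd hRT (hns R hR)]
        obtain ⟨b1, b2, b3, b4⟩ := finish n1 a5 a6 (fun T hT => (a7 T hT).trans_lt (by omega)) (by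
          obtain ⟨R, hR, hRS⟩ := hpet S hSfl
          exact ⟨R, hR, hRS.trans_ssubset (hss S hH2.subset)⟩)
        -- a petal step adds many clauses
        have hmany : θ (S.card - H.card) ≤ n1.length * θ (S.card - H.card - 1) := by
          let n1' := n1.filter fun R => decide (Disjoint R H)
          have k1 : (fl (S :: ψ) S.card H).length ≤
              (n1'.flatMap fun R => fl (S :: ψ) S.card (R ∪ H)).length := by
            refine length_le_of_subset (nodup_fl hI'.nodup _ _) fun T hT => ?_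
            obtain ⟨R, hR, hRT⟩ := hpet T hT
            obtain ⟨h1, h2, h3, h4⟩ := mem_fl.1 hT
            have hRT' := hRT.trans_ssubset (hss T h3)
            have hRn : R ∈ n1 := (List.mem_append.1 hR).resolve_right fun h =>
              hRT'.2 (h4 R h hRT'.1)
            exact List.mem_flatMap.2 ⟨R, List.mem_filter.2 ⟨hRn,
              decide_eq_true (disjoint_of_subset_left hRT sdiff_disjoint)⟩,
              mem_fl.2 ⟨h1, h2, union_subset hRT'.1 h3, h4⟩⟩
          have k2 : ∀ R ∈ n1', (fl (S :: ψ) S.card (R ∪ H)).length ≤ θ (S.card - H.card - 1) := by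
            intro R hR
            obtain ⟨hRn, hd⟩ := List.mem_filter.1 hR
            obtain ⟨a, ha, -⟩ := (a5.ok R (List.mem_append_left _ hRn)).2.2
            have hc : (R ∪ H).card = R.card + H.card := card_union_of_disjoint (of_decide_eq_true hd)
            have hR0 := card_pos.2 ⟨a, ha⟩
            have : (fl (S :: ψ) S.card (R ∪ H)).length < θ (S.card - (R ∪ H).card) := by
              by_cases hGS : R ∪ H ⊂ S
              · exact hH4 _ hGS (by omega)
              · exact hnot _ (hH1.mono subset_union_right) hGS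
            exact this.le.trans (hθ (by omega))
          rw [List.length_flatMap] at k1
          have k3 := List.sum_le_card_nsmul
            (n1'.map fun R => (fl (S :: ψ) S.card (R ∪ H)).length) (θ (S.card - H.card - 1))
            (by simp only [List.mem_map]; rintro _ ⟨R, hR, rfl⟩; exact k2 R hR)
          rw [List.length_map, smul_eq_mul] at k3
          exact hH3.trans (k1.trans (k3.trans (Nat.mul_le_mul_right _ (List.length_filter_le _ _))))
        have hone : 1 ≤ (n1.map fun T => wt T.card).sum := by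
          have hp : (0 : ℝ) < θ (S.card - H.card) := by
            have := hθ (Nat.zero_le (S.card - H.card))
            exact_mod_cast (by omega : 0 < θ (S.card - H.card))
          have k1 := List.card_nsmul_le_sum (n1.map fun T => wt T.card)
            ((θ (S.card - H.card - 1) : ℝ) / θ (S.card - H.card)) (by
              simp only [List.mem_map]
              rintro _ ⟨R, hR, rfl⟩
              obtain ⟨a, ha, -⟩ := (a5.ok R (List.mem_append_left _ hR)).2.2
              rw [div_le_iff₀ hp]
              exact hw _ _ (card_pos.2 ⟨a, ha⟩) (a7 R hR) (by omega))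
          rw [List.length_map, nsmul_eq_mul] at k1
          refine le_trans ?_ k1
          rw [← mul_div_assoc, le_div_iff₀ hp, one_mul]
          exact_mod_cast hmany
        refine ⟨n1 ++ [S], c1, insert (c + 1) J1, fun J hJ => ?_, fun i hi => ?_, by omega,
          by simp; omega, b1, b2, b3, ?_, b4⟩
        · have hc : c + 1 ∈ J := by
            rw [hJ (c + 1) (by simp) a3]
            exact mem_insert_self _ _
          simp only [ins, if_neg hguard, hh, Option.elim, if_pos hc, List.append_assoc, htake]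
          have := a1 J fun i h h' => by
            rw [hJ i (by simp only; omega) h', mem_insert]
            exact or_iff_right (by omega)
          rw [List.foldl_map] at this
          exact this
        · rcases mem_insert.1 hi with rfl | hi
          · simp only; omega
          · have := a2 i hi; simp only; omega
        · have h1 := hw0 S.card
          have h3 : ((insert (c + 1) J1).card : ℝ) ≤ J1.card + 1 := by
            exact_mod_cast card_insert_le _ _
          simp only [List.map_append, List.sum_append, List.map_cons, List.map_nil, List.sum_cons,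
            List.sum_nil, add_zero]
          push_cast
          nlinarith

def th (s K p : ℕ) : ℕ := s ^ 5 ^ min p K

def spars (K s n : ℕ) (J : List ℕ) (φ : List Cl) : List Cl :=
  (φ.foldl (fun st S => ins (th s K) K (2 * n) (th s K K) J K S st) ([], 0)).1

theorem th_mono {s K : ℕ} (hs : 2 ≤ s) : Monotone (th s K) := fun _ _ h =>
  Nat.pow_le_pow_right (by omega) (Nat.pow_le_pow_right (by norm_num) (min_le_min_right _ h))

theorem length_filter_lt_succ (ψ : List Cl) (p : ℕ) :
    (ψ.filter fun T => decide (T.card < p + 1)).length =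
      (ψ.filter fun T => decide (T.card < p)).length +
        (ψ.filter fun T => decide (T.card = p)).length := by
  induction ψ with
  | nil => rfl
  | cons T ψ ih =>
    simp only [List.filter_cons, decide_eq_true_eq]
    split_ifs <;> (try simp only [List.length_cons]) <;> omega

theorem Inv.count {s K n : ℕ} (hs : 2 ≤ s) {X : Set ℕ} {ψ : List Cl}
    (h : Inv (th s K) K (2 * n) X ψ) (p : ℕ) (hp : p ≤ K) :
    ((ψ.filter fun T => decide (T.card < p + 1)).length + 2 * n) * s ≤ n * s ^ (2 * 5 ^ p) ∧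
      (p < K → (ψ.filter fun T => decide (T.card < p + 2)).length + 2 * n ≤ n * s ^ (3 * 5 ^ p)) := by
  have step : ∀ p, p < K →
      ((ψ.filter fun T => decide (T.card < p + 1)).length + 2 * n) * s ≤ n * s ^ (2 * 5 ^ p) →
      (ψ.filter fun T => decide (T.card < p + 2)).length + 2 * n ≤ n * s ^ (3 * 5 ^ p) := by
    intro p hp ih
    have h1 := h.dead (p + 1)
    have h2 : (fl ψ (p + 1) ∅).length ≤
        ((List.range (2 * n)).flatMap fun a => fl ψ (p + 1) {a}).length := by
      refine length_le_of_subset (nodup_fl h.nodup _ _) fun T hT => ?_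
      obtain ⟨k1, k2, -, k4⟩ := mem_fl.1 hT
      obtain ⟨-, k5, a, ha, -⟩ := h.ok T k1
      exact List.mem_flatMap.2 ⟨a, List.mem_range.2 (mem_range.1 (k5 ha)),
        mem_fl.2 ⟨k1, k2, singleton_subset_iff.2 ha, k4⟩⟩
    rw [List.length_flatMap] at h2
    have h3 := List.sum_le_card_nsmul
      ((List.range (2 * n)).map fun a => (fl ψ (p + 1) {a}).length) (th s K p) (by
        simp only [List.mem_map]
        rintro _ ⟨a, -, rfl⟩
        simpa using h.weak (p + 1) {a} (singleton_nonempty a))
    rw [List.length_map, List.length_range, smul_eq_mul] at h3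
    have h4 : th s K p = s ^ 5 ^ p := by rw [th, min_eq_left hp.le]
    rw [Nat.add_sub_cancel, h4] at h1
    rw [h4] at h3
    have h5 : 1 ≤ s ^ 5 ^ p := Nat.one_le_pow _ _ (by omega)
    have h6 : s ^ (3 * 5 ^ p) = s ^ (2 * 5 ^ p) * s ^ 5 ^ p := by rw [← pow_add]; congr 1; ring
    rw [length_filter_lt_succ ψ (p + 1), h6, ← mul_assoc]
    refine le_trans ?_ (Nat.mul_le_mul_right _ ih)
    generalize (ψ.filter fun T => decide (T.card < p + 1)).length = A at *
    generalize s ^ 5 ^ p = t at *
    have h7 : (A + 2 * n) * (1 + t) ≤ (A + 2 * n) * (s * t) := Nat.mul_le_mul_left _ (by nlinarith)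
    nlinarith
  refine (fun h0 => ⟨h0, fun hp' => step p hp' h0⟩) ?_
  induction p with
  | zero =>
    have : (ψ.filter fun T => decide (T.card < 0 + 1)) = [] := by
      rw [List.filter_eq_nil_iff]
      intro T hT
      obtain ⟨-, -, a, ha, -⟩ := h.ok T hT
      have := card_pos.2 ⟨a, ha⟩
      simp only [decide_eq_true_eq]
      omega
    rw [this]
    have : n * s * 2 ≤ n * s * s := Nat.mul_le_mul_left _ hs
    simp only [List.length_nil, pow_zero, mul_one, pow_two]
    nlinarith
  | succ p ih =>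
    refine (Nat.mul_le_mul_right s (step p (by omega) (ih (by omega)))).trans ?_
    rw [mul_assoc, ← pow_succ]
    have : 0 < 5 ^ p := by positivity
    exact Nat.mul_le_mul_left _ (Nat.pow_le_pow_right (by omega) (by rw [pow_succ]; omega))

theorem sum_wt (wt : ℕ → ℝ) (K : ℕ) (l : List Cl) (h : ∀ T ∈ l, 0 < T.card ∧ T.card ≤ K) :
    (l.map fun T => wt T.card).sum =
      ∑ i ∈ range K, ((l.filter fun T => decide (T.card = i + 1)).length : ℝ) * wt (i + 1) := by
  induction l with
  | nil => simp
  | cons T l ih =>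
    obtain ⟨h1, h2⟩ := h T List.mem_cons_self
    rw [List.map_cons, List.sum_cons, ih fun T hT => h T (List.mem_cons_of_mem _ hT)]
    have : wt T.card = ∑ i ∈ range K, if i = T.card - 1 then wt (i + 1) else 0 := by
      rw [sum_ite_eq', if_pos (mem_range.2 (by omega)), Nat.sub_add_cancel h1]
    rw [this, ← sum_add_distrib]
    refine sum_congr rfl fun i _ => ?_
    by_cases e : i = T.card - 1
    · rw [if_pos e, List.filter_cons_of_pos (by simp; omega), List.length_cons]
      push_cast
      ring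
    · rw [if_neg e, List.filter_cons_of_neg (by simp; omega), zero_add]

theorem sparsify {K s n : ℕ} (hs : 2 ≤ s) (φ : List Cl) (X : Set ℕ)
    (hφ : ∀ S ∈ φ, S.card ≤ K ∧ S ⊆ range (2 * n) ∧ ∃ a ∈ S, a ∈ X) :
    ∃ J0 : Finset ℕ, J0.card * s ≤ K ^ 2 * n ∧ (∀ i ∈ J0, i ≤ n * s ^ (2 * 5 ^ K)) ∧
      ∀ J : List ℕ, (∀ i, 0 < i → (i ∈ J ↔ i ∈ J0)) →
        (spars K s n J φ).length ≤ n * s ^ (2 * 5 ^ K) ∧
        (∀ T ∈ spars K s n J φ, T ⊆ range (2 * n) ∧ ∃ a ∈ T, a ∈ X) ∧
        ∀ S ∈ φ, ∃ T ∈ spars K s n J φ, T ⊆ S := by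
  let wt : ℕ → ℝ := fun i => 1 / (s : ℝ) ^ (4 * 5 ^ (i - 1))
  have hs1 : (1 : ℝ) ≤ s := by exact_mod_cast (by omega : 1 ≤ s)
  have hθ0 : 2 ≤ th s K 0 := by simpa [th] using hs
  have hw : ∀ i p, 1 ≤ i → i ≤ p → p ≤ K → (th s K (p - 1) : ℝ) ≤ wt i * th s K p := by
    intro i p h1 h2 h3
    simp only [wt, th, min_eq_left h3, min_eq_left (show p - 1 ≤ K by omega)]
    push_cast
    rw [one_div, inv_mul_eq_div, le_div_iff₀ (by positivity), ← pow_add]
    refine pow_le_pow_right₀ hs1 ?_
    obtain ⟨p, rfl⟩ : ∃ p', p = p' + 1 := ⟨p - 1, by omega⟩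
    have : 5 ^ (i - 1) ≤ 5 ^ p := Nat.pow_le_pow_right (by norm_num) (by omega)
    rw [Nat.add_sub_cancel, pow_succ]
    omega
  obtain ⟨ψ, c, J0, a1, a2, -, a4, a5, -, -, a8, a9⟩ :=
    outcome_foldl (θ := th s K) (K := K) (N := 2 * n) (X := X) (wt := wt) (f := K) (p := K)
      (fun J => ins (th s K) K (2 * n) (th s K K) J K) φ (fun S hS st h1 h2 => by
        obtain ⟨new, c', J0, b1, b2, b3, b4, b5, b6, b7, b8⟩ :=
          outcome_ins (wt := wt) (Z := th s K K) (th_mono hs) hθ0
            (fun p => Nat.pow_le_pow_right (by omega)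
              (Nat.pow_le_pow_right (by norm_num) (by omega)))
            (fun i => by positivity) hw K S st (hφ S hS).1 (hφ S hS) h1
            (fun j hj => h2 j (hj.trans (hφ S hS).1))
        exact ⟨new, c', J0, b1, b2, b3, b4, b5, b6, fun T hT => (b7 T hT).trans (hφ S hS).1, b8⟩)
      ([], 0) ⟨List.nodup_nil, by simp, by simp [fl], by simp⟩ (fun j _ H _ => by
        have := th_mono (K := K) hs (Nat.zero_le (j - H.card))
        simp only [fl, List.filter_nil, List.length_nil]
        omega)
  simp only [List.append_nil, zero_add] at a1 a2 a4 a5 a9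
  have hlen : ψ.length ≤ n * s ^ (2 * 5 ^ K) := by
    have h1 := (a5.count hs K le_rfl).1
    rw [List.filter_eq_self.2 (fun T hT => by have := (a5.ok T hT).1; simp; omega)] at h1
    nlinarith
  refine ⟨J0, ?_, fun i hi => by have := a2 i hi; omega, fun J hJ => ?_⟩
  · rw [sum_wt wt K ψ (fun T hT => by
      obtain ⟨h1, -, a, ha, -⟩ := a5.ok T hT
      exact ⟨card_pos.2 ⟨a, ha⟩, h1⟩)] at a8
    have h1 : ∀ i ∈ range K,
        ((ψ.filter fun T => decide (T.card = i + 1)).length : ℝ) * wt (i + 1) ≤ n / s := by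
      intro i hi
      have h2 := (a5.count hs i (mem_range.1 hi).le).2 (mem_range.1 hi)
      rw [length_filter_lt_succ ψ (i + 1)] at h2
      have h3 : ((ψ.filter fun T => decide (T.card = i + 1)).length : ℝ) ≤
          n * (s : ℝ) ^ (3 * 5 ^ i) := by
        exact_mod_cast (by omega : (ψ.filter fun T => decide (T.card = i + 1)).length ≤
          n * s ^ (3 * 5 ^ i))
      simp only [wt, Nat.add_sub_cancel]
      rw [mul_one_div, div_le_div_iff₀ (by positivity) (by positivity)]
      refine (mul_le_mul_of_nonneg_right h3 (by positivity)).trans ?_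
      rw [mul_assoc, ← pow_succ]
      have : 0 < 5 ^ i := by positivity
      exact mul_le_mul_of_nonneg_left (pow_le_pow_right₀ hs1 (by omega)) (by positivity)
    have h2 := sum_le_card_nsmul _ _ _ h1
    rw [card_range, nsmul_eq_mul] at h2
    have h3 : (J0.card : ℝ) ≤ K * (K * (n / s)) :=
      a8.trans (mul_le_mul_of_nonneg_left h2 (by positivity))
    rw [← mul_div_assoc, ← mul_div_assoc, le_div_iff₀ (by positivity)] at h3
    have : (J0.card : ℝ) * s ≤ (K : ℝ) ^ 2 * n := by nlinarith
    exact_mod_cast this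
  · have e : spars K s n J φ = ψ := congrArg Prod.fst (a1 J fun i hi _ => hJ i hi)
    rw [e]
    exact ⟨hlen, fun T hT => (a5.ok T hT).2, a9⟩

end Pool.Agent.Lib.MP_9ec118_lc
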