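import Mathlib
import Pool.Agent.Shared.PolyTime.Nat
import Pool.Agent.Lib.MP_9ec118_lc.Sparse
import Pool.Agent.Lib.MP_9ec118_lc.Gadget

/-!
More polynomial-time closure properties, and the sparsifier and the gadget run in polynomial time.
-/

set_option autoImplicit false

namespace Pool.Agent.Lib.MP_9ec118_lc

open Pool.Agent.Shared.PolyTime N487b59b3 N68a2faeb

variable {α β : Type} [N487b59b3 α] [N487b59b3 β]

@[fun_prop]
theorem pt_head? {l : α → List β} (hl : IsPolyTime l) : IsPolyTime (fun x => (l x).head?) :=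
  (IsPolyTime.take (.const 1) hl).of_enc_eq fun x => by cases l x <;> rfl

@[fun_prop]
theorem pt_getElem? {l : α → List β} {i : α → ℕ} (hl : IsPolyTime l) (hi : IsPolyTime i) :
    IsPolyTime (fun x => (l x)[i x]?) :=
  (pt_head? (hi.drop hl)).of_eq fun x => by simp

@[fun_prop]
theorem pt_getD {l : α → List β} {i : α → ℕ} {d : α → β} (hl : IsPolyTime l) (hi : IsPolyTime i)
    (hd : IsPolyTime d) : IsPolyTime (fun x => (l x).getD (i x) (d x)) :=
  ((pt_getElem? hl hi).optionGetD hd).of_eq fun x => by simp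

@[fun_prop]
theorem pt_mem {l : α → List β} {f : α → β} {inst : ∀ x, Decidable (f x ∈ l x)}
    (hf : IsPolyTime f) (hl : IsPolyTime l) :
    IsPolyTime (fun x => @decide (f x ∈ l x) (inst x)) := by
  classical
  exact IsPolyTime.decide_congr (p := fun x => ∃ b ∈ l x, b = f x)
    (inst := fun _ => inferInstance) (by fun_prop) fun x => by simp

@[fun_prop]
theorem pt_forall_lt {p : α → ℕ → Prop} {n : α → ℕ} {inst : ∀ x, Decidable (∀ i < n x, p x i)}
    [∀ x i, Decidable (p x i)] (hp : IsPolyTime (fun y : α × ℕ => decide (p y.1 y.2)))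
    (hn : IsPolyTime n) (hb : PolyBdd n) :
    IsPolyTime (fun x => @decide (∀ i < n x, p x i) (inst x)) :=
  (IsPolyTime.decide_forall_mem (inst := fun _ => inferInstance) hp (hn.range hb)).decide_congr
    fun x => by simp

@[fun_prop]
theorem pt_exists_lt {p : α → ℕ → Prop} {n : α → ℕ} {inst : ∀ x, Decidable (∃ i < n x, p x i)}
    [∀ x i, Decidable (p x i)] (hp : IsPolyTime (fun y : α × ℕ => decide (p y.1 y.2)))
    (hn : IsPolyTime n) (hb : PolyBdd n) :
    IsPolyTime (fun x => @decide (∃ i < n x, p x i) (inst x)) :=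
  (IsPolyTime.decide_exists_mem (inst := fun _ => inferInstance) hp (hn.range hb)).decide_congr
    fun x => by simp

theorem pt_list_sum {l : α → List ℕ} (hl : IsPolyTime l) : IsPolyTime (fun x => (l x).sum) :=
  IsPolyTime.foldr_grow (f := fun _ b s => b + s) (init := fun _ => 0) (by fun_prop) (by fun_prop)
    hl (fun x => bsize (l x) + 1) (by fun_prop) fun x b s hb => by
      have := bsize_add_le' b s
      have := bsize_le_of_mem hb
      omega

theorem pt_list_prod {l : α → List ℕ} (hl : IsPolyTime l) : IsPolyTime (fun x => (l x).prod) :=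
  IsPolyTime.foldr_grow (f := fun _ b s => b * s) (init := fun _ => 1) (by fun_prop) (by fun_prop)
    hl (fun x => bsize (l x)) (by fun_prop) fun x b s hb => by
      have := bsize_mul_le b s
      have := bsize_le_of_mem hb
      omega

@[fun_prop]
theorem pt_sum_range {f : α → ℕ → ℕ} {n : α → ℕ} (hf : IsPolyTime (fun y : α × ℕ => f y.1 y.2))
    (hn : IsPolyTime n) (hb : PolyBdd n) :
    IsPolyTime (fun x => ∑ i ∈ Finset.range (n x), f x i) :=
  pt_list_sum (hf.map (hn.range hb))

@[fun_prop]
theorem pt_prod_range {f : α → ℕ → ℕ} {n : α → ℕ} (hf : IsPolyTime (fun y : α × ℕ => f y.1 y.2))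
    (hn : IsPolyTime n) (hb : PolyBdd n) :
    IsPolyTime (fun x => ∏ i ∈ Finset.range (n x), f x i) :=
  pt_list_prod (hf.map (hn.range hb))

theorem pt_bitwise (g : Bool → Bool → Bool) (h : g false false = false) {a b : α → ℕ}
    (ha : IsPolyTime a) (hb : IsPolyTime b) : IsPolyTime (fun x => Nat.bitwise g (a x) (b x)) := by
  have key : ∀ l : List (Bool × Bool), ofBits (l.map fun p => g p.1 p.2) =
      Nat.bitwise g (ofBits (l.map Prod.fst)) (ofBits (l.map Prod.snd)) := by
    intro l
    induction l with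
    | nil => simp
    | cons p l ih =>
      simp only [ofBits, List.map_cons, List.foldr_cons] at ih ⊢
      rw [Nat.bitwise_bit h, ih]
  have hg : IsPolyTime (fun p : Bool × Bool => g p.1 p.2) := .of_finite _
  exact (IsPolyTime.ofBits (IsPolyTime.map (f := fun _ p => g p.1 p.2) (hg.comp (by fun_prop))
    (ha.bitPairs hb))).of_eq fun x => by rw [key, bitPairs_fst, bitPairs_snd]

@[fun_prop]
theorem pt_land {a b : α → ℕ} (ha : IsPolyTime a) (hb : IsPolyTime b) :
    IsPolyTime (fun x => a x &&& b x) := pt_bitwise and rfl ha hb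

@[fun_prop]
theorem pt_lor {a b : α → ℕ} (ha : IsPolyTime a) (hb : IsPolyTime b) :
    IsPolyTime (fun x => a x ||| b x) := pt_bitwise or rfl ha hb

@[fun_prop]
theorem pt_xor {a b : α → ℕ} (ha : IsPolyTime a) (hb : IsPolyTime b) :
    IsPolyTime (fun x => a x ^^^ b x) := pt_bitwise bne rfl ha hb

@[fun_prop]
theorem pt_dg {B a i : α → ℕ} (hB : IsPolyTime B) (ha : IsPolyTime a) (hi : IsPolyTime i) :
    IsPolyTime (fun x => dg (B x) (a x) (i x)) :=
  IsPolyTime.of_eq (f := fun x => a x / B x ^ min (i x) (a x).size % B x) (by fun_prop) fun x => by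
    unfold dg
    rcases le_total (i x) (a x).size with h | h
    · rw [min_eq_left h]
    rw [min_eq_right h]
    rcases Nat.eq_zero_or_pos (a x) with h0 | h0
    · simp [h0]
    have h1 := Nat.size_pos.2 h0
    rcases Nat.lt_or_ge (B x) 2 with h2 | h2
    · generalize B x = b at h2
      interval_cases b
      · rw [zero_pow (by omega), zero_pow (by omega)]
      · simp [Nat.mod_one]
    · have h3 : a x < B x ^ (a x).size :=
        (Nat.lt_size_self _).trans_le (Nat.pow_le_pow_left h2 _)
      rw [Nat.div_eq_of_lt h3, Nat.div_eq_of_lt (h3.trans_le (Nat.pow_le_pow_right (by omega) h))]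

@[fun_prop]
theorem pt_horner {r : α → ℕ} {l : α → List ℕ} (hr : IsPolyTime r) (hl : IsPolyTime l) :
    IsPolyTime (fun x => horner (r x) (l x)) :=
  IsPolyTime.foldr_grow (f := fun x c s => c + r x * s) (init := fun _ => 0) (by fun_prop)
    (by fun_prop) hl (fun x => bsize (l x) + bsize (r x) + 1) (by fun_prop) fun x b s hb => by
      have := bsize_add_le' b (r x * s)
      have := bsize_mul_le (r x) s
      have := bsize_le_of_mem hb
      omega

@[fun_prop]
theorem pt_sort {s : α → Cl} (hs : IsPolyTime s) : IsPolyTime (fun x => (s x).sort (· ≤ ·)) :=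
  hs.of_enc_eq fun _ => rfl

theorem sort_filter (s : Cl) (p : ℕ → Prop) [DecidablePred p] :
    (s.filter p).sort (· ≤ ·) = (s.sort (· ≤ ·)).filter fun a => decide (p a) := by
  refine List.Perm.eq_of_pairwise' (r := (· ≤ ·)) (Finset.pairwise_sort _ _)
    ((Finset.pairwise_sort _ _).filter _) ?_
  rw [List.perm_ext_iff_of_nodup (Finset.sort_nodup _ _) ((Finset.sort_nodup _ _).filter _)]
  simp

@[fun_prop]
theorem pt_filter {s : α → Cl} {p : α → ℕ → Prop} {inst : ∀ x, DecidablePred (p x)}
    (hp : IsPolyTime (fun y : α × ℕ => @decide (p y.1 y.2) (inst _ _))) (hs : IsPolyTime s) :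
    IsPolyTime (fun x => @Finset.filter _ (p x) (inst x) (s x)) :=
  (IsPolyTime.filter (f := fun x a => @decide (p x a) (inst _ _)) hp (pt_sort hs)).of_enc_eq
    fun x => by rw [enc_finset, sort_filter]

@[fun_prop]
theorem pt_range {n : α → ℕ} (hn : IsPolyTime n) (hb : PolyBdd n) :
    IsPolyTime (fun x => Finset.range (n x)) :=
  (hn.range hb).of_enc_eq fun x => by rw [enc_finset, Finset.sort_range]

@[fun_prop]
theorem pt_card {s : α → Cl} (hs : IsPolyTime s) : IsPolyTime (fun x => (s x).card) :=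
  (pt_sort hs).length.of_eq fun _ => Finset.length_sort _

@[fun_prop]
theorem pt_fmem {s : α → Cl} {f : α → ℕ} {inst : ∀ x, Decidable (f x ∈ s x)}
    (hf : IsPolyTime f) (hs : IsPolyTime s) :
    IsPolyTime (fun x => @decide (f x ∈ s x) (inst x)) :=
  (pt_mem (inst := fun _ => inferInstance) hf (pt_sort hs)).decide_congr fun _ => by simp

@[fun_prop]
theorem pt_fexists {p : α → ℕ → Prop} {s : α → Cl} {inst : ∀ x, Decidable (∃ i ∈ s x, p x i)}
    [∀ x i, Decidable (p x i)] (hp : IsPolyTime (fun y : α × ℕ => decide (p y.1 y.2)))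
    (hs : IsPolyTime s) : IsPolyTime (fun x => @decide (∃ i ∈ s x, p x i) (inst x)) :=
  (IsPolyTime.decide_exists_mem (inst := fun _ => inferInstance) hp (pt_sort hs)).decide_congr
    fun x => by simp

@[fun_prop]
theorem pt_subset {s t : α → Cl} {inst : ∀ x, Decidable (s x ⊆ t x)} (hs : IsPolyTime s)
    (ht : IsPolyTime t) : IsPolyTime (fun x => @decide (s x ⊆ t x) (inst x)) :=
  IsPolyTime.decide_congr (p := fun x => ∀ a ∈ (s x).sort (· ≤ ·), a ∈ t x)
    (inst := fun _ => inferInstance) (by fun_prop) fun x => by simp [Finset.subset_iff]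

theorem pt_subset_range {s : α → Cl} {n : α → ℕ} {inst : ∀ x, Decidable (s x ⊆ Finset.range (n x))}
    (hs : IsPolyTime s) (hn : IsPolyTime n) :
    IsPolyTime (fun x => @decide (s x ⊆ Finset.range (n x)) (inst x)) :=
  IsPolyTime.decide_congr (p := fun x => ∀ a ∈ (s x).sort (· ≤ ·), a < n x)
    (inst := fun _ => inferInstance) (by fun_prop) fun x => by simp [Finset.subset_iff]

@[fun_prop]
theorem pt_sdiff {s t : α → Cl} (hs : IsPolyTime s) (ht : IsPolyTime t) :
    IsPolyTime (fun x => s x \ t x) :=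
  IsPolyTime.of_eq (f := fun x => (s x).filter (· ∉ t x)) (by fun_prop)
    fun _ => by ext; simp

@[fun_prop]
theorem pt_fl {ψ : α → List Cl} {j : α → ℕ} {H : α → Cl} (hψ : IsPolyTime ψ) (hj : IsPolyTime j)
    (hH : IsPolyTime H) : IsPolyTime (fun x => fl (ψ x) (j x) (H x)) := by
  unfold fl
  fun_prop

@[fun_prop]
theorem pt_subs (j : ℕ) : IsPolyTime (fun S : Cl => subs j S) := by
  induction j with
  | zero => simp only [subs]; fun_prop
  | succ j ih => simp only [subs]; fun_prop

@[fun_prop]
theorem pt_th (K : ℕ) {s p : α → ℕ} (hs : IsPolyTime s) (hp : IsPolyTime p) :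
    IsPolyTime (fun x => th (s x) K (p x)) := by
  have : PolyBdd (fun x => 5 ^ min (p x) K) :=
    (PolyBdd.const (5 ^ K)).of_le fun x => Nat.pow_le_pow_right (by norm_num) (min_le_right _ _)
  unfold th
  fun_prop

theorem pt_heart (K : ℕ) {s : α → ℕ} {ψ : α → List Cl} {S : α → Cl} (hs : IsPolyTime s)
    (hψ : IsPolyTime ψ) (hS : IsPolyTime S) :
    IsPolyTime (fun x => heart (th (s x) K) K (ψ x) (S x)) := by
  have : IsPolyTime (fun x => cands (th (s x) K) K (ψ x) (S x)) := by
    unfold cands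
    fun_prop
  exact pt_head? (IsPolyTime.filter (IsPolyTime.decide_forall_mem (by fun_prop)
    (this.comp (g := Prod.fst) (by fun_prop))) this)

theorem bsize_foldl_le {σ γ : Type} [N487b59b3 σ] (f : σ → γ → σ) (B : ℕ)
    (h : ∀ s b, bsize (f s b) ≤ bsize s + B) (l : List γ) (s : σ) :
    bsize (l.foldl f s) ≤ bsize s + l.length * B := by
  induction l generalizing s with
  | nil => simp
  | cons b l ih =>
    have := ih (f s b)
    have := h s b
    rw [List.foldl_cons, List.length_cons, add_mul]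
    omega

theorem bsize_ins_le (θ : ℕ → ℕ) (K N Z : ℕ) (J : List ℕ) (f : ℕ) (S : Cl) (st : List Cl × ℕ) :
    bsize (ins θ K N Z J f S st) ≤
      bsize st + (4 * (K * (2 * bsize N + 1)) + 3) * (Z + 2) ^ f := by
  induction f generalizing S st with
  | zero => simp [ins]
  | succ f ih =>
    obtain ⟨ψ, c⟩ := st
    simp only [ins]
    by_cases hg : (∃ T ∈ ψ, T ⊆ S) ∨ ¬ (S.card ≤ K ∧ S ⊆ Finset.range N)
    · rw [if_pos hg]
      omega
    rw [if_neg hg]
    have hS : bsize S ≤ K * (2 * bsize N + 1) := by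
      rw [not_or, not_not] at hg
      refine (bsize_list_le (S.sort (· ≤ ·)) (bsize N) fun a ha => bsize_nat_mono ?_).trans ?_
      · exact (Finset.mem_range.1 (hg.2.2 ((Finset.mem_sort _).1 ha))).le
      · rw [Finset.length_sort]
        exact Nat.mul_le_mul_right _ hg.2.1
    generalize K * (2 * bsize N + 1) = A at *
    have h1 : bsize (S :: ψ, c + 1) ≤ bsize (ψ, c) + (4 * A + 3) := by
      have := bsize_succ_le c
      simp only [bsize_pair, bsize_cons]
      omega
    have h2 : 1 ≤ (Z + 2) ^ f := Nat.one_le_pow _ _ (by omega)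
    have h3 : (4 * A + 3) * 1 ≤ (4 * A + 3) * (Z + 2) ^ f := Nat.mul_le_mul_left _ h2
    rw [pow_succ, ← mul_assoc]
    generalize (4 * A + 3) * (Z + 2) ^ f = G at *
    cases heart θ K (S :: ψ) S with
    | none =>
      simp only [Option.elim, bsize_pair, bsize_cons]
      nlinarith
    | some H =>
      simp only [Option.elim]
      split_ifs
      · refine (bsize_foldl_le _ G (fun s b => ih _ s) _ _).trans ?_
        have := Nat.mul_le_mul_right G (List.length_take_le Z (fl (S :: ψ) S.card H))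
        nlinarith
      · refine (ih _ _).trans ?_
        nlinarith

theorem pt_ins (K f : ℕ) : ∀ {α : Type} [N487b59b3 α] {s N : α → ℕ} {J : α → List ℕ} {S : α → Cl}
    {st : α → List Cl × ℕ}, IsPolyTime s → PolyBdd s → IsPolyTime N → IsPolyTime J →
    IsPolyTime S → IsPolyTime st →
    IsPolyTime (fun x => ins (th (s x) K) K (N x) (th (s x) K K) (J x) f (S x) (st x)) := by
  induction f with
  | zero => intro _ _ _ _ _ _ _ _ _ _ _ _ h; exact h
  | succ f ih =>
    intro α _ s N J S st hs hb hN hJ hS hst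
    simp only [ins]
    have h1 := pt_subset_range (inst := fun _ => inferInstance) hS hN
    refine IsPolyTime.ite (.decide_or (by fun_prop) (.decide_not (.decide_and (by fun_prop) h1)))
      hst (IsPolyTime.optionElim (pt_heart K hs (by fun_prop) hS) (by fun_prop)
      (IsPolyTime.ite (by fun_prop) ?_ ?_))
    · refine IsPolyTime.foldl_grow ?_ (by fun_prop) (by fun_prop)
        (fun x => (4 * (K * (2 * bsize (N x.1) + 1)) + 3) * (s x.1 ^ 5 ^ min K K + 2) ^ f)
        (by fun_prop) fun x st b _ => bsize_ins_le ..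
      exact ih (by fun_prop) (by fun_prop) (by fun_prop) (by fun_prop) (by fun_prop) (by fun_prop)
    · exact ih (by fun_prop) (by fun_prop) (by fun_prop) (by fun_prop) (by fun_prop) (by fun_prop)

theorem pt_spars (K : ℕ) {s n : α → ℕ} {J : α → List ℕ} {φ : α → List Cl} (hs : IsPolyTime s)
    (hb : PolyBdd s) (hn : IsPolyTime n) (hJ : IsPolyTime J) (hφ : IsPolyTime φ) :
    IsPolyTime (fun x => spars K (s x) (n x) (J x) (φ x)) := by
  refine IsPolyTime.fst (IsPolyTime.foldl_grow ?_ (by fun_prop) hφ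
    (fun x => (4 * (K * (2 * bsize (2 * n x) + 1)) + 3) * (s x ^ 5 ^ min K K + 2) ^ K)
    (by fun_prop) fun x st b _ => bsize_ins_le ..)
  exact pt_ins K K (by fun_prop) (by fun_prop) (by fun_prop) (by fun_prop) (by fun_prop)
    (by fun_prop)

@[fun_prop]
theorem pt_hit {b i y l : α → ℕ} {inst : ∀ x, Decidable (hit (b x) (i x) (y x) (l x))}
    (hb : IsPolyTime b) (hi : IsPolyTime i) (hy : IsPolyTime y) (hl : IsPolyTime l) :
    IsPolyTime (fun x => @decide (hit (b x) (i x) (y x) (l x)) (inst x)) :=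
  IsPolyTime.decide_congr (p := fun x => l x / 2 / b x = i x ∧
    (y x).testBit (l x / 2 % b x) = decide (l x % 2 = 1)) (inst := fun _ => inferInstance)
    (by fun_prop) fun _ => Iff.rfl

@[fun_prop]
theorem pt_msg {ψ : α → List Cl} {b q D i y t r : α → ℕ} (hψ : IsPolyTime ψ) (hb : IsPolyTime b)
    (hq : IsPolyTime q) (hD : IsPolyTime D) (hD' : PolyBdd D) (hi : IsPolyTime i)
    (hy : IsPolyTime y) (ht : IsPolyTime t) (hr : IsPolyTime r) :
    IsPolyTime (fun x => msg (ψ x) (b x) (q x) (D x) (i x) (y x) (t x) (r x)) := by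
  unfold msg uc
  fun_prop

open Classical in
theorem pt_rel (k : ℕ) {ψ : α → List Cl} {b B q D T h v u : α → ℕ} {cs : α → List ℕ}
    (hψ : IsPolyTime ψ) (hb : IsPolyTime b) (hb' : PolyBdd b) (hB : IsPolyTime B)
    (hq : IsPolyTime q) (hD : IsPolyTime D) (hD' : PolyBdd D) (hT : IsPolyTime T)
    (hT' : PolyBdd T) (hh : IsPolyTime h) (hh' : PolyBdd h) (hcs : IsPolyTime cs)
    (hv : IsPolyTime v) (hu : IsPolyTime u) :
    IsPolyTime (fun x => decide
      (rel (ψ x) k (b x) (B x) (q x) (D x) (T x) (h x) (cs x) (v x) (u x))) := by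
  unfold rel acc
  fun_prop

end Pool.Agent.Lib.MP_9ec118_lc
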