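import Mathlib
import Pool.Agent.Lib.MP_9ec118_lc.Imp
import Pool.Agent.Lib.MP_9ec118_lc.PTx

/-!
Simulation of a fixed word-RAM program on an input array given by a polynomial-time function.
-/

set_option autoImplicit false

namespace Pool.Agent.Lib.MP_9ec118_lc

open Function Pool.Agent.Shared.PolyTime N487b59b3 N68a2faeb

abbrev Prog := List (ℕ × ℕ × ℕ × ℕ)

def run (P : Prog) (w : ℕ) (I : ℕ → ℕ) (j : ℕ) : ℕ × (ℕ → ℕ) × List ℕ :=
  (step P w I)^[j] (0, fun _ => 0, [])

def value (w o b ib mb mc mmb : ℕ) : ℕ :=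
  [mb, mmb, ib, b, mb + mc, mb - mc, mb * mc, mb / mc, mb &&& mc, mb ||| mc, mb ^^^ mc,
    mb <<< min mc w, mb >>> mc].getD (o - 2) 0 % 2 ^ w

theorem getD_mod (l : List ℕ) (i m : ℕ) : l.getD i 0 % m = (l.map (· % m)).getD i 0 := by
  simp only [List.getD_eq_getElem?_getD, List.getElem?_map]
  cases l[i]? <;> simp

theorem shiftLeft_min (a c w : ℕ) : a <<< min c w % 2 ^ w = a <<< c % 2 ^ w := by
  rcases le_total c w with h | h
  · rw [min_eq_left h]
  · rw [min_eq_right h, Nat.shiftLeft_eq, Nat.shiftLeft_eq, Nat.mul_mod_left,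
      Nat.mod_eq_zero_of_dvd ((pow_dvd_pow 2 h).mul_left _)]

theorem step_eq (P : Prog) (w : ℕ) (I : ℕ → ℕ) (s : ℕ × (ℕ → ℕ) × List ℕ)
    (i : ℕ × ℕ × ℕ × ℕ) (hi : i = P.getD s.1 (0, 0, s.1, s.1)) :
    step P w I s = (if i.1 = 0 then (if s.2.1 i.2.1 = 0 then i.2.2.1 else i.2.2.2) else s.1 + 1,
      update s.2.1 (if i.1 = 2 then s.2.1 i.2.1 else i.2.1) (if i.1 ≤ 1 then s.2.1 i.2.1 else
        value w i.1 i.2.2.1 (I (s.2.1 i.2.2.1)) (s.2.1 i.2.2.1) (s.2.1 i.2.2.2)
          (s.2.1 (s.2.1 i.2.2.1))),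
      if i.1 = 1 then s.2.2 ++ [s.2.1 i.2.1] else s.2.2) := by
  rw [List.getD_eq_getElem?_getD] at hi
  unfold step
  cases e : P[s.1]? with
  | none =>
    rw [e] at hi
    simp [hi]
  | some i' =>
    rw [e] at hi
    obtain rfl : i = i' := hi
    obtain ⟨o, a, b, c⟩ := i
    simp only
    by_cases h0 : o = 0
    · simp [h0]
    by_cases h1 : o = 1
    · simp [h1]
    rw [if_neg h0, if_neg h1, if_neg h0, if_neg h1, if_neg (show ¬ o ≤ 1 by omega), value,
      getD_mod, getD_mod]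
    simp only [List.map_cons, shiftLeft_min]

theorem run_succ (P : Prog) (w : ℕ) (I : ℕ → ℕ) (j : ℕ) :
    run P w I (j + 1) = step P w I (run P w I j) := iterate_succ_apply' _ _ _

theorem run_inv (P : Prog) : ∃ B, ∀ w I j, (run P w I j).1 ≤ B ∧
    (∀ a, (run P w I j).2.1 a < 2 ^ w) ∧ ∀ v ∈ (run P w I j).2.2, v < 2 ^ w := by
  refine ⟨P.length + (P.map fun i => i.2.2.1 + i.2.2.2).sum, fun w I j => ?_⟩
  induction j with
  | zero => simp [run]
  | succ j ih =>
    rw [run_succ]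
    generalize run P w I j = s at ih
    obtain ⟨h1, h2, h3⟩ := ih
    unfold step
    cases e : P[s.1]? with
    | none => exact ⟨h1, h2, h3⟩
    | some i =>
      obtain ⟨o, a, b, c⟩ := i
      have h4 : s.1 < P.length := (List.getElem?_eq_some_iff.1 e).1
      have h5 : b + c ≤ (P.map fun i => i.2.2.1 + i.2.2.2).sum :=
        List.single_le_sum (by simp) _ (List.mem_map.2 ⟨_, List.mem_of_getElem? e, rfl⟩)
      simp only
      split_ifs
      · exact ⟨by simp only; omega, h2, h3⟩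
      · exact ⟨by simp only; omega, h2, h3⟩
      · refine ⟨by simp only; omega, h2, fun v hv => ?_⟩
        rcases List.mem_append.1 hv with hv | hv
        exacts [h3 v hv, List.mem_singleton.1 hv ▸ h2 a]
      all_goals
        refine ⟨by simp only; omega, fun a' => ?_, h3⟩
        simp only [update_apply]
        split_ifs
        exacts [Nat.mod_lt _ (by positivity), h2 _]

theorem run_of_outputs {P : Prog} {w : ℕ} {I : ℕ → ℕ} {T : ℝ} {out : List ℕ}
    (h : Outputs P w I T out) {j : ℕ} (hj : T ≤ j) : (run P w I j).2.2 = out := by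
  obtain ⟨t, h1, h2, h3⟩ := h
  obtain ⟨d, rfl⟩ := Nat.exists_eq_add_of_le' (show t ≤ j by exact_mod_cast h1.trans hj)
  rw [run, iterate_add_apply, iterate_fixed, h3]
  generalize (step P w I)^[t] (0, fun _ => 0, []) = s at h2
  unfold step
  rw [List.getElem?_eq_none h2]

theorem bdd_pair {ι A B : Type} [N487b59b3 A] [N487b59b3 B] {sz : ι → ℕ} {a : ι → A} {b : ι → B}
    (ha : Bdd sz fun x => bsize (a x)) (hb : Bdd sz fun x => bsize (b x)) :
    Bdd sz fun x => bsize (a x, b x) :=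
  ((((Bdd.const _ 2).mul ha).add (Bdd.const _ 1)).add hb).mono fun x => by rw [bsize_pair]

theorem bdd_poly {ι A : Type} [N487b59b3 A] {sz : ι → ℕ} {a : ι → A} {g : A → ℕ} (hg : PolyBdd g)
    (ha : Bdd sz fun x => bsize (a x)) : Bdd sz fun x => g (a x) := ha.trans (hg.bdd.ghost a)

theorem RImp.simulate {ι X : Type} [N487b59b3 X] {sz : ι → ℕ} {I : ι → ℕ → ℕ} (P : Prog)
    {key wd steps cap : X → ℕ} {gi : X → ℕ → ℕ} (hkey : IsPolyTime key) (hwd : IsPolyTime wd)
    (hwd' : PolyBdd wd) (hsteps : IsPolyTime steps) (hcap : IsPolyTime cap) (hcap' : PolyBdd cap)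
    (hgi : IsPolyTime fun p : X × ℕ => gi p.1 p.2) (par : ι → X)
    (hpar : Bdd sz fun x => bsize (par x)) (mem : ι → ℕ × ℕ → ℕ)
    (hmem : ∀ x a, mem x (key (par x), a) = 0) :
    RImp sz I (fun x => steps (par x) + 1) (fun x => TS (par x) (mem x) [])
      (fun x => TS (par x, (run P (wd (par x)) (gi (par x)) (steps (par x))).2.2.take (cap (par x)))
        (fun k => if k.1 = key (par x) then
          (run P (wd (par x)) (gi (par x)) (steps (par x))).2.1 k.2 else mem x k) []) := by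
  obtain ⟨B, hB⟩ := run_inv P
  let R : ι → ℕ → ℕ × (ℕ → ℕ) × List ℕ := fun x j => run P (wd (par x)) (gi (par x)) j
  let st : ι → ℕ → X × ℕ × ℕ × List ℕ := fun x j =>
    (par x, j, (R x j).1, (R x j).2.2.take (cap (par x)))
  let M : ι → ℕ → ℕ × ℕ → ℕ := fun x j k => if k.1 = key (par x) then (R x j).2.1 k.2 else mem x k
  have hs : Bdd (fun y : {y : ι × ℕ // y.2 ≤ steps (par y.1)} => sz y.1.1)
      (fun y => bsize (st y.1.1 y.1.2)) := by
    have hp := hpar.ghost (fun y : {y : ι × ℕ // y.2 ≤ steps (par y.1)} => y.1.1)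
    refine bdd_pair hp (bdd_pair ((RImp.bdd_pt hsteps hp).mono fun y => bsize_nat_mono y.2)
      (bdd_pair ((Bdd.const _ (bsize B)).mono fun y => bsize_nat_mono (hB _ _ _).1) ?_))
    refine (bdd_poly (g := fun p => cap p * (2 * wd p + 1)) (by fun_prop) hp).mono fun y => ?_
    refine (bsize_list_le _ (wd (par y.1.1)) fun a ha => bsize_nat_le_iff.2
      ((hB _ _ _).2.2 a (List.mem_of_mem_take ha))).trans ?_
    exact Nat.mul_le_mul_right _ (List.length_take_le _ _)
  let ins : X × ℕ × ℕ × List ℕ → ℕ × ℕ × ℕ × ℕ := fun y =>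
    P.getD y.2.2.1 (0, 0, y.2.2.1, y.2.2.1)
  have hins : IsPolyTime ins := by fun_prop
  have body : RImp (ι := {y : ι × ℕ // y.2 < steps (par y.1)}) (fun y => sz y.1.1)
      (fun y => I y.1.1) (fun _ => 1) (fun y => TS (st y.1.1 y.1.2) (M y.1.1 y.1.2) [])
      (fun y => TS (st y.1.1 (y.1.2 + 1)) (M y.1.1 (y.1.2 + 1)) []) := by
    let κ := {y : ι × ℕ // y.2 < steps (par y.1)}
    have b0 := hs.ghost (fun y : κ => ⟨y.1, y.2.le⟩)
    have hv : ∀ a : κ → ℕ, Bdd (fun y : κ => sz y.1.1)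
        (fun y => bsize (M y.1.1 y.1.2 (key (par y.1.1), a y))) := fun a =>
      (bdd_poly hwd' (hpar.ghost (fun y : κ => y.1.1))).mono fun y => by
        simp only [M, if_true]
        exact bsize_nat_le_iff.2 ((hB _ _ _).2.1 _)
    have r1 := RImp.read (I := fun y : κ => I y.1.1) (mem := fun y => M y.1.1 y.1.2)
      (out := fun _ => []) (A := fun y => (key y.1, (ins y).2.1)) (by fun_prop) b0 (hv _)
    have b1 := bdd_pair b0 (hv fun y => (ins (st y.1.1 y.1.2)).2.1)
    have r2 := RImp.read (I := fun y : κ => I y.1.1) (mem := fun y => M y.1.1 y.1.2)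
      (out := fun _ => []) (A := fun y => (key y.1.1, (ins y.1).2.2.1)) (by fun_prop) b1 (hv _)
    have b2 := bdd_pair b1 (hv fun y => (ins (st y.1.1 y.1.2)).2.2.1)
    have r3 := RImp.read (I := fun y : κ => I y.1.1) (mem := fun y => M y.1.1 y.1.2)
      (out := fun _ => []) (A := fun y => (key y.1.1.1, (ins y.1.1).2.2.2)) (by fun_prop) b2 (hv _)
    have b3 := bdd_pair b2 (hv fun y => (ins (st y.1.1 y.1.2)).2.2.2)
    have r4 := RImp.read (I := fun y : κ => I y.1.1) (mem := fun y => M y.1.1 y.1.2)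
      (out := fun _ => []) (A := fun y => (key y.1.1.1.1, y.1.2)) (by fun_prop) b3 (hv _)
    have b4 := bdd_pair b3 (hv fun y =>
      M y.1.1 y.1.2 (key (par y.1.1), (ins (st y.1.1 y.1.2)).2.2.1))
    have r5 := RImp.write (I := fun y : κ => I y.1.1) (mem := fun y => M y.1.1 y.1.2)
      (out := fun _ => [])
      (A := fun y => (key y.1.1.1.1.1, if (ins y.1.1.1.1).1 = 2 then y.1.1.1.2 else
        (ins y.1.1.1.1).2.1))
      (V := fun y => if (ins y.1.1.1.1).1 ≤ 1 then y.1.1.1.2 else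
        value (wd y.1.1.1.1.1) (ins y.1.1.1.1).1 (ins y.1.1.1.1).2.2.1 (gi y.1.1.1.1.1 y.1.1.2)
          y.1.1.2 y.1.2 y.2) (by fun_prop) (by unfold value; fun_prop) b4
    refine ((r1.seq1 (r2.seq1 (r3.seq1 (r4.seq1 r5)))).seq1 (RImp.apply
      (F := fun y => (y.1.1.1.1.1, y.1.1.1.1.2.1 + 1,
        if (ins y.1.1.1.1).1 = 0 then (if y.1.1.1.2 = 0 then (ins y.1.1.1.1).2.2.1 else
          (ins y.1.1.1.1).2.2.2) else y.1.1.1.1.2.2.1 + 1,
        if (ins y.1.1.1.1).1 = 1 then (y.1.1.1.1.2.2.2 ++ [y.1.1.1.2]).take (cap y.1.1.1.1.1)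
          else y.1.1.1.1.2.2.2)) (by fun_prop) b4)).congr (fun _ => rfl) fun y => ?_
    obtain ⟨⟨x, j⟩, hj⟩ := y
    have e : R x (j + 1) = _ := (run_succ ..).trans (step_eq _ _ _ _ (ins (st x j)) rfl)
    simp only [st, M, if_true] at e ⊢
    clear r1 r2 r3 r4 r5 b0 b1 b2 b3 b4
    rw [e]
    dsimp only
    congr 1
    · congr 3
      split_ifs
      · rw [List.take_append, List.take_append, List.take_take, min_self, List.length_take]
        congr 2
        simp only [R]
        omega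
      · rfl
    · funext ⟨k, a⟩
      simp only [update_apply, Prod.mk.injEq]
      by_cases h : k = key (par x) <;> simp [h, R]
  have l := RImp.whileLoop (I := I) (c := fun y : X × ℕ × ℕ × List ℕ => decide (y.2.1 < steps y.1))
    (by fun_prop) st M (fun _ _ => []) (fun x => steps (par x)) (fun _ => 1) (by simp [st])
    (fun x i hi => by simpa [st] using hi) hs body
  have s0 := RImp.apply (I := I) (mem := mem) (out := fun _ => [])
    (F := fun p : X => (p, 0, 0, ([] : List ℕ))) (by fun_prop) hpar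
  have s1 := RImp.apply (I := I) (mem := fun x => M x (steps (par x))) (out := fun _ => [])
    (F := fun y : X × ℕ × ℕ × List ℕ => (y.1, y.2.2.2)) (by fun_prop)
    (hs.ghost (fun x => ⟨(x, steps (par x)), le_rfl⟩))
  refine (s0.seq ((l.congr (fun x => ?_) fun _ => rfl).seq s1)).weaken (fun _ => 4)
    (Bdd.const _ _) fun x => by omega
  congr 1
  · simp [st, R, run]
  · funext ⟨k, a⟩
    by_cases h : k = key (par x) <;> simp [M, h, R, run, hmem]

end Pool.Agent.Lib.MP_9ec118_lc
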