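import Mathlib
import Pool.Agent.Lib.MP_9ec118_lc.Reg
import Pool.Agent.Lib.MP_9ec118_lc.Sim

/-!
An adversary argument against deterministic programs with subquadratic running time.
-/

set_option autoImplicit false

namespace Pool.Agent.Lib.MP_9ec118_lc

open Finset Filter

theorem step_local (P : Prog) (w : ℕ) (s : ℕ × (ℕ → ℕ) × List ℕ) :
    ∃ a, ∀ I I' : ℕ → ℕ, I a = I' a → step P w I s = step P w I' s :=
  ⟨s.2.1 (P.getD s.1 (0, 0, s.1, s.1)).2.2.1, fun I I' h => by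
    rw [step_eq P w I s _ rfl, step_eq P w I' s _ rfl, h]⟩

theorem adversary (P : Prog) (w t : ℕ) (q : ℕ → ℕ × ℕ) (c : ℕ → Bool → ℕ) (T : ℕ) :
    ∃ (Y Z : Finset (ℕ × ℕ)) (s : ℕ × (ℕ → ℕ) × List ℕ), Disjoint Y Z ∧ Y.card ≤ T ∧
      (∀ v, (Y.filter (·.1 = v)).card ≤ t) ∧ (∀ p ∈ Z, t ≤ (Y.filter (·.1 = p.1)).card) ∧
      ∀ ρ : ℕ × ℕ → Bool, (∀ p ∈ Y, ρ p = true) → (∀ p ∈ Z, ρ p = false) →
        run P w (fun j => c j (ρ (q j))) T = s := by
  induction T with
  | zero => exact ⟨∅, ∅, (0, fun _ => 0, []), by simp, by simp, by simp, by simp,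
      fun _ _ _ => rfl⟩
  | succ T ih =>
    obtain ⟨Y, Z, s, h1, h2, h3, h4, h5⟩ := ih
    obtain ⟨a, ha⟩ := step_local P w s
    by_cases hY : q a ∈ Y
    · refine ⟨Y, Z, step P w (fun j => c j true) s, h1, by omega, h3, h4, fun ρ r1 r2 => ?_⟩
      rw [run_succ, h5 ρ r1 r2]
      exact ha _ _ (by simp only [r1 _ hY])
    by_cases hZ : t ≤ (Y.filter (·.1 = (q a).1)).card
    · refine ⟨Y, insert (q a) Z, step P w (fun j => c j false) s,
        disjoint_insert_right.2 ⟨hY, h1⟩, by omega, h3, fun p hp => ?_, fun ρ r1 r2 => ?_⟩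
      · rcases mem_insert.1 hp with rfl | hp
        exacts [hZ, h4 p hp]
      · rw [run_succ, h5 ρ r1 fun p hp => r2 p (mem_insert_of_mem hp)]
        exact ha _ _ (by simp only [r2 _ (mem_insert_self _ _)])
    · refine ⟨insert (q a) Y, Z, step P w (fun j => c j true) s,
        disjoint_insert_left.2 ⟨fun h => hZ (h4 _ h), h1⟩,
        (card_insert_le _ _).trans (by omega), fun v => ?_, fun p hp => (h4 p hp).trans
          (card_le_card (filter_subset_filter _ (subset_insert _ _))), fun ρ r1 r2 => ?_⟩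
      · rw [filter_insert]
        split_ifs with h
        · subst h
          exact (card_insert_le _ _).trans (by omega)
        · exact h3 v
      · rw [run_succ, h5 ρ (fun p hp => r1 p (mem_insert_of_mem hp)) r2]
        exact ha _ _ (by simp only [r1 _ (mem_insert_self _ _)])

theorem finite_lb {N S M R h T t X k : ℕ} (hN : N = S * (R + 1) + 3 * (M * R)) (hk : 2 ≤ k)
    (hkN : k ≤ N) (hR : h < R) (hS : 1 + h + X ≤ S) (hT : T < X * t) (hM : h * t < M)
    (P : Prog) (w : ℕ) : ∃ G : SimpleGraph (Fin N),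
      (∃ D : Finset (Fin N), D.card = k ∧ ∀ v, ∃ u ∈ D, u = v ∨ G.Adj u v) ∧
      ∀ (τ : ℝ) (out : List ℕ), τ ≤ T → Outputs P w (input G) τ out → out.length ≤ h →
        ¬ ∀ v, ∃ u : Fin N, u.val ∈ out ∧ (u = v ∨ G.Adj u v) := by
  obtain ⟨Y, Z, s, h1, h2, h3, h4, h5⟩ := adversary P w t (fun j => (pv N S R j, pu N S R j))
    (fun j b => cell N S M R j (if pv N S R j ≠ 0 ∧ b = true then 0 else 2)) T
  have h6 : (Z.image Prod.fst).card * t ≤ Y.card := by
    refine le_trans ?_ (card_le_card (filter_subset (·.1 ∈ Z.image Prod.fst) Y))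
    rw [card_eq_sum_card_fiberwise (f := Prod.fst) (t := Z.image Prod.fst)
      (s := Y.filter (·.1 ∈ Z.image Prod.fst)) fun p hp => (mem_filter.1 (mem_coe.1 hp)).2]
    refine card_nsmul_le_sum _ _ _ fun v hv => ?_
    obtain ⟨p, hp, rfl⟩ := mem_image.1 hv
    refine (h4 p hp).trans (card_le_card fun y hy => ?_)
    rw [mem_filter] at hy
    exact mem_filter.2 ⟨mem_filter.2 ⟨hy.1, hy.2 ▸ hv⟩, hy.2⟩
  have h7 : (Z.image Prod.fst).card < X := Nat.lt_of_mul_lt_mul_right (a := t) (by omega)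
  obtain ⟨v, hv, h8⟩ := exists_mem_notMem_of_card_lt_card (t := range S)
    (s := insert 0 (((s.2.2.take h).map (· / (R + 1))).toFinset ∪ Z.image Prod.fst)) (by
      have a1 := card_insert_le 0 (((s.2.2.take h).map (· / (R + 1))).toFinset ∪ Z.image Prod.fst)
      have a2 := card_union_le ((s.2.2.take h).map (· / (R + 1))).toFinset (Z.image Prod.fst)
      have a3 := List.toFinset_card_le ((s.2.2.take h).map (· / (R + 1)))
      have a4 := List.length_take_le h s.2.2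
      rw [List.length_map] at a3
      rw [card_range]
      omega)
  simp only [mem_insert, mem_union, not_or, List.mem_toFinset] at h8
  obtain ⟨h8, h9, h10⟩ := h8
  rw [mem_range] at hv
  refine ⟨regG N S R fun a u => if a ≠ 0 ∧ decide ((a, u) ∈ Y ∨ a = v) = true then 0 else 2,
    dom_regG hN {0, v} (by simp; omega) (card_le_two.trans hk) hkN fun u e => ?_,
    fun τ out hτ ho hl hd => ?_⟩
  · by_cases he : e = 2
    · exact ⟨v, by simp, by simp [h8, he]⟩
    · exact ⟨0, by simp, by simpa using Ne.symm he⟩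
  have e1 := run_of_outputs ho hτ
  rw [show input _ = _ from funext (input_regG hN (by omega) (by omega)
    fun a u => by split_ifs <;> omega), h5 (fun p => decide (p ∈ Y ∨ p.1 = v))
    (fun p hp => by simp [hp]) (fun p hp => by
      have a1 : p ∉ Y := fun h => disjoint_left.1 h1 h hp
      have a2 : p.1 ≠ v := fun h => h10 (mem_image.2 ⟨p, hp, h⟩)
      simp [a1, a2])] at e1
  rw [e1, List.take_of_length_le hl] at h9
  have h11 : range M ⊆ (out.map (· / (R + 1))).toFinset.biUnion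
      fun a => (Y.filter (·.1 = a)).image Prod.snd := fun u hu => by
    obtain ⟨a, ha, -, h12⟩ := sound_regG hN out (by omega) hd u (mem_range.1 hu)
    refine mem_biUnion.2 ⟨a, List.mem_toFinset.2 ha, mem_image.2 ⟨(a, u), mem_filter.2 ⟨?_, rfl⟩,
      rfl⟩⟩
    by_contra h13
    have h14 : a ≠ v := fun e => h9 (e ▸ ha)
    simp [h13, h14] at h12
  have h12 := (card_le_card h11).trans (card_biUnion_le_card_mul _ _ t
    fun a _ => card_image_le.trans (h3 a))
  have h13 := Nat.mul_le_mul_right t ((List.toFinset_card_le (out.map (· / (R + 1)))).trans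
    (by rwa [List.length_map] : _ ≤ h))
  rw [card_range] at h12
  omega

theorem rpow_ev (c : ℝ) {a b : ℝ} (ha : 0 ≤ a) (hab : a < b) :
    ∀ᶠ H : ℕ in atTop, c * (H : ℝ) ^ a + 1 < (H : ℝ) ^ b := by
  filter_upwards [((tendsto_rpow_atTop (sub_pos.2 hab)).comp
    tendsto_natCast_atTop_atTop).eventually_gt_atTop (c + 1), eventually_ge_atTop 1] with H h1 h2
  have h3 : (1 : ℝ) ≤ H := by exact_mod_cast h2
  have h4 : 1 ≤ (H : ℝ) ^ a := Real.one_le_rpow h3 ha
  have h5 : (H : ℝ) ^ b = (H : ℝ) ^ (b - a) * (H : ℝ) ^ a := by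
    rw [← Real.rpow_add (by linarith)]; simp
  simp only [Function.comp] at h1
  nlinarith

theorem subquadratic (k : ℕ) (hk : 2 ≤ k) (δ : ℝ) (hδ : 0 < δ) (hδ1 : δ < 1) :
    ¬ ∃ C : ℕ, ∀ n ≥ C, ∃ (P : List (ℕ × ℕ × ℕ × ℕ)) (w : ℕ),
      ∀ G : SimpleGraph (Fin n),
        (∃ D : Finset (Fin n), D.card = k ∧ ∀ v, ∃ u ∈ D, u = v ∨ G.Adj u v) →
        ∃ out, Outputs P w (input G) (C * (n : ℝ) ^ (2 - δ)) out ∧
          (out.length : ℝ) ≤ C * (n : ℝ) ^ (δ / 4) ∧
          ∀ v, ∃ u : Fin n, u.val ∈ out ∧ (u = v ∨ G.Adj u v) := by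
  rintro ⟨C, hC⟩
  have h3 : (3 : ℝ) < 3 / δ := by rw [lt_div_iff₀ hδ]; linarith
  obtain ⟨p, hp⟩ : ∃ p, ⌊3 / δ⌋₊ = p + 1 := ⟨⌊3 / δ⌋₊ - 1, by
    have : 3 ≤ ⌊3 / δ⌋₊ := Nat.le_floor (by exact_mod_cast h3.le)
    omega⟩
  have p1 : 3 < ((p : ℝ) + 2) * δ := by
    have := Nat.lt_floor_add_one (3 / δ)
    rw [hp, div_lt_iff₀ hδ] at this
    push_cast at this
    linarith
  have p2 : ((p : ℝ) + 2) * δ < 4 := by
    have := Nat.floor_le (show 0 ≤ 3 / δ by positivity)
    rw [hp, le_div_iff₀ hδ] at this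
    push_cast at this
    linarith
  obtain ⟨H, ⟨a1, a2⟩, a3⟩ := (((rpow_ev (C * 7 ^ (2 - δ)) (a := (p + 2) * (2 - δ))
    (b := 2 * p + 1) (by have : 0 < 2 - δ := by linarith
                         positivity) (by linarith)).and
    (rpow_ev (C * 7 ^ (δ / 4)) (a := (p + 2) * (δ / 4)) (b := 1) (by positivity)
      (by linarith))).and (eventually_ge_atTop (C + k + 1))).exists
  obtain ⟨h, rfl⟩ : ∃ h, H = h + 1 := ⟨H - 1, by omega⟩
  obtain ⟨N, hN⟩ : ∃ N, N = 2 * (h + 1) ^ (p + 1) * (h + 1 + 1) +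
    3 * ((h + 1) ^ (p + 1) * (h + 1)) := ⟨_, rfl⟩
  have b1 : h + 1 ≤ (h + 1) ^ (p + 1) := Nat.le_self_pow (by omega) _
  have b2 : h + 1 ≤ N := by rw [hN]; nlinarith
  have b3 : (N : ℝ) ≤ 7 * ((h + 1 : ℕ) : ℝ) ^ ((p : ℝ) + 2) := by
    have : N ≤ 7 * (h + 1) ^ (p + 2) := by rw [hN, pow_succ _ (p + 1)]; nlinarith
    rw [show (p : ℝ) + 2 = (p + 2 : ℕ) by push_cast; rfl, Real.rpow_natCast]
    exact_mod_cast this
  have b4 : ∀ e : ℝ, 0 ≤ e → C * (N : ℝ) ^ e ≤
      C * 7 ^ e * ((h + 1 : ℕ) : ℝ) ^ (((p : ℝ) + 2) * e) := fun e he => by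
    rw [mul_assoc, Real.rpow_mul (by positivity), ← Real.mul_rpow (by positivity) (by positivity)]
    exact mul_le_mul_of_nonneg_left (Real.rpow_le_rpow (by positivity) b3 he) (by positivity)
  obtain ⟨P, w, hP⟩ := hC N (by omega)
  obtain ⟨G, g1, g2⟩ := finite_lb (h := h) (T := (h + 1) ^ (p + 1) * (h + 1) ^ p - 1)
    (t := (h + 1) ^ p) (X := (h + 1) ^ (p + 1)) hN hk (by omega) (Nat.lt_succ_self h) (by omega)
    (Nat.sub_lt (by positivity) one_pos) (by
      rw [pow_succ']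
      exact Nat.mul_lt_mul_of_pos_right (Nat.lt_succ_self h) (by positivity)) P w
  obtain ⟨out, o1, o2, o3⟩ := hP G g1
  refine g2 _ out ?_ o1 ?_ o3
  · rw [Nat.cast_sub (Nat.succ_le_of_lt (by positivity)), ← pow_add]
    rw [show 2 * (p : ℝ) + 1 = (p + 1 + p : ℕ) by push_cast; ring, Real.rpow_natCast] at a1
    have := b4 (2 - δ) (by linarith)
    rw [Nat.cast_pow, Nat.cast_one]
    linarith
  · have := b4 (δ / 4) (by positivity)
    rw [Real.rpow_one] at a2
    push_cast at a2 this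
    exact_mod_cast (by linarith : (out.length : ℝ) ≤ h)

end Pool.Agent.Lib.MP_9ec118_lc
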