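import Mathlib

/-!
The choice of parameters.
-/

set_option autoImplicit false

namespace Pool.Agent.Lib.MP_9ec118_lc

open Filter

theorem size_pow_le (c A : ℕ) {ε : ℝ} (hε : 0 < ε) :
    ∀ᶠ n : ℕ in atTop, (c : ℝ) * (n.size : ℝ) ^ A ≤ (n : ℝ) ^ ε := by
  have h := (isLittleO_log_rpow_rpow_atTop (A : ℝ) hε).bound
    (c := 1 / ((c + 1) * 3 ^ A)) (by positivity)
  filter_upwards [tendsto_natCast_atTop_atTop.eventually h, eventually_ge_atTop 3] with n h1 h2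
  have h3 : (3 : ℝ) ≤ n := by exact_mod_cast h2
  have h4 : 1 ≤ Real.log n := by
    rw [Real.le_log_iff_exp_le (by linarith)]
    linarith [Real.exp_one_lt_d9]
  have h5 : (n.size : ℝ) ≤ 3 * Real.log n := by
    have h6 : 2 ^ (n.size - 1) ≤ n := Nat.lt_size.1 (by have := Nat.size_pos.2 (show 0 < n by omega); omega)
    have h7 : ((n.size - 1 : ℕ) : ℝ) * Real.log 2 ≤ Real.log n := by
      rw [← Real.log_pow]
      exact Real.log_le_log (by positivity) (by exact_mod_cast h6)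
    have h8 : (n.size : ℝ) ≤ (n.size - 1 : ℕ) + 1 := by exact_mod_cast (by omega)
    have h9 : (0 : ℝ) ≤ (n.size - 1 : ℕ) := by positivity
    nlinarith [Real.log_two_gt_d9]
  rw [Real.norm_of_nonneg (by positivity), Real.norm_of_nonneg (by positivity), Real.rpow_natCast,
    one_div, inv_mul_eq_div, le_div_iff₀ (by positivity)] at h1
  have h6 : (n.size : ℝ) ^ A ≤ (3 * Real.log n) ^ A := pow_le_pow_left₀ (by positivity) h5 _
  rw [mul_pow] at h6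
  have h7 : 0 ≤ (n.size : ℝ) ^ A := by positivity
  nlinarith

theorem time_le {k ρ : ℕ} (C : ℕ) (hk : 2 ≤ k) {δ : ℝ} (hδ : 0 < δ) (hρ : 4 * k ≤ ρ * min δ 1) :
    ∀ᶠ n : ℕ in atTop, (C : ℝ) * (((k + 1) * 2 ^ (n / k + 1) : ℕ) : ℝ) ^ ((k : ℝ) - δ) ≤
      (2 ^ (n - 2 * (n / ρ)) : ℕ) := by
  have hk' : (2 : ℝ) ≤ k := by exact_mod_cast hk
  set η := min δ 1 with hη
  have h0 : 0 < η := lt_min hδ one_pos
  have h1 : η ≤ 1 := min_le_right _ _
  have h2 : η ≤ δ := min_le_left _ _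
  have hρ0 : (0 : ℝ) < ρ := by nlinarith
  have ht : Tendsto (fun n : ℕ => (2 : ℝ) ^ (η / (2 * k) * n)) atTop atTop :=
    (tendsto_rpow_atTop_of_base_gt_one 2 one_lt_two).comp
      (tendsto_natCast_atTop_atTop.const_mul_atTop (by positivity))
  filter_upwards [ht.eventually_ge_atTop (C * (2 * (k + 1)) ^ k)] with n hn
  have h3 : (((k + 1) * 2 ^ (n / k + 1) : ℕ) : ℝ) ≤ 2 * (k + 1) * 2 ^ ((n : ℝ) / k) := by
    have : (2 : ℝ) ^ (n / k) ≤ 2 ^ ((n : ℝ) / k) := by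
      rw [← Real.rpow_natCast]
      exact Real.rpow_le_rpow_of_exponent_le one_le_two Nat.cast_div_le
    push_cast
    rw [pow_succ]
    nlinarith
  have h4 : (1 : ℝ) ≤ (((k + 1) * 2 ^ (n / k + 1) : ℕ) : ℝ) := by
    exact_mod_cast Nat.succ_le_of_lt (by positivity)
  have h5 : (((k + 1) * 2 ^ (n / k + 1) : ℕ) : ℝ) ^ ((k : ℝ) - δ) ≤
      (2 * (k + 1)) ^ k * 2 ^ ((n : ℝ) / k * (k - η)) := by
    refine (Real.rpow_le_rpow_of_exponent_le h4 (show _ ≤ k - η by linarith)).trans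
      ((Real.rpow_le_rpow (by linarith) h3 (by linarith)).trans ?_)
    rw [Real.mul_rpow (by positivity) (by positivity), ← Real.rpow_mul (by norm_num),
      ← Real.rpow_natCast]
    exact mul_le_mul_of_nonneg_right
      (Real.rpow_le_rpow_of_exponent_le (by linarith) (by linarith)) (by positivity)
  have h6 : (n : ℝ) - 2 * (n / ρ) ≤ (n - 2 * (n / ρ) : ℕ) := by
    have h7 : ((n / ρ : ℕ) : ℝ) ≤ n / ρ := Nat.cast_div_le
    have h8 : (n : ℝ) ≤ (n - 2 * (n / ρ) : ℕ) + 2 * (n / ρ : ℕ) := by exact_mod_cast (by omega)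
    linarith
  refine (mul_le_mul_of_nonneg_left h5 (by positivity)).trans ?_
  rw [← mul_assoc]
  refine (mul_le_mul_of_nonneg_right hn (by positivity)).trans ?_
  push_cast
  rw [← Real.rpow_add two_pos, ← Real.rpow_natCast]
  refine Real.rpow_le_rpow_of_exponent_le one_le_two (le_trans ?_ h6)
  have h7 : 2 * ((n : ℝ) / ρ) ≤ η / (2 * k) * n := by
    rw [← mul_div_assoc, div_mul_eq_mul_div, div_le_div_iff₀ hρ0 (by positivity)]
    nlinarith [mul_le_mul_of_nonneg_left hρ (Nat.cast_nonneg (α := ℝ) n)]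
  have h8 : (n : ℝ) / k * (k - η) = n - 2 * (η / (2 * k) * n) := by field_simp
  linarith

theorem params_nat {k ρ K n e s Z M h : ℕ} (hk : 2 ≤ k) (hρ : 0 < ρ) (he0 : 0 < e) (hh1 : 1 ≤ h)
    (hn1 : 4 * k + 8 ≤ n) (hpow : n ^ (k + 3) < 2 ^ e) (hs : s = 3 * ρ * (K ^ 2 + 1) * e)
    (hZ : Z = s ^ (2 * 5 ^ K)) (hM : M = 3 * ρ * k * e)
    (key : 2 * k ^ 2 * e * (2 * M * Z) * h ≤ n) :
    ∃ q D T : ℕ, 2 ≤ s ∧ s ≤ n ∧ D ≤ n ∧ T ≤ n ∧ h ≤ n ∧
      q.Prime ∧ D < q ∧ T < q ∧ q < 2 ^ e ∧ e * (k * h * T + 1) ≤ n / k + 1 ∧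
      h ^ k * (k * D) + h < q ∧ n * s ^ (2 * 5 ^ K) ≤ T * D ∧
      ∀ j, j * s ≤ K ^ 2 * n → j ≤ n ∧ e * (k * D + 7 + j) ≤ n / ρ := by
  have hρe : 1 ≤ ρ * e := Nat.mul_pos hρ he0
  have hs' : s = 3 * (ρ * e) * (K ^ 2 + 1) := by rw [hs]; ring
  have hM' : M = 3 * (ρ * e) * k := by rw [hM]; ring
  have hs3 : 3 * (ρ * e) ≤ s := hs' ▸ Nat.le_mul_of_pos_right _ (by positivity)
  have hsZ : s ≤ Z := hZ ▸ Nat.le_self_pow (by positivity) _
  have hM6 : 3 * (ρ * e) * 2 ≤ M := hM' ▸ Nat.mul_le_mul_left _ hk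
  obtain ⟨T, hT⟩ : ∃ T, T = 2 * M * Z := ⟨_, rfl⟩
  rw [← hT] at key
  have hT1 : 2 * M * 3 ≤ T := hT ▸ Nat.mul_le_mul_left _ (by omega)
  have hT2 : Z ≤ T := hT ▸ Nat.le_mul_of_pos_left _ (by omega)
  have hTh : T * h ≤ n := by
    rw [mul_assoc] at key
    exact (Nat.le_mul_of_pos_left _ (by positivity)).trans key
  have hTn : T ≤ n := (Nat.le_mul_of_pos_right _ hh1).trans hTh
  have hhn : h ≤ n := (Nat.le_mul_of_pos_left _ (by omega)).trans hTh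
  have hD : n / M ≤ n := Nat.div_le_self _ _
  have hMD : M * (n / M) ≤ n := Nat.mul_div_le _ _
  have hD1 : 0 < n / M := Nat.div_pos (by omega) (by omega)
  have hMD' : n < M * (n / M + 1) := Nat.lt_mul_div_succ _ (by omega)
  generalize n / M = D at *
  obtain ⟨q, hq, hq1, hq2⟩ := Nat.exists_prime_lt_and_le_two_mul
    (h ^ k * (k * D) + h + D + T) (by omega)
  refine ⟨q, D, T, by omega, by omega, hD, hTn, hhn, hq, by omega, by omega, ?_, ?_,
    by omega, ?_, fun j hj => ?_⟩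
  · refine hq2.trans_lt (lt_of_le_of_lt ?_ hpow)
    have h3 : h ^ k * (k * D) ≤ n ^ k * (n * n) :=
      Nat.mul_le_mul (Nat.pow_le_pow_left hhn _) (Nat.mul_le_mul (by omega) hD)
    have h4 : n ≤ n ^ k * (n * n) := (Nat.le_mul_self n).trans
      (Nat.le_mul_of_pos_left _ (Nat.pow_pos (by omega)))
    have h5 : n ^ (k + 3) = n ^ k * (n * n) * n := by ring
    have h6 : n ^ k * (n * n) * 8 ≤ n ^ k * (n * n) * n := Nat.mul_le_mul_left _ (by omega)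
    omega
  · refine le_trans ((Nat.le_div_iff_mul_le (by omega)).2 (le_trans ?_ key)) (Nat.le_succ _)
    have : 1 ≤ k * h * T := Nat.mul_pos (Nat.mul_pos (by omega) hh1) (by omega)
    have h3 : 2 * k ^ 2 * e * T * h = e * (k * h * T + k * h * T) * k := by ring
    rw [h3]
    exact Nat.mul_le_mul_right _ (Nat.mul_le_mul_left _ (by omega))
  · rw [← hZ, hT, mul_right_comm]
    refine Nat.mul_le_mul_right _ ?_
    have : M ≤ M * D := Nat.le_mul_of_pos_right _ hD1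
    rw [mul_add] at hMD'
    rw [mul_assoc]
    omega
  · have h3 : j * (3 * (ρ * e)) ≤ n := by
      refine Nat.le_of_mul_le_mul_right ?_ (show 0 < K ^ 2 + 1 by positivity)
      rw [mul_assoc, ← hs', mul_add, mul_comm n]
      omega
    refine ⟨(Nat.le_mul_of_pos_right _ (by omega)).trans h3, (Nat.le_div_iff_mul_le hρ).2 ?_⟩
    have h4 : M * D = 3 * (ρ * e * (k * D)) := by rw [hM]; ring
    have h5 : j * (3 * (ρ * e)) = 3 * (ρ * e * j) := by ring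
    have h6 : e * (k * D + 7 + j) * ρ = ρ * e * (k * D) + 7 * (ρ * e) + ρ * e * j := by ring
    omega

theorem params {k ρ : ℕ} (K C : ℕ) (hk : 2 ≤ k) (hρ : 0 < ρ) {ε : ℝ} (hε : 0 < ε) :
    ∀ᶠ n : ℕ in atTop, ∀ e N, e = (k + 3) * n.size → N = (k + 1) * 2 ^ (n / k + 1) →
      N < 2 ^ n ∧ C ≤ N ∧ C ≤ n ∧ n * n < 2 ^ e ∧ ∃ s h q D T : ℕ,
        C * Real.log N ^ (1 - ε) * k ≤ h ∧ 2 ≤ s ∧ s ≤ n ∧ D ≤ n ∧ T ≤ n ∧ h ≤ n ∧
        q.Prime ∧ D < q ∧ T < q ∧ q < 2 ^ e ∧ e * (k * h * T + 1) ≤ n / k + 1 ∧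
        h ^ k * (k * D) + h < q ∧ n * s ^ (2 * 5 ^ K) ≤ T * D ∧
        ∀ j, j * s ≤ K ^ 2 * n → j ≤ n ∧ e * (k * D + 7 + j) ≤ n / ρ := by
  obtain ⟨η, h0, h1, h2⟩ : ∃ η : ℝ, 0 < η ∧ η ≤ 1 ∧ η ≤ ε :=
    ⟨min ε 1, lt_min hε one_pos, min_le_right _ _, min_le_left _ _⟩
  filter_upwards [size_pow_le (2 * k ^ 2 * (k + 3) * (6 * ρ * k * (k + 3) *
    (3 * ρ * (K ^ 2 + 1) * (k + 3)) ^ (2 * 5 ^ K)) * ((C + 1) * k + 1)) (2 * 5 ^ K + 2) h0,
    eventually_ge_atTop (4 * k + 8), eventually_ge_atTop (k * C)] with n hn hn1 hn2 e N he hN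
  have hL : 0 < n.size := Nat.size_pos.2 (by omega)
  have he0 : 0 < e := by rw [he]; positivity
  have hpow : ∀ j ≤ k + 3, n ^ j < 2 ^ e := fun j hj =>
    (Nat.pow_le_pow_right (by omega) hj).trans_lt (by
      rw [he, mul_comm, pow_mul]
      exact Nat.pow_lt_pow_left (Nat.lt_size_self n) (by omega))
  have hN1 : N < 2 ^ n := by
    have h3 : n / k ≤ n / 2 := Nat.div_le_div_left hk two_pos
    have h4 : k + 1 < 2 ^ (k + 1) := Nat.lt_two_pow_self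
    rw [hN]
    refine (Nat.mul_lt_mul_of_pos_right h4 (by positivity)).trans_le ?_
    rw [← pow_add]
    exact Nat.pow_le_pow_right two_pos (by omega)
  have hN2 : n / k + 1 ≤ N := hN ▸ Nat.lt_two_pow_self.le.trans (Nat.le_mul_of_pos_left _ (by omega))
  have hN3 : k + 1 ≤ N := hN ▸ Nat.le_mul_of_pos_right _ (by positivity)
  have hC : C ≤ n / k := (Nat.le_div_iff_mul_le (by omega)).2 (by rw [mul_comm]; exact hn2)
  refine ⟨hN1, by omega, hC.trans (Nat.div_le_self _ _),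
    by simpa [pow_two] using hpow 2 (by omega), ?_⟩
  have hn0 : (1 : ℝ) ≤ n := by exact_mod_cast (by omega : 1 ≤ n)
  have hp1 : (1 : ℝ) ≤ (n : ℝ) ^ (1 - η) := Real.one_le_rpow hn0 (by linarith)
  have hk0 : (0 : ℝ) < k := by exact_mod_cast (by omega : 0 < k)
  have hh2 : (⌈((C : ℝ) + 1) * k * (n : ℝ) ^ (1 - η)⌉₊ : ℝ) ≤ ((C + 1) * k + 1) * (n : ℝ) ^ (1 - η) := by
    have := Nat.ceil_lt_add_one (show 0 ≤ ((C : ℝ) + 1) * k * (n : ℝ) ^ (1 - η) by positivity)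
    linarith
  obtain ⟨q, D, T, H⟩ := params_nat (K := K) (h := ⌈((C : ℝ) + 1) * k * (n : ℝ) ^ (1 - η)⌉₊) hk hρ he0
    (Nat.one_le_ceil_iff.2 (by positivity)) hn1 (hpow _ le_rfl) rfl rfl rfl (by
      have h3 : ((2 * k ^ 2 * e * (2 * (3 * ρ * k * e) * (3 * ρ * (K ^ 2 + 1) * e) ^ (2 * 5 ^ K)) :
          ℕ) : ℝ) * ((C + 1) * k + 1) ≤ (n : ℝ) ^ η := by
        refine le_trans (le_of_eq ?_) hn
        rw [he, ← mul_assoc (3 * ρ * (K ^ 2 + 1)), mul_pow _ n.size]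
        generalize (3 * ρ * (K ^ 2 + 1) * (k + 3)) ^ (2 * 5 ^ K) = z
        push_cast
        ring
      rw [← Nat.cast_le (α := ℝ), Nat.cast_mul]
      refine (mul_le_mul_of_nonneg_left hh2 (by positivity)).trans ?_
      rw [← mul_assoc]
      refine (mul_le_mul_of_nonneg_right h3 (by positivity)).trans (le_of_eq ?_)
      rw [← Real.rpow_add (by linarith)]
      simp)
  refine ⟨_, _, q, D, T, ?_, H⟩
  have h3 : (3 : ℝ) ≤ N := by exact_mod_cast (by omega : 3 ≤ N)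
  have h4 : 1 ≤ Real.log N := by
    rw [Real.le_log_iff_exp_le (by linarith)]
    linarith [Real.exp_one_lt_d9]
  have h5 : Real.log N ≤ n := by
    refine (Real.log_le_log (by linarith) (show (N : ℝ) ≤ 2 ^ n by exact_mod_cast hN1.le)).trans ?_
    rw [Real.log_pow]
    exact mul_le_of_le_one_right (by positivity) (by linarith [Real.log_two_lt_d9])
  rw [mul_right_comm]
  refine le_trans (mul_le_mul (mul_le_mul_of_nonneg_right (by linarith) hk0.le) ?_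
    (Real.rpow_nonneg (by linarith) _) (by positivity)) (Nat.le_ceil _)
  exact (Real.rpow_le_rpow_of_exponent_le h4 (by linarith)).trans
    (Real.rpow_le_rpow (by linarith) h5 (by linarith))

end Pool.Agent.Lib.MP_9ec118_lc
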