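import Mathlib
import Pool.Agent.Lib.MP_9ec118_lc.Sim

/-!
Exhaustive search over advice strings, simulating a fixed program for each of them.
-/

set_option autoImplicit false

namespace Pool.Agent.Lib.MP_9ec118_lc

open Function Pool.Agent.Shared.PolyTime N487b59b3 N68a2faeb

theorem search {ι : Type} {sz : ι → ℕ} {I : ι → ℕ → ℕ} (P : Prog) {L : ι → ℕ}
    {len steps num : List ℕ → ℕ} {wd : List ℕ → ℕ → ℕ} {gi : List ℕ → ℕ → ℕ → ℕ}
    {check : List ℕ → ℕ → List ℕ → Bool} (hI : Bdd (fun y : ι × ℕ => sz y.1) fun y => bsize (I y.1 y.2))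
    (hL : Bdd sz L) (hlen : IsPolyTime len)
    (h0 : ∀ x, len ((List.range (L x)).map (I x)) ≤ L x)
    (h1 : ∀ x i, i < L x → i < len ((List.range i).map (I x)))
    (hsteps : IsPolyTime steps) (hnum : IsPolyTime num)
    (hwd : IsPolyTime fun p : List ℕ × ℕ => wd p.1 p.2)
    (hwd' : PolyBdd fun p : List ℕ × ℕ => wd p.1 p.2)
    (hgi : IsPolyTime fun p : List ℕ × ℕ × ℕ => gi p.1 p.2.1 p.2.2)
    (hcheck : IsPolyTime fun p : List ℕ × ℕ × List ℕ => check p.1 p.2.1 p.2.2) :
    ∃ (P' : Prog) (C : ℕ), ∀ x inp w, inp = (List.range (L x)).map (I x) →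
      (sz x + 2) ^ C ≤ w → ∃ out, Outputs P' w (I x)
        ((((num inp + 1) * (steps inp + 1) + 1) * (sz x + 2) ^ C : ℕ) : ℝ) out ∧
      (out ≠ [] ↔ ∃ a < num inp, check inp a
        ((run P (wd inp a) (gi inp a) (steps inp)).2.2.take inp.length) = true) := by
  classical
  have hb : Bdd (fun y : {y : ι × ℕ // y.2 ≤ L y.1} => sz y.1.1)
      (fun y => bsize ((List.range y.1.2).map (I y.1.1))) := by
    obtain ⟨p, hp⟩ := hI
    refine ((hL.ghost (fun y : {y : ι × ℕ // y.2 ≤ L y.1} => y.1.1)).mul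
      (((Bdd.const _ 2).mul ((Bdd.refl _).eval p)).add (Bdd.const _ 1))).mono fun y => ?_
    refine (bsize_list_le _ (p.eval (sz y.1.1)) fun a ha => ?_).trans ?_
    · obtain ⟨j, -, rfl⟩ := List.mem_map.1 ha
      exact hp (y.1.1, j)
    · rw [List.length_map, List.length_range]
      exact Nat.mul_le_mul_right _ y.2
  have s0 := RImp.apply (sz := sz) (I := I) (mem := fun _ _ => 0) (out := fun _ => [])
    (st := fun _ => ()) (F := fun _ => ([] : List ℕ)) (by fun_prop) (Bdd.const _ _)
  have s1 := RImp.whileLoop (I := I) (c := fun l : List ℕ => decide (l.length < len l))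
    (by fun_prop) (fun x i => (List.range i).map (I x)) (fun _ _ _ => 0) (fun _ _ => []) L
    (fun _ => 1) (fun x => by simpa using h0 x) (fun x i hi => by simpa using h1 x i hi) hb (by
      have b0 := hb.ghost (fun y : {y : ι × ℕ // y.2 < L y.1} => ⟨y.1, y.2.le⟩)
      have b1 := hI.ghost (fun y : {y : ι × ℕ // y.2 < L y.1} =>
        (y.1.1, ((List.range y.1.2).map (I y.1.1)).length))
      refine ((RImp.readInput (J := fun l : List ℕ => l.length) (by fun_prop) b0 b1).seq1
        (RImp.apply (F := fun p : List ℕ × ℕ => p.1 ++ [p.2]) (by fun_prop)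
          (bdd_pair b0 b1))).congr (fun _ => rfl) fun y => ?_
      simp [List.range_succ])
  let inp : ι → List ℕ := fun x => (List.range (L x)).map (I x)
  have hinp : Bdd sz fun x => bsize (inp x) := hb.ghost (fun x => ⟨(x, L x), le_rfl⟩)
  let R : ι → ℕ → ℕ × (ℕ → ℕ) × List ℕ := fun x a =>
    run P (wd (inp x) a) (gi (inp x) a) (steps (inp x))
  let st : ι → ℕ → List ℕ × ℕ × Bool := fun x a =>
    (inp x, a, decide (∃ a' < a, check (inp x) a' ((R x a').2.2.take (inp x).length) = true))
  let M : ι → ℕ → ℕ × ℕ → ℕ := fun x a k => if k.1 < a then (R x k.1).2.1 k.2 else 0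
  have hs : Bdd (fun y : {y : ι × ℕ // y.2 ≤ num (inp y.1)} => sz y.1.1)
      (fun y => bsize (st y.1.1 y.1.2)) := by
    have hp := hinp.ghost (fun y : {y : ι × ℕ // y.2 ≤ num (inp y.1)} => y.1.1)
    exact bdd_pair hp (bdd_pair ((RImp.bdd_pt hnum hp).mono fun y => bsize_nat_mono y.2)
      ((Bdd.const _ 1).mono fun y => le_of_eq rfl))
  have s2 := RImp.apply (sz := sz) (I := I) (mem := fun _ _ => 0) (out := fun _ => [])
    (F := fun l : List ℕ => (l, 0, false)) (by fun_prop) hinp
  have s3 := RImp.whileLoop (I := I) (c := fun y : List ℕ × ℕ × Bool => decide (y.2.1 < num y.1))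
    (by fun_prop) st M (fun _ _ => []) (fun x => num (inp x)) (fun x => steps (inp x) + 1 + 1)
    (by simp [st]) (fun x i hi => by simpa [st] using hi) hs (by
      let κ := {y : ι × ℕ // y.2 < num (inp y.1)}
      have b0 := hs.ghost (fun y : κ => ⟨y.1, y.2.le⟩)
      have hw1 := hwd.comp (g := fun p : List ℕ × ℕ × Bool => (p.1, p.2.1)) (by fun_prop)
      have hw2 := hwd'.comp (f := fun p : List ℕ × ℕ × Bool => (p.1, p.2.1)) (by fun_prop)
      have r1 := RImp.simulate (I := fun y : κ => I y.1.1) P (X := List ℕ × ℕ × Bool)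
        (key := fun p => p.2.1) (wd := fun p => wd p.1 p.2.1) (steps := fun p => steps p.1)
        (cap := fun p => p.1.length) (gi := fun p j => gi p.1 p.2.1 j) (by fun_prop)
        hw1 hw2 (by fun_prop) (by fun_prop) (by fun_prop)
        (hgi.comp (g := fun p : (List ℕ × ℕ × Bool) × ℕ => (p.1.1, p.1.2.1, p.2)) (by fun_prop))
        _ b0 (fun y => M y.1.1 y.1.2) (by simp [M, st])
      obtain ⟨B, hB⟩ := run_inv P
      have b1 : Bdd (fun y : κ => sz y.1.1)
          (fun y => bsize ((R y.1.1 y.1.2).2.2.take (inp y.1.1).length)) := by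
        refine (bdd_poly (g := fun p : List ℕ × ℕ × Bool => p.1.length * (2 * wd p.1 p.2.1 + 1))
          (.mul (by fun_prop) (.add (.mul (.const 2) hw2) (.const 1))) b0).mono fun y => ?_
        refine (bsize_list_le _ (wd (inp y.1.1) y.1.2) fun a ha => bsize_nat_le_iff.2
          ((hB _ _ _).2.2 a (List.mem_of_mem_take ha))).trans ?_
        exact Nat.mul_le_mul_right _ (List.length_take_le _ _)
      refine (r1.seq (RImp.apply (F := fun p : (List ℕ × ℕ × Bool) × List ℕ =>
        (p.1.1, p.1.2.1 + 1, (p.1.2.2 || check p.1.1 p.1.2.1 p.2))) ?_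
          (bdd_pair b0 b1))).congr (fun _ => rfl) fun y => ?_
      · have := hcheck.comp (g := fun p : (List ℕ × ℕ × Bool) × List ℕ => (p.1.1, p.1.2.1, p.2))
          (by fun_prop)
        fun_prop
      obtain ⟨⟨x, a⟩, ha⟩ := y
      clear r1 b0 b1
      simp only [st, M]
      congr 1
      · congr 2
        rw [Bool.eq_iff_iff]
        simp only [decide_eq_true_eq, Bool.or_eq_true, Nat.lt_succ_iff_lt_or_eq, or_and_right,
          exists_or, exists_eq_left]
        rfl
      · funext ⟨k, b⟩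
        rcases lt_trichotomy k a with h | rfl | h
        · simp [h, h.ne, Nat.lt_succ_of_lt h]
        · simp [R]
        · simp [h.ne', h.not_gt, show ¬ k < a + 1 by omega])
  have s4 := RImp.emitIf (I := I) (mem := fun x => M x (num (inp x)))
    (c := fun y : List ℕ × ℕ × Bool => y.2.2) (by fun_prop)
    (hs.ghost (fun x => ⟨(x, num (inp x)), le_rfl⟩))
  have s5 := (s0.seq (s1.seq (s2.seq ((s3.congr (B := fun x => TS (inp x, 0, false) (fun _ => 0) [])
    (fun x => by simp [st, M]) fun _ => rfl).seq s4)))).weaken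
    (τ' := fun x => (num (inp x) + 1) * (steps (inp x) + 1)) (fun x => 2 * L x + 8)
    (((Bdd.const _ 2).mul hL).add (Bdd.const _ 8)) (fun x => by
      have : 1 ≤ (num (inp x) + 1) * (steps (inp x) + 1) := Nat.succ_le_of_lt (by positivity)
      nlinarith)
  obtain ⟨P', C, h⟩ := s5.toProg
  refine ⟨P', C, ?_⟩
  rintro x _ w rfl hw
  refine ⟨_, h x w hw, ?_⟩
  simp only [TS, st]
  have : ∀ z : Bool, (bif z then [2] else []) ≠ [] ↔ z = true := by decide
  rw [this, decide_eq_true_iff]

end Pool.Agent.Lib.MP_9ec118_lc
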