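import Mathlib
import Pool.Agent.Lib.MP_9ec118_lc.Search
import Pool.Agent.Lib.MP_9ec118_lc.Params

/-!
The reduction from k-SAT to approximate k-Dominating Set.
-/

set_option autoImplicit false

namespace Pool.Agent.Lib.MP_9ec118_lc

open Function Pool.Agent.Shared.PolyTime N487b59b3 N68a2faeb Filter

def adv (k n a i : ℕ) : ℕ := dg (2 ^ ((k + 3) * n.size)) a i

def R (k K n : ℕ) (φ : List Cl) (a v u : ℕ) : Prop :=
  rel (spars K (min (adv k n a 0) n) n
    ((List.range n).map fun j => adv k n a (k * min (adv k n a 2) n + 7 + j)) φ) k (n / k + 1)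
    (2 ^ ((k + 3) * n.size)) (adv k n a 1) (min (adv k n a 2) n) (min (adv k n a 3) n)
    (min (adv k n a 4) n)
    ((List.range (k * min (adv k n a 2) n + 1)).map fun j => adv k n a (6 + j)) v u

open Classical in
noncomputable def gin (k K n : ℕ) (φ : List Cl) (a j : ℕ) : ℕ :=
  if j = 0 then (k + 1) * 2 ^ (n / k + 1) else
  if (j - 1) / ((k + 1) * 2 ^ (n / k + 1)) < (k + 1) * 2 ^ (n / k + 1) ∧
    (j - 1) / ((k + 1) * 2 ^ (n / k + 1)) ≠ (j - 1) % ((k + 1) * 2 ^ (n / k + 1)) ∧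
    (R k K n φ a ((j - 1) / ((k + 1) * 2 ^ (n / k + 1))) ((j - 1) % ((k + 1) * 2 ^ (n / k + 1))) ∨
    R k K n φ a ((j - 1) % ((k + 1) * 2 ^ (n / k + 1))) ((j - 1) / ((k + 1) * 2 ^ (n / k + 1))))
  then 1 else 0

open Classical in
noncomputable def chk (k n : ℕ) (φ : List Cl) (a : ℕ) (out : List ℕ) : Bool :=
  decide (∃ τ < min (adv k n a 4) n ^ k, ∀ c ∈ φ,
    Sat (n / k + 1) (fun i => out.getD (dg (min (adv k n a 4) n) τ i) 0) c)

section

variable {α : Type} [N487b59b3 α] {n a : α → ℕ} {φ : α → List Cl}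

@[fun_prop]
theorem pt_adv (k : ℕ) {i : α → ℕ} (hn : IsPolyTime n) (ha : IsPolyTime a) (hi : IsPolyTime i) :
    IsPolyTime (fun x => adv k (n x) (a x) (i x)) := by
  unfold adv
  fun_prop

open Classical in
theorem pt_R (k K : ℕ) {v u : α → ℕ} (hn : IsPolyTime n) (hn' : PolyBdd n) (hφ : IsPolyTime φ)
    (ha : IsPolyTime a) (hv : IsPolyTime v) (hu : IsPolyTime u) :
    IsPolyTime (fun x => decide (R k K (n x) (φ x) (a x) (v x) (u x))) :=
  pt_rel k (pt_spars K (by fun_prop) (by fun_prop) hn (by fun_prop) hφ) (by fun_prop)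
    (by fun_prop) (by fun_prop) (by fun_prop) (by fun_prop) (by fun_prop) (by fun_prop)
    (by fun_prop) (by fun_prop) (by fun_prop) (by fun_prop) hv hu

theorem pt_gin (k K : ℕ) {j : α → ℕ} (hn : IsPolyTime n) (hn' : PolyBdd n) (hφ : IsPolyTime φ)
    (ha : IsPolyTime a) (hj : IsPolyTime j) :
    IsPolyTime (fun x => gin k K (n x) (φ x) (a x) (j x)) := by
  classical
  unfold gin
  exact .ite (by fun_prop) (by fun_prop) (.ite (.decide_and (by fun_prop) (.decide_and (by fun_prop)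
    (.decide_or (pt_R k K hn hn' hφ ha (by fun_prop) (by fun_prop))
      (pt_R k K hn hn' hφ ha (by fun_prop) (by fun_prop))))) (by fun_prop) (by fun_prop))

theorem pt_chk (k : ℕ) {o : α → List ℕ} (hn : IsPolyTime n) (hn' : PolyBdd n) (hφ : IsPolyTime φ)
    (ha : IsPolyTime a) (ho : IsPolyTime o) :
    IsPolyTime (fun x => chk k (n x) (φ x) (a x) (o x)) := by
  classical
  unfold chk Sat
  fun_prop

end

open Classical in
theorem gin_eq {k K n N : ℕ} (φ : List Cl) (a : ℕ) (hN : N = (k + 1) * 2 ^ (n / k + 1))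
    (G : SimpleGraph (Fin N)) (hG : G = SimpleGraph.fromRel fun u v : Fin N => R k K n φ a u v) :
    (fun j => if j = 0 then N else if ∃ u v : Fin N, G.Adj u v ∧ j = 1 + u * N + v
      then 1 else 0) = gin k K n φ a := by
  funext j
  have h0 : 0 < N := by rw [hN]; positivity
  simp only [gin, ← hN, hG, SimpleGraph.fromRel_adj]
  by_cases hj : j = 0
  · rw [if_pos hj, if_pos hj]
  rw [if_neg hj, if_neg hj]
  refine if_congr ⟨?_, fun ⟨h1, h2, h3⟩ => ⟨⟨_, h1⟩, ⟨_, Nat.mod_lt _ h0⟩,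
    ⟨fun e => h2 (congrArg Fin.val e), h3⟩, ?_⟩⟩ rfl rfl
  · rintro ⟨u, v, ⟨h1, h2⟩, rfl⟩
    have e : 1 + u.val * N + v - 1 = v + u * N := by omega
    rw [e, Nat.add_mul_div_right _ _ h0, Nat.add_mul_mod_self_right, Nat.div_eq_of_lt v.2,
      Nat.mod_eq_of_lt v.2, zero_add]
    exact ⟨u.2, fun e => h1 (Fin.ext e), h2⟩
  · have := Nat.div_add_mod' (j - 1) N
    simp only
    omega

theorem map_getD_range (l : List ℕ) : (List.range l.length).map (fun j => l.getD j 0) = l :=
  List.ext_getElem (by simp) fun i h1 h2 => by simp [List.getElem?_eq_getElem h2]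

theorem core {k K n N e ρ s h q D T w : ℕ} (hk : 2 ≤ k) (he : e = (k + 3) * n.size)
    (hN : N = (k + 1) * 2 ^ (n / k + 1)) (hnn : n * n < 2 ^ e) (hw : w ≤ n * n) (hs : 2 ≤ s)
    (hsn : s ≤ n) (hDn : D ≤ n) (hTn : T ≤ n) (hhn : h ≤ n) (hq : q.Prime) (hD : D < q)
    (hT : T < q) (hqe : q < 2 ^ e) (hb : e * (k * h * T + 1) ≤ n / k + 1)
    (hh : h ^ k * (k * D) + h < q) (hTD : n * s ^ (2 * 5 ^ K) ≤ T * D)
    (hJ : ∀ j, j * s ≤ K ^ 2 * n → j ≤ n ∧ e * (k * D + 7 + j) ≤ n / ρ) (φ : List Cl)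
    (x : ℕ → Bool)
    (hφ : ∀ S ∈ φ, S.card ≤ K ∧ S ⊆ Finset.range (2 * n) ∧
      ∃ l ∈ S, x (l / 2) = decide (l % 2 = 1)) :
    ∃ a < 2 ^ (n / ρ), adv k n a 5 = w ∧
      (∃ S : Finset (Fin N), S.card = k ∧ ∀ v, ∃ u ∈ S, u = v ∨
        (SimpleGraph.fromRel fun u v : Fin N => R k K n φ a u v).Adj u v) ∧
      ∀ out : List ℕ, out.length ≤ h → (∀ v, ∃ u : Fin N, u.val ∈ out ∧ (u = v ∨
        (SimpleGraph.fromRel fun u v : Fin N => R k K n φ a u v).Adj u v)) →
        chk k n φ a out = true := by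
  obtain ⟨J0, j1, j2, j3⟩ := sparsify hs φ {l | x (l / 2) = decide (l % 2 = 1)} hφ
  obtain ⟨j4, j5⟩ := hJ _ j1
  obtain ⟨s1, s2, s3⟩ := j3 ((List.range n).map fun j => J0.toList.getD j 0) (fun i hi => by
    simp only [List.mem_map, List.mem_range]
    constructor
    · rintro ⟨j, -, rfl⟩
      rcases Nat.lt_or_ge j J0.toList.length with h | h
      · rw [List.getD_eq_getElem _ _ h]
        exact Finset.mem_toList.1 (List.getElem_mem h)
      · rw [List.getD_eq_default _ _ h] at hi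
        omega
    · intro h
      obtain ⟨j, hj, e⟩ := List.mem_iff_getElem.1 (Finset.mem_toList.2 h)
      exact ⟨j, hj.trans_le (by rwa [Finset.length_toList]), by
        rw [List.getD_eq_getElem _ _ hj, e]⟩)
  have hb0 : 0 < n / k + 1 := Nat.succ_pos _
  obtain ⟨cs, c1, c2, c3⟩ := gadget (B := 2 ^ e) hN hq (by omega) hb0 hD hT hqe.le
    (by rw [← pow_mul]; exact Nat.pow_le_pow_right two_pos hb) hh (s1.trans hTD)
    (fun c hc l hl => by
      have h1 := Finset.mem_range.1 ((s2 c hc).1 hl)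
      have h2 := Nat.lt_mul_div_succ n (show 0 < k by omega)
      exact Nat.div_lt_of_lt_mul (by rw [mul_comm]; omega))
    (y := fun i => Nat.ofBits fun j : Fin (n / k + 1) => x ((n / k + 1) * i + j))
    (fun c hc => by
      obtain ⟨l, hl, h1⟩ := (s2 c hc).2
      refine ⟨l, hl, rfl, ?_⟩
      rw [Nat.testBit_ofBits_lt _ _ (Nat.mod_lt _ hb0), Nat.div_add_mod]
      exact h1)
  have hn : n ≤ n * n := Nat.le_mul_self n
  obtain ⟨L, hL⟩ : ∃ L, L = s :: q :: D :: T :: h :: w :: (cs ++ J0.toList) := ⟨_, rfl⟩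
  have hlen : L.length = k * D + 7 + J0.card := by
    simp only [hL, List.length_cons, List.length_append, c1, Finset.length_toList]
    omega
  obtain ⟨a, a1, a2⟩ := exists_dg (B := 2 ^ e) L.length (fun i => L.getD i 0) (fun i hi => by
    rw [List.getD_eq_getElem _ _ hi]
    have hm := List.getElem_mem hi
    generalize L[i] = z at hm
    simp only [hL, List.mem_cons, List.mem_append, Finset.mem_toList] at hm
    rcases hm with rfl | rfl | rfl | rfl | rfl | rfl | hm | hm
    iterate 6 omega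
    · exact (c2 z hm).trans hqe
    · exact ((j2 z hm).trans (hTD.trans (Nat.mul_le_mul hTn hDn))).trans_lt hnn)
  have a3 : ∀ i, adv k n a i = L.getD i 0 := fun i => by
    rw [adv, ← he]
    rcases Nat.lt_or_ge i L.length with h | h
    · exact a2 i h
    · rw [List.getD_eq_default _ _ h, dg,
        Nat.div_eq_of_lt (a1.trans_le (Nat.pow_le_pow_right (by positivity) h)), Nat.zero_mod]
  have a4 : ∀ j, L.getD (6 + j) 0 = (cs ++ J0.toList).getD j 0 := fun j => by
    rw [hL, add_comm]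
    simp only [List.getD_cons_succ]
  have a5 : min (adv k n a 4) n = h := by rw [a3, hL]; exact min_eq_left hhn
  have a6 : min (adv k n a 2) n = D := by rw [a3, hL]; exact min_eq_left hDn
  have hR : R k K n φ a = rel (spars K s n ((List.range n).map fun j => J0.toList.getD j 0) φ) k
      (n / k + 1) (2 ^ e) q D T h cs := by
    funext v u
    rw [R, a5, a6, ← he]
    congr 1
    · congr 1
      · rw [a3, hL]; exact min_eq_left hsn
      · refine List.map_congr_left fun j _ => ?_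
        rw [a3, show k * D + 7 + j = 6 + (cs.length + j) by omega, a4,
          List.getD_append_right _ _ _ _ (by omega), Nat.add_sub_cancel_left]
    · rw [a3, hL]; rfl
    · rw [a3, hL]; exact min_eq_left hTn
    · rw [← c1]
      conv_rhs => rw [← map_getD_range cs]
      refine List.map_congr_left fun j hj => ?_
      rw [a3, a4, List.getD_append _ _ _ _ (List.mem_range.1 hj)]
  obtain ⟨g1, g2⟩ := c3 (SimpleGraph.fromRel fun u v : Fin N => R k K n φ a u v) fun u v => by
    rw [SimpleGraph.fromRel_adj, hR, Ne, Ne, Fin.ext_iff]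
  refine ⟨a, a1.trans_le ?_, by rw [a3, hL]; rfl, g1, fun out h1 h2 => ?_⟩
  · rw [← pow_mul, hlen]
    exact Nat.pow_le_pow_right two_pos j5
  · obtain ⟨τ, h3, h4⟩ := g2 out h1 h2
    rw [chk, a5]
    refine @decide_eq_true _ (_) ⟨τ, h3, fun c hc => ?_⟩
    obtain ⟨c', hc', h5⟩ := s3 c hc
    obtain ⟨l, hl, h6⟩ := h4 c' hc'
    exact ⟨l, h5 hl, h6⟩

def nn (n0 : ℕ) (inp : List ℕ) : ℕ := min (inp.getD 0 0 + n0) inp.length

def phi (K n0 : ℕ) (inp : List ℕ) : List Cl :=
  (List.range (min (inp.getD 1 0) inp.length)).map fun i =>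
    (Finset.range (2 * nn n0 inp)).filter (· ∈ (inp.drop (K * i + 2)).take K)

theorem drop_take_flatten {K : ℕ} (φ : List (List ℕ)) (h : ∀ c ∈ φ, c.length = K) (r : List ℕ)
    (i : ℕ) (hi : i < φ.length) : ((φ.flatten ++ r).drop (K * i)).take K = φ[i] := by
  induction φ generalizing i with
  | nil => simp at hi
  | cons c φ ih =>
    have hc := h c List.mem_cons_self
    rw [List.flatten_cons, List.append_assoc]
    cases i with
    | zero => simp [← hc]
    | succ i =>
      rw [mul_add, mul_one, add_comm, ← List.drop_drop, List.drop_left' hc]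
      exact ih (fun c hc => h c (List.mem_cons_of_mem _ hc)) i (by simpa using hi)

theorem map_getD_range' (l : List ℕ) {m : ℕ} (h : l.length ≤ m) :
    ∃ r, (List.range m).map (fun j => l.getD j 0) = l ++ r := by
  obtain ⟨d, rfl⟩ := Nat.exists_eq_add_of_le h
  exact ⟨_, by rw [List.range_add, List.map_append, map_getD_range]⟩

theorem length_flatten_eq {K : ℕ} (φ : List (List ℕ)) (h : ∀ c ∈ φ, c.length = K) :
    φ.flatten.length = K * φ.length := by
  induction φ with
  | nil => simp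
  | cons c φ ih =>
    rw [List.flatten_cons, List.length_append, h c List.mem_cons_self,
      ih fun c hc => h c (List.mem_cons_of_mem _ hc), List.length_cons]
    ring

open Classical in
theorem main (hS : SETH) (k : ℕ) (hk : 2 ≤ k) (δ ε : ℝ) (hδ : 0 < δ) (hε : 0 < ε) :
    ¬ ∃ (P : List (ℕ × ℕ × ℕ × ℕ)) (C : ℕ), ∀ n ≥ C, ∃ w ≤ C * Nat.size n,
      ∀ G : SimpleGraph (Fin n),
        (∃ D : Finset (Fin n), D.card = k ∧ ∀ v, ∃ u ∈ D, u = v ∨ G.Adj u v) →
        ∃ out, Outputs P w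
            (fun j => if j = 0 then n else
              if ∃ u v : Fin n, G.Adj u v ∧ j = 1 + u * n + v then 1 else 0)
            (C * (n : ℝ) ^ ((k : ℝ) - δ)) out ∧
          (out.length : ℝ) ≤ C * Real.log n ^ (1 - ε) * k ∧
          ∀ v, ∃ u : Fin n, u.val ∈ out ∧ (u = v ∨ G.Adj u v) := by
  rintro ⟨P, C, hP⟩
  have hη : 0 < min δ 1 := lt_min hδ one_pos
  obtain ⟨ρ, hρ⟩ := exists_nat_ge (4 * k / min δ 1)
  rw [div_le_iff₀ hη] at hρ
  have hρ0 : (0 : ℝ) < ρ := by
    have : (2 : ℝ) ≤ k := by exact_mod_cast hk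
    nlinarith
  have hρ2 : 2 ≤ ρ := by
    have h1 : (2 : ℝ) ≤ k := by exact_mod_cast hk
    have h2 : (ρ : ℝ) * min δ 1 ≤ ρ := mul_le_of_le_one_right hρ0.le (min_le_right _ _)
    exact_mod_cast (by linarith : (2 : ℝ) ≤ ρ)
  obtain ⟨K, hK⟩ := hS (1 / ρ) (by positivity)
  obtain ⟨n0, hn0⟩ := eventually_atTop.1
    ((time_le C hk hδ hρ).and (params (ρ := ρ) K C hk (by omega) hε))
  let ι := {x : ℕ × List (List ℕ) // ∀ c ∈ x.2, c.length = K ∧ ∀ l ∈ c, l < 2 * x.1}
  have hnn : IsPolyTime (nn n0) := by unfold nn; fun_prop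
  have hnn' : PolyBdd (nn n0) := by unfold nn; fun_prop
  have hphi : IsPolyTime (phi K n0) := by unfold phi; fun_prop
  have hsz1 : Bdd (fun x : ι => x.1.1 + x.1.2.length) fun x => x.1.1 :=
    (Bdd.refl _).mono fun _ => Nat.le_add_right _ _
  have hsz2 : Bdd (fun x : ι => x.1.1 + x.1.2.length) fun x => x.1.2.length :=
    (Bdd.refl _).mono fun _ => Nat.le_add_left _ _
  obtain ⟨P', C', H⟩ := search (sz := fun x : ι => x.1.1 + x.1.2.length)
    (I := fun x j => (x.1.1 :: x.1.2.length :: x.1.2.flatten).getD j 0) P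
    (L := fun x => x.1.1 + (K + 1) * x.1.2.length + n0 + 2)
    (len := fun l => l.getD 0 0 + (K + 1) * l.getD 1 0 + n0 + 2)
    (steps := fun l => 2 ^ (nn n0 l - 2 * (nn n0 l / ρ))) (num := fun l => 2 ^ (nn n0 l / ρ))
    (wd := fun l a => min (adv k (nn n0 l) a 5) (nn n0 l * nn n0 l))
    (gi := fun l a j => gin k K (nn n0 l) (phi K n0 l) a j)
    (check := fun l a o => chk k (nn n0 l) (phi K n0 l) a o)
    (((Bdd.const _ 2).mul (Bdd.refl _)).mono fun y => (bsize_nat_le_self _).trans (by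
      rcases Nat.lt_or_ge y.2 (y.1.1.1 :: y.1.1.2.length :: y.1.1.2.flatten).length with h | h
      · rw [List.getD_eq_getElem _ _ h]
        have hm := List.getElem_mem h
        generalize (y.1.1.1 :: y.1.1.2.length :: y.1.1.2.flatten)[y.2] = z at hm
        simp only [List.mem_cons, List.mem_flatten] at hm
        rcases hm with rfl | rfl | ⟨c, hc, hz⟩
        · omega
        · omega
        · have := (y.1.2 c hc).2 z hz
          omega
      · rw [List.getD_eq_default _ _ h]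
        omega))
    (((hsz1.add ((Bdd.const _ _).mul hsz2)).add (Bdd.const _ _)).add (Bdd.const _ _))
    (by fun_prop) (fun x => by simp [List.range_succ_eq_map])
    (fun x i hi => by
      rcases i with _ | _ | i
      · omega
      · omega
      · simpa [List.range_succ_eq_map] using hi)
    (by fun_prop) (by fun_prop) (by fun_prop) (by fun_prop)
    (pt_gin k K (by fun_prop) (by fun_prop) (by fun_prop) (by fun_prop) (by fun_prop))
    (pt_chk k (by fun_prop) (by fun_prop) (by fun_prop) (by fun_prop) (by fun_prop))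
  refine hK ⟨P', C' + (n0 + 4), fun m φ hφ => ?_⟩
  obtain ⟨inp, hinp⟩ : ∃ inp, inp = (List.range (m + (K + 1) * φ.length + n0 + 2)).map
    fun j => (m :: φ.length :: φ.flatten).getD j 0 := ⟨_, rfl⟩
  obtain ⟨out, o1, o2⟩ := H ⟨(m, φ), hφ⟩ inp _ hinp
    (Nat.pow_le_pow_right (by omega) (Nat.le_add_right C' (n0 + 4)))
  have hlen : inp.length = m + (K + 1) * φ.length + n0 + 2 := by simp [hinp]
  obtain ⟨r, hr⟩ := map_getD_range' (m :: φ.length :: φ.flatten)
    (m := m + (K + 1) * φ.length + n0 + 2) (by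
      rw [List.length_cons, List.length_cons, length_flatten_eq φ fun c hc => (hφ c hc).1, add_mul]
      omega)
  rw [← hinp] at hr
  obtain ⟨n, hn⟩ : ∃ n, n = m + n0 := ⟨_, rfl⟩
  have e1 : nn n0 inp = n := by
    rw [nn, hlen, hr, hn]
    exact min_eq_left (by simp only [List.cons_append, List.getD_cons_zero]; omega)
  have e2 : phi K n0 inp = φ.map fun c => (Finset.range (2 * n)).filter (· ∈ c) := by
    have : min (inp.getD 1 0) inp.length = φ.length := by
      rw [hlen, hr, add_mul]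
      exact min_eq_left (by
        simp only [List.cons_append, List.getD_cons_zero, List.getD_cons_succ]; omega)
    rw [phi, this, e1]
    refine List.ext_getElem (by simp) fun i h1 h2 => ?_
    simp only [List.getElem_map, List.getElem_range, hr, List.cons_append, List.drop_succ_cons]
    simp only [drop_take_flatten φ (fun c hc => (hφ c hc).1) r i (by simpa using h2)]
  simp only [e1, e2] at o1 o2
  refine ⟨out, ?_, o2.trans ⟨?_, ?_⟩⟩
  · obtain ⟨t, ht, o3⟩ := o1
    refine ⟨t, ht.trans ?_, o3⟩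
    have h1 : 2 * (n / ρ) ≤ n := (Nat.mul_le_mul_right _ hρ2).trans (Nat.mul_div_le _ _)
    have h2 : (2 ^ (n / ρ) + 1) * (2 ^ (n - 2 * (n / ρ)) + 1) + 1 ≤
        2 ^ (n - n / ρ - (n0 + 1)) * (m + φ.length + 2) ^ (n0 + 4) := by
      have h3 : 1 ≤ 2 ^ (n / ρ) := Nat.one_le_two_pow
      have h4 : 1 ≤ 2 ^ (n - 2 * (n / ρ)) := Nat.one_le_two_pow
      have h5 : 2 ^ (n / ρ) * 2 ^ (n - 2 * (n / ρ)) * 2 ^ 3 ≤
          2 ^ (n - n / ρ - (n0 + 1)) * 2 ^ (n0 + 4) := by
        rw [← pow_add, ← pow_add, ← pow_add]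
        exact Nat.pow_le_pow_right two_pos (by omega)
      refine le_trans ?_ (h5.trans (Nat.mul_le_mul_left _ (Nat.pow_le_pow_left (by omega) _)))
      nlinarith
    have h3 : ((n - n / ρ - (n0 + 1) : ℕ) : ℝ) ≤ (1 - 1 / ρ) * m := by
      have h4 : (1 : ℝ) / ρ ≤ 1 := by
        rw [div_le_one hρ0]; exact_mod_cast (by omega : 1 ≤ ρ)
      rcases Nat.le_total (n - n / ρ) (n0 + 1) with h | h
      · rw [Nat.sub_eq_zero_of_le h, Nat.cast_zero]
        exact mul_nonneg (by linarith) (by positivity)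
      · have h5 : (m : ℝ) ≤ ρ * ((n / ρ : ℕ) + 1) := by
          have := Nat.lt_mul_div_succ n (show 0 < ρ by omega)
          exact_mod_cast (by omega : m ≤ ρ * (n / ρ + 1))
        have h6 : 1 / (ρ : ℝ) * m ≤ (n / ρ : ℕ) + 1 := by
          rw [one_div, inv_mul_le_iff₀ hρ0]; exact h5
        rw [Nat.cast_sub h, Nat.cast_sub (by omega), hn] at *
        push_cast at *
        linarith
    have h4 : ((2 ^ (n - n / ρ - (n0 + 1)) : ℕ) : ℝ) ≤ (2 : ℝ) ^ ((1 - 1 / (ρ : ℝ)) * m) := by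
      push_cast
      rw [← Real.rpow_natCast]
      exact Real.rpow_le_rpow_of_exponent_le one_le_two h3
    refine (Nat.cast_le.2 (Nat.mul_le_mul_right _ h2)).trans ?_
    rw [mul_assoc, ← pow_add, add_comm (n0 + 4), Nat.cast_mul]
    refine (mul_le_mul_of_nonneg_right h4 (by positivity)).trans (le_of_eq ?_)
    push_cast
    rfl
  · rintro ⟨a, -, ha⟩
    rw [chk, decide_eq_true_iff] at ha
    obtain ⟨τ, -, ha⟩ := ha
    generalize (fun i => List.getD _ (dg _ τ i) 0) = y at ha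
    refine ⟨fun v => (y (v / (n / k + 1))).testBit (v % (n / k + 1)), fun c hc => ?_⟩
    obtain ⟨l, hl, -, h1⟩ := ha _ (List.mem_map_of_mem hc)
    exact ⟨l, (Finset.mem_filter.1 hl).2, h1⟩
  · rintro ⟨x, hx⟩
    obtain ⟨t1, t2⟩ := hn0 n (by omega)
    obtain ⟨p1, p2, p3, p4, s, h, q, D, T, p5, p6, p7, p8, p9, p10, p11, p12, p13, p14, p15, p16,
      p17, p18⟩ := t2 _ _ rfl rfl
    obtain ⟨w, hw, hG⟩ := hP _ p2
    have hw' : w ≤ n * n := hw.trans (Nat.mul_le_mul p3 (Nat.size_le.2 p1))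
    obtain ⟨a, a1, a2, a3, a4⟩ := core hk rfl rfl p4 hw' p6 p7 p8 p9 p10 p11 p12 p13 p14 p15 p16
      p17 p18 (φ.map fun c => (Finset.range (2 * n)).filter (· ∈ c)) x (by
        simp only [List.mem_map]
        rintro _ ⟨c, hc, rfl⟩
        refine ⟨?_, Finset.filter_subset _ _, ?_⟩
        · exact (Finset.card_le_card fun l hl => List.mem_toFinset.2 (Finset.mem_filter.1 hl).2).trans
            ((List.toFinset_card_le c).trans (hφ c hc).1.le)
        · obtain ⟨l, hl, h1⟩ := hx c hc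
          have := (hφ c hc).2 l hl
          exact ⟨l, Finset.mem_filter.2 ⟨Finset.mem_range.2 (by omega), hl⟩, h1⟩)
    obtain ⟨o, q1, q2, q3⟩ := hG _ a3
    have q4 : o.length ≤ h := by exact_mod_cast q2.trans p5
    refine ⟨a, a1, ?_⟩
    rw [gin_eq _ _ rfl _ rfl] at q1
    rw [a2, min_eq_left hw', run_of_outputs q1 t1, List.take_of_length_le (by omega)]
    exact a4 o q4 q3

end Pool.Agent.Lib.MP_9ec118_lc
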