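import Mathlib
import Pool.Agent.Lib.MP_9ec118_lc.Main
import Pool.Agent.Lib.MP_9ec118_lc.Reg

/-!
The gap-producing graph with fixed degrees.
-/

set_option autoImplicit false

namespace Pool.Agent.Lib.MP_9ec118_lc

section

open Finset Polynomial

theorem gadget2 {ψ : List (Finset ℕ)} {k b B q D T h : ℕ}
    (hq : q.Prime) (hk : 0 < k) (hb : 0 < b) (hD : D < q) (hT : T < q) (hB : q ≤ B)
    (hBb : B ^ (k * h * T + 1) ≤ 2 ^ b) (hh : h ^ k * (k * D) + h < q)
    (hlen : ψ.length ≤ T * D) (hψ : ∀ c ∈ ψ, ∀ l ∈ c, l / 2 / b < k) {y : ℕ → ℕ}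
    (hy : ∀ c ∈ ψ, Sat b y c) :
    ∃ cs : List ℕ, cs.length = k * D + 1 ∧ (∀ c ∈ cs, c < q) ∧
      (∃ f : ℕ → ℕ, (∀ i < k, f i / 2 ^ b = i) ∧
        ∀ u, ∃ i < k, rel ψ k b B q D T h cs (f i) u) ∧
      ∀ out : List ℕ, out.length ≤ h →
        (∀ u < 2 ^ b, ∃ v ∈ out, rel ψ k b B q D T h cs v (2 ^ b * k + u)) →
        ∃ τ < h ^ k, ∀ c ∈ ψ, Sat b (fun i => out.getD (dg h τ i) 0) c := by
  have : Fact q.Prime := ⟨hq⟩
  obtain ⟨cs, h1, h2, h3⟩ := exists_horner q (k * D) _ (natDegree_poly ψ k b q D T y)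
  have hp : 0 < 2 ^ b := by positivity
  refine ⟨cs, h1, h2, ?_, fun out ho hdom => ?_⟩
  · let f : ℕ → ℕ := fun i => 2 ^ b * i + y i % 2 ^ b
    have hf : ∀ i, f i / 2 ^ b = i := fun i => by
      simp only [f]
      rw [Nat.mul_add_div hp, Nat.div_eq_of_lt (Nat.mod_lt _ hp), add_zero]
    have hf' : ∀ i t r, msg ψ b q D i (f i) t r = msg ψ b q D i (y i) t r := fun i t r =>
      msg_congr ψ hb _ _ _ (fun j hj => by
        simp only [f]
        rw [Nat.testBit_two_pow_mul_add _ (Nat.mod_lt _ hp), if_pos hj, Nat.testBit_mod_two_pow,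
          decide_eq_true hj, Bool.true_and]) t r
    refine ⟨f, fun i _ => hf i, fun v => ?_⟩
    by_contra hcon
    have hall : ∀ i < k, ¬ rel ψ k b B q D T h cs (f i) v := fun i hi hr => hcon ⟨i, hi, hr⟩
    have h4 : ∀ i, ∃ j, i < k → j < h ∧ ∀ t < T, dg B (v % 2 ^ b) ((i * h + j) * T + t + 1) =
        msg ψ b q D i (y i) t (dg B (v % 2 ^ b) 0) := by
      intro i
      by_cases hi : i < k
      · have := hall i hi
        rw [rel, hf] at this
        simp only [not_and, not_or, not_forall, not_exists, not_not] at this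
        obtain ⟨j, hj, h5⟩ := (this hi).2.2
        exact ⟨j, fun _ => ⟨hj, fun t ht => (h5 t ht).trans (hf' i _ _)⟩⟩
      · exact ⟨0, fun h => absurd h hi⟩
    choose j hj using h4
    obtain ⟨τ, hτ, h5⟩ := exists_dg k j fun i hi => (hj i hi).1
    refine hall 0 hk ⟨by rw [hf]; exact hk, Or.inr (Or.inl ⟨τ, hτ, ?_⟩)⟩
    exact (acc_iff hD h3 y _ fun i hi t ht => by rw [h5 i hi, (hj i hi).2 t ht]).2 rfl
  · by_contra hcon
    push Not at hcon
    let z : ℕ → ℕ → ℕ := fun τ i => out.getD (dg h τ i) 0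
    let bad : Finset (ZMod q) := (range (h ^ k)).biUnion
      (fun τ => (poly ψ k b q D T (z τ) - poly ψ k b q D T y).roots.toFinset) ∪
      out.toFinset.image fun u => (dg B (u % 2 ^ b) 0 : ZMod q)
    have hbad : bad.card < (univ : Finset (ZMod q)).card := by
      rw [card_univ, ZMod.card]
      refine ((card_union_le _ _).trans (add_le_add ?_ ?_)).trans_lt hh
      · refine (card_biUnion_le_card_mul _ _ (k * D) fun τ _ => ?_).trans (by simp)
        exact (Multiset.toFinset_card_le _).trans ((card_roots' _).trans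
          ((natDegree_sub_le _ _).trans (max_le (natDegree_poly ..) (natDegree_poly ..))))
      · exact card_image_le.trans ((List.toFinset_card_le _).trans ho)
    obtain ⟨ρ, -, hρ⟩ := exists_mem_notMem_of_card_lt_card hbad
    obtain ⟨a, ha, h4⟩ := exists_dg (B := B) (k * h * T + 1) (fun j => if j = 0 then ρ.val else
        msg ψ b q D ((j - 1) / T / h) (out.getD ((j - 1) / T % h) 0) ((j - 1) % T) ρ.val)
      (fun j _ => by
        split_ifs
        exacts [(ZMod.val_lt _).trans_le hB, (Nat.mod_lt _ hq.pos).trans_le hB])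
    have h5 : dg B a 0 = ρ.val := by simpa using h4 0 (by omega)
    have h6 : ∀ i < k, ∀ j < h, ∀ t < T, dg B a ((i * h + j) * T + t + 1) =
        msg ψ b q D i (out.getD j 0) t ρ.val := by
      intro i hi j hj t ht
      have e1 : ((i * h + j) * T + t) / T = i * h + j := by
        rw [add_comm, Nat.add_mul_div_right _ _ (by omega), Nat.div_eq_of_lt ht, zero_add]
      have e2 : (i * h + j) / h = i := by
        rw [add_comm, Nat.add_mul_div_right _ _ (by omega), Nat.div_eq_of_lt hj, zero_add]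
      have e3 : i * h + j + 1 ≤ k * h := by nlinarith
      rw [h4 _ (by nlinarith), if_neg (by omega), Nat.add_sub_cancel, e1, e2,
        Nat.mul_add_mod_self_right, Nat.mul_add_mod_self_right, Nat.mod_eq_of_lt hj,
        Nat.mod_eq_of_lt ht]
    have ha' : a < 2 ^ b := ha.trans_le hBb
    have hu1 : (2 ^ b * k + a) / 2 ^ b = k := by
      rw [Nat.mul_add_div hp, Nat.div_eq_of_lt ha', add_zero]
    have hu2 : (2 ^ b * k + a) % 2 ^ b = a := by
      rw [Nat.mul_add_mod, Nat.mod_eq_of_lt ha']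
    obtain ⟨v, hv, hr⟩ := hdom a ha'
    rw [rel, hu1, hu2, h5] at hr
    obtain ⟨h7, h8 | ⟨τ, hτ, h8⟩ | h8⟩ := hr
    · omega
    · have hh0 : 0 < h := Nat.pos_of_ne_zero (by rintro rfl; simp [hk.ne'] at hτ)
      rw [acc_iff hD h3 (z τ) _ fun i hi t ht => h6 i hi (dg h τ i) (Nat.mod_lt _ hh0) t ht,
        ZMod.natCast_zmod_val] at h8
      refine hρ (mem_union_left _ (mem_biUnion.2 ⟨τ, mem_range.2 hτ, Multiset.mem_toFinset.2 ?_⟩))
      rw [mem_roots (sub_ne_zero.2 (poly_ne hk hD hT hlen hψ hy (by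
        push Not; exact hcon τ hτ))), IsRoot.def, eval_sub, h8, sub_self]
    · obtain ⟨j, hj, e⟩ := List.mem_iff_getElem.1 hv
      obtain ⟨t, ht, h9⟩ := h8 j (by omega)
      exact h9 (by rw [h6 _ h7 j (by omega) t ht, List.getD_eq_getElem _ _ hj, e])

end

open Function Pool.Agent.Shared.PolyTime N487b59b3 N68a2faeb Filter

def NN (k n : ℕ) : ℕ := k * 2 ^ (n / k + 1) * (n + 1 + 1) + 3 * (2 ^ (n / k + 1) * (n + 1))

open Classical in
noncomputable def mm (k K n : ℕ) (φ : List Cl) (a v u : ℕ) : ℕ :=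
  if R k K n φ a v (2 ^ (n / k + 1) * k + u) then min (v / 2 ^ (n / k + 1)) 1 else 2

noncomputable def GG (k K n : ℕ) (φ : List Cl) (a : ℕ) : SimpleGraph (Fin (NN k n)) :=
  regG (NN k n) (k * 2 ^ (n / k + 1)) (n + 1) (mm k K n φ a)

noncomputable def gin2 (k K n : ℕ) (φ : List Cl) (a j : ℕ) : ℕ :=
  cell (NN k n) (k * 2 ^ (n / k + 1)) (2 ^ (n / k + 1)) (n + 1) j
    (mm k K n φ a (pv (NN k n) (k * 2 ^ (n / k + 1)) (n + 1) j)
      (pu (NN k n) (k * 2 ^ (n / k + 1)) (n + 1) j))

theorem gin2_eq (k K n : ℕ) (φ : List Cl) (a : ℕ) : input (GG k K n φ a) = gin2 k K n φ a :=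
  funext (input_regG rfl (by unfold NN; positivity) (by omega)
    fun v u => by unfold mm; split_ifs <;> omega)

section

variable {α : Type} [N487b59b3 α]

theorem pt_cell {N S M R j z : α → ℕ} (hN : IsPolyTime N) (hS : IsPolyTime S) (hM : IsPolyTime M)
    (hR : IsPolyTime R) (hj : IsPolyTime j) (hz : IsPolyTime z) :
    IsPolyTime (fun x => cell (N x) (S x) (M x) (R x) (j x) (z x)) := by
  unfold cell nb deg regz
  fun_prop

theorem pt_pv {N S R j : α → ℕ} (hN : IsPolyTime N) (hS : IsPolyTime S)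
    (hR : IsPolyTime R) (hj : IsPolyTime j) :
    IsPolyTime (fun x => pv (N x) (S x) (R x) (j x)) := by
  unfold pv lv
  fun_prop

theorem pt_pu {N S R j : α → ℕ} (hN : IsPolyTime N) (hS : IsPolyTime S)
    (hR : IsPolyTime R) (hj : IsPolyTime j) :
    IsPolyTime (fun x => pu (N x) (S x) (R x) (j x)) := by
  unfold pu lu
  fun_prop

theorem pt_gin2 (k K : ℕ) {n a j : α → ℕ} {φ : α → List Cl} (hn : IsPolyTime n) (hn' : PolyBdd n)
    (hφ : IsPolyTime φ) (ha : IsPolyTime a) (hj : IsPolyTime j) :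
    IsPolyTime (fun x => gin2 k K (n x) (φ x) (a x) (j x)) := by
  classical
  have hN : IsPolyTime fun x => NN k (n x) := by unfold NN; fun_prop
  have hS : IsPolyTime fun x => k * 2 ^ (n x / k + 1) := by fun_prop
  have hR : IsPolyTime fun x => n x + 1 := by fun_prop
  have h1 := pt_pv hN hS hR hj
  have h2 := pt_pu hN hS hR hj
  refine pt_cell hN hS (by fun_prop) hR hj ?_
  unfold mm
  exact .ite (pt_R k K hn hn' hφ ha h1 (by fun_prop)) (by fun_prop) (by fun_prop)

end

theorem core2 {k K n e ρ s h q D T w : ℕ} (hk : 2 ≤ k) (he : e = (k + 3) * n.size)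
    (hnn : n * n < 2 ^ e) (hw : w ≤ n * n) (hs : 2 ≤ s)
    (hsn : s ≤ n) (hDn : D ≤ n) (hTn : T ≤ n) (hhn : h ≤ n) (hq : q.Prime) (hD : D < q)
    (hT : T < q) (hqe : q < 2 ^ e) (hb : e * (k * h * T + 1) ≤ n / k + 1)
    (hh : h ^ k * (k * D) + h < q) (hTD : n * s ^ (2 * 5 ^ K) ≤ T * D)
    (hJ : ∀ j, j * s ≤ K ^ 2 * n → j ≤ n ∧ e * (k * D + 7 + j) ≤ n / ρ) (φ : List Cl)
    (x : ℕ → Bool)
    (hφ : ∀ S ∈ φ, S.card ≤ K ∧ S ⊆ Finset.range (2 * n) ∧
      ∃ l ∈ S, x (l / 2) = decide (l % 2 = 1)) :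
    ∃ a < 2 ^ (n / ρ), adv k n a 5 = w ∧
      (∃ S : Finset (Fin (NN k n)), S.card = k ∧ ∀ v, ∃ u ∈ S, u = v ∨
        (GG k K n φ a).Adj u v) ∧
      ∀ out : List ℕ, out.length ≤ h → (∀ v, ∃ u : Fin (NN k n), u.val ∈ out ∧ (u = v ∨
        (GG k K n φ a).Adj u v)) → chk k n φ a (out.map (· / (n + 1 + 1))) = true := by
  obtain ⟨J0, j1, j2, j3⟩ := sparsify hs φ {l | x (l / 2) = decide (l % 2 = 1)} hφ
  obtain ⟨j4, j5⟩ := hJ _ j1
  obtain ⟨s1, s2, s3⟩ := j3 ((List.range n).map fun j => J0.toList.getD j 0) (fun i hi => by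
    simp only [List.mem_map, List.mem_range]
    constructor
    · rintro ⟨j, -, rfl⟩
      rcases Nat.lt_or_ge j J0.toList.length with h | h
      · rw [List.getD_eq_getElem _ _ h]
        exact Finset.mem_toList.1 (List.getElem_mem h)
      · rw [List.getD_eq_default _ _ h] at hi
        omega
    · intro h
      obtain ⟨j, hj, e⟩ := List.mem_iff_getElem.1 (Finset.mem_toList.2 h)
      exact ⟨j, hj.trans_le (by rwa [Finset.length_toList]), by
        rw [List.getD_eq_getElem _ _ hj, e]⟩)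
  have hb0 : 0 < n / k + 1 := Nat.succ_pos _
  obtain ⟨cs, c1, c2, ⟨f, f1, f2⟩, g2⟩ := gadget2 (k := k) (B := 2 ^ e) hq (by omega) hb0 hD hT hqe.le
    (by rw [← pow_mul]; exact Nat.pow_le_pow_right two_pos hb) hh (s1.trans hTD)
    (fun c hc l hl => by
      have h1 := Finset.mem_range.1 ((s2 c hc).1 hl)
      have h2 := Nat.lt_mul_div_succ n (show 0 < k by omega)
      exact Nat.div_lt_of_lt_mul (by rw [mul_comm]; omega))
    (y := fun i => Nat.ofBits fun j : Fin (n / k + 1) => x ((n / k + 1) * i + j))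
    (fun c hc => by
      obtain ⟨l, hl, h1⟩ := (s2 c hc).2
      refine ⟨l, hl, rfl, ?_⟩
      rw [Nat.testBit_ofBits_lt _ _ (Nat.mod_lt _ hb0), Nat.div_add_mod]
      exact h1)
  have hn : n ≤ n * n := Nat.le_mul_self n
  obtain ⟨L, hL⟩ : ∃ L, L = s :: q :: D :: T :: h :: w :: (cs ++ J0.toList) := ⟨_, rfl⟩
  have hlen : L.length = k * D + 7 + J0.card := by
    simp only [hL, List.length_cons, List.length_append, c1, Finset.length_toList]
    omega
  obtain ⟨a, a1, a2⟩ := exists_dg (B := 2 ^ e) L.length (fun i => L.getD i 0) (fun i hi => by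
    rw [List.getD_eq_getElem _ _ hi]
    have hm := List.getElem_mem hi
    generalize L[i] = z at hm
    simp only [hL, List.mem_cons, List.mem_append, Finset.mem_toList] at hm
    rcases hm with rfl | rfl | rfl | rfl | rfl | rfl | hm | hm
    iterate 6 omega
    · exact (c2 z hm).trans hqe
    · exact ((j2 z hm).trans (hTD.trans (Nat.mul_le_mul hTn hDn))).trans_lt hnn)
  have a3 : ∀ i, adv k n a i = L.getD i 0 := fun i => by
    rw [adv, ← he]
    rcases Nat.lt_or_ge i L.length with h | h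
    · exact a2 i h
    · rw [List.getD_eq_default _ _ h, dg,
        Nat.div_eq_of_lt (a1.trans_le (Nat.pow_le_pow_right (by positivity) h)), Nat.zero_mod]
  have a4 : ∀ j, L.getD (6 + j) 0 = (cs ++ J0.toList).getD j 0 := fun j => by
    rw [hL, add_comm]
    simp only [List.getD_cons_succ]
  have a5 : min (adv k n a 4) n = h := by rw [a3, hL]; exact min_eq_left hhn
  have a6 : min (adv k n a 2) n = D := by rw [a3, hL]; exact min_eq_left hDn
  have hR : R k K n φ a = rel (spars K s n ((List.range n).map fun j => J0.toList.getD j 0) φ) k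
      (n / k + 1) (2 ^ e) q D T h cs := by
    funext v u
    rw [R, a5, a6, ← he]
    congr 1
    · congr 1
      · rw [a3, hL]; exact min_eq_left hsn
      · refine List.map_congr_left fun j _ => ?_
        rw [a3, show k * D + 7 + j = 6 + (cs.length + j) by omega, a4,
          List.getD_append_right _ _ _ _ (by omega), Nat.add_sub_cancel_left]
    · rw [a3, hL]; rfl
    · rw [a3, hL]; exact min_eq_left hTn
    · rw [← c1]
      conv_rhs => rw [← map_getD_range cs]
      refine List.map_congr_left fun j hj => ?_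
      rw [a3, a4, List.getD_append _ _ _ _ (List.mem_range.1 hj)]
  refine ⟨a, a1.trans_le ?_, by rw [a3, hL]; rfl, ?_, fun out h1 h2 => ?_⟩
  · rw [← pow_mul, hlen]
    exact Nat.pow_le_pow_right two_pos j5
  · refine dom_regG rfl ((Finset.range k).image f) (fun v hv => ?_)
      (Finset.card_image_le.trans (Finset.card_range k).le) ?_ fun u z => ?_
    · obtain ⟨i, hi, rfl⟩ := Finset.mem_image.1 hv
      rw [← Nat.div_lt_iff_lt_mul (by positivity), f1 i (Finset.mem_range.1 hi)]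
      exact Finset.mem_range.1 hi
    · exact ((Nat.le_mul_of_pos_right _ (by positivity)).trans
        (Nat.le_mul_of_pos_right _ (by positivity))).trans (Nat.le_add_right _ _)
    · have key : ∀ i < k, mm k K n φ a (f i) u ≠ z →
          ∃ v ∈ (Finset.range k).image f, mm k K n φ a v u ≠ z := fun i hi h =>
        ⟨_, Finset.mem_image_of_mem _ (Finset.mem_range.2 hi), h⟩
      by_cases z2 : z = 2
      · obtain ⟨i, hi, h⟩ := f2 (2 ^ (n / k + 1) * k + u)
        exact key i hi (by rw [mm, hR, if_pos h]; omega)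
      by_cases z0 : z = 0
      · exact key 1 hk (by rw [mm, f1 1 hk]; split_ifs <;> omega)
      · exact key 0 (by omega) (by rw [mm, f1 0 (by omega)]; split_ifs <;> omega)
  · obtain ⟨τ, h3, h4⟩ := g2 (out.map (· / (n + 1 + 1))) (by rwa [List.length_map]) fun u hu => by
      obtain ⟨v, hv, -, h⟩ := sound_regG rfl out (by omega) h2 u hu
      refine ⟨v, hv, ?_⟩
      by_contra h'
      rw [mm, hR, if_neg h'] at h
      exact h rfl
    rw [chk, a5]
    refine @decide_eq_true _ (_) ⟨τ, h3, fun c hc => ?_⟩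
    obtain ⟨c', hc', h5⟩ := s3 c hc
    obtain ⟨l, hl, h6⟩ := h4 c' hc'
    exact ⟨l, h5 hl, h6⟩

end Pool.Agent.Lib.MP_9ec118_lc
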