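import Mathlib

/-!
Packing many bits into one number so that sums of products of packed numbers determine the
sums of the coordinatewise products (a recursive use of the Chinese remainder theorem), and a
short code for sparse sets.
-/

set_option autoImplicit false

namespace Pool.Agent.Lib.MP_9ec118_lc

open Finset

theorem nth_prime_le (m : ℕ) : Nat.nth Nat.Prime m ≤ 4 * (m + 1) ^ 2 := by
  obtain ⟨x, hx⟩ : ∃ x, x + 1 = 4 * (m + 1) ^ 2 := ⟨4 * (m + 1) ^ 2 - 1, Nat.sub_add_cancel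
    (Nat.succ_le_of_lt (by positivity))⟩
  rw [← hx]
  refine (Nat.nth_lt_of_lt_count ?_).le
  by_contra h
  have h1 : (Nat.primesLE x).card ≤ m := by
    rw [Nat.primesLE_eq_filter_range, ← Nat.count_eq_card_filter_range]
    omega
  have hx0 : x ≠ 0 := by
    rintro rfl
    have : 0 < (m + 1) ^ 2 := by positivity
    omega
  have h2 : Nat.lcmUpto x ≤ (x + 1) ^ m := by
    rw [Nat.lcmUpto_eq_prod_pow_log]
    refine (prod_le_pow_card _ _ (x + 1) fun p _ =>
      (Nat.pow_log_le_self p hx0).trans (Nat.le_succ _)).trans ?_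
    exact Nat.pow_le_pow_right (Nat.succ_pos _) h1
  have h3 := (Chebyshev.two_pow_le_mul_lcmUpto x).trans (Nat.mul_le_mul_left _ h2)
  have h4 : 2 * (m + 1) ≤ 2 ^ (m + 1) := by
    rw [pow_succ, mul_comm]
    exact Nat.mul_le_mul_right _ Nat.lt_two_pow_self
  have h5 : x + 1 ≤ 2 ^ (2 * (m + 1)) := by
    rw [hx, mul_comm 2, pow_mul, show 4 * (m + 1) ^ 2 = (2 * (m + 1)) ^ 2 by ring]
    exact Nat.pow_le_pow_left h4 2
  rw [← pow_succ'] at h3
  have h6 := h3.trans (Nat.pow_le_pow_left h5 _)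
  rw [← pow_mul, Nat.pow_le_pow_iff_right one_lt_two] at h6
  have h7 : 2 * (m + 1) * (m + 1) = 2 * (m + 1) ^ 2 := by ring
  have : 0 < (m + 1) ^ 2 := by positivity
  omega

theorem sum_range_mul' (f : ℕ → ℕ) (r κ : ℕ) :
    ∑ σ ∈ range (r * κ), f σ = ∑ s ∈ range r, ∑ τ ∈ range κ, f (s * κ + τ) := by
  induction r with
  | zero => simp
  | succ r ih => rw [add_mul, one_mul, sum_range_add, ih, sum_range_succ]

/-- The weights `lam` pack `κ` bits faithfully for sums of `T` products of `k` factors. -/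
def Good (k T κ : ℕ) (lam : ℕ → ℕ) : Prop :=
  ∀ u u' : ℕ → ℕ → ℕ → ℕ, (∀ i t τ, u i t τ ≤ 1) → (∀ i t τ, u' i t τ ≤ 1) →
    ∑ t ∈ range T, ∏ i ∈ range k, ∑ τ ∈ range κ, u i t τ * lam τ =
      ∑ t ∈ range T, ∏ i ∈ range k, ∑ τ ∈ range κ, u' i t τ * lam τ →
    ∀ τ < κ, ∑ t ∈ range T, ∏ i ∈ range k, u i t τ = ∑ t ∈ range T, ∏ i ∈ range k, u' i t τ

theorem good_one (k T : ℕ) : Good k T 1 fun _ => 1 := fun u u' _ _ h τ hτ => by
  obtain rfl : τ = 0 := by omega
  simpa using h

theorem packed_le {k T κ V : ℕ} {lam : ℕ → ℕ} (hV : ∑ τ ∈ range κ, lam τ ≤ V)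
    {u : ℕ → ℕ → ℕ → ℕ} (hu : ∀ i t τ, u i t τ ≤ 1) :
    ∑ t ∈ range T, ∏ i ∈ range k, ∑ τ ∈ range κ, u i t τ * lam τ ≤ T * V ^ k := by
  refine (sum_le_card_nsmul _ _ (V ^ k) fun t _ => ?_).trans (by simp)
  refine (prod_le_pow_card _ _ V fun i _ => ?_).trans (by simp)
  exact (sum_le_sum fun τ _ => (Nat.mul_le_mul_right _ (hu i t τ)).trans (one_mul _).le).trans hV

theorem Good.step {k T κ V : ℕ} {lam : ℕ → ℕ} (h : Good k T κ lam)
    (hV : ∑ τ ∈ range κ, lam τ ≤ V) (r : ℕ) (p : ℕ → ℕ) (hp : ∀ s, (p s).Prime)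
    (hp' : ∀ s, T * V ^ k < p s) (hi : Function.Injective p) :
    Good k T (r * κ) fun σ => lam (σ % κ) * ∏ s ∈ range r, if s = σ / κ then 1 else p s := by
  intro u u' hu hu' he σ hσ
  have hκ : 0 < κ := Nat.pos_of_ne_zero (by rintro rfl; omega)
  have hs : σ / κ < r := Nat.div_lt_of_lt_mul (by rwa [mul_comm])
  have := Fact.mk (hp (σ / κ))
  obtain ⟨c, hc⟩ : ∃ c : ZMod (p (σ / κ)),
      c = ((∏ s ∈ range r, if s = σ / κ then 1 else p s : ℕ) : ZMod (p (σ / κ))) := ⟨_, rfl⟩
  have hc0 : c ≠ 0 := by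
    rw [hc, Nat.cast_prod]
    refine prod_ne_zero_iff.2 fun s _ => ?_
    split_ifs with e
    · simp
    · rw [Ne, ZMod.natCast_eq_zero_iff, Nat.prime_dvd_prime_iff_eq (hp _) (hp _)]
      exact fun e' => e (hi e').symm
  have key : ∀ v : ℕ → ℕ → ℕ → ℕ, ((∑ t ∈ range T, ∏ i ∈ range k, ∑ τ ∈ range (r * κ),
      v i t τ * (lam (τ % κ) * ∏ s ∈ range r, if s = τ / κ then 1 else p s) : ℕ) :
        ZMod (p (σ / κ))) = c ^ k * ((∑ t ∈ range T, ∏ i ∈ range k, ∑ τ ∈ range κ,
          v i t (σ / κ * κ + τ) * lam τ : ℕ) : ZMod (p (σ / κ))) := by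
    intro v
    rw [Nat.cast_sum, Nat.cast_sum, mul_sum]
    refine sum_congr rfl fun t _ => ?_
    rw [Nat.cast_prod, Nat.cast_prod]
    conv_rhs => rw [← card_range k, ← prod_const, card_range, ← prod_mul_distrib]
    refine prod_congr rfl fun i _ => ?_
    have e1 : ∀ s, ∀ τ ∈ range κ, (s * κ + τ) % κ = τ ∧ (s * κ + τ) / κ = s := fun s τ hτ => by
      have := mem_range.1 hτ
      rw [add_comm, Nat.add_mul_mod_self_right, Nat.add_mul_div_right _ _ hκ,
        Nat.mod_eq_of_lt this, Nat.div_eq_of_lt this, zero_add]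
      exact ⟨rfl, rfl⟩
    rw [sum_range_mul', Nat.cast_sum, sum_eq_single_of_mem _ (mem_range.2 hs)]
    · rw [Nat.cast_sum, Nat.cast_sum, mul_sum]
      refine sum_congr rfl fun τ hτ => ?_
      rw [(e1 _ τ hτ).1, (e1 _ τ hτ).2, Nat.cast_mul, Nat.cast_mul, Nat.cast_mul, ← hc]
      ring
    · intro s _ hne
      rw [ZMod.natCast_eq_zero_iff]
      refine dvd_sum fun τ hτ => Dvd.dvd.mul_left (Dvd.dvd.mul_left ?_ _) _
      rw [(e1 _ τ hτ).2]
      refine Dvd.dvd.trans ?_ (dvd_prod_of_mem _ (mem_range.2 hs))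
      rw [if_neg hne.symm]
  have h1 := congrArg (Nat.cast : ℕ → ZMod (p (σ / κ))) he
  rw [key, key, mul_right_inj' (pow_ne_zero _ hc0), ZMod.natCast_eq_natCast_iff',
    Nat.mod_eq_of_lt ((packed_le hV fun i t τ => hu _ _ _).trans_lt (hp' _)),
    Nat.mod_eq_of_lt ((packed_le hV fun i t τ => hu' _ _ _).trans_lt (hp' _))] at h1
  have h2 := h (fun i t τ => u i t (σ / κ * κ + τ)) (fun i t τ => u' i t (σ / κ * κ + τ))
    (fun _ _ _ => hu _ _ _) (fun _ _ _ => hu' _ _ _) h1 (σ % κ) (Nat.mod_lt _ hκ)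
  simpa only [Nat.div_add_mod'] using h2

theorem pack {k T : ℕ} (hk : 0 < k) (hT : 0 < T) (j : ℕ) : ∀ L, (Nat.log 2)^[j] L ≤ 1 →
    ∃ (κ : ℕ) (lam : ℕ → ℕ), 0 < κ ∧ κ ≤ L + 1 ∧ Good k T κ lam ∧
      ∑ τ ∈ range κ, lam τ ≤ 2 ^ L ∧ L ≤ κ * ((6 * k + 18) ^ j * T.size) := by
  have hσ : 0 < T.size := Nat.size_pos.2 hT
  induction j with
  | zero =>
    intro L hL
    simp only [Function.iterate_zero, id] at hL
    exact ⟨1, _, one_pos, by omega, good_one k T, by simpa using Nat.one_le_two_pow,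
      by simp only [pow_zero, one_mul]; omega⟩
  | succ j ih =>
    intro L hL
    rw [Function.iterate_succ_apply] at hL
    obtain ⟨κ, lam, h0, h1, h2, h3, h4⟩ := ih _ hL
    have hL1 : L < 2 ^ (Nat.log 2 L + 1) := Nat.lt_pow_succ_log_self one_lt_two L
    have hL2 : Nat.log 2 L ≤ L := Nat.log_le_self 2 L
    generalize Nat.log 2 L = L' at *
    obtain ⟨Q, hQ⟩ : ∃ Q, Q = κ * ((6 * k + 18) ^ j * T.size) := ⟨_, rfl⟩
    have hQ1 : T.size ≤ Q := by
      rw [hQ, ← mul_assoc]
      exact Nat.le_mul_of_pos_left _ (by positivity)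
    obtain ⟨m, hm⟩ : ∃ m, m = 2 * T.size + 2 * (k * L') + 4 := ⟨_, rfl⟩
    have hkL : L' ≤ k * L' := Nat.le_mul_of_pos_left _ hk
    have hm1 : m ≤ (2 * k + 6) * Q := by
      have := Nat.mul_le_mul_left k (hQ ▸ h4)
      have e : (2 * k + 6) * Q = 2 * (k * Q) + 6 * Q := by ring
      omega
    have eQ : ∀ r, r * κ * ((6 * k + 18) ^ (j + 1) * T.size) = 3 * r * ((2 * k + 6) * Q) :=
      fun r => by rw [hQ]; ring
    rcases Nat.lt_or_ge L (2 * m) with hc | hc
    · refine ⟨κ, lam, h0, by omega, h2, h3.trans (Nat.pow_le_pow_right two_pos hL2), ?_⟩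
      have := eQ 1
      rw [one_mul] at this
      omega
    · have hm0 : 0 < m := by omega
      obtain ⟨r, hr⟩ : ∃ r, L / m = r + 1 := ⟨L / m - 1, by
        have := Nat.div_pos (show m ≤ L by omega) hm0
        omega⟩
      have hr1 : 1 ≤ r := by
        have := (Nat.le_div_iff_mul_le hm0).2 hc
        omega
      have hr2 : m * (r + 1) ≤ L := hr ▸ Nat.mul_div_le L m
      have hr3 : L < m * (r + 1 + 1) := hr ▸ Nat.lt_mul_div_succ L hm0
      have hr4 : r ≤ L := by nlinarith
      have hY : T * (2 ^ L') ^ k < 2 ^ (T.size + k * L') := by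
        rw [pow_add, ← pow_mul, mul_comm L']
        exact Nat.mul_lt_mul_of_pos_right (Nat.lt_size_self T) (by positivity)
      have hX : ∀ s < r, Nat.nth Nat.Prime (T * (2 ^ L') ^ k + s) ≤ 2 ^ m := fun s hs => by
        refine (nth_prime_le _).trans ?_
        have h5 : 2 ^ (L' + 1) ≤ 2 ^ (T.size + k * L') := Nat.pow_le_pow_right two_pos (by omega)
        have h6 : T * (2 ^ L') ^ k + s + 1 ≤ 2 ^ (T.size + k * L' + 1) := by
          rw [pow_succ 2 (T.size + k * L')]
          omega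
        refine (Nat.mul_le_mul_left 4 (Nat.pow_le_pow_left h6 2)).trans (le_of_eq ?_)
        rw [hm, ← pow_mul, show 4 = 2 ^ 2 by norm_num, ← pow_add]
        congr 1
        ring
      refine ⟨r * κ, _, by positivity, ?_, h2.step h3 r
        (fun s => Nat.nth Nat.Prime (T * (2 ^ L') ^ k + s)) (fun s => Nat.prime_nth_prime _)
        (fun s => ?_) (fun s s' e => ?_), ?_, ?_⟩
      · have : r * κ ≤ r * m := Nat.mul_le_mul_left _ (by omega)
        nlinarith
      · have := Nat.add_two_le_nth_prime (T * (2 ^ L') ^ k + s)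
        omega
      · have := Nat.nth_injective Nat.infinite_setOfPred_prime e
        omega
      · rw [sum_range_mul']
        refine (sum_le_card_nsmul _ _ (2 ^ L' * (2 ^ m) ^ r) fun s _ => ?_).trans ?_
        · refine (sum_le_sum (g := fun τ => lam τ * (2 ^ m) ^ r) fun τ hτ => ?_).trans ?_
          · rw [add_comm, Nat.add_mul_mod_self_right, Nat.mod_eq_of_lt (mem_range.1 hτ)]
            refine Nat.mul_le_mul_left _ ((prod_le_pow_card _ _ (2 ^ m) fun s' hs' => ?_).trans
              (by rw [card_range]))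
            split_ifs
            exacts [Nat.one_le_two_pow, hX s' (mem_range.1 hs')]
          · rw [← sum_mul]
            exact Nat.mul_le_mul_right _ h3
        · rw [card_range, smul_eq_mul, ← mul_assoc]
          have h5 : r * 2 ^ L' ≤ 2 ^ m := by
            refine (Nat.mul_le_mul_right _ (hr4.trans hL1.le)).trans ?_
            rw [← pow_add]
            exact Nat.pow_le_pow_right two_pos (by omega)
          refine (Nat.mul_le_mul_right _ h5).trans ?_
          rw [← pow_succ', ← pow_mul]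
          exact Nat.pow_le_pow_right two_pos hr2
      · rw [eQ]
        have : 3 * r * m ≤ 3 * r * ((2 * k + 6) * Q) := Nat.mul_le_mul_left _ hm1
        nlinarith

theorem gaps {W : ℕ} (hW : 0 < W) (M : ℕ) : ∀ J : Finset ℕ, (∀ i ∈ J, i ≤ M) →
    ∃ (L : ℕ) (g : ℕ → ℕ), L ≤ J.card + M / W ∧ (∀ j < L, g j < 2 * W + 2) ∧
      W * (M / W) ≤ ∑ t ∈ range L, g t / 2 ∧ ∑ t ∈ range L, g t / 2 ≤ M ∧
      ∀ i, 0 < i → (i ∈ J ↔ ∃ j < L, g j % 2 = 1 ∧ ∑ t ∈ range (j + 1), g t / 2 = i) := by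
  induction M with
  | zero =>
    intro J hJ
    refine ⟨0, fun _ => 0, Nat.zero_le _, by omega, by simp, by simp, fun i hi => ?_⟩
    exact iff_of_false (fun h => by have := hJ i h; omega) (by simp)
  | succ M ih =>
    intro J hJ
    obtain ⟨L, g, h1, h2, h3, h4, h5⟩ := ih (J.erase (M + 1)) fun i hi => by
      have := hJ i (mem_of_mem_erase hi)
      have := ne_of_mem_erase hi
      omega
    have hd := Nat.succ_div (a := M) (b := W)
    have hd2 := Nat.lt_mul_div_succ M hW
    by_cases hc : M + 1 ∈ J ∨ W ∣ M + 1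
    · obtain ⟨P, hP⟩ : ∃ P, P = ∑ t ∈ range L, g t / 2 := ⟨_, rfl⟩
      obtain ⟨v, hv⟩ : ∃ v, v = 2 * (M + 1 - P) + if M + 1 ∈ J then 1 else 0 := ⟨_, rfl⟩
      have hv1 : v / 2 = M + 1 - P := by rw [hv]; split_ifs <;> omega
      have e : ∀ j ≤ L, ∑ t ∈ range j, (if t < L then g t else v) / 2 = ∑ t ∈ range j, g t / 2 :=
        fun j hj => sum_congr rfl fun t ht => by rw [if_pos ((mem_range.1 ht).trans_le hj)]
      have e' : ∑ t ∈ range (L + 1), (if t < L then g t else v) / 2 = M + 1 := by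
        rw [sum_range_succ, e L le_rfl, if_neg (lt_irrefl L), hv1, ← hP]
        omega
      rw [← hP] at h3 h4
      refine ⟨L + 1, fun t => if t < L then g t else v, ?_, fun j hj => ?_, ?_, e'.le,
        fun i hi => ?_⟩
      · rcases hc with hc | hc
        · rw [card_erase_of_mem hc] at h1
          have := card_pos.2 ⟨_, hc⟩
          omega
        · have := card_erase_le (s := J) (a := M + 1)
          rw [if_pos hc] at hd
          omega
      · beta_reduce
        split_ifs with h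
        · exact h2 j h
        · rw [mul_add] at hd2
          rw [hv]
          split_ifs <;> omega
      · rw [e']
        exact Nat.mul_div_le _ _
      · constructor
        · intro h
          by_cases e1 : i = M + 1
          · refine ⟨L, by omega, ?_, e1 ▸ e'⟩
            beta_reduce
            rw [if_neg (lt_irrefl L), hv, if_pos (e1 ▸ h)]
            omega
          · obtain ⟨j, j1, j2, j3⟩ := (h5 i hi).1 (mem_erase.2 ⟨e1, h⟩)
            exact ⟨j, by omega, by beta_reduce; rwa [if_pos j1], by rw [e _ j1, j3]⟩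
        · rintro ⟨j, j1, j2, j3⟩
          rcases Nat.lt_or_ge j L with h | h
          · beta_reduce at j2
            rw [if_pos h] at j2
            rw [e _ h] at j3
            exact mem_of_mem_erase ((h5 i hi).2 ⟨j, h, j2, j3⟩)
          · obtain rfl : j = L := by omega
            beta_reduce at j2
            rw [if_neg (lt_irrefl j), hv] at j2
            rw [e'] at j3
            by_contra h'
            rw [if_neg (j3 ▸ h')] at j2
            omega
    · rw [not_or] at hc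
      rw [erase_eq_of_notMem hc.1] at h1 h5
      rw [if_neg hc.2, add_zero] at hd
      exact ⟨L, g, hd ▸ h1, h2, hd ▸ h3, by omega, h5⟩

theorem iter_log_le (j : ℕ) : ∀ x, x ≤ j + 1 → (Nat.log 2)^[j] x ≤ 1 := by
  induction j with
  | zero => exact fun x hx => hx
  | succ j ih =>
    intro x hx
    rw [Function.iterate_succ_apply]
    refine ih _ ?_
    rcases Nat.eq_zero_or_pos x with rfl | h
    · simp
    · have := Nat.log_lt_self 2 h.ne'
      omega

theorem iter_log_mono (j : ℕ) : Monotone (Nat.log 2)^[j] := Nat.log_monotone.iterate j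

end Pool.Agent.Lib.MP_9ec118_lc
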