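import Mathlib
import Pool.Agent.Lib.MP_9ec118_lc.PTx
import Pool.Agent.Lib.MP_9ec118_lc.Pack

/-!
The gap-producing graph with packed clauses.
-/

set_option autoImplicit false

namespace Pool.Agent.Lib.MP_9ec118_lc

section

open Finset Polynomial

def pk (ψ : List (Finset ℕ)) (b κ : ℕ) (ls : List ℕ) (i x j : ℕ) : ℕ :=
  ∑ τ ∈ range κ, uc ψ b i x (j * κ + τ) * ls.getD τ 0

def msg3 (ψ : List (Finset ℕ)) (b κ : ℕ) (ls : List ℕ) (q D i x t r : ℕ) : ℕ :=
  (∑ d ∈ range D, pk ψ b κ ls i x (t * D + d) *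
    ∏ e ∈ range D, if e = d then 1 else r + q - e) % q

def rel3 (ψ : List (Finset ℕ)) (k b κ : ℕ) (ls : List ℕ) (B q D T h : ℕ) (cs : List ℕ)
    (v u : ℕ) : Prop :=
  v / 2 ^ b < k ∧ (u / 2 ^ b < k ∨
    (∃ τ < h ^ k, acc k q T cs (dg B (u % 2 ^ b) 0)
      fun i t => dg B (u % 2 ^ b) ((i * h + dg h τ i) * T + t + 1)) ∨
    ∀ j < h, ∃ t < T, dg B (u % 2 ^ b) ((v / 2 ^ b * h + j) * T + t + 1) ≠
      msg3 ψ b κ ls q D (v / 2 ^ b) v t (dg B (u % 2 ^ b) 0))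

noncomputable def poly3 (ψ : List (Finset ℕ)) (k b κ : ℕ) (ls : List ℕ) (q D T : ℕ) (y : ℕ → ℕ) :
    (ZMod q)[X] :=
  ∑ t ∈ range T, ∏ i ∈ range k, ∑ d ∈ range D,
    C (pk ψ b κ ls i (y i) (t * D + d) : ZMod q) *
      ∏ e ∈ range D, if e = d then 1 else X - C (e : ZMod q)

theorem natDegree_poly3 (ψ : List (Finset ℕ)) (k b κ : ℕ) (ls : List ℕ) (q D T : ℕ) [Fact q.Prime]
    (y : ℕ → ℕ) : (poly3 ψ k b κ ls q D T y).natDegree ≤ k * D := by
  refine natDegree_sum_le_of_forall_le _ _ fun t _ => (natDegree_prod_le _ _).trans ?_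
  refine (sum_le_card_nsmul _ _ D fun i _ => ?_).trans (by simp)
  refine natDegree_sum_le_of_forall_le _ _ fun d _ => (natDegree_C_mul_le _ _).trans ?_
  refine (natDegree_prod_le _ _).trans ((sum_le_card_nsmul _ _ 1 fun e _ => ?_).trans (by simp))
  split_ifs
  · simp
  · exact (natDegree_X_sub_C _).le

theorem eval_poly3 (ψ : List (Finset ℕ)) (k b κ : ℕ) (ls : List ℕ) {q D : ℕ} (T : ℕ) (hD : D < q)
    (y : ℕ → ℕ) (r : ℕ) : (poly3 ψ k b κ ls q D T y).eval (r : ZMod q) =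
      ((∑ t ∈ range T, ∏ i ∈ range k, msg3 ψ b κ ls q D i (y i) t r : ℕ) : ZMod q) := by
  simp only [poly3, msg3, eval_finsetSum, eval_prod, eval_mul, eval_C]
  push_cast
  refine sum_congr rfl fun t _ => prod_congr rfl fun i _ => ?_
  rw [ZMod.natCast_mod]
  push_cast
  refine sum_congr rfl fun d _ => ?_
  congr 1
  refine prod_congr rfl fun e he => ?_
  split_ifs
  · simp
  · rw [Nat.cast_sub (by have := mem_range.1 he; omega)]
    simp

theorem eval_poly3_small (ψ : List (Finset ℕ)) (k b κ : ℕ) (ls : List ℕ) {q D : ℕ} (T : ℕ)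
    [Fact q.Prime] (hD : D < q) {d : ℕ} (hd : d < D) :
    ∃ z : ZMod q, z ≠ 0 ∧ ∀ y : ℕ → ℕ, (poly3 ψ k b κ ls q D T y).eval (d : ZMod q) =
      z * ((∑ t ∈ range T, ∏ i ∈ range k, pk ψ b κ ls i (y i) (t * D + d) : ℕ) : ZMod q) := by
  refine ⟨(∏ e ∈ range D, if e = d then 1 else (d : ZMod q) - e) ^ k, pow_ne_zero _ ?_, fun y => ?_⟩
  · refine prod_ne_zero_iff.2 fun e he => ?_
    split_ifs with h
    · exact one_ne_zero
    · rw [sub_ne_zero, Ne, ZMod.natCast_eq_natCast_iff', Nat.mod_eq_of_lt (by omega),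
        Nat.mod_eq_of_lt (by have := mem_range.1 he; omega)]
      exact fun h' => h h'.symm
  · simp only [poly3, eval_finsetSum, eval_prod, eval_mul, eval_C]
    push_cast
    rw [mul_sum]
    refine sum_congr rfl fun t _ => ?_
    conv_rhs => rw [← card_range k, ← prod_const, card_range, ← prod_mul_distrib]
    refine prod_congr rfl fun i _ => ?_
    rw [sum_eq_single_of_mem d (mem_range.2 hd), mul_comm]
    · congr 1
      refine prod_congr rfl fun e _ => ?_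
      split_ifs <;> simp
    · intro d' _ hne
      rw [prod_eq_zero (mem_range.2 hd) (by rw [if_neg hne.symm]; simp), mul_zero]

theorem poly3_ne {ψ : List (Finset ℕ)} {k b κ : ℕ} {ls : List ℕ} {q D T V : ℕ} [Fact q.Prime]
    (hk : 0 < k) (hD : D < q) (hg : Good k T κ fun τ => ls.getD τ 0)
    (hV : ∑ τ ∈ range κ, ls.getD τ 0 ≤ V) (hT : T * V ^ k < q) (hlen : ψ.length ≤ T * D * κ)
    (hψ : ∀ c ∈ ψ, ∀ l ∈ c, l / 2 / b < k) {y y' : ℕ → ℕ}
    (hy : ∀ c ∈ ψ, Sat b y c) (hy' : ¬ ∀ c ∈ ψ, Sat b y' c) :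
    poly3 ψ k b κ ls q D T y' ≠ poly3 ψ k b κ ls q D T y := by
  intro he
  push Not at hy'
  obtain ⟨c, hc, hn⟩ := hy'
  obtain ⟨j, hj, rfl⟩ := List.mem_iff_getElem.1 hc
  have hD0 : 0 < D := Nat.pos_of_ne_zero (by rintro rfl; omega)
  have hκ : 0 < κ := Nat.pos_of_ne_zero (by rintro rfl; omega)
  obtain ⟨z, h2, h1⟩ := eval_poly3_small ψ k b κ ls T hD (Nat.mod_lt (j / κ) hD0)
  have h3 := h1 y'
  have hb : ∀ w : ℕ → ℕ,
      ∑ t ∈ range T, ∏ i ∈ range k, pk ψ b κ ls i (w i) (t * D + j / κ % D) < q := fun w =>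
    (packed_le hV (u := fun i t τ => uc ψ b i (w i) ((t * D + j / κ % D) * κ + τ))
      fun _ _ _ => uc_le _ _ _ _ _).trans_lt hT
  rw [he, h1 y, mul_right_inj' h2, ZMod.natCast_eq_natCast_iff', Nat.mod_eq_of_lt (hb _),
    Nat.mod_eq_of_lt (hb _)] at h3
  have h5 := hg (fun i t τ => uc ψ b i (y i) ((t * D + j / κ % D) * κ + τ))
    (fun i t τ => uc ψ b i (y' i) ((t * D + j / κ % D) * κ + τ)) (fun _ _ _ => uc_le _ _ _ _ _)
    (fun _ _ _ => uc_le _ _ _ _ _) h3 (j % κ) (Nat.mod_lt _ hκ)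
  rw [sum_eq_zero fun t _ => prod_uc_eq_zero hk hψ hy _, eq_comm, sum_eq_zero_iff] at h5
  have h6 := h5 (j / κ / D) (mem_range.2 (Nat.div_lt_of_lt_mul (Nat.div_lt_of_lt_mul (by
    rw [mul_comm κ, mul_comm D]; omega))))
  rw [Nat.div_add_mod', Nat.div_add_mod', prod_eq_zero_iff] at h6
  obtain ⟨i, -, h7⟩ := h6
  simp only [uc, List.getElem?_eq_getElem hj, Option.elim] at h7
  split_ifs at h7 with h8
  · obtain ⟨l, hl, h9⟩ := h8
    exact hn ⟨l, hl, by rwa [h9.1]⟩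

theorem acc_iff3 {ψ : List (Finset ℕ)} {k b κ : ℕ} {ls : List ℕ} {q D T : ℕ} (hD : D < q)
    {cs : List ℕ} {p : (ZMod q)[X]} (hcs : ∀ r : ℕ, (horner r cs : ZMod q) = p.eval (r : ZMod q))
    (y : ℕ → ℕ) (r : ℕ) {m : ℕ → ℕ → ℕ}
    (hm : ∀ i < k, ∀ t < T, m i t = msg3 ψ b κ ls q D i (y i) t r) :
    acc k q T cs r m ↔ (poly3 ψ k b κ ls q D T y).eval (r : ZMod q) = p.eval (r : ZMod q) := by
  rw [acc, ← ZMod.natCast_eq_natCast_iff', hcs, eval_poly3 ψ k b κ ls T hD,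
    sum_congr rfl fun t ht => prod_congr rfl fun i hi => hm i (mem_range.1 hi) t (mem_range.1 ht)]

theorem msg3_congr (ψ : List (Finset ℕ)) {b : ℕ} (hb : 0 < b) (κ : ℕ) (ls : List ℕ) (q D i : ℕ)
    {x x' : ℕ} (h : ∀ j < b, x.testBit j = x'.testBit j) (t r : ℕ) :
    msg3 ψ b κ ls q D i x t r = msg3 ψ b κ ls q D i x' t r := by
  have : ∀ l, hit b i x l ↔ hit b i x' l := fun l => by
    rw [hit, hit, h _ (Nat.mod_lt _ hb)]
  simp only [msg3, pk, uc, this]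

theorem gadget3 {ψ : List (Finset ℕ)} {k b κ : ℕ} {ls : List ℕ} {B q D T h V : ℕ}
    (hq : q.Prime) (hk : 0 < k) (hb : 0 < b) (hD : D < q)
    (hg : Good k T κ fun τ => ls.getD τ 0) (hV : ∑ τ ∈ range κ, ls.getD τ 0 ≤ V)
    (hT : T * V ^ k < q) (hB : q ≤ B)
    (hBb : B ^ (k * h * T + 1) ≤ 2 ^ b) (hh : h ^ k * (k * D) + h < q)
    (hlen : ψ.length ≤ T * D * κ) (hψ : ∀ c ∈ ψ, ∀ l ∈ c, l / 2 / b < k) {y : ℕ → ℕ}
    (hy : ∀ c ∈ ψ, Sat b y c) :
    ∃ cs : List ℕ, cs.length = k * D + 1 ∧ (∀ c ∈ cs, c < q) ∧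
      (∃ f : ℕ → ℕ, (∀ i < k, f i / 2 ^ b = i) ∧
        ∀ u, ∃ i < k, rel3 ψ k b κ ls B q D T h cs (f i) u) ∧
      ∀ out : List ℕ, out.length ≤ h →
        (∀ u < 2 ^ b, ∃ v ∈ out, rel3 ψ k b κ ls B q D T h cs v (2 ^ b * k + u)) →
        ∃ τ < h ^ k, ∀ c ∈ ψ, Sat b (fun i => out.getD (dg h τ i) 0) c := by
  have : Fact q.Prime := ⟨hq⟩
  obtain ⟨cs, h1, h2, h3⟩ := exists_horner q (k * D) _ (natDegree_poly3 ψ k b κ ls q D T y)
  have hp : 0 < 2 ^ b := by positivity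
  refine ⟨cs, h1, h2, ?_, fun out ho hdom => ?_⟩
  · let f : ℕ → ℕ := fun i => 2 ^ b * i + y i % 2 ^ b
    have hf : ∀ i, f i / 2 ^ b = i := fun i => by
      simp only [f]
      rw [Nat.mul_add_div hp, Nat.div_eq_of_lt (Nat.mod_lt _ hp), add_zero]
    have hf' : ∀ i t r, msg3 ψ b κ ls q D i (f i) t r = msg3 ψ b κ ls q D i (y i) t r :=
      fun i t r => msg3_congr ψ hb _ _ _ _ _ (fun j hj => by
        simp only [f]
        rw [Nat.testBit_two_pow_mul_add _ (Nat.mod_lt _ hp), if_pos hj, Nat.testBit_mod_two_pow,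
          decide_eq_true hj, Bool.true_and]) t r
    refine ⟨f, fun i _ => hf i, fun v => ?_⟩
    by_contra hcon
    have hall : ∀ i < k, ¬ rel3 ψ k b κ ls B q D T h cs (f i) v := fun i hi hr => hcon ⟨i, hi, hr⟩
    have h4 : ∀ i, ∃ j, i < k → j < h ∧ ∀ t < T, dg B (v % 2 ^ b) ((i * h + j) * T + t + 1) =
        msg3 ψ b κ ls q D i (y i) t (dg B (v % 2 ^ b) 0) := by
      intro i
      by_cases hi : i < k
      · have := hall i hi
        rw [rel3, hf] at this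
        simp only [not_and, not_or, not_forall, not_exists, not_not] at this
        obtain ⟨j, hj, h5⟩ := (this hi).2.2
        exact ⟨j, fun _ => ⟨hj, fun t ht => (h5 t ht).trans (hf' i _ _)⟩⟩
      · exact ⟨0, fun h => absurd h hi⟩
    choose j hj using h4
    obtain ⟨τ, hτ, h5⟩ := exists_dg k j fun i hi => (hj i hi).1
    refine hall 0 hk ⟨by rw [hf]; exact hk, Or.inr (Or.inl ⟨τ, hτ, ?_⟩)⟩
    exact (acc_iff3 hD h3 y _ fun i hi t ht => by rw [h5 i hi, (hj i hi).2 t ht]).2 rfl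
  · by_contra hcon
    push Not at hcon
    let z : ℕ → ℕ → ℕ := fun τ i => out.getD (dg h τ i) 0
    let bad : Finset (ZMod q) := (range (h ^ k)).biUnion
      (fun τ => (poly3 ψ k b κ ls q D T (z τ) - poly3 ψ k b κ ls q D T y).roots.toFinset) ∪
      out.toFinset.image fun u => (dg B (u % 2 ^ b) 0 : ZMod q)
    have hbad : bad.card < (univ : Finset (ZMod q)).card := by
      rw [card_univ, ZMod.card]
      refine ((card_union_le _ _).trans (add_le_add ?_ ?_)).trans_lt hh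
      · refine (card_biUnion_le_card_mul _ _ (k * D) fun τ _ => ?_).trans (by simp)
        exact (Multiset.toFinset_card_le _).trans ((card_roots' _).trans
          ((natDegree_sub_le _ _).trans (max_le (natDegree_poly3 ..) (natDegree_poly3 ..))))
      · exact card_image_le.trans ((List.toFinset_card_le _).trans ho)
    obtain ⟨ρ, -, hρ⟩ := exists_mem_notMem_of_card_lt_card hbad
    obtain ⟨a, ha, h4⟩ := exists_dg (B := B) (k * h * T + 1) (fun j => if j = 0 then ρ.val else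
        msg3 ψ b κ ls q D ((j - 1) / T / h) (out.getD ((j - 1) / T % h) 0) ((j - 1) % T) ρ.val)
      (fun j _ => by
        split_ifs
        exacts [(ZMod.val_lt _).trans_le hB, (Nat.mod_lt _ hq.pos).trans_le hB])
    have h5 : dg B a 0 = ρ.val := by simpa using h4 0 (by omega)
    have h6 : ∀ i < k, ∀ j < h, ∀ t < T, dg B a ((i * h + j) * T + t + 1) =
        msg3 ψ b κ ls q D i (out.getD j 0) t ρ.val := by
      intro i hi j hj t ht
      have e1 : ((i * h + j) * T + t) / T = i * h + j := by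
        rw [add_comm, Nat.add_mul_div_right _ _ (by omega), Nat.div_eq_of_lt ht, zero_add]
      have e2 : (i * h + j) / h = i := by
        rw [add_comm, Nat.add_mul_div_right _ _ (by omega), Nat.div_eq_of_lt hj, zero_add]
      have e3 : i * h + j + 1 ≤ k * h := by nlinarith
      rw [h4 _ (by nlinarith), if_neg (by omega), Nat.add_sub_cancel, e1, e2,
        Nat.mul_add_mod_self_right, Nat.mul_add_mod_self_right, Nat.mod_eq_of_lt hj,
        Nat.mod_eq_of_lt ht]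
    have ha' : a < 2 ^ b := ha.trans_le hBb
    have hu1 : (2 ^ b * k + a) / 2 ^ b = k := by
      rw [Nat.mul_add_div hp, Nat.div_eq_of_lt ha', add_zero]
    have hu2 : (2 ^ b * k + a) % 2 ^ b = a := by
      rw [Nat.mul_add_mod, Nat.mod_eq_of_lt ha']
    obtain ⟨v, hv, hr⟩ := hdom a ha'
    rw [rel3, hu1, hu2, h5] at hr
    obtain ⟨h7, h8 | ⟨τ, hτ, h8⟩ | h8⟩ := hr
    · omega
    · have hh0 : 0 < h := Nat.pos_of_ne_zero (by rintro rfl; simp [hk.ne'] at hτ)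
      rw [acc_iff3 hD h3 (z τ) _ fun i hi t ht => h6 i hi (dg h τ i) (Nat.mod_lt _ hh0) t ht,
        ZMod.natCast_zmod_val] at h8
      refine hρ (mem_union_left _ (mem_biUnion.2 ⟨τ, mem_range.2 hτ, Multiset.mem_toFinset.2 ?_⟩))
      rw [mem_roots (sub_ne_zero.2 (poly3_ne hk hD hg hV hT hlen hψ hy (by
        push Not; exact hcon τ hτ))), IsRoot.def, eval_sub, h8, sub_self]
    · obtain ⟨j, hj, e⟩ := List.mem_iff_getElem.1 hv
      obtain ⟨t, ht, h9⟩ := h8 j (by omega)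
      exact h9 (by rw [h6 _ h7 j (by omega) t ht, List.getD_eq_getElem _ _ hj, e])

end

open Pool.Agent.Shared.PolyTime N487b59b3 N68a2faeb

variable {α : Type} [N487b59b3 α]

@[fun_prop]
theorem pt_pk {ψ : α → List Cl} {b κ i y j : α → ℕ} {ls : α → List ℕ} (hψ : IsPolyTime ψ)
    (hb : IsPolyTime b) (hκ : IsPolyTime κ) (hκ' : PolyBdd κ) (hls : IsPolyTime ls)
    (hi : IsPolyTime i) (hy : IsPolyTime y) (hj : IsPolyTime j) :
    IsPolyTime (fun x => pk (ψ x) (b x) (κ x) (ls x) (i x) (y x) (j x)) := by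
  unfold pk uc
  fun_prop

@[fun_prop]
theorem pt_msg3 {ψ : α → List Cl} {b κ q D i y t r : α → ℕ} {ls : α → List ℕ} (hψ : IsPolyTime ψ)
    (hb : IsPolyTime b) (hκ : IsPolyTime κ) (hκ' : PolyBdd κ) (hls : IsPolyTime ls)
    (hq : IsPolyTime q) (hD : IsPolyTime D) (hD' : PolyBdd D) (hi : IsPolyTime i)
    (hy : IsPolyTime y) (ht : IsPolyTime t) (hr : IsPolyTime r) :
    IsPolyTime (fun x => msg3 (ψ x) (b x) (κ x) (ls x) (q x) (D x) (i x) (y x) (t x) (r x)) := by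
  unfold msg3
  fun_prop

open Classical in
theorem pt_rel3 (k : ℕ) {ψ : α → List Cl} {b κ B q D T h v u : α → ℕ} {ls cs : α → List ℕ}
    (hψ : IsPolyTime ψ) (hb : IsPolyTime b) (hb' : PolyBdd b) (hκ : IsPolyTime κ)
    (hκ' : PolyBdd κ) (hls : IsPolyTime ls) (hB : IsPolyTime B)
    (hq : IsPolyTime q) (hD : IsPolyTime D) (hD' : PolyBdd D) (hT : IsPolyTime T)
    (hT' : PolyBdd T) (hh : IsPolyTime h) (hh' : PolyBdd h) (hcs : IsPolyTime cs)
    (hv : IsPolyTime v) (hu : IsPolyTime u) :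
    IsPolyTime (fun x => decide
      (rel3 (ψ x) k (b x) (κ x) (ls x) (B x) (q x) (D x) (T x) (h x) (cs x) (v x) (u x))) := by
  unfold rel3 acc
  fun_prop

end Pool.Agent.Lib.MP_9ec118_lc
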