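import Mathlib
import Pool.Agent.Lib.MP_9ec118_lc.Core2
import Pool.Agent.Lib.MP_9ec118_lc.Gadget3

/-!
The gap-producing graph with fixed degrees, packed clauses and a short code for the branch of the
sparsification.
-/

set_option autoImplicit false

namespace Pool.Agent.Lib.MP_9ec118_lc

open Function Pool.Agent.Shared.PolyTime N487b59b3 N68a2faeb Filter

theorem dg_add {B a₀ a₁ m i : ℕ} (hB : 0 < B) (hi : i < m) :
    dg B (a₀ + B ^ m * a₁) i = dg B a₀ i := by
  obtain ⟨d, rfl⟩ := Nat.exists_eq_add_of_lt hi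
  rw [dg, dg, add_assoc, pow_add, mul_assoc, Nat.add_mul_div_left _ _ (by positivity), pow_succ',
    mul_assoc, Nat.add_mul_mod_self_left]

def hi3 (k n a : ℕ) : ℕ :=
  a / 2 ^ ((k + 3) * n.size * (k * min (adv k n a 2) n + 9 + min (adv k n a 7) n))

def jl3 (k n a : ℕ) : List ℕ :=
  (List.range n).map fun j => if dg (adv k n a 6) (hi3 k n a) j % 2 = 1 then
    ∑ t ∈ Finset.range (min (j + 1) n), dg (adv k n a 6) (hi3 k n a) t / 2 else 0

def R3 (k K n : ℕ) (φ : List Cl) (a v u : ℕ) : Prop :=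
  rel3 (spars K (min (adv k n a 0) n) n (jl3 k n a) φ) k (n / k + 1) (min (adv k n a 7) n)
    ((List.range (min (adv k n a 7) n)).map fun j => adv k n a (k * min (adv k n a 2) n + 9 + j))
    (2 ^ ((k + 3) * n.size)) (adv k n a 1) (min (adv k n a 2) n) (min (adv k n a 3) n)
    (min (adv k n a 4) n)
    ((List.range (k * min (adv k n a 2) n + 1)).map fun j => adv k n a (8 + j)) v u

open Classical in
noncomputable def mm3 (k K n : ℕ) (φ : List Cl) (a v u : ℕ) : ℕ :=
  if R3 k K n φ a v (2 ^ (n / k + 1) * k + u) then min (v / 2 ^ (n / k + 1)) 1 else 2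

noncomputable def GG3 (k K n : ℕ) (φ : List Cl) (a : ℕ) : SimpleGraph (Fin (NN k n)) :=
  regG (NN k n) (k * 2 ^ (n / k + 1)) (n + 1) (mm3 k K n φ a)

noncomputable def gin3 (k K n : ℕ) (φ : List Cl) (a j : ℕ) : ℕ :=
  cell (NN k n) (k * 2 ^ (n / k + 1)) (2 ^ (n / k + 1)) (n + 1) j
    (mm3 k K n φ a (pv (NN k n) (k * 2 ^ (n / k + 1)) (n + 1) j)
      (pu (NN k n) (k * 2 ^ (n / k + 1)) (n + 1) j))

theorem gin3_eq (k K n : ℕ) (φ : List Cl) (a : ℕ) : input (GG3 k K n φ a) = gin3 k K n φ a :=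
  funext (input_regG rfl (by unfold NN; positivity) (by omega)
    fun v u => by unfold mm3; split_ifs <;> omega)

section

variable {α : Type} [N487b59b3 α] {n a : α → ℕ} {φ : α → List Cl}

@[fun_prop]
theorem pt_hi3 (k : ℕ) (hn : IsPolyTime n) (hn' : PolyBdd n) (ha : IsPolyTime a) :
    IsPolyTime (fun x => hi3 k (n x) (a x)) := by
  unfold hi3
  fun_prop

theorem pt_jl3 (k : ℕ) (hn : IsPolyTime n) (hn' : PolyBdd n) (ha : IsPolyTime a) :
    IsPolyTime (fun x => jl3 k (n x) (a x)) := by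
  unfold jl3
  fun_prop

open Classical in
theorem pt_R3 (k K : ℕ) {v u : α → ℕ} (hn : IsPolyTime n) (hn' : PolyBdd n) (hφ : IsPolyTime φ)
    (ha : IsPolyTime a) (hv : IsPolyTime v) (hu : IsPolyTime u) :
    IsPolyTime (fun x => decide (R3 k K (n x) (φ x) (a x) (v x) (u x))) :=
  pt_rel3 k (pt_spars K (by fun_prop) (by fun_prop) hn (pt_jl3 k hn hn' ha) hφ) (by fun_prop)
    (by fun_prop) (by fun_prop) (by fun_prop) (by fun_prop) (by fun_prop) (by fun_prop)
    (by fun_prop) (by fun_prop) (by fun_prop) (by fun_prop) (by fun_prop) (by fun_prop)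
    (by fun_prop) hv hu

theorem pt_gin3 (k K : ℕ) {j : α → ℕ} (hn : IsPolyTime n) (hn' : PolyBdd n)
    (hφ : IsPolyTime φ) (ha : IsPolyTime a) (hj : IsPolyTime j) :
    IsPolyTime (fun x => gin3 k K (n x) (φ x) (a x) (j x)) := by
  classical
  have hN : IsPolyTime fun x => NN k (n x) := by unfold NN; fun_prop
  have hS : IsPolyTime fun x => k * 2 ^ (n x / k + 1) := by fun_prop
  have hR : IsPolyTime fun x => n x + 1 := by fun_prop
  have h1 := pt_pv hN hS hR hj
  have h2 := pt_pu hN hS hR hj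
  refine pt_cell hN hS (by fun_prop) hR hj ?_
  unfold mm3
  exact .ite (pt_R3 k K hn hn' hφ ha h1 (by fun_prop)) (by fun_prop) (by fun_prop)

end

theorem core3 {k K n e ρ s β h q D T κ V w : ℕ} {lam : ℕ → ℕ} (hk : 2 ≤ k)
    (he : e = (k + 3) * n.size) (hnn : n * n < 2 ^ e) (hw : w ≤ n * n) (hs : 2 ≤ s)
    (hsn : s ≤ n) (hβ : 2 * (s ^ (2 * 5 ^ K) * s) + 2 ≤ 2 ^ β) (hβn : 2 ^ β ≤ n) (hDn : D ≤ n)
    (hTn : T ≤ n) (hhn : h ≤ n) (hκn : κ ≤ n) (hq : q.Prime) (hD : D < q)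
    (hg : Good k T κ lam) (hV : ∑ τ ∈ Finset.range κ, lam τ ≤ V) (hVe : V < 2 ^ e)
    (hT : T * V ^ k < q) (hqe : q < 2 ^ e) (hb : e * (k * h * T + 1) ≤ n / k + 1)
    (hh : h ^ k * (k * D) + h < q) (hTD : n * s ^ (2 * 5 ^ K) ≤ T * D * κ)
    (hJ : ∀ j, j * s ≤ (K ^ 2 + 1) * n → j ≤ n ∧ e * (k * D + 9 + κ) + β * j ≤ n / ρ)
    (φ : List Cl) (x : ℕ → Bool)
    (hφ : ∀ S ∈ φ, S.card ≤ K ∧ S ⊆ Finset.range (2 * n) ∧
      ∃ l ∈ S, x (l / 2) = decide (l % 2 = 1)) :
    ∃ a < 2 ^ (n / ρ), adv k n a 5 = w ∧ min (adv k n a 4) n = h ∧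
      (∃ S : Finset (Fin (NN k n)), S.card = k ∧ ∀ v, ∃ u ∈ S, u = v ∨
        (GG3 k K n φ a).Adj u v) ∧
      ∀ out : List ℕ, out.length ≤ h → (∀ v, ∃ u : Fin (NN k n), u.val ∈ out ∧ (u = v ∨
        (GG3 k K n φ a).Adj u v)) → chk k n φ a (out.map (· / (n + 1 + 1))) = true := by
  obtain ⟨J0, j1, j2, j3⟩ := sparsify hs φ {l | x (l / 2) = decide (l % 2 = 1)} hφ
  have hZ : 0 < s ^ (2 * 5 ^ K) := by positivity
  obtain ⟨Lj, g, g1, g2, -, -, g3⟩ := gaps (W := s ^ (2 * 5 ^ K) * s) (by positivity) _ J0 j2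
  obtain ⟨j4, j5⟩ := hJ Lj (by
    rw [mul_comm n, Nat.mul_div_mul_left _ _ hZ] at g1
    have h1 := Nat.mul_le_mul_right s g1
    have h2 := Nat.div_mul_le_self n s
    rw [add_mul] at h1
    rw [add_mul, one_mul]
    omega)
  obtain ⟨a₁, b1, b2⟩ := exists_dg (B := 2 ^ β) Lj g fun i hi => (g2 i hi).trans_le hβ
  obtain ⟨J, hJd⟩ : ∃ J, J = (List.range n).map fun j => if dg (2 ^ β) a₁ j % 2 = 1 then
    ∑ t ∈ Finset.range (min (j + 1) n), dg (2 ^ β) a₁ t / 2 else 0 := ⟨_, rfl⟩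
  have hsum : ∀ j < Lj, ∑ t ∈ Finset.range (min (j + 1) n), dg (2 ^ β) a₁ t / 2 =
      ∑ t ∈ Finset.range (j + 1), g t / 2 := fun j hj => by
    rw [min_eq_left (by omega)]
    exact Finset.sum_congr rfl fun t ht => by
      rw [b2 t (by have := Finset.mem_range.1 ht; omega)]
  obtain ⟨s1, s2, s3⟩ := j3 J (fun i hi => by
    rw [g3 i hi]
    simp only [hJd, List.mem_map, List.mem_range]
    constructor
    · rintro ⟨j, -, h1⟩
      split_ifs at h1 with h2
      swap
      · omega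
      rcases Nat.lt_or_ge j Lj with h | h
      · exact ⟨j, h, by rwa [← b2 j h], by rwa [← hsum j h]⟩
      · rw [dg, Nat.div_eq_of_lt (b1.trans_le (Nat.pow_le_pow_right (by positivity) h)),
          Nat.zero_mod] at h2
        omega
    · rintro ⟨j, h1, h2, h3⟩
      exact ⟨j, by omega, by rw [if_pos (by rwa [b2 j h1]), hsum j h1, h3]⟩)
  have hb0 : 0 < n / k + 1 := Nat.succ_pos _
  obtain ⟨ls, hls⟩ : ∃ ls, ls = (List.range κ).map lam := ⟨_, rfl⟩
  have l1 : ls.length = κ := by simp [hls]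
  have l2 : ∀ τ ∈ Finset.range κ, ls.getD τ 0 = lam τ := fun τ hτ => by
    have := Finset.mem_range.1 hτ
    rw [List.getD_eq_getElem _ _ (by omega)]
    simp [hls]
  obtain ⟨cs, c1, c2, ⟨f, f1, f2⟩, g2⟩ := gadget3 (k := k) (κ := κ) (ls := ls) (B := 2 ^ e) hq
    (by omega) hb0 hD (fun u u' hu hu' e => hg u u' hu hu' (by
      have l3 : ∀ v : ℕ → ℕ, ∑ τ ∈ Finset.range κ, v τ * ls.getD τ 0 =
          ∑ τ ∈ Finset.range κ, v τ * lam τ := fun v =>
        Finset.sum_congr rfl fun τ hτ => by rw [l2 τ hτ]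
      simpa only [l3] using e))
    (by rwa [Finset.sum_congr rfl l2]) hT hqe.le
    (by rw [← pow_mul]; exact Nat.pow_le_pow_right two_pos hb) hh (s1.trans hTD)
    (fun c hc l hl => by
      have h1 := Finset.mem_range.1 ((s2 c hc).1 hl)
      have h2 := Nat.lt_mul_div_succ n (show 0 < k by omega)
      exact Nat.div_lt_of_lt_mul (by rw [mul_comm]; omega))
    (y := fun i => Nat.ofBits fun j : Fin (n / k + 1) => x ((n / k + 1) * i + j))
    (fun c hc => by
      obtain ⟨l, hl, h1⟩ := (s2 c hc).2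
      refine ⟨l, hl, rfl, ?_⟩
      rw [Nat.testBit_ofBits_lt _ _ (Nat.mod_lt _ hb0), Nat.div_add_mod]
      exact h1)
  have hn : n ≤ n * n := Nat.le_mul_self n
  obtain ⟨L, hL⟩ : ∃ L, L = s :: q :: D :: T :: h :: w :: 2 ^ β :: κ :: (cs ++ ls) := ⟨_, rfl⟩
  have hlen : L.length = k * D + 9 + κ := by
    simp only [hL, List.length_cons, List.length_append, c1, l1]
    omega
  obtain ⟨a₀, a1, a2⟩ := exists_dg (B := 2 ^ e) L.length (fun i => L.getD i 0) (fun i hi => by
    rw [List.getD_eq_getElem _ _ hi]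
    have hm := List.getElem_mem hi
    generalize L[i] = z at hm
    simp only [hL, List.mem_cons, List.mem_append] at hm
    rcases hm with rfl | rfl | rfl | rfl | rfl | rfl | rfl | rfl | hm | hm
    iterate 8 omega
    · exact (c2 z hm).trans hqe
    · rw [hls, List.mem_map] at hm
      obtain ⟨τ, h1, rfl⟩ := hm
      exact ((Finset.single_le_sum (fun _ _ => Nat.zero_le _)
        (Finset.mem_range.2 (List.mem_range.1 h1))).trans hV).trans_lt hVe)
  obtain ⟨a, ha⟩ : ∃ a, a = a₀ + (2 ^ e) ^ L.length * a₁ := ⟨_, rfl⟩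
  have a3 : ∀ i < k * D + 9 + κ, adv k n a i = L.getD i 0 := fun i hi => by
    rw [adv, ← he, ha, dg_add (by positivity) (hlen ▸ hi), a2 i (hlen ▸ hi)]
  have a4 : ∀ j, L.getD (8 + j) 0 = (cs ++ ls).getD j 0 := fun j => by
    rw [hL, add_comm]
    simp only [List.getD_cons_succ]
  have a5 : min (adv k n a 4) n = h := by rw [a3 _ (by omega), hL]; exact min_eq_left hhn
  have a6 : min (adv k n a 2) n = D := by rw [a3 _ (by omega), hL]; exact min_eq_left hDn
  have a7 : min (adv k n a 7) n = κ := by rw [a3 _ (by omega), hL]; exact min_eq_left hκn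
  have a8 : adv k n a 6 = 2 ^ β := by rw [a3 _ (by omega), hL]; rfl
  have a9 : hi3 k n a = a₁ := by
    rw [hi3, a6, a7, ← he, ← hlen, pow_mul, ha, Nat.add_mul_div_left _ _ (by positivity),
      Nat.div_eq_of_lt a1, zero_add]
  have hR : R3 k K n φ a = rel3 (spars K s n J φ) k (n / k + 1) κ ls (2 ^ e) q D T h cs := by
    funext v u
    rw [R3, a5, a6, a7, ← he]
    congr 1
    · congr 1
      · rw [a3 _ (by omega), hL]; exact min_eq_left hsn
      · rw [jl3, a8, a9, hJd]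
    · conv_rhs => rw [← map_getD_range ls, l1]
      refine List.map_congr_left fun j hj => ?_
      rw [a3 _ (by have := List.mem_range.1 hj; omega),
        show k * D + 9 + j = 8 + (cs.length + j) by omega, a4,
        List.getD_append_right _ _ _ _ (by omega), Nat.add_sub_cancel_left]
    · rw [a3 _ (by omega), hL]; rfl
    · rw [a3 _ (by omega), hL]; exact min_eq_left hTn
    · rw [← c1]
      conv_rhs => rw [← map_getD_range cs]
      refine List.map_congr_left fun j hj => ?_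
      rw [a3 _ (by have := List.mem_range.1 hj; omega), a4,
        List.getD_append _ _ _ _ (List.mem_range.1 hj)]
  refine ⟨a, ?_, by rw [a3 _ (by omega), hL]; rfl, a5, ?_, fun out h1 h2 => ?_⟩
  · refine lt_of_lt_of_le ?_ (Nat.pow_le_pow_right two_pos j5)
    rw [pow_add, pow_mul, pow_mul, ← hlen, ha]
    have := Nat.mul_le_mul_left ((2 ^ e) ^ L.length) (Nat.succ_le_of_lt b1)
    rw [Nat.mul_succ] at this
    omega
  · refine dom_regG rfl ((Finset.range k).image f) (fun v hv => ?_)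
      (Finset.card_image_le.trans (Finset.card_range k).le) ?_ fun u z => ?_
    · obtain ⟨i, hi, rfl⟩ := Finset.mem_image.1 hv
      rw [← Nat.div_lt_iff_lt_mul (by positivity), f1 i (Finset.mem_range.1 hi)]
      exact Finset.mem_range.1 hi
    · exact ((Nat.le_mul_of_pos_right _ (by positivity)).trans
        (Nat.le_mul_of_pos_right _ (by positivity))).trans (Nat.le_add_right _ _)
    · have key : ∀ i < k, mm3 k K n φ a (f i) u ≠ z →
          ∃ v ∈ (Finset.range k).image f, mm3 k K n φ a v u ≠ z := fun i hi h =>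
        ⟨_, Finset.mem_image_of_mem _ (Finset.mem_range.2 hi), h⟩
      by_cases z2 : z = 2
      · obtain ⟨i, hi, h⟩ := f2 (2 ^ (n / k + 1) * k + u)
        exact key i hi (by rw [mm3, hR, if_pos h]; omega)
      by_cases z0 : z = 0
      · exact key 1 hk (by rw [mm3, f1 1 hk]; split_ifs <;> omega)
      · exact key 0 (by omega) (by rw [mm3, f1 0 (by omega)]; split_ifs <;> omega)
  · obtain ⟨τ, h3, h4⟩ := g2 (out.map (· / (n + 1 + 1))) (by rwa [List.length_map]) fun u hu => by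
      obtain ⟨v, hv, -, h⟩ := sound_regG rfl out (by omega) h2 u hu
      refine ⟨v, hv, ?_⟩
      by_contra h'
      rw [mm3, hR, if_neg h'] at h
      exact h rfl
    rw [chk, a5]
    refine @decide_eq_true _ (_) ⟨τ, h3, fun c hc => ?_⟩
    obtain ⟨c', hc', h5⟩ := s3 c hc
    obtain ⟨l, hl, h6⟩ := h4 c' hc'
    exact ⟨l, h5 hl, h6⟩

end Pool.Agent.Lib.MP_9ec118_lc
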