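import Mathlib

set_option autoImplicit false

namespace Pool.Agent.Lib.MP_9ec118_lc

/-- The entry number `i` (counted from `0`) of the sorted adjacency list of `u`;
it is `0` when `u` has at most `i` neighbours. -/
noncomputable def nbr {n : ℕ} (G : SimpleGraph (Fin n)) (u : Fin n) (i : ℕ) : ℕ :=
  Nat.nth (fun v => ∃ h : v < n, G.Adj u ⟨v, h⟩) i

/-- An input format: `I G j` is the content of cell `j` of the input array of the graph `G`.
It is local when every cell is determined by the degree sequence together with at most `b`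
entries of the adjacency matrix and of the sorted adjacency lists. -/
def Local {n : ℕ} (b : ℝ) (I : SimpleGraph (Fin n) → ℕ → ℕ) : Prop :=
  ∀ (j : ℕ) (d : Fin n → ℕ), ∃ Q : Finset (Fin n × Fin n), (Q.card : ℝ) ≤ b ∧
    ∀ G H : SimpleGraph (Fin n),
      (∀ u, (G.neighborSet u).ncard = d u) → (∀ u, (H.neighborSet u).ncard = d u) →
      (∀ q ∈ Q, (G.Adj q.1 q.2 ↔ H.Adj q.1 q.2) ∧ nbr G q.1 q.2 = nbr H q.1 q.2) →
      I G j = I H j

end Pool.Agent.Lib.MP_9ec118_lc
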