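import Mathlib
import Pool.Agent.Lib.MP_9ec118_lc.H90Defs

set_option autoImplicit false

namespace Pool.Agent.Lib.MP_9ec118_lc.H90

open Finset Classical

lemma count_congr_seg {p p' : ℕ → Prop} {a : ℕ} (h1 : Nat.count p a = Nat.count p' a) :
    ∀ k : ℕ, (∀ x, a ≤ x → x < a + k → (p x ↔ p' x)) →
      Nat.count p (a + k) = Nat.count p' (a + k) := by
  intro k
  induction k with
  | zero => intro _; simpa using h1
  | succ k ih =>
    intro h
    have h2 := ih (fun x hx hx' => h x hx (by omega))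
    have h3 := h (a + k) (by omega) (by omega)
    rw [← add_assoc, Nat.count_succ, Nat.count_succ, h2]
    simp only [h3]

lemma count_congr_le {p p' : ℕ → Prop} {a b : ℕ} (h1 : Nat.count p a = Nat.count p' a)
    (hab : a ≤ b) (h : ∀ x, a ≤ x → x < b → (p x ↔ p' x)) :
    Nat.count p b = Nat.count p' b := by
  obtain ⟨k, rfl⟩ := Nat.exists_eq_add_of_le hab
  exact count_congr_seg h1 k h

lemma nth_seg {p p' : ℕ → Prop} {a b i : ℕ} (h1 : Nat.count p a = Nat.count p' a)
    (h : ∀ x, a ≤ x → x < b → (p x ↔ p' x)) (ha : Nat.count p a ≤ i) (hb : i < Nat.count p b) :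
    Nat.nth p i = Nat.nth p' i := by
  have hf : ∀ hf : (Set.ofPred p).Finite, i < hf.toFinset.card :=
    fun hf => hb.trans_le (Nat.count_le_card hf b)
  have hx : p (Nat.nth p i) := Nat.nth_mem i hf
  have hc : Nat.count p (Nat.nth p i) = i := Nat.count_nth hf
  have hxb : Nat.nth p i < b := Nat.nth_lt_of_lt_count hb
  have hxa : a ≤ Nat.nth p i := by
    by_contra hlt
    push Not at hlt
    have h2 : Nat.count p (Nat.nth p i + 1) ≤ Nat.count p a := Nat.count_monotone p hlt
    rw [Nat.count_succ, if_pos hx] at h2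
    omega
  have hc' : Nat.count p' (Nat.nth p i) = i := by
    rw [← count_congr_le h1 hxa (fun x h3 h4 => h x h3 (h4.trans hxb)), hc]
  have := Nat.nth_count ((h _ hxa hxb).1 hx)
  rw [hc'] at this
  exact this.symm

lemma nth_zero_of {p : ℕ → Prop} {n i : ℕ} (hp : ∀ x, p x → x < n) (hi : Nat.count p n ≤ i) :
    Nat.nth p i = 0 := by
  have hf : (Set.ofPred p).Finite := (Set.finite_Iio n).subset (fun x hx => hp x hx)
  refine Nat.nth_of_card_le hf (le_trans ?_ hi)
  rw [Nat.count_eq_card_filter_range]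
  refine card_le_card (fun x hx => ?_)
  have := hf.mem_toFinset.1 hx
  exact mem_filter.2 ⟨mem_range.2 (hp x this), this⟩

lemma nth_tail {p p' : ℕ → Prop} {a n i : ℕ} (h1 : Nat.count p a = Nat.count p' a)
    (han : a ≤ n) (h : ∀ x, a ≤ x → (p x ↔ p' x)) (ha : Nat.count p a ≤ i)
    (hp : ∀ x, p x → x < n) (hp' : ∀ x, p' x → x < n) :
    Nat.nth p i = Nat.nth p' i := by
  by_cases hb : i < Nat.count p n
  · exact nth_seg h1 (fun x hx _ => h x hx) ha hb
  · push Not at hb
    rw [nth_zero_of hp hb, nth_zero_of hp' (by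
      rw [← count_congr_le h1 han (fun x hx _ => h x hx)]; exact hb)]

/-- Row `x` is adjacent to the column or extra vertex `y`. -/
def rc (s g m : ℕ) (v : ℕ × ℕ → Finset ℕ) (x y : ℕ) : Prop :=
  x < g * (2 * s) ∧ g * (2 * s) ≤ y ∧ (y < g * (2 * s) + 2 * m →
    ((y - g * (2 * s)) % 2 = 1 ↔ x % (2 * s) ∈ v (x / (2 * s), (y - g * (2 * s)) / 2)))

def adj (s g m : ℕ) (v : ℕ × ℕ → Finset ℕ) (x y : ℕ) : Prop :=
  (x < g * (2 * s) ∧ y < g * (2 * s) ∧ x ≠ y) ∨ rc s g m v x y ∨ rc s g m v y x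

def gr (n s g m : ℕ) (v : ℕ × ℕ → Finset ℕ) : SimpleGraph (Fin n) where
  Adj a b := adj s g m v a b
  symm := ⟨by
    rintro a b (h | h | h)
    · exact Or.inl ⟨h.2.1, h.1, h.2.2.symm⟩
    · exact Or.inr (Or.inr h)
    · exact Or.inr (Or.inl h)⟩
  loopless := ⟨by
    rintro a (h | h | h)
    · exact h.2.2 rfl
    · exact absurd h.1 (not_lt.2 h.2.1)
    · exact absurd h.1 (not_lt.2 h.2.1)⟩

def Valid (s : ℕ) (v : ℕ × ℕ → Finset ℕ) : Prop :=
  ∀ β, v β ⊆ range (2 * s) ∧ (v β).card + 1 = 2 * s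

/-- The number of neighbours of a column vertex in one group. -/
def ce (s x : ℕ) : ℕ := if x % 2 = 1 then 2 * s - 1 else 1

lemma ce_pos {s : ℕ} (hs : 0 < s) (x : ℕ) : 0 < ce s x := by
  unfold ce; split_ifs <;> omega

/-- The neighbourhood predicate. -/
def nb (n s g m : ℕ) (v : ℕ × ℕ → Finset ℕ) (u y : ℕ) : Prop := y < n ∧ adj s g m v u y

lemma nbr_eq (n s g m : ℕ) (v : ℕ × ℕ → Finset ℕ) (u : Fin n) (i : ℕ) :
    nbr (gr n s g m v) u i = Nat.nth (nb n s g m v u) i := by
  unfold nbr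
  congr 1
  funext y
  exact propext ⟨fun ⟨h, h'⟩ => ⟨h, h'⟩, fun ⟨h, h'⟩ => ⟨h, h'⟩⟩

lemma deg_eq (n s g m : ℕ) (v : ℕ × ℕ → Finset ℕ) (u : Fin n) :
    ((gr n s g m v).neighborSet u).ncard = Nat.count (nb n s g m v u) n := by
  rw [Nat.count_eq_card_filter_range, ← Set.ncard_coe_finset,
    ← Set.ncard_image_of_injective _ Fin.val_injective]
  congr 1
  ext y
  simp only [Set.mem_image, SimpleGraph.mem_neighborSet, coe_filter, mem_range, Set.mem_ofPred_eq]
  constructor
  · rintro ⟨x, hx, rfl⟩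
    exact ⟨x.2, x.2, hx⟩
  · rintro ⟨h, -, h'⟩
    exact ⟨⟨y, h⟩, h', rfl⟩

lemma adj_local (s g m x y : ℕ) : ∃ β : ℕ × ℕ, ∀ v v' : ℕ × ℕ → Finset ℕ, v β = v' β →
    (adj s g m v x y ↔ adj s g m v' x y) := by
  by_cases hx : x < g * (2 * s)
  · refine ⟨(x / (2 * s), (y - g * (2 * s)) / 2), fun v v' h => ?_⟩
    have hx' : ¬ g * (2 * s) ≤ x := not_le.2 hx
    simp only [adj, rc, h, hx', false_and, and_false]
  · refine ⟨(y / (2 * s), (x - g * (2 * s)) / 2), fun v v' h => ?_⟩
    simp only [adj, rc, h, hx, false_and]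

section
variable {n s g m : ℕ} (hn : g * (2 * s) + 2 * m ≤ n)
include hn

omit hn in
lemma row_low {u : ℕ} (hu : u < g * (2 * s)) (v v' : ℕ × ℕ → Finset ℕ) (x : ℕ)
    (hx : x < g * (2 * s)) : nb n s g m v u x ↔ nb n s g m v' u x := by
  have h1 : ¬ g * (2 * s) ≤ x := not_le.2 hx
  have h2 : ¬ g * (2 * s) ≤ u := not_le.2 hu
  simp only [nb, adj, rc, h1, h2, false_and, and_false]

omit hn in
lemma row_high {u : ℕ} (hu : u < g * (2 * s)) (v v' : ℕ × ℕ → Finset ℕ) (x : ℕ)
    (hx : g * (2 * s) + 2 * m ≤ x) : nb n s g m v u x ↔ nb n s g m v' u x := by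
  have h1 : ¬ x < g * (2 * s) + 2 * m := not_lt.2 hx
  have h2 : ¬ g * (2 * s) ≤ u := not_le.2 hu
  simp only [nb, adj, rc, h1, h2, false_and, and_false, false_imp_iff]

lemma row_mid {u : ℕ} (hu : u < g * (2 * s)) (v : ℕ × ℕ → Finset ℕ) {c : ℕ} (hc : c < m)
    {e : ℕ} (he : e < 2) : nb n s g m v u (g * (2 * s) + 2 * c + e) ↔
      (e = 1 ↔ u % (2 * s) ∈ v (u / (2 * s), c)) := by
  have h2 : ¬ g * (2 * s) ≤ u := not_le.2 hu
  have h3 : (g * (2 * s) + 2 * c + e - g * (2 * s)) % 2 = e := by omega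
  have h4 : (g * (2 * s) + 2 * c + e - g * (2 * s)) / 2 = c := by omega
  have h5 : ¬ g * (2 * s) + 2 * c + e < g * (2 * s) := by omega
  have h6 : g * (2 * s) + 2 * c + e < n := by omega
  have h7 : g * (2 * s) ≤ g * (2 * s) + 2 * c + e := by omega
  have h8 : g * (2 * s) + 2 * c + e < g * (2 * s) + 2 * m := by omega
  simp only [nb, adj, rc, h2, h3, h4, h5, h6, h7, h8, hu, false_and, and_false, true_and,
    false_or, or_false, forall_const]

lemma row_count {u : ℕ} (hu : u < g * (2 * s)) (v : ℕ × ℕ → Finset ℕ) :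
    ∀ c ≤ m, Nat.count (nb n s g m v u) (g * (2 * s) + 2 * c) =
      Nat.count (nb n s g m v u) (g * (2 * s)) + c := by
  intro c
  induction c with
  | zero => simp
  | succ c ih =>
    intro hc
    have h0 := row_mid hn hu v (c := c) (by omega) (e := 0) (by omega)
    have h1 := row_mid hn hu v (c := c) (by omega) (e := 1) (by omega)
    have e : g * (2 * s) + 2 * (c + 1) = g * (2 * s) + 2 * c + 1 + 1 := by ring
    rw [e, Nat.count_succ, Nat.count_succ, ih (by omega)]
    rw [add_zero] at h0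
    by_cases h : u % (2 * s) ∈ v (u / (2 * s), c)
    · rw [if_neg (by rw [h0]; simp [h]), if_pos (by rw [h1]; simp [h])]; omega
    · rw [if_pos (by rw [h0]; simp [h]), if_neg (by rw [h1]; simp [h])]; omega

lemma col_low {u : ℕ} (hu : g * (2 * s) ≤ u) (hu' : u < g * (2 * s) + 2 * m)
    (v : ℕ × ℕ → Finset ℕ) {k r : ℕ} (hk : k < g) (hr : r < 2 * s) :
    nb n s g m v u (k * (2 * s) + r) ↔
      ((u - g * (2 * s)) % 2 = 1 ↔ r ∈ v (k, (u - g * (2 * s)) / 2)) := by
  have h0 : k * (2 * s) + r < g * (2 * s) := by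
    calc k * (2 * s) + r < k * (2 * s) + 2 * s := by omega
      _ = (k + 1) * (2 * s) := by ring
      _ ≤ g * (2 * s) := Nat.mul_le_mul_right _ hk
  have h1 : ¬ u < g * (2 * s) := not_lt.2 hu
  have h2 : (k * (2 * s) + r) % (2 * s) = r := by
    rw [Nat.mul_add_mod_self_right, Nat.mod_eq_of_lt hr]
  have h3 : (k * (2 * s) + r) / (2 * s) = k := by
    rw [add_comm, Nat.add_mul_div_right _ _ (by omega), Nat.div_eq_of_lt hr, zero_add]
  have h4 : k * (2 * s) + r < n := by omega
  simp only [nb, adj, rc, h0, h1, h2, h3, h4, hu, hu', false_and, true_and, false_or,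
    forall_const]

omit hn in
lemma col_high {u : ℕ} (hu : g * (2 * s) ≤ u) (v v' : ℕ × ℕ → Finset ℕ) (x : ℕ)
    (hx : g * (2 * s) ≤ x) : nb n s g m v u x ↔ nb n s g m v' u x := by
  have h1 : ¬ x < g * (2 * s) := not_lt.2 hx
  have h2 : ¬ u < g * (2 * s) := not_lt.2 hu
  simp only [nb, adj, rc, h1, h2, false_and]

omit hn in
lemma extra_all {u : ℕ} (hu : g * (2 * s) + 2 * m ≤ u) (v v' : ℕ × ℕ → Finset ℕ) (x : ℕ) :
    nb n s g m v u x ↔ nb n s g m v' u x := by
  have h1 : ¬ u < g * (2 * s) + 2 * m := not_lt.2 hu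
  have h2 : ¬ u < g * (2 * s) := by omega
  simp only [nb, adj, rc, h1, h2, false_and, false_imp_iff]

lemma col_count {u : ℕ} (hu : g * (2 * s) ≤ u) (hu' : u < g * (2 * s) + 2 * m)
    {v : ℕ × ℕ → Finset ℕ} (hv : Valid s v) :
    ∀ k ≤ g, Nat.count (nb n s g m v u) (k * (2 * s)) = k * ce s (u - g * (2 * s)) := by
  intro k
  induction k with
  | zero => simp
  | succ k ih =>
    intro hk
    have e : (k + 1) * (2 * s) = k * (2 * s) + 2 * s := by ring
    rw [e, Nat.count_add, ih (by omega), Nat.count_eq_card_filter_range, add_mul, one_mul]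
    congr 1
    obtain ⟨h1, h2⟩ := hv (k, (u - g * (2 * s)) / 2)
    by_cases h : (u - g * (2 * s)) % 2 = 1
    · have h4 : #(v (k, (u - g * (2 * s)) / 2)) = ce s (u - g * (2 * s)) := by
        rw [ce, if_pos h]; omega
      refine Eq.trans ?_ h4
      congr 1
      ext r
      simp only [mem_filter, mem_range]
      constructor
      · rintro ⟨hr, h3⟩
        exact ((col_low hn hu hu' v (k := k) (by omega) hr).1 h3).1 h
      · intro h3
        have hr := mem_range.1 (h1 h3)
        exact ⟨hr, (col_low hn hu hu' v (k := k) (by omega) hr).2 (by simp [h, h3])⟩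
    · have h4 : #(range (2 * s) \ v (k, (u - g * (2 * s)) / 2)) = ce s (u - g * (2 * s)) := by
        rw [card_sdiff_of_subset h1, card_range, ce, if_neg h]; omega
      refine Eq.trans ?_ h4
      congr 1
      ext r
      simp only [mem_filter, mem_range, mem_sdiff]
      constructor
      · rintro ⟨hr, h3⟩
        exact ⟨hr, fun h5 => h (((col_low hn hu hu' v (k := k) (by omega) hr).1 h3).2 h5)⟩
      · rintro ⟨hr, h3⟩
        exact ⟨hr, (col_low hn hu hu' v (k := k) (by omega) hr).2 (by simp [h, h3])⟩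

lemma deg_const (u : ℕ) {v v' : ℕ × ℕ → Finset ℕ} (hv : Valid s v) (hv' : Valid s v') :
    Nat.count (nb n s g m v u) n = Nat.count (nb n s g m v' u) n := by
  by_cases hu : u < g * (2 * s)
  · have h0 : Nat.count (nb n s g m v u) (g * (2 * s)) =
        Nat.count (nb n s g m v' u) (g * (2 * s)) :=
      count_congr_le (a := 0) (by simp) (by omega) (fun x _ hx => row_low hu v v' x hx)
    refine count_congr_le (a := g * (2 * s) + 2 * m) ?_ hn (fun x hx _ => row_high hu v v' x hx)
    rw [row_count hn hu v m le_rfl, row_count hn hu v' m le_rfl, h0]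
  · push Not at hu
    by_cases hu' : u < g * (2 * s) + 2 * m
    · refine count_congr_le (a := g * (2 * s)) ?_ (by omega) (fun x hx _ => col_high hu v v' x hx)
      rw [col_count hn hu hu' hv g le_rfl, col_count hn hu hu' hv' g le_rfl]
    · push Not at hu'
      exact count_congr_le (a := 0) (by simp) (by omega) (fun x _ _ => extra_all hu' v v' x)

lemma nth_local (hs : 0 < s) (u i : ℕ) : ∃ β : ℕ × ℕ, ∀ v v' : ℕ × ℕ → Finset ℕ,
    Valid s v → Valid s v' → v β = v' β →
      Nat.nth (nb n s g m v u) i = Nat.nth (nb n s g m v' u) i := by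
  by_cases hu : u < g * (2 * s)
  · have h0 : ∀ v v' : ℕ × ℕ → Finset ℕ, Nat.count (nb n s g m v u) (g * (2 * s)) =
        Nat.count (nb n s g m v' u) (g * (2 * s)) := fun v v' =>
      count_congr_le (a := 0) (by simp) (by omega) (fun x _ hx => row_low hu v v' x hx)
    obtain ⟨N, hN⟩ : ∃ N, ∀ v : ℕ × ℕ → Finset ℕ,
        Nat.count (nb n s g m v u) (g * (2 * s)) = N := ⟨_, fun v => h0 v (fun _ => ∅)⟩
    refine ⟨(u / (2 * s), i - N), fun v v' _ _ h => ?_⟩
    by_cases h1 : i < N
    · exact nth_seg (a := 0) (b := g * (2 * s)) (by simp)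
        (fun x _ hx => row_low hu v v' x hx) (by simp) (by rw [hN]; exact h1)
    by_cases h2 : i < N + m
    · refine nth_seg (a := g * (2 * s) + 2 * (i - N)) (b := g * (2 * s) + 2 * (i - N + 1)) ?_ ?_ ?_ ?_
      · rw [row_count hn hu v _ (by omega), row_count hn hu v' _ (by omega), hN, hN]
      · intro x hx hx'
        obtain ⟨e, rfl⟩ := Nat.exists_eq_add_of_le hx
        rw [row_mid hn hu v (by omega) (by omega), row_mid hn hu v' (by omega) (by omega), h]
      · rw [row_count hn hu v _ (by omega), hN]; omega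
      · rw [row_count hn hu v _ (by omega), hN]; omega
    · refine nth_tail (a := g * (2 * s) + 2 * m) (n := n) ?_ hn
        (fun x hx => row_high hu v v' x hx) ?_ (fun x hx => hx.1) (fun x hx => hx.1)
      · rw [row_count hn hu v _ le_rfl, row_count hn hu v' _ le_rfl, hN, hN]
      · rw [row_count hn hu v _ le_rfl, hN]; omega
  · push Not at hu
    by_cases hu' : u < g * (2 * s) + 2 * m
    · have he := ce_pos hs (u - g * (2 * s))
      refine ⟨(i / ce s (u - g * (2 * s)), (u - g * (2 * s)) / 2), fun v v' hv hv' h => ?_⟩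
      by_cases h1 : i < g * ce s (u - g * (2 * s))
      · have hk : i / ce s (u - g * (2 * s)) < g := (Nat.div_lt_iff_lt_mul he).2 h1
        refine nth_seg (a := i / ce s (u - g * (2 * s)) * (2 * s))
          (b := (i / ce s (u - g * (2 * s)) + 1) * (2 * s)) ?_ ?_ ?_ ?_
        · rw [col_count hn hu hu' hv _ hk.le, col_count hn hu hu' hv' _ hk.le]
        · intro x hx hx'
          obtain ⟨r, rfl⟩ := Nat.exists_eq_add_of_le hx
          have hr : r < 2 * s := by rw [add_mul, one_mul] at hx'; omega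
          rw [col_low hn hu hu' v hk hr, col_low hn hu hu' v' hk hr, h]
        · rw [col_count hn hu hu' hv _ hk.le]; exact Nat.div_mul_le_self _ _
        · rw [col_count hn hu hu' hv _ hk]
          exact (Nat.div_lt_iff_lt_mul he).1 (Nat.lt_succ_self _)
      · refine nth_tail (a := g * (2 * s)) (n := n) ?_ (by omega)
          (fun x hx => col_high hu v v' x hx) ?_ (fun x hx => hx.1) (fun x hx => hx.1)
        · rw [col_count hn hu hu' hv _ le_rfl, col_count hn hu hu' hv' _ le_rfl]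
        · rw [col_count hn hu hu' hv _ le_rfl]; omega
    · push Not at hu'
      refine ⟨(0, 0), fun v v' _ _ _ => ?_⟩
      congr 1
      funext x
      exact propext (extra_all hu' v v' x)

end

end Pool.Agent.Lib.MP_9ec118_lc.H90
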