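import Mathlib
import Pool.Agent.Lib.MP_9ec118_lc.Defs
import Pool.Agent.Lib.MP_9ec118_lc.H90Graph

set_option autoImplicit false

namespace Pool.Agent.Lib.MP_9ec118_lc.H90

open Finset Classical

lemma step_congr (P : List (ℕ × ℕ × ℕ × ℕ)) (w : ℕ) (σ : ℕ × (ℕ → ℕ) × List ℕ) :
    ∃ j : ℕ, ∀ I I' : ℕ → ℕ, I j = I' j → step P w I σ = step P w I' σ := by
  cases h : P[σ.1]? with
  | none => exact ⟨0, fun I I' _ => by simp only [step, h]⟩
  | some x =>
    obtain ⟨o, a, b, c⟩ := x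
    exact ⟨σ.2.1 b, fun I I' hI => by simp only [step, h, hI]⟩

lemma step_halt (P : List (ℕ × ℕ × ℕ × ℕ)) (w : ℕ) (I : ℕ → ℕ) (σ : ℕ × (ℕ → ℕ) × List ℕ)
    (h : P.length ≤ σ.1) : step P w I σ = σ := by
  have : P[σ.1]? = none := List.getElem?_eq_none h
  simp only [step, this]

lemma out_eq {P : List (ℕ × ℕ × ℕ × ℕ)} {w : ℕ} {I : ℕ → ℕ} {T : ℝ} {out : List ℕ}
    (h : Outputs P w I T out) {t : ℕ} (ht : ⌊T⌋₊ ≤ t) :
    ((step P w I)^[t] (0, fun _ => 0, [])).2.2 = out := by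
  obtain ⟨t', h1, h2, h3⟩ := h
  have h4 : t' ≤ t := (Nat.le_floor h1).trans ht
  obtain ⟨k, rfl⟩ := Nat.exists_eq_add_of_le h4
  rw [add_comm, Function.iterate_add_apply, Function.iterate_fixed (step_halt P w I _ h2), h3]

section
variable (q : ℕ) (v0 : Finset ℕ) (φ : ℕ → Finset ℕ)

def Full (Z : Finset (ℕ × ℕ)) (γ : ℕ) : Prop := q ≤ #{β ∈ Z | β.1 = γ}

def Good (Z : Finset (ℕ × ℕ)) : Prop := ∀ γ, #{β ∈ Z | β.1 = γ} ≤ q

def Cons (Z : Finset (ℕ × ℕ)) (v : ℕ × ℕ → Finset ℕ) : Prop :=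
  (∀ β ∈ Z, v β = v0) ∧ ∀ β, β ∉ Z → Full q Z β.1 → v β = φ β.2

lemma ext_one {Z : Finset (ℕ × ℕ)} (hZ : Good q Z) (β : ℕ × ℕ) :
    ∃ Z', Good q Z' ∧ #Z' ≤ #Z + 1 ∧ (∀ v, Cons q v0 φ Z' v → Cons q v0 φ Z v) ∧
      ∀ v v', Cons q v0 φ Z' v → Cons q v0 φ Z' v' → v β = v' β := by
  by_cases h1 : β ∈ Z
  · exact ⟨Z, hZ, by omega, fun v h => h, fun v v' h h' => by rw [h.1 β h1, h'.1 β h1]⟩
  by_cases h2 : Full q Z β.1
  · exact ⟨Z, hZ, by omega, fun v h => h, fun v v' h h' => by rw [h.2 β h1 h2, h'.2 β h1 h2]⟩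
  refine ⟨insert β Z, fun γ => ?_, card_insert_le _ _, fun v h => ⟨fun β' h' =>
    h.1 β' (mem_insert_of_mem h'), fun β' h' h'' => h.2 β' ?_ ?_⟩, fun v v' h h' => by
      rw [h.1 β (mem_insert_self _ _), h'.1 β (mem_insert_self _ _)]⟩
  · rw [filter_insert]
    split_ifs with h3
    · subst h3
      refine (card_insert_le _ _).trans ?_
      unfold Full at h2
      omega
    · exact hZ γ
  · intro h3
    rcases mem_insert.1 h3 with rfl | h3
    · exact h2 h''
    · exact h' h3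
  · exact le_trans h'' (card_le_card (filter_subset_filter _ (subset_insert _ _)))

lemma ext_many {Z : Finset (ℕ × ℕ)} (hZ : Good q Z) (Q : Finset (ℕ × ℕ)) :
    ∃ Z', Good q Z' ∧ #Z' ≤ #Z + #Q ∧ (∀ v, Cons q v0 φ Z' v → Cons q v0 φ Z v) ∧
      ∀ v v', Cons q v0 φ Z' v → Cons q v0 φ Z' v' → ∀ β ∈ Q, v β = v' β := by
  induction Q using Finset.induction_on with
  | empty => exact ⟨Z, hZ, by simp, fun v h => h, by simp⟩
  | insert β Q hβ ih =>
    obtain ⟨Z1, h1, h2, h3, h4⟩ := ih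
    obtain ⟨Z2, h5, h6, h7, h8⟩ := ext_one q v0 φ h1 β
    refine ⟨Z2, h5, by rw [card_insert_of_notMem hβ]; omega, fun v h => h3 v (h7 v h),
      fun v v' h h' β' hβ' => ?_⟩
    rcases mem_insert.1 hβ' with rfl | hβ'
    · exact h8 v v' h h'
    · exact h4 v v' (h7 v h) (h7 v' h') β' hβ'

end

lemma erase_valid {s r : ℕ} (hr : r < 2 * s) :
    (range (2 * s)).erase r ⊆ range (2 * s) ∧ #((range (2 * s)).erase r) + 1 = 2 * s :=
  ⟨erase_subset _ _, by rw [card_erase_of_mem (mem_range.2 hr), card_range]; omega⟩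

lemma cell_local {n s g m : ℕ} (hn : g * (2 * s) + 2 * m ≤ n) (hs : 0 < s) {b : ℝ}
    {I : SimpleGraph (Fin n) → ℕ → ℕ} (hI : Local b I) (j : ℕ) :
    ∃ Q : Finset (ℕ × ℕ), #Q ≤ 2 * ⌊b⌋₊ ∧ ∀ v v', Valid s v → Valid s v' →
      (∀ β ∈ Q, v β = v' β) → I (gr n s g m v) j = I (gr n s g m v') j := by
  have hv0 : Valid s (fun _ => (range (2 * s)).erase 0) := fun _ => erase_valid (by omega)
  obtain ⟨Q, hQ, h⟩ := hI j
    (fun u => Nat.count (nb n s g m (fun _ => (range (2 * s)).erase 0) u) n)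
  choose β1 hβ1 using adj_local s g m
  choose β2 hβ2 using nth_local hn hs
  refine ⟨Q.image (fun x => β1 x.1 x.2) ∪ Q.image (fun x => β2 x.1 x.2), ?_,
    fun v v' hv hv' hvv => h _ _ (fun u => ?_) (fun u => ?_) (fun x hx => ⟨?_, ?_⟩)⟩
  · have h1 : #Q ≤ ⌊b⌋₊ := Nat.le_floor hQ
    have h2 := card_image_le (s := Q) (f := fun x : Fin n × Fin n => β1 x.1 x.2)
    have h3 := card_image_le (s := Q) (f := fun x : Fin n × Fin n => β2 x.1 x.2)
    exact (card_union_le _ _).trans (by omega)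
  · rw [deg_eq, deg_const hn u hv hv0]
  · rw [deg_eq, deg_const hn u hv' hv0]
  · exact hβ1 _ _ v v' (hvv _ (mem_union_left _ (mem_image_of_mem _ hx)))
  · rw [nbr_eq, nbr_eq]
    exact hβ2 _ _ v v' hv hv' (hvv _ (mem_union_right _ (mem_image_of_mem _ hx)))

lemma run {n s g m : ℕ} (hn : g * (2 * s) + 2 * m ≤ n) (hs : 0 < s) {b : ℝ}
    {I : SimpleGraph (Fin n) → ℕ → ℕ} (hI : Local b I) (q : ℕ) (v0 : Finset ℕ)
    (φ : ℕ → Finset ℕ) (P : List (ℕ × ℕ × ℕ × ℕ)) (w : ℕ) (σ0 : ℕ × (ℕ → ℕ) × List ℕ) (t : ℕ) :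
    ∃ (Z : Finset (ℕ × ℕ)) (σ : ℕ × (ℕ → ℕ) × List ℕ), Good q Z ∧ #Z ≤ t * (2 * ⌊b⌋₊) ∧
      ∀ v, Valid s v → Cons q v0 φ Z v → (step P w (I (gr n s g m v)))^[t] σ0 = σ := by
  induction t with
  | zero => exact ⟨∅, σ0, fun γ => by simp, by simp, fun v _ _ => rfl⟩
  | succ t ih =>
    obtain ⟨Z, σ, h1, h2, h3⟩ := ih
    obtain ⟨j, hj⟩ := step_congr P w σ
    obtain ⟨Q, hQ, h4⟩ := cell_local hn hs hI j
    obtain ⟨Z', h5, h6, h7, h8⟩ := ext_many q v0 φ h1 Q
    have h9 : #Z' ≤ (t + 1) * (2 * ⌊b⌋₊) := by rw [add_mul, one_mul]; omega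
    by_cases hex : ∃ v, Valid s v ∧ Cons q v0 φ Z' v
    · obtain ⟨v1, hv1, hc1⟩ := hex
      refine ⟨Z', step P w (I (gr n s g m v1)) σ, h5, h9, fun v hv hc => ?_⟩
      rw [Function.iterate_succ_apply', h3 v hv (h7 v hc)]
      exact hj _ _ (h4 v v1 hv hv1 (h8 v v1 hc hc1))
    · exact ⟨Z', σ, h5, h9, fun v hv hc => absurd ⟨v, hv, hc⟩ hex⟩

theorem finite_bound {n s g m q t : ℕ} (hn : g * (2 * s) + 2 * m ≤ n) (hs : 0 < s) {b : ℝ}
    (hm : (q + 2) * (2 * s) ≤ m) (hg : t * (2 * ⌊b⌋₊) + q * s < q * g)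
    {I : SimpleGraph (Fin n) → ℕ → ℕ} (hI : Local b I) (P : List (ℕ × ℕ × ℕ × ℕ)) (w : ℕ) :
    ∃ G : SimpleGraph (Fin n),
      (∃ D : Finset (Fin n), D.card = 2 ∧ ∀ v, ∃ u ∈ D, u = v ∨ G.Adj u v) ∧
      (((step P w (I G))^[t] (0, fun _ => 0, [])).2.2.length ≤ s →
        ¬ ∀ v, ∃ u : Fin n, u.val ∈ ((step P w (I G))^[t] (0, fun _ => 0, [])).2.2 ∧
          (u = v ∨ G.Adj u v)) := by
  have hL : 0 < 2 * s := by omega
  let φ : ℕ → Finset ℕ := fun c => (range (2 * s)).erase (c % (2 * s))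
  obtain ⟨Z, σ, h1, h2, h3⟩ :=
    run hn hs hI q ((range (2 * s)).erase 0) φ P w (0, fun _ => 0, []) t
  -- the groups met by the output
  set O : Finset ℕ := if σ.2.2.length ≤ s then σ.2.2.toFinset else ∅ with hO
  have hOc : #O ≤ s := by
    rw [hO]; split_ifs with h
    · exact (List.toFinset_card_le _).trans h
    · simp
  obtain ⟨z, hz, hz1, hz2⟩ : ∃ z < g, ¬ Full q Z z ∧ z ∉ O.image (· / (2 * s)) := by
    by_contra hcon
    push Not at hcon
    have e1 : range g ⊆ (range g).filter (Full q Z) ∪ O.image (· / (2 * s)) := by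
      intro z hz
      by_cases h : Full q Z z
      · exact mem_union_left _ (mem_filter.2 ⟨hz, h⟩)
      · exact mem_union_right _ (hcon z (mem_range.1 hz) h)
    have e2 : g ≤ #((range g).filter (Full q Z)) + s := by
      have := (card_le_card e1).trans (card_union_le _ _)
      have := card_image_le (s := O) (f := (· / (2 * s)))
      rw [card_range] at *
      omega
    have e3 : #((range g).filter (Full q Z)) * q ≤ #Z := by
      calc #((range g).filter (Full q Z)) * q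
          ≤ ∑ γ ∈ (range g).filter (Full q Z), #{β ∈ Z | β.1 = γ} := by
            rw [← smul_eq_mul]
            exact card_nsmul_le_sum _ _ _ (fun γ hγ => (mem_filter.1 hγ).2)
        _ = #{β ∈ Z | β.1 ∈ (range g).filter (Full q Z)} := sum_card_fiberwise_eq_card_filter _ _ _
        _ ≤ #Z := card_filter_le _ _
    have e4 := Nat.mul_le_mul_left q e2
    rw [mul_add, mul_comm q (#_)] at e4
    omega
  let v : ℕ × ℕ → Finset ℕ := fun β =>
    if β ∈ Z ∨ β.1 = z then (range (2 * s)).erase 0 else φ β.2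
  have hv : Valid s v := by
    intro β
    simp only [v]
    split_ifs
    · exact erase_valid hL
    · exact erase_valid (Nat.mod_lt _ hL)
  have hc : Cons q ((range (2 * s)).erase 0) φ Z v := by
    refine ⟨fun β h => if_pos (Or.inl h), fun β h h' => if_neg ?_⟩
    rintro (h'' | h'')
    · exact h h''
    · exact hz1 (h'' ▸ h')
  have hlt : ∀ r < 2 * s, z * (2 * s) + r < g * (2 * s) := fun r hr => by
    calc z * (2 * s) + r < z * (2 * s) + 2 * s := by omega
      _ = (z + 1) * (2 * s) := by ring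
      _ ≤ g * (2 * s) := Nat.mul_le_mul_right _ hz
  have hmod : ∀ r < 2 * s, (z * (2 * s) + r) % (2 * s) = r := fun r hr => by
    rw [Nat.mul_add_mod_self_right, Nat.mod_eq_of_lt hr]
  have hdiv : ∀ r < 2 * s, (z * (2 * s) + r) / (2 * s) = z := fun r hr => by
    rw [add_comm, Nat.add_mul_div_right _ _ hL, Nat.div_eq_of_lt hr, zero_add]
  refine ⟨gr n s g m v, ?_, ?_⟩
  · have ha := hlt 0 hL
    have hb := hlt 1 (by omega)
    refine ⟨{⟨z * (2 * s) + 0, by omega⟩, ⟨z * (2 * s) + 1, by omega⟩},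
      card_pair (fun h => by have := congrArg Fin.val h; simp at this), fun y => ?_⟩
    by_cases hy : y.val < g * (2 * s)
    · refine ⟨_, mem_insert_self _ _, ?_⟩
      by_cases hy' : z * (2 * s) + 0 = y.val
      · exact Or.inl (Fin.ext hy')
      · exact Or.inr (Or.inl ⟨ha, hy, hy'⟩)
    · push Not at hy
      by_cases hp : (y.val - g * (2 * s)) % 2 = 1
      · refine ⟨_, mem_insert_of_mem (mem_singleton_self _),
          Or.inr (Or.inr (Or.inl ⟨hb, hy, fun _ => ?_⟩))⟩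
        have h1s : 1 < 2 * s := by omega
        simp only [hmod 1 h1s, hdiv 1 h1s, v, or_true, if_true, hp, mem_erase, mem_range, h1s]
        simp
      · refine ⟨_, mem_insert_self _ _, Or.inr (Or.inr (Or.inl ⟨ha, hy, fun _ => ?_⟩))⟩
        simp only [hmod 0 hL, hdiv 0 hL, v, or_true, if_true, hp, mem_erase]
        simp
  · rw [h3 v hv hc]
    intro hlen hdom
    have hO' : O = σ.2.2.toFinset := by rw [hO, if_pos hlen]
    let B : Finset ℕ := range (2 * s) \ O.image (· % (2 * s))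
    have hB : s ≤ #B := by
      have h4 := le_card_sdiff (O.image (· % (2 * s))) (range (2 * s))
      have h5 := card_image_le (s := O) (f := (· % (2 * s)))
      rw [card_range] at h4
      simp only [B]
      omega
    have hB' : ∀ r ∈ B, r < 2 * s := fun r hr => mem_range.1 (mem_sdiff.1 hr).1
    -- bad column pairs
    let bad : Finset ℕ := ({β ∈ Z | β.1 ∈ O.image (· / (2 * s))} : Finset (ℕ × ℕ)).image Prod.snd ∪
      O.image (fun y => (y - g * (2 * s)) / 2)
    have hbad : bad.card ≤ s * q + s := by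
      refine (card_union_le _ _).trans (add_le_add (card_image_le.trans ?_)
        (card_image_le.trans hOc))
      rw [← sum_card_fiberwise_eq_card_filter]
      refine (sum_le_card_nsmul _ _ q (fun γ _ => h1 γ)).trans ?_
      rw [smul_eq_mul]
      exact Nat.mul_le_mul_right _ (card_image_le.trans hOc)
    obtain ⟨c, hc1, hc2⟩ : ∃ c ∈ (B ×ˢ range (q + 2)).image (fun x => x.1 + 2 * s * x.2),
        c ∉ bad := by
      refine exists_mem_notMem_of_card_lt_card ?_
      rw [card_image_of_injOn, card_product, card_range]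
      · have := Nat.mul_le_mul_right (q + 2) hB
        nlinarith
      · rintro ⟨r, j⟩ hx ⟨r', j'⟩ hx' e
        have e0 : r + 2 * s * j = r' + 2 * s * j' := e
        have hr := hB' r (mem_product.1 hx).1
        have hr' := hB' r' (mem_product.1 hx').1
        have e1 := congrArg (· % (2 * s)) e0
        simp only [Nat.add_mul_mod_self_left, Nat.mod_eq_of_lt hr, Nat.mod_eq_of_lt hr'] at e1
        subst e1
        rw [Nat.eq_of_mul_eq_mul_left hL (Nat.add_left_cancel e0)]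
    obtain ⟨⟨r, j⟩, hj, rfl⟩ := mem_image.1 hc1
    obtain ⟨hr, hj⟩ := mem_product.1 hj
    simp only at hc2 hr hj
    have hcm : r + 2 * s * j < m := by
      have := mem_range.1 hj
      have := hB' r hr
      calc r + 2 * s * j < 2 * s + 2 * s * j := by omega
        _ = (j + 1) * (2 * s) := by ring
        _ ≤ (q + 2) * (2 * s) := Nat.mul_le_mul_right _ (by omega)
        _ ≤ m := hm
    obtain ⟨u, hu, hu'⟩ := hdom ⟨g * (2 * s) + 2 * (r + 2 * s * j), by omega⟩
    have huO : u.val ∈ O := by rw [hO']; exact List.mem_toFinset.2 hu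
    rcases hu' with h | h | h | h
    · refine hc2 (mem_union_right _ (mem_image.2 ⟨u.val, huO, ?_⟩))
      rw [h]; simp
    · exact absurd h.2.1 (by simp)
    · have h4 := h.2.2 (by simp only; omega)
      have e1 : (g * (2 * s) + 2 * (r + 2 * s * j) - g * (2 * s)) % 2 = 0 := by omega
      have e2 : (g * (2 * s) + 2 * (r + 2 * s * j) - g * (2 * s)) / 2 = r + 2 * s * j := by omega
      simp only [e1, e2] at h4
      have h5 : v (u.val / (2 * s), r + 2 * s * j) = (range (2 * s)).erase r := by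
        simp only [v, φ]
        rw [if_neg, Nat.add_mul_mod_self_left, Nat.mod_eq_of_lt (hB' r hr)]
        rintro (h6 | h6)
        · exact hc2 (mem_union_left _ (mem_image.2 ⟨_, mem_filter.2
            ⟨h6, mem_image_of_mem _ huO⟩, rfl⟩))
        · exact hz2 (h6 ▸ mem_image_of_mem _ huO)
      rw [h5] at h4
      refine absurd (h4.2 (mem_erase.2 ⟨fun h6 => (mem_sdiff.1 hr).2 ?_,
        mem_range.2 (Nat.mod_lt _ hL)⟩)) (by simp)
      exact h6 ▸ mem_image_of_mem _ huO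
    · exact absurd h.1 (by simp)

end Pool.Agent.Lib.MP_9ec118_lc.H90
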