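import Mathlib
import Pool.Agent.Lib.MP_9ec118_lc.H90Adv

set_option autoImplicit false

namespace Pool.Agent.Lib.MP_9ec118_lc.H90

open Filter Real

lemma ev_log (a K : ℝ) (ha : 0 < a) (hK : 0 < K) :
    ∀ᶠ n : ℕ in atTop, 1 ≤ log n ∧ K * log n < (n : ℝ) ^ a := by
  have h1 : ∀ᶠ x : ℝ in atTop, 1 ≤ log x := tendsto_log_atTop.eventually_ge_atTop _
  have h2 := (isLittleO_log_rpow_atTop ha).bound (c := 1 / (2 * K)) (by positivity)
  have h3 : ∀ᶠ x : ℝ in atTop, 1 ≤ log x ∧ K * log x < x ^ a := by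
    filter_upwards [h1, h2, eventually_gt_atTop (0 : ℝ)] with x h1 h2 h3
    refine ⟨h1, ?_⟩
    have h4 : 0 < x ^ a := rpow_pos_of_pos h3 _
    rw [Real.norm_of_nonneg (by linarith), Real.norm_of_nonneg h4.le] at h2
    have h6 : K * log x ≤ K * (1 / (2 * K) * x ^ a) := mul_le_mul_of_nonneg_left h2 hK.le
    have h7 : K * (1 / (2 * K) * x ^ a) = x ^ a / 2 := by field_simp
    linarith
  exact tendsto_natCast_atTop_atTop.eventually h3

lemma half_le_div {a b : ℕ} (hb : 0 < b) (h : b ≤ a) : (a : ℝ) ≤ 2 * b * (a / b : ℕ) := by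
  have h1 : 1 ≤ a / b := (Nat.le_div_iff_mul_le hb).2 (by simpa using h)
  have h2 : a < b * (a / b + 1) := Nat.lt_mul_div_succ a hb
  have h3 : a ≤ 2 * b * (a / b) := by nlinarith
  exact_mod_cast h3

lemma params (δ η C : ℝ) (hη : 0 ≤ η) (hδ : 2 * η < δ) (hδ1 : δ ≤ 1) :
    ∀ᶠ n : ℕ in atTop, ∃ s g m q : ℕ, s = ⌊C * (n : ℝ) ^ η⌋₊ + 1 ∧
      g * (2 * s) + 2 * m ≤ n ∧ (q + 2) * (2 * s) ≤ m ∧
      ⌊C * (n : ℝ) ^ (2 - δ)⌋₊ * (2 * ⌊C * log n⌋₊) + q * s < q * g := by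
  filter_upwards [ev_log (δ - 2 * η) ((512 * C ^ 2 + 32) * (|C| + 1) ^ 2) (by linarith)
    (by positivity), eventually_gt_atTop 0] with n ⟨hl1, h2⟩ hn0
  set s := ⌊C * (n : ℝ) ^ η⌋₊ + 1 with hs
  have hx : (0 : ℝ) < n := by exact_mod_cast hn0
  have hx1 : (1 : ℝ) ≤ n := by exact_mod_cast hn0
  have hs1 : 1 ≤ s := by omega
  set E := (n : ℝ) ^ (δ - 2 * η) with hE
  set F := (n : ℝ) ^ η with hF
  have hE0 : 0 < E := rpow_pos_of_pos hx _
  have hF1 : 1 ≤ F := one_le_rpow hx1 hη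
  have hsr : (s : ℝ) ≤ (|C| + 1) * F := by
    have h3 : (⌊C * F⌋₊ : ℝ) ≤ |C| * F :=
      (Nat.cast_le.2 (Nat.floor_le_floor (mul_le_mul_of_nonneg_right (le_abs_self C)
        (by linarith)))).trans (Nat.floor_le (by positivity))
    rw [hs]; push_cast; linarith
  have hsp : (0 : ℝ) < s := by exact_mod_cast hs1
  have hs2 : (s : ℝ) ^ 2 ≤ (|C| + 1) ^ 2 * F ^ 2 := by rw [← mul_pow]; gcongr
  have hEF : E * F ^ 2 ≤ n := by
    rw [hE, hF, ← rpow_natCast, ← rpow_mul hx.le, ← rpow_add hx]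
    calc (n : ℝ) ^ (δ - 2 * η + η * (2 : ℕ)) ≤ (n : ℝ) ^ (1 : ℝ) :=
          rpow_le_rpow_of_exponent_le hx1 (by push_cast; linarith)
      _ = n := rpow_one _
  have hT : (n : ℝ) ^ (2 - δ) * (E * F ^ 2) = n ^ 2 := by
    rw [hE, hF, ← rpow_natCast, ← rpow_mul hx.le, ← rpow_add hx, ← rpow_add hx, ← rpow_natCast]
    congr 1; push_cast; ring
  have hkey : (512 * C ^ 2 + 32) * log n * s ^ 2 < E * F ^ 2 := by
    calc (512 * C ^ 2 + 32) * log n * s ^ 2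
        ≤ (512 * C ^ 2 + 32) * log n * ((|C| + 1) ^ 2 * F ^ 2) := by gcongr
      _ = ((512 * C ^ 2 + 32) * (|C| + 1) ^ 2 * log n) * F ^ 2 := by ring
      _ < E * F ^ 2 := mul_lt_mul_of_pos_right h2 (by positivity)
  have hA : 32 * s ^ 2 ≤ n := by
    have h3 : (32 : ℝ) * 1 * s ^ 2 ≤ (512 * C ^ 2 + 32) * log n * s ^ 2 := by
      gcongr
      nlinarith [sq_nonneg C]
    have h4 : (32 : ℝ) * s ^ 2 ≤ n := by linarith
    exact_mod_cast h4
  have hss : s ≤ s ^ 2 := by nlinarith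
  refine ⟨s, n / (4 * s), n / 4, n / (16 * s), rfl, ?_, ?_, ?_⟩
  · have h3 := Nat.div_mul_le_self n (4 * s)
    have h4 := Nat.div_mul_le_self n 4
    have h5 : n / (4 * s) * (4 * s) = 2 * (n / (4 * s) * (2 * s)) := by ring
    omega
  · rw [Nat.le_div_iff_mul_le (by norm_num)]
    have h3 := Nat.div_mul_le_self n (16 * s)
    have h4 : (n / (16 * s) + 2) * (2 * s) * 4 * 2 = n / (16 * s) * (16 * s) + 32 * s := by ring
    omega
  · set q := n / (16 * s) with hq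
    set g := n / (4 * s) with hg
    have hq1 : (n : ℝ) ≤ 2 * (16 * s : ℕ) * q := half_le_div (by positivity) (by omega)
    have hg1 : n < 4 * s * (g + 1) := Nat.lt_mul_div_succ n (by omega)
    have hB : 8 * (s + 1) * s ≤ n := by nlinarith
    have hg2 : (n : ℝ) ≤ 8 * s * ((g : ℝ) - s) := by
      have h3 : (n : ℝ) < 4 * s * (g + 1) := by exact_mod_cast hg1
      have h4 : (8 : ℝ) * (s + 1) * s ≤ n := by exact_mod_cast hB
      nlinarith
    have hq0 : (0 : ℝ) ≤ q := Nat.cast_nonneg _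
    have h5 : (n : ℝ) ^ 2 ≤ 256 * s ^ 2 * (q * ((g : ℝ) - s)) := by
      push_cast at hq1
      calc (n : ℝ) ^ 2 = n * n := by ring
        _ ≤ (2 * (16 * s) * q) * (8 * s * ((g : ℝ) - s)) :=
          mul_le_mul hq1 hg2 hx.le (by positivity)
        _ = _ := by ring
    have hT0 : 0 < (n : ℝ) ^ (2 - δ) := rpow_pos_of_pos hx _
    have h6 : ((⌊C * (n : ℝ) ^ (2 - δ)⌋₊ * (2 * ⌊C * log n⌋₊) : ℕ) : ℝ) ≤
        2 * C ^ 2 * log n * (n : ℝ) ^ (2 - δ) := by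
      rcases le_total 0 C with hC | hC
      · push_cast
        calc (⌊C * (n : ℝ) ^ (2 - δ)⌋₊ : ℝ) * (2 * ⌊C * log n⌋₊)
            ≤ (C * (n : ℝ) ^ (2 - δ)) * (2 * (C * log n)) := by
              gcongr
              · exact Nat.floor_le (by positivity)
              · exact Nat.floor_le (by positivity)
          _ = _ := by ring
      · rw [Nat.floor_of_nonpos (mul_nonpos_of_nonpos_of_nonneg hC hT0.le)]
        simp only [zero_mul, Nat.cast_zero]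
        positivity
    have h7 : 2 * C ^ 2 * log n * (n : ℝ) ^ (2 - δ) < q * ((g : ℝ) - s) := by
      have h8 : 2 * C ^ 2 * log n * (256 * s ^ 2) < E * F ^ 2 := by
        have h9 : 0 ≤ 32 * log n * (s : ℝ) ^ 2 := by positivity
        nlinarith
      have h11 : 0 < 256 * (s : ℝ) ^ 2 := by positivity
      refine lt_of_mul_lt_mul_left ?_ h11.le
      calc 256 * (s : ℝ) ^ 2 * (2 * C ^ 2 * log n * (n : ℝ) ^ (2 - δ))
          = (2 * C ^ 2 * log n * (256 * s ^ 2)) * (n : ℝ) ^ (2 - δ) := by ring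
        _ < E * F ^ 2 * (n : ℝ) ^ (2 - δ) := mul_lt_mul_of_pos_right h8 hT0
        _ = n ^ 2 := by rw [← hT]; ring
        _ ≤ _ := h5
    have h12 : ((⌊C * (n : ℝ) ^ (2 - δ)⌋₊ * (2 * ⌊C * log n⌋₊) : ℕ) : ℝ) + q * s < q * g := by
      nlinarith
    exact_mod_cast h12

end Pool.Agent.Lib.MP_9ec118_lc.H90
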