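import Mathlib
import Pool.Agent.Lib.MP_9ec118_lc.H90Defs

/-!
Sanity checks for the definition `Local`: the adjacency matrix format of the hand-in
`SETHLowerBound`, the degree array and the concatenated sorted adjacency lists are local,
and local formats can be interleaved.
-/

set_option autoImplicit false

namespace Pool.Agent.Lib.MP_9ec118_lc.H90

open Classical

theorem local_matrix (n : ℕ) {b : ℝ} (hb : 1 ≤ b) :
    Local b (fun (G : SimpleGraph (Fin n)) j => if j = 0 then n else
      if ∃ u v : Fin n, G.Adj u v ∧ j = 1 + u * n + v then 1 else 0) := by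
  intro j d
  by_cases h : ∃ u v : Fin n, j = 1 + u * n + v
  · obtain ⟨u, v, rfl⟩ := h
    refine ⟨{(u, v)}, by simpa using hb, fun G H _ _ h => ?_⟩
    have h1 := (h _ (Finset.mem_singleton_self _)).1
    have key : ∀ u' v' : Fin n, 1 + u.val * n + v.val = 1 + u'.val * n + v'.val →
        u = u' ∧ v = v' := by
      intro u' v' e
      have hn : 0 < n := u.pos
      have e1 : u.val * n + v.val = u'.val * n + v'.val := by omega
      have e2 := congrArg (· % n) e1
      simp only [Nat.mul_add_mod_self_right, Nat.mod_eq_of_lt v.2, Nat.mod_eq_of_lt v'.2] at e2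
      have e3 : u.val * n = u'.val * n := by omega
      exact ⟨Fin.ext (Nat.eq_of_mul_eq_mul_right hn e3), Fin.ext e2⟩
    have : (∃ u' v' : Fin n, G.Adj u' v' ∧ 1 + u.val * n + v.val = 1 + u' * n + v') ↔
        ∃ u' v' : Fin n, H.Adj u' v' ∧ 1 + u.val * n + v.val = 1 + u' * n + v' := by
      constructor
      · rintro ⟨u', v', h2, h3⟩
        obtain ⟨rfl, rfl⟩ := key u' v' h3
        exact ⟨_, _, h1.1 h2, rfl⟩
      · rintro ⟨u', v', h2, h3⟩
        obtain ⟨rfl, rfl⟩ := key u' v' h3
        exact ⟨_, _, h1.2 h2, rfl⟩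
    simp only [this]
  · refine ⟨∅, by simpa using zero_le_one.trans hb, fun G H _ _ _ => ?_⟩
    have h1 : ∀ G : SimpleGraph (Fin n), ¬ ∃ u v : Fin n, G.Adj u v ∧ j = 1 + u * n + v :=
      fun G ⟨u, v, _, e⟩ => h ⟨u, v, e⟩
    simp only [h1]

theorem local_degrees (n : ℕ) {b : ℝ} (hb : 0 ≤ b) (f : (Fin n → ℕ) → ℕ → ℕ) :
    Local b (fun (G : SimpleGraph (Fin n)) j => f (fun u => (G.neighborSet u).ncard) j) := by
  intro j d
  refine ⟨∅, by simpa using hb, fun G H h1 h2 _ => ?_⟩
  simp only [h1, h2]

theorem local_lists (n : ℕ) {b : ℝ} (hb : 1 ≤ b) :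
    Local b (fun (G : SimpleGraph (Fin n)) j => ((List.finRange n).flatMap
      (fun u => (List.range (G.neighborSet u).ncard).map (nbr G u))).getD j 0) := by
  intro j d
  have key : ∀ G : SimpleGraph (Fin n), (∀ u, (G.neighborSet u).ncard = d u) →
      (List.finRange n).flatMap (fun u => (List.range (G.neighborSet u).ncard).map (nbr G u)) =
      ((List.finRange n).flatMap (fun u => (List.range (d u)).map (fun i => (u, i)))).map
        (fun x => nbr G x.1 x.2) := by
    intro G h
    simp only [h, List.map_flatMap, List.map_map, Function.comp_def]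
  cases hj : ((List.finRange n).flatMap (fun u => (List.range (d u)).map (fun i => (u, i))))[j]?
    with
  | none =>
    refine ⟨∅, by simpa using zero_le_one.trans hb, fun G H h1 h2 _ => ?_⟩
    simp only [key G h1, key H h2, List.getD_eq_getElem?_getD, List.getElem?_map, hj,
      Option.map_none]
  | some x =>
    by_cases hx : x.2 < n
    · refine ⟨{(x.1, ⟨x.2, hx⟩)}, by simpa using hb, fun G H h1 h2 h => ?_⟩
      have h3 := (h _ (Finset.mem_singleton_self _)).2
      simp only [key G h1, key H h2, List.getD_eq_getElem?_getD, List.getElem?_map, hj,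
        Option.map_some, Option.getD_some]
      exact h3
    · refine ⟨∅, by simpa using zero_le_one.trans hb, fun G H h1 h2 _ => ?_⟩
      exfalso
      have h3 := List.mem_of_getElem? hj
      simp only [List.mem_flatMap, List.mem_map, List.mem_range] at h3
      obtain ⟨u, -, i, hi, rfl⟩ := h3
      have h4 : (G.neighborSet u).ncard ≤ n := by
        simpa using Set.ncard_le_card (G.neighborSet u)
      rw [h1 u] at h4
      exact hx (hi.trans_le h4)

theorem local_interleave {n : ℕ} {b : ℝ} {I I' : SimpleGraph (Fin n) → ℕ → ℕ}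
    (h : Local b I) (h' : Local b I') :
    Local b (fun G j => if j % 2 = 0 then I G (j / 2) else I' G (j / 2)) := by
  intro j d
  by_cases hj : j % 2 = 0
  · simpa only [hj, if_true] using h (j / 2) d
  · simpa only [hj, if_false] using h' (j / 2) d

end Pool.Agent.Lib.MP_9ec118_lc.H90
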