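import Mathlib
import Pool.Agent.Lib.MP_9ec118_lc.Core2
import Pool.Agent.Lib.MP_9ec118_lc.Search2

/-!
The reduction from k-SAT to approximate k-Dominating Set, for programs that toss coins and read
adjacency matrix, adjacency lists and degrees.
-/

set_option autoImplicit false

namespace Pool.Agent.Lib.MP_9ec118_lc

open Function Pool.Agent.Shared.PolyTime N487b59b3 N68a2faeb Filter

theorem tape_even (I : ℕ → ℕ) (ω : ℕ → Bool) (i : ℕ) : tape I ω (2 * i) = I i := by simp [tape]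

theorem mix_tape (g I : ℕ → ℕ) (ω : ℕ → Bool) : mix g (tape I ω) = tape g ω := by
  funext j
  unfold mix tape
  split_ifs <;> rfl

theorem le_NN (k n : ℕ) : (k + 1) * 2 ^ (n / k + 1) ≤ NN k n := by
  unfold NN
  generalize 2 ^ (n / k + 1) = M
  nlinarith [Nat.zero_le (k * M * n), Nat.zero_le (M * n), Nat.zero_le (k * M)]

theorem NN_le (k n : ℕ) : NN k n ≤ 3 * (n + 2) * ((k + 1) * 2 ^ (n / k + 1)) := by
  unfold NN
  generalize 2 ^ (n / k + 1) = M
  nlinarith [Nat.zero_le (k * M * n), Nat.zero_le (M * n), Nat.zero_le (k * M)]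

theorem factor_le {k : ℕ} (A : ℕ) (hk : 2 ≤ k) {γ : ℝ} (hγ : 0 < γ) :
    ∀ᶠ n : ℕ in atTop, ((3 * (n + 2) : ℕ) : ℝ) ^ A ≤
      (((k + 1) * 2 ^ (n / k + 1) : ℕ) : ℝ) ^ γ := by
  have ht : Tendsto (fun n : ℕ => (k + 1) * 2 ^ (n / k + 1)) atTop atTop :=
    tendsto_atTop_mono (fun n => (Nat.le_succ _).trans
      (Nat.lt_two_pow_self.le.trans (Nat.le_mul_of_pos_left _ (by omega))))
      (Nat.tendsto_div_const_atTop (show k ≠ 0 by omega))
  filter_upwards [ht.eventually (size_pow_le ((6 * k) ^ A) A hγ)] with n hn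
  refine le_trans ?_ hn
  have h1 : n / k + 1 < ((k + 1) * 2 ^ (n / k + 1)).size :=
    Nat.lt_size.2 (Nat.le_mul_of_pos_left _ (by omega))
  have h2 := Nat.lt_mul_div_succ n (show 0 < k by omega)
  have h3 : 3 * (n + 2) ≤ 6 * k * ((k + 1) * 2 ^ (n / k + 1)).size := by
    generalize ((k + 1) * 2 ^ (n / k + 1)).size = z at *
    generalize n / k = y at *
    nlinarith
  rw [Nat.cast_pow, ← mul_pow, ← Nat.cast_mul]
  exact pow_le_pow_left₀ (by positivity) (Nat.cast_le.2 h3) _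

theorem time_le2 {k ρ : ℕ} (C : ℕ) (hk : 2 ≤ k) {δ : ℝ} (hδ : 0 < δ)
    (hρ : 4 * k ≤ ρ * min (min δ 1 / 2) 1) :
    ∀ᶠ n : ℕ in atTop, (C : ℝ) * (NN k n : ℝ) ^ ((k : ℝ) - δ) ≤ (2 ^ (n - 2 * (n / ρ)) : ℕ) := by
  have hk' : (2 : ℝ) ≤ k := by exact_mod_cast hk
  have h0 : 0 < min δ 1 := lt_min hδ one_pos
  have h1 : min δ 1 ≤ 1 := min_le_right _ _
  have h2 : min δ 1 ≤ δ := min_le_left _ _
  filter_upwards [time_le C hk (half_pos h0) hρ, factor_le k hk (half_pos h0)] with n a1 a2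
  refine le_trans (mul_le_mul_of_nonneg_left ?_ (by positivity)) a1
  have b0 : (1 : ℝ) ≤ ((k + 1) * 2 ^ (n / k + 1) : ℕ) := by
    exact_mod_cast Nat.succ_le_of_lt (by positivity)
  have b1 : (((k + 1) * 2 ^ (n / k + 1) : ℕ) : ℝ) ≤ NN k n := Nat.cast_le.2 (le_NN k n)
  have b2 : (NN k n : ℝ) ≤ (3 * (n + 2) : ℕ) * ((k + 1) * 2 ^ (n / k + 1) : ℕ) := by
    exact_mod_cast NN_le k n
  have b3 : (1 : ℝ) ≤ (3 * (n + 2) : ℕ) := by exact_mod_cast (by omega : 1 ≤ 3 * (n + 2))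
  generalize (((k + 1) * 2 ^ (n / k + 1) : ℕ) : ℝ) = X at *
  generalize ((3 * (n + 2) : ℕ) : ℝ) = f at *
  refine (Real.rpow_le_rpow_of_exponent_le (by linarith) (show _ ≤ k - min δ 1 by linarith)).trans
    ((Real.rpow_le_rpow (by linarith) b2 (by linarith)).trans ?_)
  rw [Real.mul_rpow (by linarith) (by linarith),
    show (k : ℝ) - min δ 1 / 2 = min δ 1 / 2 + (k - min δ 1) by ring,
    Real.rpow_add (by linarith)]
  refine mul_le_mul_of_nonneg_right (le_trans ?_ a2) (by positivity)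
  rw [← Real.rpow_natCast]
  exact Real.rpow_le_rpow_of_exponent_le b3 (by linarith)

theorem params2 {k ρ : ℕ} (K C : ℕ) (hk : 2 ≤ k) (hρ : 0 < ρ) {ε : ℝ} (hε : 0 < ε) :
    ∀ᶠ n : ℕ in atTop, ∀ e, e = (k + 3) * n.size →
      C * (NN k n).size ≤ n * n ∧ C ≤ NN k n ∧ n * n < 2 ^ e ∧ ∃ s h q D T : ℕ,
        C * Real.log (NN k n) ^ (1 - ε) * k ≤ h ∧ 2 ≤ s ∧ s ≤ n ∧ D ≤ n ∧ T ≤ n ∧ h ≤ n ∧
        q.Prime ∧ D < q ∧ T < q ∧ q < 2 ^ e ∧ e * (k * h * T + 1) ≤ n / k + 1 ∧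
        h ^ k * (k * D) + h < q ∧ n * s ^ (2 * 5 ^ K) ≤ T * D ∧
        ∀ j, j * s ≤ K ^ 2 * n → j ≤ n ∧ e * (k * D + 7 + j) ≤ n / ρ := by
  filter_upwards [params K (2 * C) hk hρ hε, factor_le 1 hk one_pos] with n a1 a2 e he
  obtain ⟨p1, p2, p3, p4, s, h, q, D, T, p5, H⟩ := a1 e _ he rfl
  rw [pow_one, Real.rpow_one, Nat.cast_le] at a2
  have b1 := le_NN k n
  have b2 := (NN_le k n).trans (Nat.mul_le_mul_right _ a2)
  generalize (k + 1) * 2 ^ (n / k + 1) = X at *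
  refine ⟨?_, by omega, p4, s, h, q, D, T, le_trans ?_ p5, H⟩
  · have : (NN k n).size ≤ 2 * n := Nat.size_le.2 (b2.trans_lt (by
      rw [two_mul, pow_add]
      exact Nat.mul_lt_mul'' p1 p1))
    nlinarith
  · have c0 : (1 : ℝ) < X := by exact_mod_cast (by omega : 1 < X)
    have c1 : 0 < Real.log X := Real.log_pos c0
    have c2 : Real.log X ≤ Real.log (NN k n) :=
      Real.log_le_log (by linarith) (Nat.cast_le.2 b1)
    have c3 : Real.log (NN k n) ≤ 2 * Real.log X := by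
      rw [two_mul, ← Real.log_mul (by linarith) (by linarith)]
      exact Real.log_le_log (by exact_mod_cast (by omega : 0 < NN k n)) (by exact_mod_cast b2)
    have c4 : Real.log (NN k n) ^ (1 - ε) ≤ 2 * Real.log X ^ (1 - ε) := by
      have c5 : 0 ≤ Real.log X ^ (1 - ε) := by positivity
      rcases le_total 0 (1 - ε) with h0 | h0
      · refine (Real.rpow_le_rpow (by linarith) c3 h0).trans ?_
        rw [Real.mul_rpow (by norm_num) c1.le]
        refine mul_le_mul_of_nonneg_right ?_ c5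
        exact (Real.rpow_le_rpow_of_exponent_le one_le_two (by linarith)).trans
          (Real.rpow_one 2).le
      · have := Real.rpow_le_rpow_of_nonpos c1 c2 h0
        linarith
    refine mul_le_mul_of_nonneg_right ?_ (by positivity)
    push_cast
    nlinarith [mul_le_mul_of_nonneg_left c4 (Nat.cast_nonneg (α := ℝ) C)]

theorem main2 (μ : MeasureTheory.Measure (ℕ → Bool)) [MeasureTheory.IsProbabilityMeasure μ]
    (hS : SETHr μ) (k : ℕ) (hk : 2 ≤ k) (δ ε : ℝ) (hδ : 0 < δ) (hε : 0 < ε) :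
    ¬ ∃ (P : List (ℕ × ℕ × ℕ × ℕ)) (C : ℕ), ∀ n ≥ C, ∃ w ≤ C * Nat.size n,
      ∀ G : SimpleGraph (Fin n),
        (∃ D : Finset (Fin n), D.card = k ∧ ∀ v, ∃ u ∈ D, u = v ∨ G.Adj u v) →
        2 / 3 ≤ μ {ω | ∃ out, Outputs P w (tape (input G) ω) (C * (n : ℝ) ^ ((k : ℝ) - δ)) out ∧
          (out.length : ℝ) ≤ C * Real.log n ^ (1 - ε) * k ∧
          ∀ v, ∃ u : Fin n, u.val ∈ out ∧ (u = v ∨ G.Adj u v)} := by
  classical
  rintro ⟨P, C, hP⟩
  have hη : 0 < min (min δ 1 / 2) 1 := lt_min (half_pos (lt_min hδ one_pos)) one_pos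
  obtain ⟨ρ, hρ⟩ := exists_nat_ge (4 * k / min (min δ 1 / 2) 1)
  rw [div_le_iff₀ hη] at hρ
  have hρ0 : (0 : ℝ) < ρ := by
    have : (2 : ℝ) ≤ k := by exact_mod_cast hk
    nlinarith
  have hρ2 : 2 ≤ ρ := by
    have h1 : (2 : ℝ) ≤ k := by exact_mod_cast hk
    have h2 : (ρ : ℝ) * min (min δ 1 / 2) 1 ≤ ρ := mul_le_of_le_one_right hρ0.le (min_le_right _ _)
    exact_mod_cast (by linarith : (2 : ℝ) ≤ ρ)
  obtain ⟨K, hK⟩ := hS (1 / ρ) (by positivity)
  obtain ⟨n0, hn0⟩ := eventually_atTop.1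
    ((time_le2 C hk hδ hρ).and (params2 (ρ := ρ) K C hk (by omega) hε))
  let ι := {x : ℕ × List (List ℕ) × (ℕ → Bool) //
    ∀ c ∈ x.2.1, c.length = K ∧ ∀ l ∈ c, l < 2 * x.1}
  have hnn : IsPolyTime (nn n0) := by unfold nn; fun_prop
  have hnn' : PolyBdd (nn n0) := by unfold nn; fun_prop
  have hphi : IsPolyTime (phi K n0) := by unfold phi; fun_prop
  have hsz1 : Bdd (fun x : ι => x.1.1 + x.1.2.1.length) fun x => x.1.1 :=
    (Bdd.refl _).mono fun _ => Nat.le_add_right _ _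
  have hsz2 : Bdd (fun x : ι => x.1.1 + x.1.2.1.length) fun x => x.1.2.1.length :=
    (Bdd.refl _).mono fun _ => Nat.le_add_left _ _
  obtain ⟨P', C', H⟩ := search2 (sz := fun x : ι => x.1.1 + x.1.2.1.length)
    (I := fun x => tape (fun j => (x.1.1 :: x.1.2.1.length :: x.1.2.1.flatten).getD j 0) x.1.2.2) P
    (L := fun x => x.1.1 + (K + 1) * x.1.2.1.length + n0 + 2)
    (len := fun l => l.getD 0 0 + (K + 1) * l.getD 1 0 + n0 + 2)
    (steps := fun l => 2 ^ (nn n0 l - 2 * (nn n0 l / ρ))) (num := fun l => 2 ^ (nn n0 l / ρ))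
    (wd := fun l a => min (adv k (nn n0 l) a 5) (nn n0 l * nn n0 l))
    (gi := fun l a j => gin2 k K (nn n0 l) (phi K n0 l) a j)
    (check := fun l a o => chk k (nn n0 l) (phi K n0 l) a (o.map (· / (nn n0 l + 1 + 1))))
    ((((Bdd.const _ 2).mul (Bdd.refl _)).add (Bdd.const _ 1)).mono fun y =>
      (bsize_nat_le_self _).trans (by
      unfold tape
      split_ifs
      swap
      · exact (Bool.toNat_le _).trans (Nat.le_add_left _ _)
      generalize y.2 / 2 = j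
      beta_reduce
      rcases Nat.lt_or_ge j (y.1.1.1 :: y.1.1.2.1.length :: y.1.1.2.1.flatten).length with h | h
      · rw [List.getD_eq_getElem _ _ h]
        have hm := List.getElem_mem h
        generalize (y.1.1.1 :: y.1.1.2.1.length :: y.1.1.2.1.flatten)[j] = z at hm
        simp only [List.mem_cons, List.mem_flatten] at hm
        rcases hm with rfl | rfl | ⟨c, hc, hz⟩
        · omega
        · omega
        · have := (y.1.2 c hc).2 z hz
          omega
      · rw [List.getD_eq_default _ _ h]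
        omega))
    (((hsz1.add ((Bdd.const _ _).mul hsz2)).add (Bdd.const _ _)).add (Bdd.const _ _))
    (by fun_prop) (fun x => by simp [List.range_succ_eq_map, tape])
    (fun x i hi => by
      rcases i with _ | _ | i
      · omega
      · omega
      · simpa [List.range_succ_eq_map, tape] using hi)
    (by fun_prop) (by fun_prop) (by fun_prop) (by fun_prop)
    (pt_gin2 k K (by fun_prop) (by fun_prop) (by fun_prop) (by fun_prop) (by fun_prop))
    (pt_chk k (by fun_prop) (by fun_prop) (by fun_prop) (by fun_prop) (by fun_prop))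
  refine hK ⟨P', C' + (n0 + 4), fun m φ hφ => ?_⟩
  obtain ⟨inp, hinp⟩ : ∃ inp, inp = (List.range (m + (K + 1) * φ.length + n0 + 2)).map
    fun j => (m :: φ.length :: φ.flatten).getD j 0 := ⟨_, rfl⟩
  choose out o1 o2 using fun ω => H ⟨(m, φ, ω), hφ⟩ inp _ (by simp only [hinp, tape_even])
    (Nat.pow_le_pow_right (by omega) (Nat.le_add_right C' (n0 + 4)))
  have hlen : inp.length = m + (K + 1) * φ.length + n0 + 2 := by simp [hinp]
  obtain ⟨r, hr⟩ := map_getD_range' (m :: φ.length :: φ.flatten)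
    (m := m + (K + 1) * φ.length + n0 + 2) (by
      rw [List.length_cons, List.length_cons, length_flatten_eq φ fun c hc => (hφ c hc).1, add_mul]
      omega)
  rw [← hinp] at hr
  obtain ⟨n, hn⟩ : ∃ n, n = m + n0 := ⟨_, rfl⟩
  have e1 : nn n0 inp = n := by
    rw [nn, hlen, hr, hn]
    exact min_eq_left (by simp only [List.cons_append, List.getD_cons_zero]; omega)
  have e2 : phi K n0 inp = φ.map fun c => (Finset.range (2 * n)).filter (· ∈ c) := by
    have : min (inp.getD 1 0) inp.length = φ.length := by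
      rw [hlen, hr, add_mul]
      exact min_eq_left (by
        simp only [List.cons_append, List.getD_cons_zero, List.getD_cons_succ]; omega)
    rw [phi, this, e1]
    refine List.ext_getElem (by simp) fun i h1 h2 => ?_
    simp only [List.getElem_map, List.getElem_range, hr, List.cons_append, List.drop_succ_cons]
    simp only [drop_take_flatten φ (fun c hc => (hφ c hc).1) r i (by simpa using h2)]
  simp only [e1, e2, mix_tape] at o1 o2
  have o4 : ∀ ω, Outputs P' ((m + φ.length + 2) ^ (C' + (n0 + 4)))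
      (tape (fun j => (m :: φ.length :: φ.flatten).getD j 0) ω)
      ((2 : ℝ) ^ ((1 - 1 / (ρ : ℝ)) * m) * ((m : ℝ) + φ.length + 2) ^ (C' + (n0 + 4))) (out ω) := by
    intro ω
    obtain ⟨t, ht, o3⟩ := o1 ω
    refine ⟨t, ht.trans ?_, o3⟩
    have h1 : 2 * (n / ρ) ≤ n := (Nat.mul_le_mul_right _ hρ2).trans (Nat.mul_div_le _ _)
    have h2 : (2 ^ (n / ρ) + 1) * (2 ^ (n - 2 * (n / ρ)) + 1) + 1 ≤
        2 ^ (n - n / ρ - (n0 + 1)) * (m + φ.length + 2) ^ (n0 + 4) := by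
      have h3 : 1 ≤ 2 ^ (n / ρ) := Nat.one_le_two_pow
      have h4 : 1 ≤ 2 ^ (n - 2 * (n / ρ)) := Nat.one_le_two_pow
      have h5 : 2 ^ (n / ρ) * 2 ^ (n - 2 * (n / ρ)) * 2 ^ 3 ≤
          2 ^ (n - n / ρ - (n0 + 1)) * 2 ^ (n0 + 4) := by
        rw [← pow_add, ← pow_add, ← pow_add]
        exact Nat.pow_le_pow_right two_pos (by omega)
      refine le_trans ?_ (h5.trans (Nat.mul_le_mul_left _ (Nat.pow_le_pow_left (by omega) _)))
      nlinarith
    have h3 : ((n - n / ρ - (n0 + 1) : ℕ) : ℝ) ≤ (1 - 1 / ρ) * m := by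
      have h4 : (1 : ℝ) / ρ ≤ 1 := by
        rw [div_le_one hρ0]; exact_mod_cast (by omega : 1 ≤ ρ)
      rcases Nat.le_total (n - n / ρ) (n0 + 1) with h | h
      · rw [Nat.sub_eq_zero_of_le h, Nat.cast_zero]
        exact mul_nonneg (by linarith) (by positivity)
      · have h5 : (m : ℝ) ≤ ρ * ((n / ρ : ℕ) + 1) := by
          have := Nat.lt_mul_div_succ n (show 0 < ρ by omega)
          exact_mod_cast (by omega : m ≤ ρ * (n / ρ + 1))
        have h6 : 1 / (ρ : ℝ) * m ≤ (n / ρ : ℕ) + 1 := by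
          rw [one_div, inv_mul_le_iff₀ hρ0]; exact h5
        rw [Nat.cast_sub h, Nat.cast_sub (by omega), hn] at *
        push_cast at *
        linarith
    have h4 : ((2 ^ (n - n / ρ - (n0 + 1)) : ℕ) : ℝ) ≤ (2 : ℝ) ^ ((1 - 1 / (ρ : ℝ)) * m) := by
      push_cast
      rw [← Real.rpow_natCast]
      exact Real.rpow_le_rpow_of_exponent_le one_le_two h3
    refine (Nat.cast_le.2 (Nat.mul_le_mul_right _ h2)).trans ?_
    rw [mul_assoc, ← pow_add, add_comm (n0 + 4), Nat.cast_mul]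
    refine (mul_le_mul_of_nonneg_right h4 (by positivity)).trans (le_of_eq ?_)
    push_cast
    rfl
  have o5 : ∀ ω, out ω ≠ [] →
      ∃ x : ℕ → Bool, ∀ c ∈ φ, ∃ l ∈ c, x (l / 2) = decide (l % 2 = 1) := by
    intro ω ho
    obtain ⟨a, -, ha⟩ := (o2 ω).1 ho
    rw [chk, decide_eq_true_iff] at ha
    obtain ⟨τ, -, ha⟩ := ha
    generalize (fun i => List.getD _ (dg _ τ i) 0) = y at ha
    refine ⟨fun v => (y (v / (n / k + 1))).testBit (v % (n / k + 1)), fun c hc => ?_⟩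
    obtain ⟨l, hl, -, h1⟩ := ha _ (List.mem_map_of_mem hc)
    exact ⟨l, (Finset.mem_filter.1 hl).2, h1⟩
  by_cases hsat : ∃ x : ℕ → Bool, ∀ c ∈ φ, ∃ l ∈ c, x (l / 2) = decide (l % 2 = 1)
  swap
  · refine le_trans ?_ (MeasureTheory.measure_mono (s := Set.univ)
      fun ω _ => ⟨out ω, o4 ω, o5 ω, fun h => absurd h hsat⟩)
    rw [MeasureTheory.measure_univ]
    exact ENNReal.div_le_of_le_mul (by norm_num)
  obtain ⟨x, hx⟩ := id hsat
  obtain ⟨t1, t2⟩ := hn0 n (by omega)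
  obtain ⟨p1, p2, p4, s, h, q, D, T, p5, p6, p7, p8, p9, p10, p11, p12, p13, p14, p15, p16,
    p17, p18⟩ := t2 _ rfl
  obtain ⟨w, hw, hG⟩ := hP _ p2
  have hw' : w ≤ n * n := hw.trans p1
  obtain ⟨a, a1, a2, a3, a4⟩ := core2 hk rfl p4 hw' p6 p7 p8 p9 p10 p11 p12 p13 p14 p15 p16
    p17 p18 (φ.map fun c => (Finset.range (2 * n)).filter (· ∈ c)) x (by
      simp only [List.mem_map]
      rintro _ ⟨c, hc, rfl⟩
      refine ⟨?_, Finset.filter_subset _ _, ?_⟩
      · exact (Finset.card_le_card fun l hl => List.mem_toFinset.2 (Finset.mem_filter.1 hl).2).trans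
          ((List.toFinset_card_le c).trans (hφ c hc).1.le)
      · obtain ⟨l, hl, h1⟩ := hx c hc
        have := (hφ c hc).2 l hl
        exact ⟨l, Finset.mem_filter.2 ⟨Finset.mem_range.2 (by omega), hl⟩, h1⟩)
  refine (hG _ a3).trans (MeasureTheory.measure_mono ?_)
  rintro ω ⟨o, q1, q2, q3⟩
  have q4 : o.length ≤ h := by exact_mod_cast q2.trans p5
  refine ⟨out ω, o4 ω, o5 ω, fun _ => (o2 ω).2 ⟨a, a1, ?_⟩⟩
  rw [gin2_eq] at q1
  rw [a2, min_eq_left hw', run_of_outputs q1 t1, List.take_of_length_le (by omega)]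
  exact a4 o q4 q3

end Pool.Agent.Lib.MP_9ec118_lc
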