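import Mathlib
import Pool.Agent.Lib.MP_9ec118_lc.Main2
import Pool.Agent.Lib.MP_9ec118_lc.Pack

/-!
The choice of parameters for the packed construction.
-/

set_option autoImplicit false

namespace Pool.Agent.Lib.MP_9ec118_lc

open Filter

theorem exists_const (K ρ : ℕ) : ∃ s β : ℕ, 2 ≤ s ∧ 0 < β ∧
    2 * (s ^ (2 * 5 ^ K) * s) + 2 ≤ 2 ^ β ∧ β * (4 * ρ * (K ^ 2 + 1)) ≤ s ∧ K ^ 2 + 1 ≤ s := by
  obtain ⟨a, ha⟩ : ∃ a, a = 2 * 5 ^ K + 1 := ⟨_, rfl⟩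
  obtain ⟨c, hc⟩ : ∃ c, c = (4 * ρ + 1) * (K ^ 2 + 1) := ⟨_, rfl⟩
  have hc0 : 0 < c := by rw [hc]; positivity
  obtain ⟨m, hm⟩ : ∃ m, m = (a + 2) * c := ⟨_, rfl⟩
  have hm0 : 0 < m := by rw [hm]; positivity
  have h1 : (4 * m * a + 2) * c ≤ 2 ^ (4 * m) := by
    have h2 : 2 * m ≤ 2 ^ (2 * m) := Nat.lt_two_pow_self.le
    have h3 : 2 ^ (4 * m) = 2 ^ (2 * m) * 2 ^ (2 * m) := by rw [← pow_add]; congr 1; ring
    have h4 : (4 * m * a + 2) * c ≤ 4 * m * (a + 2) * c :=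
      Nat.mul_le_mul_right _ (by rw [mul_add]; omega)
    have h5 : 4 * m * (a + 2) * c = 2 * m * (2 * m) := by rw [mul_assoc, ← hm]; ring
    rw [h3]
    exact h4.trans (h5.le.trans (Nat.mul_le_mul h2 h2))
  refine ⟨2 ^ (4 * m), 4 * m * a + 2, ?_, by omega, ?_, ?_, ?_⟩
  · exact Nat.le_self_pow (by omega) 2
  · rw [← pow_succ, ← ha, ← pow_mul, pow_add]
    have : 1 ≤ 2 ^ (4 * m * a) := Nat.one_le_two_pow
    omega
  · exact (Nat.mul_le_mul_left _ (hc ▸ Nat.mul_le_mul_right _ (Nat.le_succ _))).trans h1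
  · refine le_trans ?_ h1
    rw [hc, ← mul_assoc]
    exact Nat.le_mul_of_pos_left _ (by positivity)

theorem params_nat3 {k ρ K n e s β Z M T κ V h : ℕ} (hk : 2 ≤ k) (hρ : 0 < ρ) (he0 : 0 < e)
    (hn1 : 2 ^ k + 8 ≤ n) (hpow : n ^ (k + 3) < 2 ^ e) (hβ : β * (4 * ρ * (K ^ 2 + 1)) ≤ s)
    (hKs : K ^ 2 + 1 ≤ s) (hM : M = 4 * ρ * k * e) (hMn : M ≤ n) (hV : V ≤ 2 * n)
    (hκ : 4 * ρ * e * (9 + κ) ≤ n) (hT : 2 * M * Z ≤ T * κ) (hT0 : 0 < T) (hh1 : 1 ≤ h)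
    (key : 2 * k ^ 2 * e * T * h ≤ n) :
    ∃ q D : ℕ, D ≤ n ∧ T ≤ n ∧ h ≤ n ∧ κ ≤ n ∧ q.Prime ∧ D < q ∧ V < 2 ^ e ∧ T * V ^ k < q ∧
      q < 2 ^ e ∧ e * (k * h * T + 1) ≤ n / k + 1 ∧ h ^ k * (k * D) + h < q ∧
      n * Z ≤ T * D * κ ∧
      ∀ j, j * s ≤ (K ^ 2 + 1) * n → j ≤ n ∧ e * (k * D + 9 + κ) + β * j ≤ n / ρ := by
  have hM0 : 0 < M := by rw [hM]; positivity
  have hTh : T * h ≤ n := by
    rw [mul_assoc] at key
    exact (Nat.le_mul_of_pos_left _ (by positivity)).trans key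
  have hTn : T ≤ n := (Nat.le_mul_of_pos_right _ hh1).trans hTh
  have hhn : h ≤ n := (Nat.le_mul_of_pos_left _ hT0).trans hTh
  have hD : n / M ≤ n := Nat.div_le_self _ _
  have hMD : M * (n / M) ≤ n := Nat.mul_div_le _ _
  have hD1 : 0 < n / M := Nat.div_pos hMn hM0
  have hMD' : n < M * (n / M + 1) := Nat.lt_mul_div_succ _ hM0
  have hkn : k < 2 ^ k := Nat.lt_two_pow_self
  generalize n / M = D at *
  obtain ⟨q, hq, hq1, hq2⟩ := Nat.exists_prime_lt_and_le_two_mul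
    (h ^ k * (k * D) + h + D + T * V ^ k) (by omega)
  have h4 : n ≤ n ^ k * (n * n) := (Nat.le_mul_self n).trans
    (Nat.le_mul_of_pos_left _ (Nat.pow_pos (by omega)))
  have h5 : n ^ (k + 3) = n ^ k * (n * n) * n := by ring
  have h6 : n ^ k * (n * n) * 8 ≤ n ^ k * (n * n) * n := Nat.mul_le_mul_left _ (by omega)
  refine ⟨q, D, hD, hTn, hhn, ?_, hq, by omega, by omega, by omega, ?_, ?_, by omega, ?_,
    fun j hj => ⟨?_, (Nat.le_div_iff_mul_le hρ).2 ?_⟩⟩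
  · have : 9 + κ ≤ 4 * ρ * e * (9 + κ) := Nat.le_mul_of_pos_left _ (by positivity)
    omega
  · refine hq2.trans_lt (lt_of_le_of_lt ?_ hpow)
    have h3 : h ^ k * (k * D) ≤ n ^ k * (n * n) :=
      Nat.mul_le_mul (Nat.pow_le_pow_left hhn _) (Nat.mul_le_mul (by omega) hD)
    have h7 : T * V ^ k ≤ n ^ k * (n * n) := by
      refine (Nat.mul_le_mul hTn (Nat.pow_le_pow_left hV k)).trans ?_
      rw [mul_pow, show n ^ k * (n * n) = n * (n * n ^ k) by ring]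
      exact Nat.mul_le_mul_left _ (Nat.mul_le_mul_right _ (by omega))
    omega
  · refine le_trans ((Nat.le_div_iff_mul_le (by omega)).2 (le_trans ?_ key)) (Nat.le_succ _)
    have : 1 ≤ k * h * T := Nat.mul_pos (Nat.mul_pos (by omega) hh1) hT0
    have h3 : 2 * k ^ 2 * e * T * h = e * (k * h * T + k * h * T) * k := by ring
    rw [h3]
    exact Nat.mul_le_mul_right _ (Nat.mul_le_mul_left _ (by omega))
  · have h1 : M ≤ M * D := Nat.le_mul_of_pos_right _ hD1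
    rw [mul_add] at hMD'
    have h2 : n * Z ≤ 2 * (M * D) * Z := Nat.mul_le_mul_right _ (by omega)
    have h3 : 2 * (M * D) * Z = 2 * M * Z * D := by ring
    rw [mul_right_comm T]
    exact h2.trans (h3.le.trans (Nat.mul_le_mul_right _ hT))
  · refine Nat.le_of_mul_le_mul_right ?_ (show 0 < K ^ 2 + 1 by positivity)
    rw [mul_comm n]
    exact (Nat.mul_le_mul_left _ hKs).trans hj
  · have h3 : β * (4 * ρ) * j ≤ n := by
      refine Nat.le_of_mul_le_mul_right ?_ (show 0 < K ^ 2 + 1 by positivity)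
      rw [mul_comm n, show β * (4 * ρ) * j * (K ^ 2 + 1) = j * (β * (4 * ρ * (K ^ 2 + 1))) by ring]
      exact (Nat.mul_le_mul_left _ hβ).trans hj
    have h7 : M * D = 4 * (ρ * e * (k * D)) := by rw [hM]; ring
    have h8 : β * (4 * ρ) * j = 4 * (β * j * ρ) := by ring
    have h9 : 4 * ρ * e * (9 + κ) = 4 * (ρ * e * (9 + κ)) := by ring
    have h10 : (e * (k * D + 9 + κ) + β * j) * ρ =
        ρ * e * (k * D) + ρ * e * (9 + κ) + β * j * ρ := by ring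
    omega

theorem size_le_log {n : ℕ} (h2 : 3 ≤ n) : (n.size : ℝ) ≤ 3 * Real.log n := by
  have h3 : (3 : ℝ) ≤ n := by exact_mod_cast h2
  have h4 : 1 ≤ Real.log n := by
    rw [Real.le_log_iff_exp_le (by linarith)]
    linarith [Real.exp_one_lt_d9]
  have h6 : 2 ^ (n.size - 1) ≤ n :=
    Nat.lt_size.1 (by have := Nat.size_pos.2 (show 0 < n by omega); omega)
  have h7 : ((n.size - 1 : ℕ) : ℝ) * Real.log 2 ≤ Real.log n := by
    rw [← Real.log_pow]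
    exact Real.log_le_log (by positivity) (by exact_mod_cast h6)
  have h8 : (n.size : ℝ) ≤ (n.size - 1 : ℕ) + 1 := by exact_mod_cast (by omega)
  have h9 : (0 : ℝ) ≤ (n.size - 1 : ℕ) := by positivity
  nlinarith [Real.log_two_gt_d9]

theorem NN_lt {k : ℕ} (hk : 2 ≤ k) : ∀ᶠ n : ℕ in atTop, NN k n < 2 ^ (2 * n) := by
  filter_upwards [params 0 0 hk one_pos one_pos, factor_le 1 hk one_pos] with n a1 a2
  have p1 := (a1 _ _ rfl rfl).1
  rw [pow_one, Real.rpow_one, Nat.cast_le] at a2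
  refine ((NN_le k n).trans (Nat.mul_le_mul_right _ a2)).trans_lt ?_
  rw [two_mul, pow_add 2 n n]
  exact Nat.mul_lt_mul'' p1 p1

theorem loglog_ge {k n : ℕ} (hk : 2 ≤ k) (hn : 4 * k ^ 2 ≤ n) :
    (n.size : ℝ) ≤ 6 * Real.log (Real.log (NN k n)) := by
  have hk' : (2 : ℝ) ≤ k := by exact_mod_cast hk
  have hn' : 4 * (k : ℝ) ^ 2 ≤ n := by exact_mod_cast hn
  have h1 : (2 : ℝ) ^ (n / k + 1) ≤ NN k n := by
    exact_mod_cast (Nat.le_mul_of_pos_left _ (Nat.succ_pos k)).trans (le_NN k n)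
  have h2 : ((n / k + 1 : ℕ) : ℝ) * Real.log 2 ≤ Real.log (NN k n) := by
    rw [← Real.log_pow]
    exact Real.log_le_log (by positivity) h1
  have h3 : (n : ℝ) ≤ k * ((n / k + 1 : ℕ) : ℝ) := by
    exact_mod_cast (Nat.lt_mul_div_succ n (show 0 < k by omega)).le
  have h4 : (0 : ℝ) ≤ ((n / k + 1 : ℕ) : ℝ) := by positivity
  have h5 : (n : ℝ) ≤ 2 * k * Real.log (NN k n) := by
    have : ((n / k + 1 : ℕ) : ℝ) ≤ 2 * Real.log (NN k n) := by nlinarith [Real.log_two_gt_d9]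
    nlinarith
  have hn0 : (0 : ℝ) < n := by nlinarith
  have h6 : (n : ℝ) ≤ Real.log (NN k n) ^ 2 := by
    have h7 : (n : ℝ) ^ 2 ≤ (2 * k * Real.log (NN k n)) ^ 2 := pow_le_pow_left₀ hn0.le h5 2
    have h8 : (2 * k * Real.log (NN k n)) ^ 2 ≤ n * Real.log (NN k n) ^ 2 := by
      rw [mul_pow]
      exact mul_le_mul_of_nonneg_right (by nlinarith) (by positivity)
    exact le_of_mul_le_mul_left (by nlinarith) hn0
  have h7 := Real.log_le_log hn0 h6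
  rw [Real.log_pow] at h7
  have h8 := size_le_log (show 3 ≤ n by nlinarith)
  push_cast at h7
  linarith

theorem logstar_le {n N : ℕ} (hn : 0 < n) (hN : N < 2 ^ (2 * n)) :
    sInf {j : ℕ | (Nat.log 2)^[j] N ≤ 1} ≤ Nat.log 2 n.size + 3 := by
  refine Nat.sInf_le ?_
  have h1 : Nat.log 2 N ≤ 2 * n := by
    rcases Nat.eq_zero_or_pos N with rfl | h
    · simp
    · exact (Nat.log_lt_of_lt_pow h.ne' hN).le
  have h2 : Nat.log 2 (Nat.log 2 N) ≤ n.size := by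
    refine (Nat.log_mono_right h1).trans (Nat.lt_succ_iff.1 (Nat.log_lt_of_lt_pow (by omega) ?_))
    have := Nat.lt_size_self n
    rw [pow_succ]
    omega
  rw [Set.mem_ofPred_eq, Function.iterate_add_apply]
  exact (iter_log_mono _ (Nat.log_mono_right h2)).trans (iter_log_le _ _ (Nat.le_succ _))

theorem params3 {k ρ : ℕ} (K : ℕ) (hk : 2 ≤ k) (hρ : 0 < ρ) : ∃ A : ℕ, 0 < A ∧
    ∀ᶠ n : ℕ in atTop, ∀ e, e = (k + 3) * n.size → ∃ (s β h q D T κ V : ℕ) (lam : ℕ → ℕ),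
      Real.log (NN k n) / (Real.log (Real.log (NN k n)) *
        A ^ sInf {j : ℕ | (Nat.log 2)^[j] (NN k n) ≤ 1}) * k ≤ h ∧
      2 ≤ s ∧ s ≤ n ∧ 2 * (s ^ (2 * 5 ^ K) * s) + 2 ≤ 2 ^ β ∧ 2 ^ β ≤ n ∧ Good k T κ lam ∧
      ∑ τ ∈ Finset.range κ, lam τ ≤ V ∧
      D ≤ n ∧ T ≤ n ∧ h ≤ n ∧ κ ≤ n ∧ q.Prime ∧ D < q ∧ V < 2 ^ e ∧ T * V ^ k < q ∧
      q < 2 ^ e ∧ e * (k * h * T + 1) ≤ n / k + 1 ∧ h ^ k * (k * D) + h < q ∧
      n * s ^ (2 * 5 ^ K) ≤ T * D * κ ∧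
      ∀ j, j * s ≤ (K ^ 2 + 1) * n → j ≤ n ∧ e * (k * D + 9 + κ) + β * j ≤ n / ρ := by
  obtain ⟨s, β, s1, s2, s3, s4, s5⟩ := exists_const K ρ
  obtain ⟨Z, hZ⟩ : ∃ Z, Z = s ^ (2 * 5 ^ K) := ⟨_, rfl⟩
  have hZ0 : 0 < Z := by rw [hZ]; positivity
  obtain ⟨B, hB⟩ : ∃ B, B = 6 * k + 18 := ⟨_, rfl⟩
  have hB0 : 0 < B := by omega
  obtain ⟨c, hc⟩ : ∃ c, c = 8 * ρ * k * (k + 3) * Z := ⟨_, rfl⟩
  have hc0 : 0 < c := by rw [hc]; positivity
  obtain ⟨c₁, hc₁⟩ : ∃ c₁, c₁ = 192 * k ^ 3 * (k + 3) * c ^ 2 := ⟨_, rfl⟩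
  have hc1 : 0 < c₁ := by rw [hc₁]; positivity
  refine ⟨c₁ * B ^ 2, by positivity, ?_⟩
  filter_upwards [size_pow_le (8 * k ^ 2 * (k + 3) * c ^ 2 * B ^ 6) (2 * B + 1) one_pos,
    size_pow_le (44 * ρ * k * (k + 3)) 2 one_pos, NN_lt hk,
    eventually_ge_atTop (2 ^ k + 8 + 4 * k ^ 2 + s + 2 ^ β)] with n a1 a2 a3 a4 e he
  rw [Real.rpow_one, ← Nat.cast_pow, ← Nat.cast_mul, Nat.cast_le] at a1 a2
  have p1 : 0 < 2 ^ k := by positivity
  have p2 : 0 < 2 ^ β := by positivity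
  have hn0 : 0 < n := by omega
  have hL : 0 < n.size := Nat.size_pos.2 hn0
  have he0 : 0 < e := by rw [he]; positivity
  have hpow : n ^ (k + 3) < 2 ^ e := by
    rw [he, mul_comm, pow_mul]
    exact Nat.pow_lt_pow_left (Nat.lt_size_self n) (by omega)
  have hN1 : n.size ≤ NN k n := by
    have h1 : n.size ≤ n := Nat.size_le.2 Nat.lt_two_pow_self
    have h2 : n + 1 ≤ 2 ^ (n / k + 1) * (n + 1) := Nat.le_mul_of_pos_left _ (by positivity)
    unfold NN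
    omega
  have hN2 : 2 ≤ NN k n := by
    have h2 : n + 1 ≤ 2 ^ (n / k + 1) * (n + 1) := Nat.le_mul_of_pos_left _ (by positivity)
    unfold NN
    omega
  have j1 := Nat.sInf_mem (s := {j : ℕ | (Nat.log 2)^[j] (NN k n) ≤ 1})
    ⟨NN k n, iter_log_le _ _ (Nat.le_succ _)⟩
  have j2 := logstar_le hn0 a3
  generalize sInf {j : ℕ | (Nat.log 2)^[j] (NN k n) ≤ 1} = j at j1 j2
  rw [Set.mem_ofPred_eq] at j1
  have j3 : j ≠ 0 := by
    rintro rfl
    simp only [Function.iterate_zero, id] at j1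
    omega
  have j4 : B ^ j ≤ B ^ 3 * n.size ^ B := by
    refine (Nat.pow_le_pow_right hB0 j2).trans ?_
    rw [pow_add, mul_comm]
    refine Nat.mul_le_mul_left _ ((Nat.pow_le_pow_left Nat.lt_two_pow_self.le _).trans ?_)
    rw [← pow_mul, mul_comm, pow_mul]
    exact Nat.pow_le_pow_left (Nat.pow_log_le_self 2 hL.ne') _
  obtain ⟨a, ha⟩ : ∃ a, a = c * B ^ j := ⟨_, rfl⟩
  have ha0 : 0 < a := by rw [ha]; positivity
  obtain ⟨T, hT⟩ : ∃ T, T = 4 * a ^ 2 := ⟨_, rfl⟩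
  have hT0 : 0 < T := by rw [hT]; positivity
  have hT1 : T.size ≤ 4 * a := by
    rw [Nat.size_le, hT, show 4 * a ^ 2 = (2 * a) ^ 2 by ring, show 4 * a = 2 * a * 2 by ring,
      pow_mul]
    exact Nat.pow_lt_pow_left Nat.lt_two_pow_self two_ne_zero
  obtain ⟨κ, lam, k1, k2, k3, k4, k5⟩ := pack (show 0 < k by omega) hT0 j n.size
    ((iter_log_mono j hN1).trans j1)
  rw [← hB] at k5
  have hR : 2 * k ^ 2 * e * T ≤ n := by
    refine le_trans ?_ a1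
    have h1 : T ≤ 4 * (c * (B ^ 3 * n.size ^ B)) ^ 2 := by
      rw [hT, ha]
      exact Nat.mul_le_mul_left _ (Nat.pow_le_pow_left (Nat.mul_le_mul_left _ j4) 2)
    refine (Nat.mul_le_mul_left _ h1).trans (le_of_eq ?_)
    rw [he]
    ring
  have hR0 : 0 < 2 * k ^ 2 * e * T := by positivity
  have h1 := Nat.div_pos hR hR0
  have h2 := Nat.mul_div_le n (2 * k ^ 2 * e * T)
  have h3 := Nat.lt_mul_div_succ n hR0
  generalize n / (2 * k ^ 2 * e * T) = h at h1 h2 h3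
  have b1 : n.size ≤ n.size ^ 2 := Nat.le_self_pow two_ne_zero _
  obtain ⟨q, D, H⟩ := params_nat3 (Z := Z) (V := 2 ^ n.size) (κ := κ) hk hρ he0 (by omega) hpow
    s4 s5 rfl (by
      refine le_trans ?_ a2
      rw [he, ← mul_assoc]
      exact Nat.mul_le_mul (Nat.mul_le_mul_right _ (Nat.mul_le_mul_right _
        (Nat.mul_le_mul_right _ (by norm_num)))) b1) (by
      have : 2 ^ (n.size - 1) ≤ n := Nat.lt_size.1 (by omega)
      rw [show n.size = n.size - 1 + 1 by omega, pow_succ]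
      omega) (by
      refine le_trans ?_ a2
      have h4 : 4 * ρ * e * (9 + κ) ≤ 4 * ρ * e * (11 * n.size * k) :=
        Nat.mul_le_mul_left _ ((show 9 + κ ≤ 11 * n.size by omega).trans
          (Nat.le_mul_of_pos_right _ (by omega)))
      refine h4.trans (le_of_eq ?_)
      rw [he]
      ring) (by
      have h4 : 2 * (4 * ρ * k * e) * Z = c * n.size := by rw [he, hc]; ring
      have h5 : c * (κ * (B ^ j * T.size)) = a * T.size * κ := by rw [ha]; ring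
      have h6 : a * T.size ≤ T := (Nat.mul_le_mul_left _ hT1).trans (by rw [hT]; exact le_of_eq (by ring))
      rw [h4]
      exact (Nat.mul_le_mul_left _ k5).trans (h5.le.trans (Nat.mul_le_mul_right _ h6))) hT0 h1 h2
  refine ⟨s, β, h, q, D, T, κ, _, lam, ?_, s1, by omega, s3, by omega, k3, k4, hZ ▸ H⟩
  have c1 : Real.log (NN k n) ≤ 2 * n := by
    refine (Real.log_le_log (by exact_mod_cast (by omega : 0 < NN k n))
      (show (NN k n : ℝ) ≤ 2 ^ (2 * n) by exact_mod_cast a3.le)).trans ?_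
    rw [Real.log_pow]
    push_cast
    exact mul_le_of_le_one_right (by positivity) (by linarith [Real.log_two_lt_d9])
  have c2 := loglog_ge hk (show 4 * k ^ 2 ≤ n by omega)
  have c3 : 24 * k * n ≤ 2 * (h * (n.size * (c₁ * B ^ 2) ^ j)) := by
    have d1 : n ≤ 2 * (2 * k ^ 2 * e * T * h) := by
      have : 2 * k ^ 2 * e * T ≤ 2 * k ^ 2 * e * T * h := Nat.le_mul_of_pos_right _ h1
      rw [mul_add, mul_one] at h3
      omega
    have d2 : c₁ * (B ^ j) ^ 2 ≤ (c₁ * B ^ 2) ^ j := by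
      rw [mul_pow, ← pow_mul, ← pow_mul, mul_comm j]
      exact Nat.mul_le_mul_right _ (Nat.le_self_pow j3 _)
    refine (Nat.mul_le_mul_left _ d1).trans (le_trans (le_of_eq ?_) (Nat.mul_le_mul_left _
      (Nat.mul_le_mul_left _ (Nat.mul_le_mul_left _ d2))))
    rw [he, hT, ha, hc₁]
    ring
  have c4 : (24 : ℝ) * k * n ≤ 2 * (h * (n.size * ((c₁ * B ^ 2 : ℕ) : ℝ) ^ j)) := by
    exact_mod_cast c3
  have c5 : (0 : ℝ) < ((c₁ * B ^ 2 : ℕ) : ℝ) ^ j := by positivity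
  have c6 : (0 : ℝ) < n.size := by exact_mod_cast hL
  generalize ((c₁ * B ^ 2 : ℕ) : ℝ) ^ j = X at *
  rw [div_mul_eq_mul_div, div_le_iff₀ (mul_pos (by linarith) c5)]
  have c7 : (h : ℝ) * (n.size * X) ≤ h * (6 * Real.log (Real.log (NN k n)) * X) :=
    mul_le_mul_of_nonneg_left (mul_le_mul_of_nonneg_right c2 c5.le) (by positivity)
  have c8 : Real.log (NN k n) * k ≤ 2 * n * k := mul_le_mul_of_nonneg_right c1 (by positivity)
  nlinarith

end Pool.Agent.Lib.MP_9ec118_lc
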