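import Mathlib
import Pool.Agent.Lib.MP_9ec118_lc.Core3
import Pool.Agent.Lib.MP_9ec118_lc.Params3

/-!
The reduction from k-SAT to approximate k-Dominating Set with the packed construction.
-/

set_option autoImplicit false

namespace Pool.Agent.Lib.MP_9ec118_lc

open Function Pool.Agent.Shared.PolyTime N487b59b3 N68a2faeb Filter

theorem main3 (μ : MeasureTheory.Measure (ℕ → Bool)) [MeasureTheory.IsProbabilityMeasure μ]
    (hS : SETHr μ) (k : ℕ) (hk : 2 ≤ k) (δ : ℝ) (hδ : 0 < δ) :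
    ∃ A : ℕ, 0 < A ∧ ¬ ∃ (P : List (ℕ × ℕ × ℕ × ℕ)) (C : ℕ), ∀ n ≥ C, ∃ w ≤ C * Nat.size n,
      ∀ G : SimpleGraph (Fin n),
        (∃ D : Finset (Fin n), D.card = k ∧ ∀ v, ∃ u ∈ D, u = v ∨ G.Adj u v) →
        2 / 3 ≤ μ {ω | ∃ out, Outputs P w (tape (input G) ω) (C * (n : ℝ) ^ ((k : ℝ) - δ)) out ∧
          (out.length : ℝ) ≤ Real.log n / (Real.log (Real.log n) *
            A ^ sInf {j : ℕ | (Nat.log 2)^[j] n ≤ 1}) * k ∧
          ∀ v, ∃ u : Fin n, u.val ∈ out ∧ (u = v ∨ G.Adj u v)} := by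
  classical
  have hη : 0 < min (min δ 1 / 2) 1 := lt_min (half_pos (lt_min hδ one_pos)) one_pos
  obtain ⟨ρ, hρ⟩ := exists_nat_ge (4 * k / min (min δ 1 / 2) 1)
  rw [div_le_iff₀ hη] at hρ
  have hρ0 : (0 : ℝ) < ρ := by
    have : (2 : ℝ) ≤ k := by exact_mod_cast hk
    nlinarith
  have hρ2 : 2 ≤ ρ := by
    have h1 : (2 : ℝ) ≤ k := by exact_mod_cast hk
    have h2 : (ρ : ℝ) * min (min δ 1 / 2) 1 ≤ ρ := mul_le_of_le_one_right hρ0.le (min_le_right _ _)
    exact_mod_cast (by linarith : (2 : ℝ) ≤ ρ)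
  obtain ⟨K, hK⟩ := hS (1 / ρ) (by positivity)
  obtain ⟨A, hA, hA'⟩ := params3 (ρ := ρ) K hk (by omega)
  refine ⟨A, hA, ?_⟩
  rintro ⟨P, C, hP⟩
  obtain ⟨n0, hn0⟩ := eventually_atTop.1 ((time_le2 C hk hδ hρ).and
    ((params2 (ρ := ρ) K C hk (by omega) one_pos).and hA'))
  let ι := {x : ℕ × List (List ℕ) × (ℕ → Bool) //
    ∀ c ∈ x.2.1, c.length = K ∧ ∀ l ∈ c, l < 2 * x.1}
  have hnn : IsPolyTime (nn n0) := by unfold nn; fun_prop
  have hnn' : PolyBdd (nn n0) := by unfold nn; fun_prop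
  have hphi : IsPolyTime (phi K n0) := by unfold phi; fun_prop
  have hsz1 : Bdd (fun x : ι => x.1.1 + x.1.2.1.length) fun x => x.1.1 :=
    (Bdd.refl _).mono fun _ => Nat.le_add_right _ _
  have hsz2 : Bdd (fun x : ι => x.1.1 + x.1.2.1.length) fun x => x.1.2.1.length :=
    (Bdd.refl _).mono fun _ => Nat.le_add_left _ _
  obtain ⟨P', C', H⟩ := search2 (sz := fun x : ι => x.1.1 + x.1.2.1.length)
    (I := fun x => tape (fun j => (x.1.1 :: x.1.2.1.length :: x.1.2.1.flatten).getD j 0) x.1.2.2) P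
    (L := fun x => x.1.1 + (K + 1) * x.1.2.1.length + n0 + 2)
    (len := fun l => l.getD 0 0 + (K + 1) * l.getD 1 0 + n0 + 2)
    (steps := fun l => 2 ^ (nn n0 l - 2 * (nn n0 l / ρ))) (num := fun l => 2 ^ (nn n0 l / ρ))
    (wd := fun l a => min (adv k (nn n0 l) a 5) (nn n0 l * nn n0 l))
    (gi := fun l a j => gin3 k K (nn n0 l) (phi K n0 l) a j)
    (check := fun l a o => chk k (nn n0 l) (phi K n0 l) a (o.map (· / (nn n0 l + 1 + 1))))
    ((((Bdd.const _ 2).mul (Bdd.refl _)).add (Bdd.const _ 1)).mono fun y =>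
      (bsize_nat_le_self _).trans (by
      unfold tape
      split_ifs
      swap
      · exact (Bool.toNat_le _).trans (Nat.le_add_left _ _)
      generalize y.2 / 2 = j
      beta_reduce
      rcases Nat.lt_or_ge j (y.1.1.1 :: y.1.1.2.1.length :: y.1.1.2.1.flatten).length with h | h
      · rw [List.getD_eq_getElem _ _ h]
        have hm := List.getElem_mem h
        generalize (y.1.1.1 :: y.1.1.2.1.length :: y.1.1.2.1.flatten)[j] = z at hm
        simp only [List.mem_cons, List.mem_flatten] at hm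
        rcases hm with rfl | rfl | ⟨c, hc, hz⟩
        · omega
        · omega
        · have := (y.1.2 c hc).2 z hz
          omega
      · rw [List.getD_eq_default _ _ h]
        omega))
    (((hsz1.add ((Bdd.const _ _).mul hsz2)).add (Bdd.const _ _)).add (Bdd.const _ _))
    (by fun_prop) (fun x => by simp [List.range_succ_eq_map, tape])
    (fun x i hi => by
      rcases i with _ | _ | i
      · omega
      · omega
      · simpa [List.range_succ_eq_map, tape] using hi)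
    (by fun_prop) (by fun_prop) (by fun_prop) (by fun_prop)
    (pt_gin3 k K (by fun_prop) (by fun_prop) (by fun_prop) (by fun_prop) (by fun_prop))
    (pt_chk k (by fun_prop) (by fun_prop) (by fun_prop) (by fun_prop) (by fun_prop))
  refine hK ⟨P', C' + (n0 + 4), fun m φ hφ => ?_⟩
  obtain ⟨inp, hinp⟩ : ∃ inp, inp = (List.range (m + (K + 1) * φ.length + n0 + 2)).map
    fun j => (m :: φ.length :: φ.flatten).getD j 0 := ⟨_, rfl⟩
  choose out o1 o2 using fun ω => H ⟨(m, φ, ω), hφ⟩ inp _ (by simp only [hinp, tape_even])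
    (Nat.pow_le_pow_right (by omega) (Nat.le_add_right C' (n0 + 4)))
  have hlen : inp.length = m + (K + 1) * φ.length + n0 + 2 := by simp [hinp]
  obtain ⟨r, hr⟩ := map_getD_range' (m :: φ.length :: φ.flatten)
    (m := m + (K + 1) * φ.length + n0 + 2) (by
      rw [List.length_cons, List.length_cons, length_flatten_eq φ fun c hc => (hφ c hc).1, add_mul]
      omega)
  rw [← hinp] at hr
  obtain ⟨n, hn⟩ : ∃ n, n = m + n0 := ⟨_, rfl⟩
  have e1 : nn n0 inp = n := by
    rw [nn, hlen, hr, hn]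
    exact min_eq_left (by simp only [List.cons_append, List.getD_cons_zero]; omega)
  have e2 : phi K n0 inp = φ.map fun c => (Finset.range (2 * n)).filter (· ∈ c) := by
    have : min (inp.getD 1 0) inp.length = φ.length := by
      rw [hlen, hr, add_mul]
      exact min_eq_left (by
        simp only [List.cons_append, List.getD_cons_zero, List.getD_cons_succ]; omega)
    rw [phi, this, e1]
    refine List.ext_getElem (by simp) fun i h1 h2 => ?_
    simp only [List.getElem_map, List.getElem_range, hr, List.cons_append, List.drop_succ_cons]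
    simp only [drop_take_flatten φ (fun c hc => (hφ c hc).1) r i (by simpa using h2)]
  simp only [e1, e2, mix_tape] at o1 o2
  have o4 : ∀ ω, Outputs P' ((m + φ.length + 2) ^ (C' + (n0 + 4)))
      (tape (fun j => (m :: φ.length :: φ.flatten).getD j 0) ω)
      ((2 : ℝ) ^ ((1 - 1 / (ρ : ℝ)) * m) * ((m : ℝ) + φ.length + 2) ^ (C' + (n0 + 4))) (out ω) := by
    intro ω
    obtain ⟨t, ht, o3⟩ := o1 ω
    refine ⟨t, ht.trans ?_, o3⟩
    have h1 : 2 * (n / ρ) ≤ n := (Nat.mul_le_mul_right _ hρ2).trans (Nat.mul_div_le _ _)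
    have h2 : (2 ^ (n / ρ) + 1) * (2 ^ (n - 2 * (n / ρ)) + 1) + 1 ≤
        2 ^ (n - n / ρ - (n0 + 1)) * (m + φ.length + 2) ^ (n0 + 4) := by
      have h3 : 1 ≤ 2 ^ (n / ρ) := Nat.one_le_two_pow
      have h4 : 1 ≤ 2 ^ (n - 2 * (n / ρ)) := Nat.one_le_two_pow
      have h5 : 2 ^ (n / ρ) * 2 ^ (n - 2 * (n / ρ)) * 2 ^ 3 ≤
          2 ^ (n - n / ρ - (n0 + 1)) * 2 ^ (n0 + 4) := by
        rw [← pow_add, ← pow_add, ← pow_add]
        exact Nat.pow_le_pow_right two_pos (by omega)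
      refine le_trans ?_ (h5.trans (Nat.mul_le_mul_left _ (Nat.pow_le_pow_left (by omega) _)))
      nlinarith
    have h3 : ((n - n / ρ - (n0 + 1) : ℕ) : ℝ) ≤ (1 - 1 / ρ) * m := by
      have h4 : (1 : ℝ) / ρ ≤ 1 := by
        rw [div_le_one hρ0]; exact_mod_cast (by omega : 1 ≤ ρ)
      rcases Nat.le_total (n - n / ρ) (n0 + 1) with h | h
      · rw [Nat.sub_eq_zero_of_le h, Nat.cast_zero]
        exact mul_nonneg (by linarith) (by positivity)
      · have h5 : (m : ℝ) ≤ ρ * ((n / ρ : ℕ) + 1) := by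
          have := Nat.lt_mul_div_succ n (show 0 < ρ by omega)
          exact_mod_cast (by omega : m ≤ ρ * (n / ρ + 1))
        have h6 : 1 / (ρ : ℝ) * m ≤ (n / ρ : ℕ) + 1 := by
          rw [one_div, inv_mul_le_iff₀ hρ0]; exact h5
        rw [Nat.cast_sub h, Nat.cast_sub (by omega), hn] at *
        push_cast at *
        linarith
    have h4 : ((2 ^ (n - n / ρ - (n0 + 1)) : ℕ) : ℝ) ≤ (2 : ℝ) ^ ((1 - 1 / (ρ : ℝ)) * m) := by
      push_cast
      rw [← Real.rpow_natCast]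
      exact Real.rpow_le_rpow_of_exponent_le one_le_two h3
    refine (Nat.cast_le.2 (Nat.mul_le_mul_right _ h2)).trans ?_
    rw [mul_assoc, ← pow_add, add_comm (n0 + 4), Nat.cast_mul]
    refine (mul_le_mul_of_nonneg_right h4 (by positivity)).trans (le_of_eq ?_)
    push_cast
    rfl
  have o5 : ∀ ω, out ω ≠ [] →
      ∃ x : ℕ → Bool, ∀ c ∈ φ, ∃ l ∈ c, x (l / 2) = decide (l % 2 = 1) := by
    intro ω ho
    obtain ⟨a, -, ha⟩ := (o2 ω).1 ho
    rw [chk, decide_eq_true_iff] at ha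
    obtain ⟨τ, -, ha⟩ := ha
    generalize (fun i => List.getD _ (dg _ τ i) 0) = y at ha
    refine ⟨fun v => (y (v / (n / k + 1))).testBit (v % (n / k + 1)), fun c hc => ?_⟩
    obtain ⟨l, hl, -, h1⟩ := ha _ (List.mem_map_of_mem hc)
    exact ⟨l, (Finset.mem_filter.1 hl).2, h1⟩
  by_cases hsat : ∃ x : ℕ → Bool, ∀ c ∈ φ, ∃ l ∈ c, x (l / 2) = decide (l % 2 = 1)
  swap
  · refine le_trans ?_ (MeasureTheory.measure_mono (s := Set.univ)
      fun ω _ => ⟨out ω, o4 ω, o5 ω, fun h => absurd h hsat⟩)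
    rw [MeasureTheory.measure_univ]
    exact ENNReal.div_le_of_le_mul (by norm_num)
  obtain ⟨x, hx⟩ := id hsat
  obtain ⟨t1, t2, t3⟩ := hn0 n (by omega)
  obtain ⟨p1, p2, p4, -⟩ := t2 _ rfl
  obtain ⟨s, β, h, q, D, T, κ, V, lam, p5, p6, p7, r1, r2, r3, r4, p8, p9, p10, r5, p11, p12, r6,
    p13, p14, p15, p16, p17, p18⟩ := t3 _ rfl
  obtain ⟨w, hw, hG⟩ := hP _ p2
  have hw' : w ≤ n * n := hw.trans p1
  obtain ⟨a, a1, a2, -, a3, a4⟩ := core3 hk rfl p4 hw' p6 p7 r1 r2 p8 p9 p10 r5 p11 p12 r3 r4 r6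
    p13 p14 p15 p16 p17 p18 (φ.map fun c => (Finset.range (2 * n)).filter (· ∈ c)) x (by
      simp only [List.mem_map]
      rintro _ ⟨c, hc, rfl⟩
      refine ⟨?_, Finset.filter_subset _ _, ?_⟩
      · exact (Finset.card_le_card fun l hl => List.mem_toFinset.2 (Finset.mem_filter.1 hl).2).trans
          ((List.toFinset_card_le c).trans (hφ c hc).1.le)
      · obtain ⟨l, hl, h1⟩ := hx c hc
        have := (hφ c hc).2 l hl
        exact ⟨l, Finset.mem_filter.2 ⟨Finset.mem_range.2 (by omega), hl⟩, h1⟩)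
  refine (hG _ a3).trans (MeasureTheory.measure_mono ?_)
  rintro ω ⟨o, q1, q2, q3⟩
  have q4 : o.length ≤ h := by exact_mod_cast q2.trans p5
  refine ⟨out ω, o4 ω, o5 ω, fun _ => (o2 ω).2 ⟨a, a1, ?_⟩⟩
  rw [gin3_eq] at q1
  rw [a2, min_eq_left hw', run_of_outputs q1 t1, List.take_of_length_le (by omega)]
  exact a4 o q4 q3

end Pool.Agent.Lib.MP_9ec118_lc
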